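import Pool.Agent.H5.TD.Shift

/-!
# JOB TD-05. Averages over an interval of length `A + B` (pure)

`f` is continuous (`lip`), so all integrals exist (`Continuous.intervalIntegrable`). `VV δ f s = (∫ u in s..s+δ, f u)/δ`.
`VV_bd`: `|∫| ≤ M δ` (`intervalIntegral.norm_integral_le_of_norm_le_const`).
`VV_slow`: `V(s+t) - V(s) = (1/δ) ∫ u in s..s+t, (f (u+δ) - f u)` (`intervalIntegral.integral_comp_add_right`, interval additivity), and `shiftD`.
`VV_harm`: `V s - EE o (fun j => V (s + A o - δ j)) = (1/δ) ∫ v in 0..δ, (f (s+v) - EE o (fun j => f (s + v + A o - δ j)))` (finite sum), and `harm'` (`s + v ≥ 40 o`).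
-/

set_option autoImplicit false

namespace Pool.Agent.H5.TD

open Pool.Agent.H49.AB Finset MeasureTheory

variable {p q A B M C : ℝ} {o0 : ℕ}

private theorem avg_cont {f : ℝ → ℝ} (h : HF p q A B M C o0 f) : Continuous f := by
  have hC : 0 ≤ C := by
    have h1 := h.lip 1 0
    rw [sub_zero, abs_one, mul_one] at h1
    exact (abs_nonneg _).trans h1
  have h2 : LipschitzWith ⟨C, hC⟩ f := by
    refine LipschitzWith.of_dist_le_mul fun x y => ?_
    rw [Real.dist_eq, Real.dist_eq]
    exact h.lip x y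
  exact h2.continuous

private theorem avg_eq (f : ℝ → ℝ) (δ s : ℝ) : VV δ f s = (∫ v in (0 : ℝ)..δ, f (s + v)) / δ := by
  have h1 : (∫ v in (0 : ℝ)..δ, f (s + v)) = ∫ u in s..(s + δ), f u := by
    rw [intervalIntegral.integral_comp_add_left (fun u => f u) s, add_zero]
  rw [VV, h1]

theorem VV_bd {f : ℝ → ℝ} {δ : ℝ} (hδ : 0 < δ) (h : ∀ s, |f s| ≤ M) (s : ℝ) :
    |VV δ f s| ≤ M := by
  have h1 : ‖∫ u in s..(s + δ), f u‖ ≤ M * |s + δ - s| :=
    intervalIntegral.norm_integral_le_of_norm_le_const fun x _ => by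
      rw [Real.norm_eq_abs]
      exact h x
  rw [Real.norm_eq_abs, add_sub_cancel_left, abs_of_pos hδ] at h1
  rw [VV, abs_div, abs_of_pos hδ, div_le_iff₀ hδ]
  exact h1

theorem VV_slow (hP : PC p q A B) (M C : ℝ) (hM : 0 ≤ M) (hC : 1 ≤ C) (o0 : ℕ) :
    ∃ C2 s2 : ℝ, 1 ≤ C2 ∧ 1 ≤ s2 ∧ ∀ f, HF p q A B M C o0 f → ∀ s t, s2 ≤ s → 0 ≤ t →
      |VV (A + B) f (s + t) - VV (A + B) f s| ≤ C2 * t / Real.sqrt s := by
  obtain ⟨C1, s1, hC1, hs1, hsh⟩ := shiftD hP M C hM hC o0
  have hA := hP.hA
  have hB := hP.hB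
  have hδ : 0 < A + B := by linarith
  set δ := A + B with hδdef
  refine ⟨C1 / δ + 1, s1, ?_, hs1, ?_⟩
  · have : 0 ≤ C1 / δ := by positivity
    linarith
  intro f hf s t hs ht
  have hc := avg_cont hf
  have hi : ∀ a b : ℝ, IntervalIntegrable f volume a b := fun a b => hc.intervalIntegrable a b
  have hc2 : Continuous fun u => f (u + δ) := hc.comp (continuous_id.add continuous_const)
  have e1 : (∫ u in s..(s + t), (f (u + δ) - f u)) =
      (∫ u in (s + t)..(s + t + δ), f u) - ∫ u in s..(s + δ), f u := by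
    rw [intervalIntegral.integral_sub (hc2.intervalIntegrable _ _) (hi _ _),
      intervalIntegral.integral_comp_add_right (fun u => f u) δ]
    have a1 := intervalIntegral.integral_add_adjacent_intervals (hi s (s + δ)) (hi (s + δ) (s + t + δ))
    have a2 := intervalIntegral.integral_add_adjacent_intervals (hi s (s + t)) (hi (s + t) (s + t + δ))
    linarith
  have e2 : VV δ f (s + t) - VV δ f s = (∫ u in s..(s + t), (f (u + δ) - f u)) / δ := by
    rw [e1, VV, VV, sub_div]
  have hs0 : 0 < s := by linarith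
  have hss : 0 < Real.sqrt s := Real.sqrt_pos.mpr hs0
  have e3 : ‖∫ u in s..(s + t), (f (u + δ) - f u)‖ ≤ C1 / Real.sqrt s * |s + t - s| := by
    refine intervalIntegral.norm_integral_le_of_norm_le_const fun x hx => ?_
    rw [Set.uIoc_of_le (by linarith : s ≤ s + t)] at hx
    have hx1 : s ≤ x := hx.1.le
    rw [Real.norm_eq_abs]
    refine (hsh f hf x (by linarith)).trans ?_
    exact div_le_div_of_nonneg_left (by linarith) hss (Real.sqrt_le_sqrt hx1)
  rw [Real.norm_eq_abs, add_sub_cancel_left, abs_of_nonneg ht] at e3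
  rw [e2, abs_div, abs_of_pos hδ, div_le_iff₀ hδ]
  refine e3.trans ?_
  have e4 : (C1 / δ + 1) * t / Real.sqrt s * δ = C1 / Real.sqrt s * t + t * δ / Real.sqrt s := by
    field_simp
  rw [e4]
  have : 0 ≤ t * δ / Real.sqrt s := by positivity
  linarith

theorem VV_harm (hP : PC p q A B) {f : ℝ → ℝ} (h : HF p q A B M C o0 f) {o : ℕ} {s : ℝ}
    (ho : o0 ≤ o) (hs : 40 * (o : ℝ) ≤ s) :
    |VV (A + B) f s - EE p q o (fun j => VV (A + B) f (s + A * o - (A + B) * j))| ≤ C / o := by
  have hA := hP.hA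
  have hB := hP.hB
  have hδ : 0 < A + B := by linarith
  have hc := avg_cont h
  have hcs : ∀ c : ℝ, Continuous fun v => f (c + v) := fun c =>
    hc.comp (continuous_const.add continuous_id)
  have e1 : EE p q o (fun j => VV (A + B) f (s + A * o - (A + B) * j)) =
      (∫ v in (0 : ℝ)..(A + B), EE p q o (fun j => f (s + v + A * o - (A + B) * j))) / (A + B) := by
    unfold EE
    rw [intervalIntegral.integral_finset_sum]
    · rw [Finset.sum_div]
      refine Finset.sum_congr rfl fun x _ => ?_
      rw [intervalIntegral.integral_const_mul, mul_div_assoc]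
      show bin p q x.1 x.2 * VV (A + B) f (s + A * o - (A + B) * x.2) = _
      rw [avg_eq]
      have e0 : (fun v : ℝ => f (s + A * o - (A + B) * x.2 + v)) =
          fun v : ℝ => f (s + v + A * o - (A + B) * x.2) := by
        funext v
        congr 1
        ring
      rw [e0]
    · intro x _
      refine Continuous.intervalIntegrable ?_ _ _
      refine continuous_const.mul (hc.comp ?_)
      fun_prop
  have hcE : Continuous fun v => EE p q o (fun j => f (s + v + A * o - (A + B) * j)) := by
    unfold EE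
    refine continuous_finsetSum _ fun x _ => ?_
    refine continuous_const.mul (hc.comp ?_)
    fun_prop
  have e2 : VV (A + B) f s - EE p q o (fun j => VV (A + B) f (s + A * o - (A + B) * j)) =
      (∫ v in (0 : ℝ)..(A + B), (f (s + v) -
        EE p q o (fun j => f (s + v + A * o - (A + B) * j)))) / (A + B) := by
    rw [e1, avg_eq, intervalIntegral.integral_sub ((hcs s).intervalIntegrable _ _)
      (hcE.intervalIntegrable _ _), sub_div]
  have e3 : ‖∫ v in (0 : ℝ)..(A + B), (f (s + v) -
      EE p q o (fun j => f (s + v + A * o - (A + B) * j)))‖ ≤ C / o * |A + B - 0| := by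
    refine intervalIntegral.norm_integral_le_of_norm_le_const fun v hv => ?_
    rw [Set.uIoc_of_le hδ.le] at hv
    rw [Real.norm_eq_abs]
    exact h.harm' ho (by linarith [hv.1])
  rw [Real.norm_eq_abs, sub_zero, abs_of_pos hδ] at e3
  rw [e2, abs_div, abs_of_pos hδ, div_le_iff₀ hδ]
  exact e3

end Pool.Agent.H5.TD
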