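import Pool.Agent.H5.TD.Defs

/-!
# JOB TD-01. Binomial expectations: elementary facts (pure)

`bin p q i j = ((i + j).choose j) p^i q^j` (`AB/Defs.lean`), `AD n` = antidiagonal, `EE p q o G = ∑ x ∈ AD o, bin p q x.1 x.2 * G x.2`.
`EE_succ` is Pascal's rule: `bin (i, j) = p bin (i-1, j) + q bin (i, j-1)`; e.g. write `EE` as
`∑ j ∈ range (o+1), choose o j p^(o-j) q^j G j` (`Finset.Nat.sum_antidiagonal_eq_sum_range_succ_mk`) or use
`Finset.Nat.antidiagonal_succ`, `Nat.choose_succ_succ` (look at `AB/BinPt.lean` and `step_sum_bin`, `sum_bin` in `AB/Step.lean`, `AB/VFacts.lean`: similar facts may be there).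
-/

set_option autoImplicit false

namespace Pool.Agent.H5.TD

open Pool.Agent.H49.AB Finset

variable {p q : ℝ}

theorem EE_zero (G : ℕ → ℝ) : EE p q 0 G = G 0 := by
  simp [EE, AD, bin]

theorem EE_succ (o : ℕ) (G : ℕ → ℝ) :
    EE p q (o + 1) G = EE p q o (fun j => p * G j + q * G (j + 1)) := by
  have h1 : EE p q (o + 1) G =
      ∑ x ∈ AD (o + 1), (if 1 ≤ x.1 then p * bin p q (x.1 - 1) x.2 else 0) * G x.2 +
      ∑ x ∈ AD (o + 1), (if 1 ≤ x.2 then q * bin p q x.1 (x.2 - 1) else 0) * G x.2 := by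
    unfold EE
    rw [← Finset.sum_add_distrib]
    refine Finset.sum_congr rfl fun x hx => ?_
    have hx' : x.1 + x.2 = o + 1 := mem_AD.1 hx
    rw [bin_rec p q x.1 x.2 (by omega), add_mul]
  rw [h1]
  unfold EE AD
  rw [Finset.Nat.sum_antidiagonal_succ, Finset.Nat.sum_antidiagonal_succ']
  simp only [Nat.le_add_left, if_true, Nat.add_sub_cancel]
  rw [if_neg (by omega : ¬ 1 ≤ 0), if_neg (by omega : ¬ 1 ≤ 0), zero_mul, zero_mul, zero_add,
    zero_add, ← Finset.sum_add_distrib]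
  refine Finset.sum_congr rfl fun x _ => ?_
  ring

theorem EE_add (o : ℕ) (G G' : ℕ → ℝ) :
    EE p q o (fun j => G j + G' j) = EE p q o G + EE p q o G' := by
  unfold EE
  rw [← Finset.sum_add_distrib]
  exact Finset.sum_congr rfl fun x _ => by ring

theorem EE_sub (o : ℕ) (G G' : ℕ → ℝ) :
    EE p q o (fun j => G j - G' j) = EE p q o G - EE p q o G' := by
  unfold EE
  rw [← Finset.sum_sub_distrib]
  exact Finset.sum_congr rfl fun x _ => by ring

theorem EE_const_mul (o : ℕ) (c : ℝ) (G : ℕ → ℝ) :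
    EE p q o (fun j => c * G j) = c * EE p q o G := by
  unfold EE
  rw [Finset.mul_sum]
  exact Finset.sum_congr rfl fun x _ => by ring

theorem EE_one (h : p + q = 1) (o : ℕ) : EE p q o (fun _ => 1) = 1 := by
  induction o with
  | zero => rw [EE_zero]
  | succ o ih =>
    rw [EE_succ]
    simp only [mul_one, h]
    exact ih

theorem EE_congr {o : ℕ} {G G' : ℕ → ℝ} (h : ∀ j, j ≤ o → G j = G' j) :
    EE p q o G = EE p q o G' := by
  unfold EE
  refine Finset.sum_congr rfl fun x hx => ?_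
  have hx' : x.1 + x.2 = o := mem_AD.1 hx
  rw [h x.2 (by omega)]

theorem EE_mono (hp : 0 ≤ p) (hq : 0 ≤ q) {o : ℕ} {G G' : ℕ → ℝ} (h : ∀ j, j ≤ o → G j ≤ G' j) :
    EE p q o G ≤ EE p q o G' := by
  unfold EE
  refine Finset.sum_le_sum fun x hx => ?_
  have hx' : x.1 + x.2 = o := mem_AD.1 hx
  exact mul_le_mul_of_nonneg_left (h x.2 (by omega)) (bin_nonneg hp hq _ _)

/-- Absolute values. -/
theorem EE_abs_le (hp : 0 ≤ p) (hq : 0 ≤ q) {o : ℕ} {G G' : ℕ → ℝ}
    (h : ∀ j, j ≤ o → |G j| ≤ G' j) : |EE p q o G| ≤ EE p q o G' := by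
  rw [abs_le]
  constructor
  · have h1 : EE p q o (fun j => (-1) * G' j) ≤ EE p q o G :=
      EE_mono hp hq fun j hj => by
        have := (abs_le.1 (h j hj)).1
        linarith
    rw [EE_const_mul] at h1
    linarith
  · exact EE_mono hp hq fun j hj => (abs_le.1 (h j hj)).2

theorem EE_abs_le_const (hp : 0 ≤ p) (hq : 0 ≤ q) (h1 : p + q = 1) {o : ℕ} {G : ℕ → ℝ} {M : ℝ}
    (h : ∀ j, j ≤ o → |G j| ≤ M) : |EE p q o G| ≤ M := by
  have h2 := EE_abs_le hp hq (o := o) (G := G) (G' := fun _ => M * 1) (fun j hj => by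
    simpa using h j hj)
  rw [EE_const_mul, EE_one h1, mul_one] at h2
  exact h2

private theorem EE_sq (h1 : p + q = 1) (o : ℕ) : ∀ c : ℝ,
    EE p q o (fun j => ((j : ℝ) - c) ^ 2) = p * q * o + (q * o - c) ^ 2 := by
  induction o with
  | zero =>
    intro c
    rw [EE_zero]
    simp
  | succ o ih =>
    intro c
    rw [EE_succ]
    have h2 : (fun j : ℕ => p * ((j : ℝ) - c) ^ 2 + q * (((j + 1 : ℕ) : ℝ) - c) ^ 2) =
        fun j : ℕ => p * ((j : ℝ) - c) ^ 2 + q * ((j : ℝ) - (c - 1)) ^ 2 := by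
      funext j
      push_cast
      ring
    rw [h2, EE_add, EE_const_mul, EE_const_mul, ih c, ih (c - 1)]
    have hp : p = 1 - q := by linarith
    rw [hp]
    push_cast
    ring

/-- Mean and variance: `E (j - q o)² = p q o`, so `E |j - q o| ≤ √(p q o)`. -/
theorem EE_dev (hp : 0 ≤ p) (hq : 0 ≤ q) (h1 : p + q = 1) (o : ℕ) :
    EE p q o (fun j => |(j : ℝ) - q * o|) ≤ Real.sqrt (p * q * o) := by
  apply Real.le_sqrt_of_sq_le
  have h2 := Finset.sum_sq_le_sum_mul_sum_of_sq_le_mul (AD o)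
    (r := fun x => bin p q x.1 x.2 * |(x.2 : ℝ) - q * o|) (f := fun x => bin p q x.1 x.2 * 1)
    (g := fun x => bin p q x.1 x.2 * ((x.2 : ℝ) - q * o) ^ 2)
    (fun x _ => mul_nonneg (bin_nonneg hp hq _ _) zero_le_one)
    (fun x _ => mul_nonneg (bin_nonneg hp hq _ _) (sq_nonneg _))
    (fun x _ => le_of_eq (by
      rw [mul_pow, sq_abs]
      ring))
  have h3 : ∑ x ∈ AD o, bin p q x.1 x.2 * 1 = 1 := EE_one h1 o
  have h4 : ∑ x ∈ AD o, bin p q x.1 x.2 * ((x.2 : ℝ) - q * o) ^ 2 = p * q * o := by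
    have h5 := EE_sq h1 o (q * o)
    rw [sub_self, zero_pow two_ne_zero, add_zero] at h5
    exact h5
  rw [h3, h4, one_mul] at h2
  exact h2

end Pool.Agent.H5.TD
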