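import Pool.Agent.H5.TD.BinD

/-!
# JOB TD-03. Comparison of binomial expectations with different numbers of trials (pure)

Induction on `a` for all `G` (fixed `n`). Put `D G j = G(j+1) - G j`, `τ G j = G (j+1)`, `P = 1 + q D` (so `EE (n+1) G = EE n (P G)`, and
`EE (n+a+1) G = EE (n+a) (P G)` by `EE_succ`), `m = ⌊q a⌋`, `r = q a - m ∈ [0,1)`, `F_a = τ^m (1 + r D)`. Claim `|EE (n+a) G - EE n (F_a G)| ≤ a K`, `K = M/(p²q²(n+1))`, if `|G| ≤ M`.
Step: `|P G| ≤ M`, so `|EE (n+a+1) G - EE n (F_a P G)| ≤ a K`. If `⌊q(a+1)⌋ = m`: `F_a P - F_{a+1} = τ^m r q D²`; if `⌊q(a+1)⌋ = m+1`: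
`F_a P - F_{a+1} = τ^m (1-r)(1-q) D²`. In both cases the coefficient is in `[0,1]` and `|EE n (τ^m D² G)| ≤ K` by `EE_diff2` for the function `τ^m G`.
-/

set_option autoImplicit false

namespace Pool.Agent.H5.TD

open Pool.Agent.H49.AB Finset

variable {p q : ℝ}

private lemma cmp_one (hp : 0 < p) (hq : 0 < q) (h1 : p + q = 1) (n m : ℕ) {M c : ℝ} {G : ℕ → ℝ}
    (h : ∀ j, |G j| ≤ M) (hc0 : 0 ≤ c) (hc1 : c ≤ 1) (A B : ℕ → ℝ)
    (hAB : ∀ j, A j - B j = c * (G (j + 2 + m) - 2 * G (j + 1 + m) + G (j + m))) :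
    |EE p q n A - EE p q n B| ≤ M / (p ^ 2 * q ^ 2 * (n + 1)) := by
  have hd := EE_diff2 hp hq h1 n (G := fun j => G (j + m)) (M := M) (fun j => h _)
  have e : (fun j => A j - B j) = fun j => c * (G (j + 2 + m) - 2 * G (j + 1 + m) + G (j + m)) :=
    funext hAB
  rw [← EE_sub, e, EE_const_mul, abs_mul, abs_of_nonneg hc0]
  calc c * |EE p q n (fun j => G (j + 2 + m) - 2 * G (j + 1 + m) + G (j + m))|
      ≤ 1 * |EE p q n (fun j => G (j + 2 + m) - 2 * G (j + 1 + m) + G (j + m))| :=
        mul_le_mul_of_nonneg_right hc1 (abs_nonneg _)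
    _ = |EE p q n (fun j => G (j + 2 + m) - 2 * G (j + 1 + m) + G (j + m))| := one_mul _
    _ ≤ M / (p ^ 2 * q ^ 2 * (n + 1)) := hd

/-- `a` more steps are almost a translation by `q a`. -/
theorem EE_cmp (hp : 0 < p) (hq : 0 < q) (h1 : p + q = 1) (n : ℕ) {M : ℝ} (a : ℕ) {G : ℕ → ℝ}
    (h : ∀ j, |G j| ≤ M) :
    |EE p q (n + a) G - EE p q n (fun j => G (j + ⌊q * a⌋₊) +
      (q * a - ⌊q * a⌋₊) * (G (j + ⌊q * a⌋₊ + 1) - G (j + ⌊q * a⌋₊)))| ≤
      a * (M / (p ^ 2 * q ^ 2 * (n + 1))) := by
  have hq1 : q < 1 := by linarith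
  have hpe : p = 1 - q := by linarith
  induction a generalizing G with
  | zero => simp
  | succ a ih =>
    have hP : ∀ j, |p * G j + q * G (j + 1)| ≤ M := by
      intro j
      have a1 := h j
      have a2 := h (j + 1)
      calc |p * G j + q * G (j + 1)| ≤ |p * G j| + |q * G (j + 1)| := abs_add_le _ _
        _ = p * |G j| + q * |G (j + 1)| := by
            rw [abs_mul, abs_mul, abs_of_pos hp, abs_of_pos hq]
        _ ≤ p * M + q * M := by
            have b1 := mul_le_mul_of_nonneg_left a1 hp.le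
            have b2 := mul_le_mul_of_nonneg_left a2 hq.le
            linarith
        _ = M := by rw [← add_mul, h1, one_mul]
    have ih' := ih hP
    have es : EE p q (n + (a + 1)) G = EE p q (n + a) (fun j => p * G j + q * G (j + 1)) := by
      rw [← add_assoc, EE_succ]
    rw [es]
    have hx0 : 0 ≤ q * (a : ℝ) := by positivity
    set m : ℕ := ⌊q * (a : ℝ)⌋₊ with hm
    have hm1 : (m : ℝ) ≤ q * a := Nat.floor_le hx0
    have hm2 : q * (a : ℝ) < m + 1 := Nat.lt_floor_add_one _
    have hcast : q * ((a + 1 : ℕ) : ℝ) = q * a + q := by push_cast; ring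
    rw [hcast]
    have key : |EE p q n (fun j => (p * G (j + m) + q * G (j + m + 1)) +
          (q * a - m) * ((p * G (j + m + 1) + q * G (j + m + 1 + 1)) -
            (p * G (j + m) + q * G (j + m + 1)))) -
        EE p q n (fun j => G (j + ⌊q * (a : ℝ) + q⌋₊) +
          (q * a + q - ⌊q * (a : ℝ) + q⌋₊) * (G (j + ⌊q * (a : ℝ) + q⌋₊ + 1) -
            G (j + ⌊q * (a : ℝ) + q⌋₊)))| ≤ M / (p ^ 2 * q ^ 2 * (n + 1)) := by
      by_cases hcase : q * (a : ℝ) + q < m + 1
      · have hf : ⌊q * (a : ℝ) + q⌋₊ = m := by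
          rw [Nat.floor_eq_iff (by positivity)]
          constructor
          · linarith
          · exact hcase
        rw [hf]
        have c0 : 0 ≤ q * a - m := by linarith
        have c1 : q * a - m ≤ 1 := by linarith
        refine cmp_one hp hq h1 n m (c := (q * a - m) * q) h (mul_nonneg c0 hq.le) ?_ _ _ ?_
        · calc (q * a - m) * q ≤ 1 * 1 := mul_le_mul c1 hq1.le hq.le zero_le_one
            _ = 1 := one_mul _
        · intro j
          have e1 : j + 2 + m = j + m + 1 + 1 := by ring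
          have e2 : j + 1 + m = j + m + 1 := by ring
          rw [e1, e2, hpe]
          ring
      · push Not at hcase
        have hf : ⌊q * (a : ℝ) + q⌋₊ = m + 1 := by
          rw [Nat.floor_eq_iff (by positivity)]
          constructor
          · push_cast
            exact hcase
          · push_cast
            linarith
        rw [hf]
        have c0 : 0 ≤ q * a - m := by linarith
        have c1 : q * a - m ≤ 1 := by linarith
        refine cmp_one hp hq h1 n m (c := (1 - (q * a - m)) * (1 - q)) h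
          (mul_nonneg (by linarith) (by linarith)) ?_ _ _ ?_
        · calc (1 - (q * a - m)) * (1 - q) ≤ 1 * 1 :=
                mul_le_mul (by linarith) (by linarith) (by linarith) zero_le_one
            _ = 1 := one_mul _
        · intro j
          have e1 : j + 2 + m = j + m + 1 + 1 := by ring
          have e2 : j + 1 + m = j + m + 1 := by ring
          have e3 : j + (m + 1) = j + m + 1 := by ring
          rw [e1, e2, e3, hpe]
          push_cast
          ring
    have tri := abs_sub_le (EE p q (n + a) (fun j => p * G j + q * G (j + 1)))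
      (EE p q n (fun j => (p * G (j + m) + q * G (j + m + 1)) +
          (q * a - m) * ((p * G (j + m + 1) + q * G (j + m + 1 + 1)) -
            (p * G (j + m) + q * G (j + m + 1)))))
      (EE p q n (fun j => G (j + ⌊q * (a : ℝ) + q⌋₊) +
          (q * a + q - ⌊q * (a : ℝ) + q⌋₊) * (G (j + ⌊q * (a : ℝ) + q⌋₊ + 1) -
            G (j + ⌊q * (a : ℝ) + q⌋₊))))
    have hfin : ((a + 1 : ℕ) : ℝ) * (M / (p ^ 2 * q ^ 2 * (n + 1))) =
        a * (M / (p ^ 2 * q ^ 2 * (n + 1))) + M / (p ^ 2 * q ^ 2 * (n + 1)) := by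
      push_cast
      ring
    rw [hfin]
    linarith

end Pool.Agent.H5.TD
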