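import Pool.Agent.H5.TD.Bin

/-!
# JOB TD-02. Differences of binomial expectations (pure)

With `b_n(j) = choose n j p^(n-j) q^j` (`0` for `j > n`) and `M' = n + 1`:
`b_n(j-1) = b_{n+1}(j) j/(q(n+1))`, `b_n(j) = b_{n+1}(j) (n+1-j)/(p(n+1))`, so `b_n(j-1) - b_n(j) = b_{n+1}(j) (j - q(n+1))/(p q (n+1))`
(`j = 0, …, n+1`, `b_n(-1) = 0`), and `E (G(j+1) - G(j)) = ∑_{j=0}^{n+1} G(j) (b_n(j-1) - b_n(j))`. So it is at most
`M E_{n+1}|j - q(n+1)|/(p q (n+1)) ≤ M/√(p q (n+1))` (`EE_dev`).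
`EE_diff2`: with `K = n + 2`: `b_n(j-2) - 2 b_n(j-1) + b_n(j) = b_K(j) [(j - qK)² - p² j - q² (K - j)] / (p² q² K (K-1))`
(check: `b_n(j) = b_K(j)(K-j)(K-1-j)/(p² K(K-1))`, `b_n(j-1) = b_K(j) j (K-j)/(p q K (K-1))`, `b_n(j-2) = b_K(j) j (j-1)/(q² K(K-1))`,
and `q²(K-j)(K-1-j) - 2pq j(K-j) + p² j(j-1) = (q(K-j) - p j)² - q²(K-j) - p² j`, `q(K-j) - pj = qK - j`). The `ℓ¹` norm is at most
`(pqK + q² p K + p² q K)/(p² q² K (K-1)) ≤ 2/(p q (K-1))`-ish `≤ 1/(p² q² (n+1))` (all of `pq(1 + 1) ≤ 1`; `E (j-qK)² = pqK`, `E j = qK`, `E (K-j) = pK`).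
-/

set_option autoImplicit false

namespace Pool.Agent.H5.TD

open Pool.Agent.H49.AB Finset

variable {p q : ℝ}

/-- `E_{n+1} (j G(j)) = q (n+1) E_n G(j+1)`. -/
private theorem EE_jmul (n : ℕ) : ∀ G : ℕ → ℝ,
    EE p q (n + 1) (fun j => (j : ℝ) * G j) = q * (n + 1) * EE p q n (fun j => G (j + 1)) := by
  induction n with
  | zero =>
    intro G
    rw [EE_succ, EE_zero, EE_zero]
    push_cast
    ring
  | succ n ih =>
    intro G
    have e1 : EE p q (n + 1 + 1) (fun j => (j : ℝ) * G j) =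
        p * EE p q (n + 1) (fun j => (j : ℝ) * G j) +
          (q * EE p q (n + 1) (fun j => (j : ℝ) * G (j + 1)) +
            q * EE p q (n + 1) (fun j => G (j + 1))) := by
      rw [EE_succ, ← EE_const_mul, ← EE_const_mul, ← EE_const_mul, ← EE_add, ← EE_add]
      congr 1
      funext j
      push_cast
      ring
    have e2 : EE p q (n + 1) (fun j => G (j + 1)) =
        p * EE p q n (fun j => G (j + 1)) + q * EE p q n (fun j => G (j + 1 + 1)) := by
      rw [EE_succ, ← EE_const_mul, ← EE_const_mul, ← EE_add]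
    have e3 := ih G
    have e4 := ih (fun j => G (j + 1))
    rw [e1, e3]
    rw [show EE p q (n + 1) (fun j => (j : ℝ) * G (j + 1)) =
      q * (n + 1) * EE p q n (fun j => G (j + 1 + 1)) from e4, e2]
    push_cast
    ring

/-- `E_{n+1} ((n+1-j) G(j)) = p (n+1) E_n G(j)`. -/
private theorem EE_kmul (n : ℕ) (G : ℕ → ℝ) :
    EE p q (n + 1) (fun j => ((n + 1 : ℝ) - j) * G j) = p * (n + 1) * EE p q n G := by
  have e1 : EE p q (n + 1) (fun j => ((n + 1 : ℝ) - j) * G j) =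
      (n + 1) * EE p q (n + 1) G - EE p q (n + 1) (fun j => (j : ℝ) * G j) := by
    rw [← EE_const_mul, ← EE_sub]
    congr 1
    funext j
    ring
  have e2 : EE p q (n + 1) G = p * EE p q n G + q * EE p q n (fun j => G (j + 1)) := by
    rw [EE_succ, ← EE_const_mul, ← EE_const_mul, ← EE_add]
  rw [e1, EE_jmul n G, e2]
  ring

/-- The first difference. -/
private theorem EE_d1 (hp : 0 < p) (hq : 0 < q) (h1 : p + q = 1) (n : ℕ) (G : ℕ → ℝ) :
    EE p q n (fun j => G (j + 1) - G j) =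
      EE p q (n + 1) (fun j => ((j : ℝ) - q * (n + 1)) * G j) / (p * q * (n + 1)) := by
  have hn : (0 : ℝ) < n + 1 := by positivity
  have e0 : EE p q (n + 1) (fun j => ((j : ℝ) - q * (n + 1)) * G j) =
      p * EE p q (n + 1) (fun j => (j : ℝ) * G j) -
        q * EE p q (n + 1) (fun j => ((n + 1 : ℝ) - j) * G j) := by
    rw [← EE_const_mul, ← EE_const_mul, ← EE_sub]
    congr 1
    funext j
    have hp' : p = 1 - q := by linarith
    rw [hp']
    ring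
  rw [e0, EE_jmul, EE_kmul, EE_sub, eq_div_iff (by positivity)]
  ring

private theorem EE_sq' (h1 : p + q = 1) (o : ℕ) : ∀ c : ℝ,
    EE p q o (fun j => ((j : ℝ) - c) ^ 2) = p * q * o + (q * o - c) ^ 2 := by
  induction o with
  | zero =>
    intro c
    rw [EE_zero]
    simp
  | succ o ih =>
    intro c
    rw [EE_succ]
    have h2 : (fun j : ℕ => p * ((j : ℝ) - c) ^ 2 + q * (((j + 1 : ℕ) : ℝ) - c) ^ 2) =
        fun j : ℕ => p * ((j : ℝ) - c) ^ 2 + q * ((j : ℝ) - (c - 1)) ^ 2 := by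
      funext j
      push_cast
      ring
    rw [h2, EE_add, EE_const_mul, EE_const_mul, ih c, ih (c - 1)]
    have hp : p = 1 - q := by linarith
    rw [hp]
    push_cast
    ring

/-- The second difference. -/
private theorem EE_d2 (hp : 0 < p) (hq : 0 < q) (h1 : p + q = 1) (n : ℕ) (G : ℕ → ℝ) :
    EE p q n (fun j => G (j + 2) - 2 * G (j + 1) + G j) =
      EE p q (n + 2) (fun j => (((j : ℝ) - q * (n + 2)) ^ 2 - p ^ 2 * j - q ^ 2 * ((n + 2) - j)) * G j) /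
        (p ^ 2 * q ^ 2 * (n + 2) * (n + 1)) := by
  have hn : (0 : ℝ) < n + 1 := by positivity
  have hn2 : (0 : ℝ) < n + 2 := by positivity
  have e0 : EE p q n (fun j => G (j + 2) - 2 * G (j + 1) + G j) =
      EE p q n (fun j => (fun i => G (i + 1) - G i) (j + 1) - (fun i => G (i + 1) - G i) j) := by
    congr 1
    funext j
    change _ = (G (j + 1 + 1) - G (j + 1)) - (G (j + 1) - G j)
    ring
  have e1 : EE p q (n + 1) (fun j => ((j : ℝ) - q * (n + 1)) * (G (j + 1) - G j)) =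
      EE p q (n + 1) (fun j => (fun i : ℕ => ((i : ℝ) - 1 - q * (n + 1)) * G i) (j + 1)) -
        EE p q (n + 1) (fun j => ((j : ℝ) - q * (n + 1)) * G j) := by
    rw [← EE_sub]
    congr 1
    funext j
    change _ = (((j + 1 : ℕ) : ℝ) - 1 - q * (n + 1)) * G (j + 1) - ((j : ℝ) - q * (n + 1)) * G j
    push_cast
    ring
  have e2 := EE_jmul (p := p) (q := q) (n + 1) (fun i : ℕ => ((i : ℝ) - 1 - q * (n + 1)) * G i)
  have e3 := EE_kmul (p := p) (q := q) (n + 1) (fun j => ((j : ℝ) - q * (n + 1)) * G j)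
  have e4 : EE p q (n + 2) (fun j => (((j : ℝ) - q * (n + 2)) ^ 2 - p ^ 2 * j - q ^ 2 * ((n + 2) - j)) * G j) =
      p * EE p q (n + 1 + 1) (fun j : ℕ => (j : ℝ) * (((j : ℝ) - 1 - q * (n + 1)) * G j)) -
        q * EE p q (n + 1 + 1) (fun j : ℕ => ((((n + 1 : ℕ) : ℝ) + 1) - (j : ℝ)) *
          (((j : ℝ) - q * (n + 1)) * G j)) := by
    rw [← EE_const_mul, ← EE_const_mul, ← EE_sub]
    congr 1
    funext j
    push_cast
    have hp' : p = 1 - q := by linarith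
    rw [hp']
    ring
  have e5 := EE_d1 hp hq h1 n (fun i => G (i + 1) - G i)
  refine (e0.trans e5).trans ?_
  change EE p q (n + 1) (fun j => ((j : ℝ) - q * (n + 1)) * (G (j + 1) - G j)) / _ = _
  rw [e1, e4, show EE p q (n + 1 + 1) (fun j : ℕ => (j : ℝ) * (((j : ℝ) - 1 - q * (n + 1)) * G j)) = _
    from e2, show EE p q (n + 1 + 1) (fun j : ℕ => ((((n + 1 : ℕ) : ℝ) + 1) - (j : ℝ)) *
          (((j : ℝ) - q * (n + 1)) * G j)) = _ from e3,
    div_eq_div_iff (by positivity) (by positivity)]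
  push_cast
  ring

theorem EE_diff (hp : 0 < p) (hq : 0 < q) (h1 : p + q = 1) (n : ℕ) {G : ℕ → ℝ} {M : ℝ}
    (h : ∀ j, |G j| ≤ M) :
    |EE p q n (fun j => G (j + 1) - G j)| ≤ M / Real.sqrt (p * q * (n + 1)) := by
  have hM : 0 ≤ M := (abs_nonneg _).trans (h 0)
  have hn : (0 : ℝ) < n + 1 := by positivity
  have hpos : 0 < p * q * ((n : ℝ) + 1) := by positivity
  have e1 : |EE p q (n + 1) (fun j => ((j : ℝ) - q * (n + 1)) * G j)| ≤
      EE p q (n + 1) (fun j => M * |(j : ℝ) - q * ((n + 1 : ℕ) : ℝ)|) := by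
    refine EE_abs_le hp.le hq.le fun j _ => ?_
    rw [abs_mul, mul_comm]
    push_cast
    exact mul_le_mul_of_nonneg_right (h j) (abs_nonneg _)
  rw [EE_const_mul] at e1
  have e2 := EE_dev hp.le hq.le h1 (n + 1)
  have e3 : |EE p q (n + 1) (fun j => ((j : ℝ) - q * (n + 1)) * G j)| ≤
      M * Real.sqrt (p * q * (n + 1)) := by
    refine e1.trans (mul_le_mul_of_nonneg_left ?_ hM)
    push_cast at e2
    exact_mod_cast e2
  rw [EE_d1 hp hq h1, abs_div, abs_of_pos hpos, div_le_div_iff₀ hpos (Real.sqrt_pos.2 hpos)]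
  calc |EE p q (n + 1) (fun j => ((j : ℝ) - q * (n + 1)) * G j)| * Real.sqrt (p * q * (n + 1))
      ≤ M * Real.sqrt (p * q * (n + 1)) * Real.sqrt (p * q * (n + 1)) :=
        mul_le_mul_of_nonneg_right e3 (Real.sqrt_nonneg _)
    _ = M * (p * q * (n + 1)) := by rw [mul_assoc, Real.mul_self_sqrt hpos.le]

theorem EE_diff2 (hp : 0 < p) (hq : 0 < q) (h1 : p + q = 1) (n : ℕ) {G : ℕ → ℝ} {M : ℝ}
    (h : ∀ j, |G j| ≤ M) :
    |EE p q n (fun j => G (j + 2) - 2 * G (j + 1) + G j)| ≤ M / (p ^ 2 * q ^ 2 * (n + 1)) := by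
  have hM : 0 ≤ M := (abs_nonneg _).trans (h 0)
  have hn : (0 : ℝ) < n + 1 := by positivity
  have hn2 : (0 : ℝ) < n + 2 := by positivity
  have e1 : |EE p q (n + 2) (fun j => (((j : ℝ) - q * (n + 2)) ^ 2 - p ^ 2 * j -
      q ^ 2 * ((n + 2) - j)) * G j)| ≤
      EE p q (n + 2) (fun j => M * ((((j : ℝ) - q * (n + 2)) ^ 2 + p ^ 2 * ((j : ℝ) * 1)) +
        q ^ 2 * (((((n + 1 : ℕ) : ℝ) + 1) - j) * 1))) := by
    refine EE_abs_le hp.le hq.le fun j hj => ?_
    have hj' : (j : ℝ) ≤ n + 2 := by exact_mod_cast hj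
    have hj0 : (0 : ℝ) ≤ j := Nat.cast_nonneg j
    rw [abs_mul, mul_comm]
    refine mul_le_mul (h j) ?_ (abs_nonneg _) hM
    have a1 : 0 ≤ ((j : ℝ) - q * (n + 2)) ^ 2 := sq_nonneg _
    have a2 : 0 ≤ p ^ 2 * (j : ℝ) := by positivity
    have a3 : 0 ≤ q ^ 2 * (((n : ℝ) + 2) - j) := mul_nonneg (by positivity) (by linarith)
    push_cast
    rw [abs_le]
    constructor <;> nlinarith
  have e2 : EE p q (n + 2) (fun j => M * ((((j : ℝ) - q * (n + 2)) ^ 2 + p ^ 2 * ((j : ℝ) * 1)) +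
        q ^ 2 * (((((n + 1 : ℕ) : ℝ) + 1) - j) * 1))) = M * (2 * (p * q) * (n + 2)) := by
    rw [EE_const_mul, EE_add, EE_add, EE_const_mul, EE_const_mul, EE_sq' h1]
    have f1 := EE_jmul (p := p) (q := q) (n + 1) (fun _ => (1 : ℝ))
    have f2 := EE_kmul (p := p) (q := q) (n + 1) (fun _ => (1 : ℝ))
    rw [EE_one h1] at f1 f2
    rw [show EE p q (n + 2) (fun j => (j : ℝ) * 1) = q * (((n + 1 : ℕ) : ℝ) + 1) * 1 from f1,
      show EE p q (n + 2) (fun j => ((((n + 1 : ℕ) : ℝ) + 1) - j) * 1) =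
        p * (((n + 1 : ℕ) : ℝ) + 1) * 1 from f2]
    have hp' : p = 1 - q := by linarith
    rw [hp']
    push_cast
    ring
  rw [e2] at e1
  have hpos : 0 < p ^ 2 * q ^ 2 * ((n : ℝ) + 2) * (n + 1) := by positivity
  have hpos' : 0 < p ^ 2 * q ^ 2 * ((n : ℝ) + 1) := by positivity
  rw [EE_d2 hp hq h1, abs_div, abs_of_pos hpos, div_le_div_iff₀ hpos hpos']
  have hpq : 2 * (p * q) ≤ 1 := by nlinarith [sq_nonneg (p - q), mul_pos hp hq]
  calc _ ≤ M * (2 * (p * q) * (n + 2)) * (p ^ 2 * q ^ 2 * (n + 1)) :=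
        mul_le_mul_of_nonneg_right e1 hpos'.le
    _ ≤ M * (1 * (n + 2)) * (p ^ 2 * q ^ 2 * (n + 1)) := by
        refine mul_le_mul_of_nonneg_right (mul_le_mul_of_nonneg_left ?_ hM) hpos'.le
        exact mul_le_mul_of_nonneg_right hpq hn2.le
    _ = M * (p ^ 2 * q ^ 2 * (n + 2) * (n + 1)) := by ring

end Pool.Agent.H5.TD
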