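import Mathlib

/-!
# JOB TD-19. A Tauberian lemma with uniform constants (pure; Karamata's method)

Let `a = exp (-π)`, `h x = (if a ≤ x then 1 else 0)/x` on `[0, 1]`, bounded by `exp π`, `∫ x in 0..1, h x = ∫ x in a..1, 1/x = π`. For `ε' > 0` there are continuous functions `h₋ ≤ h ≤ h₊` on `[0,1]`
with `∫ (h₊ - h₋) ≤ ε'` (change `h` near `a` to a linear function, on an interval of length `≤ ε' exp (-π)`; e.g. `h₊ x = min (exp π) (max 0 ((x - a + τ)/τ · exp π))` for `x ≤ a` and `1/x` for `x ≥ a`; `h₋ x = min (1/x) (max 0 ((x - a)/τ · exp π))`;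
any other choice), and by Weierstrass (`exists_polynomial_near_of_continuousOn`) polynomials `P₋ ≤ h ≤ P₊` on `[0,1]` with `∫ x in 0..1, (P₊ - P₋) ≤ 3 ε'`, so `|∫ P± - π| ≤ 3 ε'`.
For a family: `ω (if a ≤ g then 1 else 0) = ω g h(g) ≤ ω g P₊(g)`, and `∑' ω g P(g) = ∑_k p_k ∑' ω g^(k+1)` (summable: `g ≤ 1`), which differs from `∑_k p_k c/(k+1) = c ∫ P` by at most `δ ∑ |p_k|` if `k0 > deg P`.
So `|∑' ω (if …) - π c| ≤ 3 M ε' + δ ∑_k (|p_k^+| + |p_k^-|) ≤ ε`. The polynomials depend on `M`, `ε` only, so `k0`, `δ` do.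
-/

set_option autoImplicit false

namespace Pool.Agent.H5.TD

open Polynomial in
/-- integral of a polynomial over the unit interval -/
private lemma Kar_int_poly (P : ℝ[X]) :
    ∫ x in (0:ℝ)..1, P.eval x = ∑ k ∈ Finset.range (P.natDegree + 1), P.coeff k / (k + 1) := by
  have h1 : ∀ x : ℝ, P.eval x = ∑ k ∈ Finset.range (P.natDegree + 1), P.coeff k * x ^ k :=
    fun x => Polynomial.eval_eq_sum_range x
  simp_rw [h1]
  rw [intervalIntegral.integral_finsetSum]
  · refine Finset.sum_congr rfl fun k _ => ?_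
    rw [intervalIntegral.integral_const_mul, integral_pow]
    simp [div_eq_mul_inv]
  · intro k _
    exact ((continuous_const.mul (continuous_pow k)).intervalIntegrable 0 1)

private noncomputable def Kar_a : ℝ := Real.exp (-Real.pi)

private lemma Kar_a_pos : 0 < Kar_a := Real.exp_pos _

private lemma Kar_a_lt : Kar_a < 1 := by
  unfold Kar_a
  rw [Real.exp_lt_one_iff]
  have := Real.pi_pos
  linarith

private lemma Kar_log_a : Real.log Kar_a = -Real.pi := Real.log_exp _

/-- ramp from `0` at `s` to `1` at `s + t` -/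
private noncomputable def Kar_u (s t x : ℝ) : ℝ := max 0 (min 1 ((x - s) / t))

private noncomputable def Kar_f (s t x : ℝ) : ℝ := Kar_u s t x * (max x Kar_a)⁻¹

private lemma Kar_u_nonneg (s t x : ℝ) : 0 ≤ Kar_u s t x := le_max_left _ _

private lemma Kar_u_le (s t x : ℝ) : Kar_u s t x ≤ 1 :=
  max_le zero_le_one (min_le_left _ _)

private lemma Kar_u_zero {s t x : ℝ} (ht : 0 < t) (hx : x ≤ s) : Kar_u s t x = 0 := by
  unfold Kar_u
  apply max_eq_left
  refine (min_le_right _ _).trans ?_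
  exact div_nonpos_of_nonpos_of_nonneg (by linarith) ht.le

private lemma Kar_u_one {s t x : ℝ} (ht : 0 < t) (hx : s + t ≤ x) : Kar_u s t x = 1 := by
  unfold Kar_u
  have : 1 ≤ (x - s) / t := by
    rw [le_div_iff₀ ht]; linarith
  rw [min_eq_left this]
  exact max_eq_right zero_le_one

private lemma Kar_max_pos (x : ℝ) : 0 < max x Kar_a := lt_of_lt_of_le Kar_a_pos (le_max_right _ _)

private lemma Kar_f_cont (s t : ℝ) : Continuous (Kar_f s t) := by
  unfold Kar_f Kar_u
  refine Continuous.mul ?_ ?_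
  · exact continuous_const.max (continuous_const.min ((continuous_id.sub continuous_const).div_const t))
  · exact (continuous_id.max continuous_const).inv₀ (fun x => (Kar_max_pos x).ne')

private lemma Kar_f_nonneg (s t x : ℝ) : 0 ≤ Kar_f s t x :=
  mul_nonneg (Kar_u_nonneg _ _ _) (inv_nonneg.mpr (Kar_max_pos x).le)

private lemma Kar_f_le (s t x : ℝ) : Kar_f s t x ≤ (max x Kar_a)⁻¹ := by
  unfold Kar_f
  calc Kar_u s t x * (max x Kar_a)⁻¹ ≤ 1 * (max x Kar_a)⁻¹ :=
        mul_le_mul_of_nonneg_right (Kar_u_le _ _ _) (inv_nonneg.mpr (Kar_max_pos x).le)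
    _ = _ := one_mul _

private lemma Kar_f_le' (s t x : ℝ) : Kar_f s t x ≤ Kar_a⁻¹ :=
  (Kar_f_le s t x).trans (inv_anti₀ Kar_a_pos (le_max_right _ _))

private lemma Kar_int_inv {b : ℝ} (hb : 0 < b) (_hb1 : b ≤ 1) :
    ∫ x in b..1, x⁻¹ = - Real.log b := by
  rw [integral_inv_of_pos hb one_pos]
  rw [one_div, Real.log_inv]

private lemma Kar_up_int {t : ℝ} (ht : 0 < t) (hta : t < Kar_a) :
    ∫ x in (0:ℝ)..1, Kar_f (Kar_a - t) t x ≤ Real.pi + t / Kar_a := by
  have hc := Kar_f_cont (Kar_a - t) t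
  have hI : ∀ p q : ℝ, IntervalIntegrable (Kar_f (Kar_a - t) t) MeasureTheory.volume p q :=
    fun p q => hc.intervalIntegrable p q
  have e1 : ∫ x in (0:ℝ)..(Kar_a - t), Kar_f (Kar_a - t) t x = 0 := by
    have : ∫ x in (0:ℝ)..(Kar_a - t), Kar_f (Kar_a - t) t x
        = ∫ x in (0:ℝ)..(Kar_a - t), (0:ℝ) := by
      refine intervalIntegral.integral_congr fun x hx => ?_
      rw [Set.uIcc_of_le (by linarith)] at hx
      show Kar_f (Kar_a - t) t x = 0
      unfold Kar_f
      rw [Kar_u_zero ht hx.2, zero_mul]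
    rw [this]; simp
  have e2 : ∫ x in (Kar_a - t)..Kar_a, Kar_f (Kar_a - t) t x ≤ t / Kar_a := by
    have : ∫ x in (Kar_a - t)..Kar_a, Kar_f (Kar_a - t) t x
        ≤ ∫ x in (Kar_a - t)..Kar_a, Kar_a⁻¹ := by
      refine intervalIntegral.integral_mono_on (by linarith) (hI _ _)
        (continuous_const.intervalIntegrable _ _) fun x _ => Kar_f_le' _ _ _
    refine this.trans (le_of_eq ?_)
    rw [intervalIntegral.integral_const, smul_eq_mul]
    rw [div_eq_mul_inv]; ring
  have e3 : ∫ x in Kar_a..1, Kar_f (Kar_a - t) t x = Real.pi := by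
    have : ∫ x in Kar_a..1, Kar_f (Kar_a - t) t x = ∫ x in Kar_a..1, x⁻¹ := by
      refine intervalIntegral.integral_congr fun x hx => ?_
      rw [Set.uIcc_of_le Kar_a_lt.le] at hx
      show Kar_f (Kar_a - t) t x = x⁻¹
      unfold Kar_f
      rw [Kar_u_one ht (by linarith [hx.1]), one_mul, max_eq_left hx.1]
    rw [this, Kar_int_inv Kar_a_pos Kar_a_lt.le, Kar_log_a, neg_neg]
  have s1 := intervalIntegral.integral_add_adjacent_intervals (hI 0 (Kar_a - t)) (hI (Kar_a - t) Kar_a)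
  have s2 := intervalIntegral.integral_add_adjacent_intervals (hI 0 Kar_a) (hI Kar_a 1)
  linarith

private lemma Kar_dn_int {t : ℝ} (ht : 0 < t) (hta : Kar_a + t < 1) :
    Real.pi - t / Kar_a ≤ ∫ x in (0:ℝ)..1, Kar_f Kar_a t x := by
  have hc := Kar_f_cont Kar_a t
  have hI : ∀ p q : ℝ, IntervalIntegrable (Kar_f Kar_a t) MeasureTheory.volume p q :=
    fun p q => hc.intervalIntegrable p q
  have hpos := Kar_a_pos
  have e1 : 0 ≤ ∫ x in (0:ℝ)..(Kar_a + t), Kar_f Kar_a t x :=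
    intervalIntegral.integral_nonneg (by linarith) fun x _ => Kar_f_nonneg _ _ _
  have e3 : ∫ x in (Kar_a + t)..1, Kar_f Kar_a t x = - Real.log (Kar_a + t) := by
    have : ∫ x in (Kar_a + t)..1, Kar_f Kar_a t x = ∫ x in (Kar_a + t)..1, x⁻¹ := by
      refine intervalIntegral.integral_congr fun x hx => ?_
      rw [Set.uIcc_of_le hta.le] at hx
      show Kar_f Kar_a t x = x⁻¹
      unfold Kar_f
      rw [Kar_u_one ht hx.1, one_mul, max_eq_left (by linarith [hx.1])]
    rw [this, Kar_int_inv (by linarith) hta.le]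
  have e4 : Real.log (Kar_a + t) ≤ - Real.pi + t / Kar_a := by
    have h1 : Kar_a + t = Kar_a * (1 + t / Kar_a) := by
      field_simp
    have h2 : 0 < 1 + t / Kar_a := by positivity
    rw [h1, Real.log_mul hpos.ne' h2.ne', Kar_log_a]
    have := Real.log_le_sub_one_of_pos h2
    linarith
  have s2 := intervalIntegral.integral_add_adjacent_intervals (hI 0 (Kar_a + t)) (hI (Kar_a + t) 1)
  linarith

open Polynomial in
private lemma Kar_poly_up (η : ℝ) (hη : 0 < η) : ∃ P : ℝ[X],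
    (∀ x : ℝ, 0 < x → x ≤ 1 → (if Real.exp (-Real.pi) ≤ x then (1:ℝ) else 0) ≤ x * P.eval x) ∧
    ∫ x in (0:ℝ)..1, P.eval x ≤ Real.pi + η := by
  have hpos := Kar_a_pos
  set t : ℝ := min (Kar_a / 2) (Kar_a * η / 2) with ht'
  have ht : 0 < t := lt_min (by positivity) (by positivity)
  have hta : t < Kar_a := lt_of_le_of_lt (min_le_left _ _) (by linarith)
  have ht2 : t / Kar_a ≤ η / 2 := by
    rw [div_le_iff₀ hpos]
    refine (min_le_right _ _).trans (le_of_eq (by ring))
  obtain ⟨p, hp⟩ := exists_polynomial_near_of_continuousOn 0 1 (Kar_f (Kar_a - t) t)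
    (Kar_f_cont _ _).continuousOn (η / 4) (by positivity)
  refine ⟨p + C (η / 4), ?_, ?_⟩
  · intro x hx0 hx1
    have h1 := hp x ⟨hx0.le, hx1⟩
    rw [abs_lt] at h1
    have h2 : Kar_f (Kar_a - t) t x ≤ (p + C (η / 4)).eval x := by
      simp only [eval_add, eval_C]; linarith [h1.1]
    have h3 : (if Real.exp (-Real.pi) ≤ x then (1:ℝ) else 0) ≤ x * Kar_f (Kar_a - t) t x := by
      split_ifs with hax
      · have hax' : Kar_a ≤ x := hax
        unfold Kar_f
        rw [Kar_u_one ht (by linarith), one_mul, max_eq_left hax', mul_inv_cancel₀ hx0.ne']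
      · exact mul_nonneg hx0.le (Kar_f_nonneg _ _ _)
    exact h3.trans (mul_le_mul_of_nonneg_left h2 hx0.le)
  · have h1 : ∫ x in (0:ℝ)..1, (p + C (η / 4)).eval x
        ≤ ∫ x in (0:ℝ)..1, (Kar_f (Kar_a - t) t x + η / 2) := by
      refine intervalIntegral.integral_mono_on zero_le_one
        ((Polynomial.continuous _).intervalIntegrable 0 1)
        (((Kar_f_cont _ _).add continuous_const).intervalIntegrable 0 1) fun x hx => ?_
      have h1 := hp x hx
      rw [abs_lt] at h1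
      simp only [eval_add, eval_C]; linarith [h1.2]
    have h2 : ∫ x in (0:ℝ)..1, (Kar_f (Kar_a - t) t x + η / 2)
        = (∫ x in (0:ℝ)..1, Kar_f (Kar_a - t) t x) + η / 2 := by
      rw [intervalIntegral.integral_add ((Kar_f_cont _ _).intervalIntegrable 0 1)
        (continuous_const.intervalIntegrable 0 1)]
      simp
    have h3 := Kar_up_int ht hta
    linarith

open Polynomial in
private lemma Kar_poly_dn (η : ℝ) (hη : 0 < η) : ∃ P : ℝ[X],
    (∀ x : ℝ, 0 < x → x ≤ 1 → x * P.eval x ≤ (if Real.exp (-Real.pi) ≤ x then (1:ℝ) else 0)) ∧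
    Real.pi - η ≤ ∫ x in (0:ℝ)..1, P.eval x := by
  have hpos := Kar_a_pos
  have hlt := Kar_a_lt
  set t : ℝ := min ((1 - Kar_a) / 2) (Kar_a * η / 2) with ht'
  have ht : 0 < t := lt_min (by linarith) (by positivity)
  have hta : Kar_a + t < 1 := by
    have : t ≤ (1 - Kar_a) / 2 := min_le_left _ _
    linarith
  have ht2 : t / Kar_a ≤ η / 2 := by
    rw [div_le_iff₀ hpos]
    refine (min_le_right _ _).trans (le_of_eq (by ring))
  obtain ⟨p, hp⟩ := exists_polynomial_near_of_continuousOn 0 1 (Kar_f Kar_a t)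
    (Kar_f_cont _ _).continuousOn (η / 4) (by positivity)
  refine ⟨p - C (η / 4), ?_, ?_⟩
  · intro x hx0 hx1
    have h1 := hp x ⟨hx0.le, hx1⟩
    rw [abs_lt] at h1
    have h2 : (p - C (η / 4)).eval x ≤ Kar_f Kar_a t x := by
      simp only [eval_sub, eval_C]; linarith [h1.2]
    have h3 : x * Kar_f Kar_a t x ≤ (if Real.exp (-Real.pi) ≤ x then (1:ℝ) else 0) := by
      split_ifs with hax
      · have hax' : Kar_a ≤ x := hax
        have := Kar_f_le Kar_a t x
        rw [max_eq_left hax'] at this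
        calc x * Kar_f Kar_a t x ≤ x * x⁻¹ := mul_le_mul_of_nonneg_left this hx0.le
          _ = 1 := mul_inv_cancel₀ hx0.ne'
      · have hax' : x < Kar_a := not_le.mp hax
        unfold Kar_f
        rw [Kar_u_zero ht hax'.le]; simp
    exact (mul_le_mul_of_nonneg_left h2 hx0.le).trans h3
  · have h1 : ∫ x in (0:ℝ)..1, (Kar_f Kar_a t x - η / 2)
        ≤ ∫ x in (0:ℝ)..1, (p - C (η / 4)).eval x := by
      refine intervalIntegral.integral_mono_on zero_le_one
        (((Kar_f_cont _ _).sub continuous_const).intervalIntegrable 0 1)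
        ((Polynomial.continuous _).intervalIntegrable 0 1) fun x hx => ?_
      have h1 := hp x hx
      rw [abs_lt] at h1
      simp only [eval_sub, eval_C]; linarith [h1.1]
    have h2 : ∫ x in (0:ℝ)..1, (Kar_f Kar_a t x - η / 2)
        = (∫ x in (0:ℝ)..1, Kar_f Kar_a t x) - η / 2 := by
      rw [intervalIntegral.integral_sub ((Kar_f_cont _ _).intervalIntegrable 0 1)
        (continuous_const.intervalIntegrable 0 1)]
      simp
    have h3 := Kar_dn_int ht hta
    linarith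

open Polynomial in
/-- the moments of a family against a polynomial -/
private lemma Kar_moment (P : ℝ[X]) (k0 : ℕ) (hk : P.natDegree + 1 ≤ k0) (δ : ℝ)
    {ι : Type} (ω g : ι → ℝ) (c : ℝ)
    (hω : ∀ i, 0 ≤ ω i) (hg : ∀ i, 0 < g i ∧ g i ≤ 1) (hs : Summable (fun i => ω i * g i))
    (hm : ∀ k : ℕ, 1 ≤ k → k ≤ k0 → |∑' i, ω i * g i ^ k - c / k| ≤ δ) :
    Summable (fun i => ω i * (g i * P.eval (g i))) ∧
    |∑' i, ω i * (g i * P.eval (g i)) - c * ∫ x in (0:ℝ)..1, P.eval x|
      ≤ δ * ∑ k ∈ Finset.range (P.natDegree + 1), |P.coeff k| := by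
  have hsk : ∀ k : ℕ, Summable (fun i => ω i * g i ^ (k + 1)) := by
    intro k
    refine Summable.of_nonneg_of_le (fun i => mul_nonneg (hω i) (pow_nonneg (hg i).1.le _))
      (fun i => ?_) hs
    refine mul_le_mul_of_nonneg_left ?_ (hω i)
    rw [pow_succ]
    calc g i ^ k * g i ≤ 1 * g i :=
          mul_le_mul_of_nonneg_right (pow_le_one₀ (hg i).1.le (hg i).2) (hg i).1.le
      _ = g i := one_mul _
  have hterm : ∀ i, ω i * (g i * P.eval (g i))
      = ∑ k ∈ Finset.range (P.natDegree + 1), P.coeff k * (ω i * g i ^ (k + 1)) := by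
    intro i
    rw [Polynomial.eval_eq_sum_range, Finset.mul_sum, Finset.mul_sum]
    refine Finset.sum_congr rfl fun k _ => ?_
    ring
  have hsum : ∀ k ∈ Finset.range (P.natDegree + 1),
      Summable (fun i => P.coeff k * (ω i * g i ^ (k + 1))) := fun k _ => (hsk k).mul_left _
  refine ⟨?_, ?_⟩
  · simp_rw [hterm]
    exact summable_sum hsum
  · simp_rw [hterm]
    rw [Summable.tsum_finsetSum hsum, Kar_int_poly, Finset.mul_sum, ← Finset.sum_sub_distrib,
      Finset.mul_sum]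
    refine (Finset.abs_sum_le_sum_abs _ _).trans (Finset.sum_le_sum fun k hk' => ?_)
    rw [tsum_mul_left]
    have h1 : k + 1 ≤ k0 := by
      have := Finset.mem_range.mp hk'
      omega
    have h2 := hm (k + 1) (by omega) h1
    have h3 : P.coeff k * ∑' i, ω i * g i ^ (k + 1) - c * (P.coeff k / (k + 1))
        = P.coeff k * (∑' i, ω i * g i ^ (k + 1) - c / ((k + 1 : ℕ) : ℝ)) := by
      push_cast; ring
    rw [h3, abs_mul, mul_comm]
    exact mul_le_mul_of_nonneg_right h2 (abs_nonneg _)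

theorem kar (M ε : ℝ) (hM : 0 < M) (hε : 0 < ε) : ∃ (k0 : ℕ) (δ : ℝ), 1 ≤ k0 ∧ 0 < δ ∧
    ∀ {ι : Type} (ω g : ι → ℝ) (c : ℝ), (∀ i, 0 ≤ ω i) → (∀ i, 0 < g i ∧ g i ≤ 1) →
      Summable (fun i => ω i * g i) → 0 ≤ c → c ≤ M →
      (∀ k : ℕ, 1 ≤ k → k ≤ k0 → |∑' i, ω i * g i ^ k - c / k| ≤ δ) →
      Summable (fun i => ω i * (if Real.exp (-Real.pi) ≤ g i then 1 else 0)) ∧
      |∑' i, ω i * (if Real.exp (-Real.pi) ≤ g i then 1 else 0) - Real.pi * c| ≤ ε := by
  obtain ⟨P, hP, hPi⟩ := Kar_poly_up (ε / (2 * M)) (by positivity)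
  obtain ⟨Q, hQ, hQi⟩ := Kar_poly_dn (ε / (2 * M)) (by positivity)
  set A : ℝ := ∑ k ∈ Finset.range (P.natDegree + 1), |P.coeff k| with hA
  set B : ℝ := ∑ k ∈ Finset.range (Q.natDegree + 1), |Q.coeff k| with hB
  have hA0 : 0 ≤ A := Finset.sum_nonneg fun _ _ => abs_nonneg _
  have hB0 : 0 ≤ B := Finset.sum_nonneg fun _ _ => abs_nonneg _
  refine ⟨P.natDegree + Q.natDegree + 1, ε / (2 * (A + B + 1)), by omega, by positivity, ?_⟩
  intro ι ω g c hω hg hs hc0 hcM hm
  set δ : ℝ := ε / (2 * (A + B + 1)) with hδ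
  have hδA : δ * A ≤ ε / 2 := by
    rw [hδ, div_mul_eq_mul_div, div_le_div_iff₀ (by positivity) (by positivity)]
    nlinarith
  have hδB : δ * B ≤ ε / 2 := by
    rw [hδ, div_mul_eq_mul_div, div_le_div_iff₀ (by positivity) (by positivity)]
    nlinarith
  obtain ⟨sP, mP⟩ := Kar_moment P _ (by omega) δ ω g c hω hg hs hm
  obtain ⟨sQ, mQ⟩ := Kar_moment Q _ (by omega) δ ω g c hω hg hs hm
  have hind : Summable (fun i => ω i * (if Real.exp (-Real.pi) ≤ g i then (1:ℝ) else 0)) := by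
    refine Summable.of_nonneg_of_le (fun i => mul_nonneg (hω i) (by split_ifs <;> norm_num))
      (fun i => mul_le_mul_of_nonneg_left (hP (g i) (hg i).1 (hg i).2) (hω i)) sP
  refine ⟨hind, ?_⟩
  have up : ∑' i, ω i * (if Real.exp (-Real.pi) ≤ g i then (1:ℝ) else 0)
      ≤ ∑' i, ω i * (g i * P.eval (g i)) :=
    hind.tsum_le_tsum (fun i => mul_le_mul_of_nonneg_left (hP (g i) (hg i).1 (hg i).2) (hω i)) sP
  have dn : ∑' i, ω i * (g i * Q.eval (g i))
      ≤ ∑' i, ω i * (if Real.exp (-Real.pi) ≤ g i then (1:ℝ) else 0) :=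
    sQ.tsum_le_tsum (fun i => mul_le_mul_of_nonneg_left (hQ (g i) (hg i).1 (hg i).2) (hω i)) hind
  have hcε : c * (ε / (2 * M)) ≤ ε / 2 := by
    rw [mul_div_assoc', div_le_div_iff₀ (by positivity) (by positivity)]
    nlinarith
  have up2 : c * ∫ x in (0:ℝ)..1, P.eval x ≤ c * Real.pi + ε / 2 := by
    have := mul_le_mul_of_nonneg_left hPi hc0
    linarith
  have dn2 : c * Real.pi - ε / 2 ≤ c * ∫ x in (0:ℝ)..1, Q.eval x := by
    have := mul_le_mul_of_nonneg_left hQi hc0
    linarith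
  have mP' := (abs_le.mp mP).2
  have mQ' := (abs_le.mp mQ).1
  rw [abs_le]
  constructor
  · linarith
  · linarith

end Pool.Agent.H5.TD
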