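import Pool.Agent.H5.TD.Ext
import Pool.Agent.H5.TD.Kar

/-!
# JOB TD-20. From Gaussian weights to boxes

`NB2 S N U H2 H3` = weighted number of the points of `U` with `‖z₂‖ ≤ H2`, `‖z₃‖ ≤ H3`.

`box`. `M := Claim_bd`. `0 ≤ dd U ≤ M`. Apply `kar (π M) ε`: `l0, δ2`; then `kar M δ2`: `k0, δ1`. Let `H2, H3` be large (`≥ H0`), `H3 ≤ H2 ^ 1.05`, `X = H2² H3²`, index set `ι = {z // GX S N z}`,
`v z = (vw U z).toReal`. For `1 ≤ k ≤ k0`, `1 ≤ l ≤ l0`: `R = H2/√k`, `Q = H3/√l`: `1 ≤ Q ≤ R ^ 1.1` (`H3 ≤ H2^1.05 ≤ (H2/√k0)^1.1` if `H2 ≥ k0^11`), `R ≥ R0(δ1)`, so `|DD R Q - dd U| ≤ δ1`. As `gs R Q z = exp(-π‖z₂‖²/H2²)^k exp(-π‖z₃‖²/H3²)^l`,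
`∑' v z g₂^k g₃^l/X = (SmX R Q (vw U)).toReal/X = DD R Q/(k l)` (`ENNReal.tsum_toReal_eq`, terms finite; `SmX` finite by `SmX_fin`).
First step, fixed `l`: `kar M δ2` with `ω = v g₃^l/X`, `g = g₂`, `c = dd U/l`: `|∑' v g₃^l [g₂ ≥ exp(-π)]/X - π dd U/l| ≤ δ2` (`exp(-π) ≤ g₂ ↔ ‖z₂‖ ≤ H2`), and this is summable.
Second step: `kar (π M) ε` with `ω = v [‖z₂‖ ≤ H2]/X`, `g = g₃`, `c = π dd U`: `|∑' v [‖z₂‖ ≤ H2] [‖z₃‖ ≤ H3]/X - π² dd U| ≤ ε`. The sum is `(NB2 S N U H2 H3).toReal/X`.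
-/

set_option autoImplicit false

namespace Pool.Agent.H5.TD

open Pool.Agent.H67.Tent Pool.Agent.H49.AB Pool.Agent.H49.PP Finset

open Classical in
/-- Weighted number of the points of `U` in a box. -/
noncomputable def NB2 (S : Sys2) (N : ℕ) (U : Set E) (H2 H3 : ℝ) : ENNReal :=
  SS (ptX S N) fun z => vw U z * (if ‖z.2.1‖ ≤ H2 ∧ ‖z.2.2‖ ≤ H3 then 1 else 0)

private theorem vw_ne_top (U : Set E) (z : E) : vw U z ≠ ⊤ :=
  ne_top_of_le_ne_top ENNReal.one_ne_top (vw_le U z)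

theorem NB2_fin (S : Sys2) {N : ℕ} (hN : 1 ≤ N) (U : Set E) (H2 H3 : ℝ) :
    NB2 S N U H2 H3 ≠ ⊤ := by
  classical
  set R : ℝ := max H2 1 with hR
  set Q : ℝ := max H3 1 with hQ
  have hR0 : 0 < R := lt_of_lt_of_le one_pos (le_max_right _ _)
  have hQ0 : 0 < Q := lt_of_lt_of_le one_pos (le_max_right _ _)
  have hle : NB2 S N U H2 H3 ≤ ENNReal.ofReal (Real.exp (Real.pi * 2)) * SmX S N R Q (vw U) := by
    unfold NB2 SmX
    rw [← SS_const_mul]
    refine SS_mono _ fun i => ?_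
    set z := ptX S N i with hz
    by_cases hb : ‖z.2.1‖ ≤ H2 ∧ ‖z.2.2‖ ≤ H3
    · rw [if_pos hb, mul_one]
      have h1 : (1 : ENNReal) ≤ ENNReal.ofReal (Real.exp (Real.pi * 2)) *
          ENNReal.ofReal (gs R Q z) := by
        rw [← ENNReal.ofReal_mul (Real.exp_nonneg _), ← ENNReal.ofReal_one]
        apply ENNReal.ofReal_le_ofReal
        unfold gs
        rw [← Real.exp_add, ← Real.exp_zero]
        apply Real.exp_le_exp.2
        have h2 : ‖z.2.1‖ ^ 2 / R ^ 2 ≤ 1 := by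
          rw [div_le_one (by positivity)]
          exact pow_le_pow_left₀ (norm_nonneg _) (hb.1.trans (le_max_left _ _)) 2
        have h3 : ‖z.2.2‖ ^ 2 / Q ^ 2 ≤ 1 := by
          rw [div_le_one (by positivity)]
          exact pow_le_pow_left₀ (norm_nonneg _) (hb.2.trans (le_max_left _ _)) 2
        nlinarith [Real.pi_pos, mul_le_mul_of_nonneg_left (add_le_add h2 h3) Real.pi_pos.le]
      calc vw U z = vw U z * 1 := (mul_one _).symm
        _ ≤ vw U z * (ENNReal.ofReal (Real.exp (Real.pi * 2)) * ENNReal.ofReal (gs R Q z)) :=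
            mul_le_mul_right h1 _
        _ = _ := by ring
    · rw [if_neg hb, mul_zero]
      exact zero_le
  exact ne_top_of_le_ne_top (ENNReal.mul_ne_top ENNReal.ofReal_ne_top (SmX_fin S hN U hR0 hQ0)) hle

private noncomputable def bg2 (H2 : ℝ) (z : E) : ℝ := Real.exp (-(Real.pi * (‖z.2.1‖ ^ 2 / H2 ^ 2)))

private noncomputable def bg3 (H3 : ℝ) (z : E) : ℝ := Real.exp (-(Real.pi * (‖z.2.2‖ ^ 2 / H3 ^ 2)))

private theorem gs_split {H2 H3 : ℝ} (h2 : 0 < H2) (h3 : 0 < H3) {k l : ℕ} (hk : 1 ≤ k)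
    (hl : 1 ≤ l) (z : E) :
    gs (H2 / √k) (H3 / √l) z = bg2 H2 z ^ k * bg3 H3 z ^ l := by
  unfold gs bg2 bg3
  rw [← Real.exp_nat_mul, ← Real.exp_nat_mul, ← Real.exp_add]
  congr 1
  have hk0 : (0 : ℝ) < k := by exact_mod_cast hk
  have hl0 : (0 : ℝ) < l := by exact_mod_cast hl
  rw [div_pow, div_pow, Real.sq_sqrt hk0.le, Real.sq_sqrt hl0.le]
  field_simp
  ring

private theorem sum_split (S : Sys2) {N : ℕ} (hN : 1 ≤ N) (U : Set E) {H2 H3 : ℝ} (h2 : 0 < H2)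
    (h3 : 0 < H3) {k l : ℕ} (hk : 1 ≤ k) (hl : 1 ≤ l) :
    Summable (fun i : {z : E // GX S N z} =>
      (vw U i.1).toReal * bg3 H3 i.1 ^ l / (H2 ^ 2 * H3 ^ 2) * bg2 H2 i.1 ^ k) ∧
    ∑' i : {z : E // GX S N z},
      (vw U i.1).toReal * bg3 H3 i.1 ^ l / (H2 ^ 2 * H3 ^ 2) * bg2 H2 i.1 ^ k =
      DD S N U (H2 / √k) (H3 / √l) / (k * l) := by
  have hk0 : (0 : ℝ) < k := by exact_mod_cast hk
  have hl0 : (0 : ℝ) < l := by exact_mod_cast hl
  have hR : 0 < H2 / √k := by positivity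
  have hQ : 0 < H3 / √l := by positivity
  have hfin := SmX_fin S hN U hR hQ
  have hterm : ∀ i : {z : E // GX S N z},
      (vw U i.1).toReal * bg3 H3 i.1 ^ l / (H2 ^ 2 * H3 ^ 2) * bg2 H2 i.1 ^ k =
      (vw U (ptX S N i) * ENNReal.ofReal (gs (H2 / √k) (H3 / √l) (ptX S N i))).toReal /
        (H2 ^ 2 * H3 ^ 2) := by
    intro i
    have hi : ptX S N i = i.1 := rfl
    rw [hi, ENNReal.toReal_mul, ENNReal.toReal_ofReal (gs_pos _ _ _).le, gs_split h2 h3 hk hl]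
    ring
  have hs : Summable (fun i : {z : E // GX S N z} =>
      (vw U (ptX S N i) * ENNReal.ofReal (gs (H2 / √k) (H3 / √l) (ptX S N i))).toReal) :=
    ENNReal.summable_toReal hfin
  constructor
  · exact (hs.div_const _).congr fun i => (hterm i).symm
  · rw [tsum_congr hterm, tsum_div_const]
    have h1 : ∑' i : {z : E // GX S N z},
        (vw U (ptX S N i) * ENNReal.ofReal (gs (H2 / √k) (H3 / √l) (ptX S N i))).toReal =
        (SmX S N (H2 / √k) (H3 / √l) (vw U)).toReal := by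
      unfold SmX SS
      rw [ENNReal.tsum_toReal_eq]
      intro i
      exact ENNReal.mul_ne_top (vw_ne_top _ _) ENNReal.ofReal_ne_top
    rw [h1]
    unfold DD
    rw [div_pow, div_pow, Real.sq_sqrt hk0.le, Real.sq_sqrt hl0.le]
    field_simp

private theorem bg2_iff {H2 : ℝ} (h2 : 0 < H2) (z : E) :
    Real.exp (-Real.pi) ≤ bg2 H2 z ↔ ‖z.2.1‖ ≤ H2 := by
  unfold bg2
  rw [Real.exp_le_exp, neg_le_neg_iff]
  constructor
  · intro h
    have h4 : ‖z.2.1‖ ^ 2 / H2 ^ 2 ≤ 1 := by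
      by_contra hc
      push Not at hc
      nlinarith [Real.pi_pos]
    rw [div_le_one (by positivity)] at h4
    exact (pow_le_pow_iff_left₀ (norm_nonneg _) h2.le two_ne_zero).1 h4
  · intro h
    have h4 : ‖z.2.1‖ ^ 2 / H2 ^ 2 ≤ 1 := by
      rw [div_le_one (by positivity)]
      exact pow_le_pow_left₀ (norm_nonneg _) h 2
    nlinarith [Real.pi_pos]

private theorem bg3_iff {H3 : ℝ} (h3 : 0 < H3) (z : E) :
    Real.exp (-Real.pi) ≤ bg3 H3 z ↔ ‖z.2.2‖ ≤ H3 := by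
  unfold bg3
  rw [Real.exp_le_exp, neg_le_neg_iff]
  constructor
  · intro h
    have h4 : ‖z.2.2‖ ^ 2 / H3 ^ 2 ≤ 1 := by
      by_contra hc
      push Not at hc
      nlinarith [Real.pi_pos]
    rw [div_le_one (by positivity)] at h4
    exact (pow_le_pow_iff_left₀ (norm_nonneg _) h3.le two_ne_zero).1 h4
  · intro h
    have h4 : ‖z.2.2‖ ^ 2 / H3 ^ 2 ≤ 1 := by
      rw [div_le_one (by positivity)]
      exact pow_le_pow_left₀ (norm_nonneg _) h 2
    nlinarith [Real.pi_pos]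

private theorem bg2_bd (H2 : ℝ) (z : E) : 0 < bg2 H2 z ∧ bg2 H2 z ≤ 1 := by
  unfold bg2
  refine ⟨Real.exp_pos _, Real.exp_le_one_iff.2 ?_⟩
  have := Real.pi_pos
  simp only [Left.neg_nonpos_iff]
  positivity

private theorem bg3_bd (H3 : ℝ) (z : E) : 0 < bg3 H3 z ∧ bg3 H3 z ≤ 1 := by
  unfold bg3
  refine ⟨Real.exp_pos _, Real.exp_le_one_iff.2 ?_⟩
  have := Real.pi_pos
  simp only [Left.neg_nonpos_iff]
  positivity

theorem box (S : Sys2) {N : ℕ} (hN : 1 ≤ N) {dd : Set E → ℝ} (h : Claim S N dd 1.1) (ε : ℝ)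
    (hε : 0 < ε) : ∃ H0 : ℝ, 1 ≤ H0 ∧ ∀ U : Set E, Inv S N U → ∀ H2 H3 : ℝ, H0 ≤ H2 → H0 ≤ H3 →
      H3 ≤ H2 ^ (1.05 : ℝ) →
      |(NB2 S N U H2 H3).toReal / (H2 ^ 2 * H3 ^ 2) - Real.pi ^ 2 * dd U| ≤ ε := by
  classical
  obtain ⟨M, hM1, hM⟩ := Claim_bd S hN (by norm_num) h
  have hpi := Real.pi_pos
  obtain ⟨l0, δ2, hl0, hδ2, K2⟩ := kar (Real.pi * M) ε (by positivity) hε
  obtain ⟨k0, δ1, hk0, hδ1, K1⟩ := kar M δ2 (by positivity) hδ2
  obtain ⟨R0, hR0, hC⟩ := h δ1 hδ1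
  have hk0r : (1 : ℝ) ≤ k0 := by exact_mod_cast hk0
  have hl0r : (1 : ℝ) ≤ l0 := by exact_mod_cast hl0
  have hk11 : (1 : ℝ) ≤ (k0 : ℝ) ^ 11 := one_le_pow₀ hk0r
  set H0 : ℝ := R0 * (k0 : ℝ) ^ 11 * l0 with hH0
  have hH01 : 1 ≤ H0 := by
    have : 1 ≤ R0 * (k0 : ℝ) ^ 11 := one_le_mul_of_one_le_of_one_le hR0 hk11
    exact one_le_mul_of_one_le_of_one_le this hl0r
  refine ⟨H0, hH01, ?_⟩
  intro U hU H2 H3 h2 h3 h23
  have h2p : 0 < H2 := by linarith
  have h3p : 0 < H3 := by linarith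
  have hX : 0 < H2 ^ 2 * H3 ^ 2 := by positivity
  obtain ⟨hd0, hdM⟩ := hM U hU
  -- the densities
  have hden : ∀ k l : ℕ, 1 ≤ k → k ≤ k0 → 1 ≤ l → l ≤ l0 →
      |DD S N U (H2 / √k) (H3 / √l) - dd U| ≤ δ1 := by
    intro k l hk hkk hl hll
    have hkr : (1 : ℝ) ≤ k := by exact_mod_cast hk
    have hlr : (1 : ℝ) ≤ l := by exact_mod_cast hl
    have hkk' : (k : ℝ) ≤ k0 := by exact_mod_cast hkk
    have hll' : (l : ℝ) ≤ l0 := by exact_mod_cast hll
    have hsk : √(k : ℝ) ≤ k0 ^ 11 := by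
      have h5 : √(k : ℝ) ≤ k := by
        rw [Real.sqrt_le_left (by linarith)]
        nlinarith
      have h6 : (k0 : ℝ) ≤ k0 ^ 11 := le_self_pow₀ hk0r (by norm_num)
      linarith
    have hsl : √(l : ℝ) ≤ l0 := by
      have h5 : √(l : ℝ) ≤ l := by
        rw [Real.sqrt_le_left (by linarith)]
        nlinarith
      linarith
    have hsk0 : 0 < √(k : ℝ) := Real.sqrt_pos.2 (by linarith)
    have hsl0 : 0 < √(l : ℝ) := Real.sqrt_pos.2 (by linarith)
    have hA : R0 * √(k : ℝ) ≤ H2 := by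
      calc R0 * √(k : ℝ) ≤ R0 * k0 ^ 11 := by
            apply mul_le_mul_of_nonneg_left hsk (by linarith)
        _ ≤ R0 * k0 ^ 11 * l0 := by
            have : 0 ≤ R0 * (k0 : ℝ) ^ 11 := by positivity
            nlinarith
        _ ≤ H2 := h2
    have hB : √(l : ℝ) ≤ H3 := by
      calc √(l : ℝ) ≤ l0 := hsl
        _ ≤ R0 * k0 ^ 11 * l0 := by
            have : 1 ≤ R0 * (k0 : ℝ) ^ 11 := one_le_mul_of_one_le_of_one_le hR0 hk11
            nlinarith
        _ ≤ H3 := h3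
    have hkH : (k : ℝ) ^ 11 ≤ H2 := by
      calc (k : ℝ) ^ 11 ≤ (k0 : ℝ) ^ 11 := pow_le_pow_left₀ (by linarith) hkk' 11
        _ ≤ R0 * k0 ^ 11 * l0 := by
            have h7 : (k0 : ℝ) ^ 11 ≤ R0 * k0 ^ 11 := by nlinarith
            nlinarith
        _ ≤ H2 := h2
    apply hC U hU
    · rw [le_div_iff₀ hsk0]; exact hA
    · rw [le_div_iff₀ hsl0]; linarith
    · have h8 : H3 / √(l : ℝ) ≤ H3 := by
        apply div_le_self h3p.le
        rw [Real.one_le_sqrt]; exact hlr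
      have h9 : H2 ^ (1.05 : ℝ) ≤ (H2 / √(k : ℝ)) ^ (1.1 : ℝ) := by
        rw [Real.div_rpow h2p.le hsk0.le, le_div_iff₀ (by positivity)]
        have h10 : √(k : ℝ) ^ (1.1 : ℝ) ≤ H2 ^ (0.05 : ℝ) := by
          rw [Real.sqrt_eq_rpow, ← Real.rpow_mul (by linarith)]
          calc (k : ℝ) ^ ((1 / 2 : ℝ) * 1.1) = ((k : ℝ) ^ (11 : ℝ)) ^ (0.05 : ℝ) := by
                rw [← Real.rpow_mul (by linarith)]
                norm_num
            _ ≤ H2 ^ (0.05 : ℝ) := by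
                apply Real.rpow_le_rpow (by positivity) _ (by norm_num)
                have : (k : ℝ) ^ (11 : ℝ) = (k : ℝ) ^ 11 := by
                  rw [← Real.rpow_natCast]
                  norm_num
                rw [this]
                exact hkH
        calc H2 ^ (1.05 : ℝ) * √(k : ℝ) ^ (1.1 : ℝ) ≤ H2 ^ (1.05 : ℝ) * H2 ^ (0.05 : ℝ) :=
              mul_le_mul_of_nonneg_left h10 (by positivity)
          _ = H2 ^ (1.1 : ℝ) := by
              rw [← Real.rpow_add h2p]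
              norm_num
      linarith
  -- first step
  have step1 : ∀ l : ℕ, 1 ≤ l → l ≤ l0 →
      Summable (fun i : {z : E // GX S N z} =>
        (vw U i.1).toReal * bg3 H3 i.1 ^ l / (H2 ^ 2 * H3 ^ 2) *
          (if Real.exp (-Real.pi) ≤ bg2 H2 i.1 then 1 else 0)) ∧
      |∑' i : {z : E // GX S N z},
        (vw U i.1).toReal * bg3 H3 i.1 ^ l / (H2 ^ 2 * H3 ^ 2) *
          (if Real.exp (-Real.pi) ≤ bg2 H2 i.1 then 1 else 0) - Real.pi * (dd U / l)| ≤ δ2 := by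
    intro l hl hll
    have hlr : (1 : ℝ) ≤ l := by exact_mod_cast hl
    apply K1 (fun i : {z : E // GX S N z} =>
      (vw U i.1).toReal * bg3 H3 i.1 ^ l / (H2 ^ 2 * H3 ^ 2)) (fun i => bg2 H2 i.1) (dd U / l)
    · intro i
      have := (bg3_bd H3 i.1).1
      positivity
    · intro i
      exact bg2_bd H2 i.1
    · have := (sum_split S hN U h2p h3p (le_refl 1) hl).1
      simpa using this
    · positivity
    · rw [div_le_iff₀ (by linarith)]
      nlinarith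
    · intro k hk hkk
      have hkr : (1 : ℝ) ≤ k := by exact_mod_cast hk
      rw [(sum_split S hN U h2p h3p hk hl).2]
      have h11 : DD S N U (H2 / √k) (H3 / √l) / (k * l) - dd U / l / k =
          (DD S N U (H2 / √k) (H3 / √l) - dd U) / (k * l) := by
        field_simp
      rw [h11, abs_div, abs_of_pos (by positivity : (0 : ℝ) < k * l)]
      have h12 := hden k l hk hkk hl hll
      have h13 : (1 : ℝ) ≤ k * l := one_le_mul_of_one_le_of_one_le hkr hlr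
      exact (div_le_self (abs_nonneg _) h13).trans h12
  -- second step
  have step2 := K2 (fun i : {z : E // GX S N z} =>
      (vw U i.1).toReal / (H2 ^ 2 * H3 ^ 2) *
        (if Real.exp (-Real.pi) ≤ bg2 H2 i.1 then 1 else 0)) (fun i => bg3 H3 i.1)
      (Real.pi * dd U) ?_ ?_ ?_ ?_ ?_ ?_
  · have h14 := step2.2
    have h15 : ∑' i : {z : E // GX S N z}, (vw U i.1).toReal / (H2 ^ 2 * H3 ^ 2) *
        (if Real.exp (-Real.pi) ≤ bg2 H2 i.1 then 1 else 0) *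
        (if Real.exp (-Real.pi) ≤ bg3 H3 i.1 then 1 else 0) =
        (NB2 S N U H2 H3).toReal / (H2 ^ 2 * H3 ^ 2) := by
      unfold NB2 SS
      rw [ENNReal.tsum_toReal_eq, ← tsum_div_const]
      · apply tsum_congr
        intro i
        have hi : ptX S N i = i.1 := rfl
        rw [hi, ENNReal.toReal_mul]
        simp only [bg2_iff h2p, bg3_iff h3p]
        by_cases ha : ‖i.1.2.1‖ ≤ H2 <;> by_cases hb : ‖i.1.2.2‖ ≤ H3 <;> simp [ha, hb]
      · intro i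
        apply ENNReal.mul_ne_top (vw_ne_top _ _)
        split_ifs <;> simp
    rw [h15] at h14
    rw [show Real.pi ^ 2 * dd U = Real.pi * (Real.pi * dd U) by ring]
    exact h14
  · intro i
    have h16 : (0 : ℝ) ≤ (if Real.exp (-Real.pi) ≤ bg2 H2 i.1 then 1 else 0) := by
      split_ifs <;> norm_num
    positivity
  · intro i
    exact bg3_bd H3 i.1
  · refine ((step1 1 (le_refl 1) hl0).1).congr fun i => ?_
    rw [pow_one]
    ring
  · positivity
  · exact mul_le_mul_of_nonneg_left hdM hpi.le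
  · intro l hl hll
    have h17 := (step1 l hl hll).2
    have h18 : ∑' i : {z : E // GX S N z}, (vw U i.1).toReal / (H2 ^ 2 * H3 ^ 2) *
        (if Real.exp (-Real.pi) ≤ bg2 H2 i.1 then 1 else 0) * bg3 H3 i.1 ^ l =
        ∑' i : {z : E // GX S N z},
        (vw U i.1).toReal * bg3 H3 i.1 ^ l / (H2 ^ 2 * H3 ^ 2) *
          (if Real.exp (-Real.pi) ≤ bg2 H2 i.1 then 1 else 0) :=
      tsum_congr fun i => by ring
    rw [h18, show Real.pi * dd U / (l : ℝ) = Real.pi * (dd U / l) by ring]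
    exact h17

end Pool.Agent.H5.TD
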