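import Pool.Agent.H5.TD.Near

/-!
# JOB TD-08 (`VV_cauchy`). Summation over a geometric sequence (pure)

`VV_cauchy`: if `|V s - V t| ≤ C6/√s` for all `s ≥ s6`, `(1-η) s ≤ t ≤ s`, then for all `s ≥ t ≥ s6`: `|V s - V t| ≤ C7/√t`. Let `ρ = 1 - η`. Induction: claim for
`s ≤ t ρ^(-k)`: `|V s - V t| ≤ C6/√t ∑_{i<k} ρ^((i)/2)`-ish: for `t ρ^(-k) < s ≤ t ρ^(-k-1)`: `s' = ρ s ∈ (t ρ^(-k+1)…, t ρ^(-k)]`, `s' ≥ t` if `k ≥ 1`, and `|V s - V s'| ≤ C6/√s ≤ C6 ρ^(k/2)/√t`. The sum is at most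
`C6/(√t (1 - √ρ))`. (`ρ^(-k) → ∞`.) Any other organisation is fine, e.g. strong statement `|V s - V t| ≤ C7 (1/√t - 1/√s) + C6/√t`-type potentials:
with `C7 (1/√(ρ s) - 1/√s) ≥ C6/√s` for `C7 = C6/(ρ^(-1/2) - 1)` one gets by induction on `k` for all `t ≤ s ≤ t ρ^(-k)`: `|V s - V t| ≤ C6/√t + C7 (1/√t - 1/√s)`.
-/

set_option autoImplicit false

namespace Pool.Agent.H5.TD

open Pool.Agent.H49.AB Finset

variable {p q A B M C : ℝ} {o0 : ℕ}

theorem VV_cauchy {C6 s6 η : ℝ} (hC6 : 1 ≤ C6) (hs6 : 1 ≤ s6) (h0 : 0 < η) (h1 : η < 1) :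
    ∃ C7 : ℝ, 1 ≤ C7 ∧ ∀ V : ℝ → ℝ,
      (∀ s t : ℝ, s6 ≤ s → (1 - η) * s ≤ t → t ≤ s → |V s - V t| ≤ C6 / Real.sqrt s) →
      ∀ s t : ℝ, s6 ≤ t → t ≤ s → |V s - V t| ≤ C7 / Real.sqrt t := by
  have hρ0 : 0 < 1 - η := by linarith
  have hρ1 : 1 - η < 1 := by linarith
  set ρ : ℝ := 1 - η with hρ
  have hsρ0 : 0 < Real.sqrt ρ := Real.sqrt_pos.2 hρ0
  have hsρ1 : Real.sqrt ρ < 1 := by
    rw [← Real.sqrt_one]
    exact Real.sqrt_lt_sqrt hρ0.le hρ1
  have hinv : 1 < 1 / Real.sqrt ρ := by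
    rw [lt_div_iff₀ hsρ0]
    linarith
  set D : ℝ := C6 / (1 / Real.sqrt ρ - 1) with hD
  have hD0 : 0 ≤ D := div_nonneg (by linarith) (by linarith)
  have hDmul : D * (1 / Real.sqrt ρ - 1) = C6 := by
    rw [hD]
    exact div_mul_cancel₀ _ (by linarith)
  refine ⟨C6 + D, by linarith, ?_⟩
  intro V hV
  have key : ∀ k : ℕ, ∀ s t : ℝ, s6 ≤ t → t ≤ s → ρ ^ k * s ≤ t →
      |V s - V t| ≤ C6 / Real.sqrt t + D * (1 / Real.sqrt t - 1 / Real.sqrt s) := by
    intro k
    induction k with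
    | zero =>
      intro s t ht hts hk
      have hst : s = t := by
        rw [pow_zero, one_mul] at hk
        linarith
      subst hst
      have hs0 : 0 ≤ Real.sqrt s := Real.sqrt_nonneg s
      have : 0 ≤ C6 / Real.sqrt s := div_nonneg (by linarith) hs0
      simp only [sub_self, abs_zero, mul_zero, add_zero]
      exact this
    | succ k ih =>
      intro s t ht hts hk
      have ht0 : 0 < t := by linarith
      have hs0 : 0 < s := by linarith
      have hst0 : 0 < Real.sqrt t := Real.sqrt_pos.2 ht0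
      have hss0 : 0 < Real.sqrt s := Real.sqrt_pos.2 hs0
      have hle : Real.sqrt t ≤ Real.sqrt s := Real.sqrt_le_sqrt hts
      by_cases hc : ρ * s ≤ t
      · have h2 := hV s t (by linarith) hc hts
        have h3 : C6 / Real.sqrt s ≤ C6 / Real.sqrt t :=
          div_le_div_of_nonneg_left (by linarith) hst0 hle
        have h4 : 1 / Real.sqrt s ≤ 1 / Real.sqrt t := one_div_le_one_div_of_le hst0 hle
        have h5 : 0 ≤ D * (1 / Real.sqrt t - 1 / Real.sqrt s) :=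
          mul_nonneg hD0 (by linarith)
        linarith
      · have hc' : t < ρ * s := not_le.1 hc
        have hρs : ρ * s ≤ s := by nlinarith
        have h2 := hV s (ρ * s) (by linarith) le_rfl hρs
        have h3 := ih (ρ * s) t ht hc'.le (by
          calc ρ ^ k * (ρ * s) = ρ ^ (k + 1) * s := by ring
            _ ≤ t := hk)
        have h4 : Real.sqrt (ρ * s) = Real.sqrt ρ * Real.sqrt s := Real.sqrt_mul hρ0.le s
        have h5 : C6 / Real.sqrt s = D * (1 / Real.sqrt (ρ * s) - 1 / Real.sqrt s) := by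
          have e : 1 / (Real.sqrt ρ * Real.sqrt s) - 1 / Real.sqrt s
              = (1 / Real.sqrt ρ - 1) / Real.sqrt s := by
            field_simp
          rw [h4, e, ← mul_div_assoc, hDmul]
        have h6 : |V s - V t| ≤ |V s - V (ρ * s)| + |V (ρ * s) - V t| := abs_sub_le _ _ _
        have h7 : D * (1 / Real.sqrt t - 1 / Real.sqrt s)
            = D * (1 / Real.sqrt (ρ * s) - 1 / Real.sqrt s)
              + D * (1 / Real.sqrt t - 1 / Real.sqrt (ρ * s)) := by ring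
        rw [h7, ← h5]
        linarith
  intro s t ht hts
  have ht0 : 0 < t := by linarith
  have hs0 : 0 < s := by linarith
  obtain ⟨k, hk⟩ := exists_pow_lt_of_lt_one (div_pos ht0 hs0) hρ1
  have hk' : ρ ^ k * s ≤ t := by
    rw [lt_div_iff₀ hs0] at hk
    exact hk.le
  have h1' := key k s t ht hts hk'
  have hss : 0 ≤ 1 / Real.sqrt s := by positivity
  have h2' : D * (1 / Real.sqrt t - 1 / Real.sqrt s) ≤ D * (1 / Real.sqrt t) :=
    mul_le_mul_of_nonneg_left (by linarith) hD0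
  have h3' : (C6 + D) / Real.sqrt t = C6 / Real.sqrt t + D * (1 / Real.sqrt t) := by
    rw [add_div, mul_one_div]
  rw [h3']
  linarith

end Pool.Agent.H5.TD
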