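import Pool.Agent.H5.TD.Equi

/-!
# JOB TD-24. Translation of the counts to real numbers

`α = S.a.1`; `Good`, `tent`, `HeightLE`, `rep`, `height_of`, `semi` are in `Pool.Agent.Results.MP_df7698_an.AlmostAllBounded`, `fin_upper`, `fin_inj` in `PP/Final.lean`. `UE U = {z : E | z.1 ∈ U}`.

`inv_UE`: for `GX S N z`: `(T S 1 z).1 = tent α z.1` (`semi` with `N = 1`, see `hiter` in `PP/Final.lean`) and `z.1 ∈ [0,1]`.
`cnt_NT`: for `H ≥ 1` the map `z ↦ z.1` is a bijection from `{z | GX S N z, ‖z₂‖ ≤ H, ‖z₃‖ ≤ H, z.1 ≤ t, z.1 ∈ U}` onto `{x ∈ [0,1], HeightLE α N H x, x ≤ t, x ∈ U}` (`rep` gives the scaled point `N z`, see the proof of `final` in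
`PP/Final.lean`; `fin_inj`), which is finite (`fin_upper`, for `H ≥ 2`), and in `NT` each point has the weight `1`, except `0` and `1` with the weight `1/2`. So the difference is at most `1`.
`cnt_diff`: for `s ≤ t`: `{x ∈ X ∩ U, s ≤ x ≤ t}` is `{x ≤ t}` minus `{x < s}`; and `{x ≤ s}` has at most one point more than `{x < s}`.
-/

set_option autoImplicit false

namespace Pool.Agent.H5.TD

open Pool.Agent.H67.Tent Pool.Agent.H49.AB Pool.Agent.H49.PP Finset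
open Pool.Agent.Results.MP_df7698_an.AlmostAllBounded

/-- The points over `U`. -/
def UE (U : Set ℝ) : Set E := {z | z.1 ∈ U}

theorem inv_UE {α : ℝ} {S : Sys2} (hS : Good α S.toSys) (N : ℕ) {U : Set ℝ}
    (hU : ∀ x ∈ Set.Icc (0 : ℝ) 1, (tent α x ∈ U ↔ x ∈ U)) : Inv S N (UE U) := by
  intro z hz
  have h1 := semi hS (N := 1) le_rfl (x := z.1) (z := z) (by rw [Nat.cast_one, one_mul])
  rw [Nat.cast_one, one_mul] at h1
  show (T S.toSys 1 z).1 ∈ U ↔ z.1 ∈ U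
  rw [h1]
  exact hU z.1 ⟨hz.2.1, hz.2.2⟩

/-- The points which are counted. -/
def cntS (S : Sys2) (N : ℕ) (U : Set ℝ) (H t : ℝ) : Set {z : E // GX S N z} :=
  {i | i.1.1 ∈ U ∧ ‖i.1.2.1‖ ≤ H ∧ ‖i.1.2.2‖ ≤ H ∧ i.1.1 ≤ t}

/-- The numbers which are counted. -/
def cntA (α : ℝ) (N : ℕ) (U : Set ℝ) (H t : ℝ) : Set ℝ :=
  {x : ℝ | x ∈ Set.Icc (0 : ℝ) 1 ∧ HeightLE α N H x ∧ x ∈ U ∧ x ≤ t}

theorem cnt_maps {α : ℝ} {S : Sys2} (hS : Good α S.toSys) {N : ℕ} (hN : 1 ≤ N) (U : Set ℝ)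
    {H t : ℝ} (hH : 2 ≤ H) :
    Set.BijOn (fun i : {z : E // GX S N z} => i.1.1) (cntS S N U H t) (cntA α N U H t) := by
  have hN' : (1 : ℝ) ≤ N := by exact_mod_cast hN
  have hN0 : (0 : ℝ) < N := by linarith
  have hN1 : (N : ℂ) ≠ 0 := by
    exact_mod_cast (show N ≠ 0 by omega)
  refine ⟨?_, ?_, ?_⟩
  · rintro ⟨z, g1, g2, g3⟩ ⟨h1, h2, h3, h4⟩
    refine ⟨⟨g2, g3⟩, ?_, h1, h4⟩
    have f1 : ((N : E) * z).1 = N * z.1 := rfl
    have f2 : ‖((N : E) * z).2.1‖ = N * ‖z.2.1‖ := by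
      have : ((N : E) * z).2.1 = (N : ℂ) * z.2.1 := rfl
      rw [this, norm_mul, Complex.norm_natCast]
    have f3 : ‖((N : E) * z).2.2‖ = N * ‖z.2.2‖ := by
      have : ((N : E) * z).2.2 = (N : ℂ) * z.2.2 := rfl
      rw [this, norm_mul, Complex.norm_natCast]
    refine height_of hS g1 f1 ?_ ?_ ?_
    · rw [f1, abs_of_nonneg (mul_nonneg (by linarith) g2)]
      exact mul_le_mul_of_nonneg_left (by linarith) (by linarith)
    · rw [f2]
      exact mul_le_mul_of_nonneg_left h2 (by linarith)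
    · rw [f3]
      exact mul_le_mul_of_nonneg_left h3 (by linarith)
  · rintro i _ j _ h
    exact Subtype.ext (fin_inj S hN i.2.1 j.2.1 h)
  · rintro x ⟨hx, hxH, hxU, hxt⟩
    obtain ⟨z, hG, hz1, hz2, hz3⟩ := rep hS hx hxH
    have e : (N : E) * ((x, (N : ℂ)⁻¹ * z.2.1, (N : ℂ)⁻¹ * z.2.2) : E) = z := by
      refine Prod.ext ?_ (Prod.ext ?_ ?_)
      · show (N : ℝ) * x = z.1
        exact hz1.symm
      · show (N : ℂ) * ((N : ℂ)⁻¹ * z.2.1) = z.2.1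
        rw [← mul_assoc, mul_inv_cancel₀ hN1, one_mul]
      · show (N : ℂ) * ((N : ℂ)⁻¹ * z.2.2) = z.2.2
        rw [← mul_assoc, mul_inv_cancel₀ hN1, one_mul]
    have hn : ∀ c : ℂ, ‖c‖ ≤ N * H → ‖(N : ℂ)⁻¹ * c‖ ≤ H := by
      intro c hc
      rw [norm_mul, norm_inv, Complex.norm_natCast, inv_mul_le_iff₀ hN0]
      exact hc
    refine ⟨⟨((x, (N : ℂ)⁻¹ * z.2.1, (N : ℂ)⁻¹ * z.2.2) : E), ?_, hx.1, hx.2⟩, ?_, rfl⟩
    · rw [e]
      exact hG.1
    · exact ⟨hxU, hn _ hz2, hn _ hz3, hxt⟩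

theorem cnt_finA {α : ℝ} {S : Sys2} (hS : Good α S.toSys) {N : ℕ} (hN : 1 ≤ N) (U : Set ℝ)
    {H t : ℝ} (hH : 2 ≤ H) : (cntA α N U H t).Finite :=
  (fin_upper hS N hN H hH).1.subset fun _ hx => ⟨hx.1, hx.2.1⟩

theorem cnt_NT {α : ℝ} {S : Sys2} (hS : Good α S.toSys) {N : ℕ} (hN : 1 ≤ N) (U : Set ℝ)
    {H t : ℝ} (hH : 2 ≤ H) :
    |(({x : ℝ | x ∈ Set.Icc (0 : ℝ) 1 ∧ HeightLE α N H x ∧ x ∈ U ∧ x ≤ t}).ncard : ℝ) -
      (NT S N (UE U) H t).toReal| ≤ 1 := by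
  classical
  have hb := cnt_maps hS hN U (t := t) hH
  have hfA : (cntA α N U H t).Finite := cnt_finA hS hN U hH
  have hfS : (cntS S N U H t).Finite := hfA.of_injOn hb.mapsTo hb.injOn
  have hcard : (cntA α N U H t).ncard = hfS.toFinset.card := by
    rw [← hb.image_eq, hb.injOn.ncard_image, Set.ncard_eq_toFinset_card _ hfS]
  have hNT : NT S N (UE U) H t =
      ∑ i ∈ hfS.toFinset, (if i.1 = 0 ∨ i.1 = 1 then (2⁻¹ : ENNReal) else 1) := by
    unfold NT SS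
    rw [tsum_eq_sum (s := hfS.toFinset)]
    · refine Finset.sum_congr rfl fun i hi => ?_
      rw [Set.Finite.mem_toFinset] at hi
      obtain ⟨h1, h2, h3, h4⟩ := hi
      have hU' : ptX S N i ∈ UE U := h1
      show vw (UE U) (ptX S N i) * (if ‖(ptX S N i).2.1‖ ≤ H ∧ ‖(ptX S N i).2.2‖ ≤ H ∧
        (ptX S N i).1 ≤ t then 1 else 0) = _
      rw [if_pos (show ‖(ptX S N i).2.1‖ ≤ H ∧ ‖(ptX S N i).2.2‖ ≤ H ∧ (ptX S N i).1 ≤ t from
        ⟨h2, h3, h4⟩), mul_one]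
      unfold vw
      rw [if_pos hU']
      rfl
    · intro i hi
      rw [Set.Finite.mem_toFinset] at hi
      show vw (UE U) (ptX S N i) * (if ‖(ptX S N i).2.1‖ ≤ H ∧ ‖(ptX S N i).2.2‖ ≤ H ∧
        (ptX S N i).1 ≤ t then 1 else 0) = 0
      by_cases hU' : ptX S N i ∈ UE U
      · rw [if_neg (show ¬ (‖(ptX S N i).2.1‖ ≤ H ∧ ‖(ptX S N i).2.2‖ ≤ H ∧
          (ptX S N i).1 ≤ t) from fun h => hi ⟨hU', h.1, h.2.1, h.2.2⟩), mul_zero]
      · unfold vw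
        rw [if_neg hU', zero_mul]
  have hreal : (NT S N (UE U) H t).toReal =
      ∑ i ∈ hfS.toFinset, (1 - (if i.1 = 0 ∨ i.1 = 1 then (1 / 2 : ℝ) else 0)) := by
    rw [hNT, ENNReal.toReal_sum]
    · refine Finset.sum_congr rfl fun i _ => ?_
      split_ifs
      · rw [ENNReal.toReal_inv]
        norm_num
      · norm_num
    · intro i _
      split_ifs
      · exact ENNReal.inv_ne_top.2 two_ne_zero
      · exact ENNReal.one_ne_top
  have hf2 : ((hfS.toFinset.filter fun i => i.1 = 0 ∨ i.1 = 1).card : ℝ) ≤ 2 := by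
    have h1 : (hfS.toFinset.filter fun i => i.1 = 0 ∨ i.1 = 1).card ≤ ({0, 1} : Finset E).card := by
      refine Finset.card_le_card_of_injOn (fun i => i.1) ?_ ?_
      · intro i hi
        have h2 := (Finset.mem_filter.1 (Finset.mem_coe.1 hi)).2
        rw [Finset.mem_coe, Finset.mem_insert, Finset.mem_singleton]
        exact h2
      · intro i _ j _ h
        exact Subtype.ext h
    have h3 : (({0, 1} : Finset E)).card ≤ 2 := Finset.card_le_two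
    exact_mod_cast h1.trans h3
  have hsum : (NT S N (UE U) H t).toReal = (hfS.toFinset.card : ℝ) -
      ((hfS.toFinset.filter fun i => i.1 = 0 ∨ i.1 = 1).card : ℝ) * (1 / 2) := by
    rw [hreal, Finset.sum_sub_distrib, Finset.sum_const, nsmul_eq_mul, mul_one,
      ← Finset.sum_filter, Finset.sum_const, nsmul_eq_mul]
  change |((cntA α N U H t).ncard : ℝ) - _| ≤ 1
  rw [hcard, hsum, sub_sub_cancel, abs_of_nonneg (by positivity)]
  linarith

theorem cnt_diff {α : ℝ} {S : Sys2} (hS : Good α S.toSys) {N : ℕ} (hN : 1 ≤ N) (U : Set ℝ)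
    {H s t : ℝ} (hH : 2 ≤ H) (hst : s ≤ t) :
    |(({x : ℝ | x ∈ Set.Icc (0 : ℝ) 1 ∧ HeightLE α N H x ∧ x ∈ U ∧ s ≤ x ∧ x ≤ t}).ncard : ℝ) -
      ((NT S N (UE U) H t).toReal - (NT S N (UE U) H s).toReal)| ≤ 3 := by
  have h1 := abs_le.1 (cnt_NT hS hN U (t := t) hH)
  have h2 := abs_le.1 (cnt_NT hS hN U (t := s) hH)
  change _ ≤ ((cntA α N U H t).ncard : ℝ) - _ ∧ ((cntA α N U H t).ncard : ℝ) - _ ≤ _ at h1
  change _ ≤ ((cntA α N U H s).ncard : ℝ) - _ ∧ ((cntA α N U H s).ncard : ℝ) - _ ≤ _ at h2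
  obtain ⟨B, hB⟩ : ∃ B : Set ℝ, B = {x : ℝ | x ∈ Set.Icc (0 : ℝ) 1 ∧ HeightLE α N H x ∧ x ∈ U ∧
    s ≤ x ∧ x ≤ t} := ⟨_, rfl⟩
  rw [← hB]
  have hft : (cntA α N U H t).Finite := cnt_finA hS hN U hH
  have hfs : (cntA α N U H s).Finite := cnt_finA hS hN U hH
  have hBt : B ⊆ cntA α N U H t := by
    rw [hB]
    exact fun x hx => ⟨hx.1, hx.2.1, hx.2.2.1, hx.2.2.2.2⟩
  have hfB : B.Finite := hft.subset hBt
  have hun : B ∪ cntA α N U H s = cntA α N U H t := by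
    ext x
    constructor
    · rintro (hx | hx)
      · exact hBt hx
      · exact ⟨hx.1, hx.2.1, hx.2.2.1, hx.2.2.2.trans hst⟩
    · intro hx
      rcases le_total s x with h | h
      · left
        rw [hB]
        exact ⟨hx.1, hx.2.1, hx.2.2.1, h, hx.2.2.2⟩
      · right
        exact ⟨hx.1, hx.2.1, hx.2.2.1, h⟩
  have hint : (B ∩ cntA α N U H s).ncard ≤ 1 := by
    have hsub : B ∩ cntA α N U H s ⊆ {s} := by
      rintro x ⟨hx1, hx2⟩
      rw [hB] at hx1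
      exact le_antisymm hx2.2.2.2 hx1.2.2.2.1
    have h3 := Set.ncard_le_ncard hsub (Set.finite_singleton s)
    rwa [Set.ncard_singleton] at h3
  have h4 := Set.ncard_union_add_ncard_inter B (cntA α N U H s) hfB hfs
  rw [hun] at h4
  have h5 : ((cntA α N U H t).ncard : ℝ) + ((B ∩ cntA α N U H s).ncard : ℝ) =
      (B.ncard : ℝ) + ((cntA α N U H s).ncard : ℝ) := by exact_mod_cast h4
  have h6 : ((B ∩ cntA α N U H s).ncard : ℝ) ≤ 1 := by exact_mod_cast hint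
  have h7 : (0 : ℝ) ≤ ((B ∩ cntA α N U H s).ncard : ℝ) := Nat.cast_nonneg _
  rw [abs_le]
  constructor
  · linarith [h1.1, h1.2, h2.1, h2.2]
  · linarith [h1.1, h1.2, h2.1, h2.2]

end Pool.Agent.H5.TD
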