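import Pool.Agent.H5.TD.Box

/-!
# JOB TD-22. The number of the points of `U` in a cylinder

`CW S N U w H` = `∑_y vw U y [‖(gw w y)₂‖ ≤ H, ‖(gw w y)₃‖ ≤ H]`, the weighted number of the points of `U` of height `≤ H` with itinerary `w`.

`gw w y = (mul w)⁻¹ (y - off w)` (`gw_eq` in `AB/GW.lean`), so the condition is `‖y₂ - off₂‖ ≤ H ‖mul₂‖`, `‖y₃ - off₃‖ ≤ H ‖mul₃‖`. For `0 < θ ≤ 1/2` and `H` so large that `‖off₂‖ ≤ θ H ‖mul₂‖`, `‖off₃‖ ≤ θ H ‖mul₃‖`: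
`NB2 ((1-θ) H ‖mul₂‖) ((1-θ) H ‖mul₃‖) ≤ CW ≤ NB2 ((1+θ) H ‖mul₂‖) ((1+θ) H ‖mul₃‖)`. For fixed `w` and `H → ∞` `box` applies to both sides (`H3 ≤ H2 ^ 1.05` for large `H`, since `H3/H2` is constant), uniformly in `U`:
`NB2(λ H ‖mul₂‖, λ H ‖mul₃‖).toReal = λ⁴ H⁴ ‖mul₂‖² ‖mul₃‖² (π² dd U ± ε')` and `‖mul₂‖² ‖mul₃‖² = |mul₁|⁻¹` (`W_prod`, `mul_eq_W`). As `dd U ≤ M` (`Claim_bd`), choose `θ`, `ε'` small depending on `ε`, `M`
(`|mul₁|⁻¹ ≤ 1`).
-/

set_option autoImplicit false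

namespace Pool.Agent.H5.TD

open Pool.Agent.H67.Tent Pool.Agent.H49.AB Pool.Agent.H49.PP Finset

open Classical in
/-- Weighted number of the points of `U` of height `≤ H` in the cylinder of `w`. -/
noncomputable def CW (S : Sys2) (N : ℕ) (U : Set E) (w : List Bool) (H : ℝ) : ENNReal :=
  SS (ptX S N) fun y => vw U y *
    (if ‖(gw S 1 w y).2.1‖ ≤ H ∧ ‖(gw S 1 w y).2.2‖ ≤ H then 1 else 0)

private theorem cyl_cond (S : Sys2) (w : List Bool) (y : E) :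
    ‖y.2.1 - (off S.toSys 1 w).2.1‖ = ‖(gw S 1 w y).2.1‖ * ‖(mul S.toSys w).2.1‖ ∧
    ‖y.2.2 - (off S.toSys 1 w).2.2‖ = ‖(gw S 1 w y).2.2‖ * ‖(mul S.toSys w).2.2‖ := by
  have h2 := mul_norm2_pos S.toSys w
  have h3 := mul_norm3_pos S.toSys w
  rw [gw_eq]
  constructor
  · show _ = ‖((mul S.toSys w).2.1)⁻¹ * (y.2.1 - (off S.toSys 1 w).2.1)‖ * _
    rw [norm_mul, norm_inv]
    field_simp
  · show _ = ‖((mul S.toSys w).2.2)⁻¹ * (y.2.2 - (off S.toSys 1 w).2.2)‖ * _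
    rw [norm_mul, norm_inv]
    field_simp

private theorem cyl_up (S : Sys2) {N : ℕ} (U : Set E) (w : List Bool) (H K2 K3 : ℝ)
    (h2 : H * ‖(mul S.toSys w).2.1‖ + ‖(off S.toSys 1 w).2.1‖ ≤ K2)
    (h3 : H * ‖(mul S.toSys w).2.2‖ + ‖(off S.toSys 1 w).2.2‖ ≤ K3) :
    CW S N U w H ≤ NB2 S N U K2 K3 := by
  unfold CW NB2
  refine SS_mono (ptX S N) (fun i => ?_)
  refine mul_le_mul_right ?_ _
  by_cases hc : ‖(gw S 1 w (ptX S N i)).2.1‖ ≤ H ∧ ‖(gw S 1 w (ptX S N i)).2.2‖ ≤ H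
  · rw [if_pos hc, if_pos]
    obtain ⟨e2, e3⟩ := cyl_cond S w (ptX S N i)
    have m2 := (mul_norm2_pos S.toSys w).le
    have m3 := (mul_norm3_pos S.toSys w).le
    have a2 := mul_le_mul_of_nonneg_right hc.1 m2
    have a3 := mul_le_mul_of_nonneg_right hc.2 m3
    rw [← e2] at a2
    rw [← e3] at a3
    constructor
    · have t := norm_add_le ((ptX S N i).2.1 - (off S.toSys 1 w).2.1) (off S.toSys 1 w).2.1
      rw [sub_add_cancel] at t
      linarith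
    · have t := norm_add_le ((ptX S N i).2.2 - (off S.toSys 1 w).2.2) (off S.toSys 1 w).2.2
      rw [sub_add_cancel] at t
      linarith
  · rw [if_neg hc]
    exact zero_le

private theorem cyl_lo (S : Sys2) {N : ℕ} (U : Set E) (w : List Bool) (H K2 K3 : ℝ)
    (h2 : K2 + ‖(off S.toSys 1 w).2.1‖ ≤ H * ‖(mul S.toSys w).2.1‖)
    (h3 : K3 + ‖(off S.toSys 1 w).2.2‖ ≤ H * ‖(mul S.toSys w).2.2‖) :
    NB2 S N U K2 K3 ≤ CW S N U w H := by
  unfold CW NB2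
  refine SS_mono (ptX S N) (fun i => ?_)
  refine mul_le_mul_right ?_ _
  by_cases hc : ‖(ptX S N i).2.1‖ ≤ K2 ∧ ‖(ptX S N i).2.2‖ ≤ K3
  · rw [if_pos hc, if_pos]
    obtain ⟨e2, e3⟩ := cyl_cond S w (ptX S N i)
    have m2 := mul_norm2_pos S.toSys w
    have m3 := mul_norm3_pos S.toSys w
    constructor
    · have t := norm_sub_le (ptX S N i).2.1 (off S.toSys 1 w).2.1
      rw [e2] at t
      have t2 : ‖(gw S 1 w (ptX S N i)).2.1‖ * ‖(mul S.toSys w).2.1‖ ≤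
          H * ‖(mul S.toSys w).2.1‖ := by linarith [hc.1]
      exact le_of_mul_le_mul_right t2 m2
    · have t := norm_sub_le (ptX S N i).2.2 (off S.toSys 1 w).2.2
      rw [e3] at t
      have t2 : ‖(gw S 1 w (ptX S N i)).2.2‖ * ‖(mul S.toSys w).2.2‖ ≤
          H * ‖(mul S.toSys w).2.2‖ := by linarith [hc.2]
      exact le_of_mul_le_mul_right t2 m3
  · rw [if_neg hc]
    exact zero_le

theorem CW_fin (S : Sys2) {N : ℕ} (hN : 1 ≤ N) (U : Set E) (w : List Bool) (H : ℝ) :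
    CW S N U w H ≠ ⊤ :=
  ne_top_of_le_ne_top (NB2_fin S hN U _ _) (cyl_up S U w H _ _ le_rfl le_rfl)

/-- The box count at the scale `l * H`. -/
private theorem cyl_box (S : Sys2) {N : ℕ} (hN : 1 ≤ N) {dd : Set E → ℝ} (h : Claim S N dd 1.1)
    (w : List Bool) (e l : ℝ) (he : 0 < e) (hl : 0 < l) : ∃ H0 : ℝ, 1 ≤ H0 ∧ ∀ U : Set E,
      Inv S N U → ∀ H : ℝ, H0 ≤ H →
      |(NB2 S N U (l * H * ‖(mul S.toSys w).2.1‖) (l * H * ‖(mul S.toSys w).2.2‖)).toReal / H ^ 4 -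
        l ^ 4 * (|(mul S.toSys w).1|⁻¹ * (Real.pi ^ 2 * dd U))| ≤ l ^ 4 * e := by
  obtain ⟨H1, hH1, hb⟩ := box S hN h e he
  have m2 := mul_norm2_pos S.toSys w
  have m3 := mul_norm3_pos S.toSys w
  have m1 := mul_abs1_ge_one S.toSys w
  set c2 := ‖(mul S.toSys w).2.1‖ with hc2
  set c3 := ‖(mul S.toSys w).2.2‖ with hc3
  set c1 := |(mul S.toSys w).1| with hc1
  have hprod : c1 * c2 ^ 2 * c3 ^ 2 = 1 := by
    rw [hc1, hc2, hc3, mul_eq_W]
    exact W_prod S _ _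
  have hc1p : 0 < c1 := by linarith
  have hinv : c1⁻¹ = c2 ^ 2 * c3 ^ 2 := by
    refine inv_eq_of_mul_eq_one_right ?_
    rw [← hprod]; ring
  refine ⟨max 1 (max (H1 / (l * c2)) (max (H1 / (l * c3)) ((c3 / c2) ^ 20 / (l * c2)))),
    le_max_left _ _, ?_⟩
  intro U hU H hH
  have b1 : 1 ≤ H := (le_max_left _ _).trans hH
  have b2 : H1 / (l * c2) ≤ H := ((le_max_left _ _).trans (le_max_right _ _)).trans hH
  have b3 : H1 / (l * c3) ≤ H :=
    ((le_max_left _ _).trans ((le_max_right _ _).trans (le_max_right _ _))).trans hH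
  have b4 : (c3 / c2) ^ 20 / (l * c2) ≤ H :=
    ((le_max_right _ _).trans ((le_max_right _ _).trans (le_max_right _ _))).trans hH
  have hHp : 0 < H := by linarith
  have d2 : H1 ≤ l * H * c2 := by
    rw [div_le_iff₀ (by positivity)] at b2
    calc H1 ≤ H * (l * c2) := b2
      _ = l * H * c2 := by ring
  have d3 : H1 ≤ l * H * c3 := by
    rw [div_le_iff₀ (by positivity)] at b3
    calc H1 ≤ H * (l * c3) := b3
      _ = l * H * c3 := by ring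
  have hx : 0 < l * H * c2 := by positivity
  have d4 : l * H * c3 ≤ (l * H * c2) ^ (1.05 : ℝ) := by
    rw [div_le_iff₀ (by positivity)] at b4
    have q1 : (c3 / c2) ^ 20 ≤ l * H * c2 := by
      calc (c3 / c2) ^ 20 ≤ H * (l * c2) := b4
        _ = l * H * c2 := by ring
    have q2 : c3 / c2 ≤ (l * H * c2) ^ (0.05 : ℝ) := by
      have q3 : c3 / c2 = ((c3 / c2) ^ 20) ^ (0.05 : ℝ) := by
        rw [← Real.rpow_natCast, ← Real.rpow_mul (by positivity)]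
        norm_num
      rw [q3]
      exact Real.rpow_le_rpow (by positivity) q1 (by norm_num)
    have q4 : (l * H * c2) ^ (1.05 : ℝ) = (l * H * c2) * (l * H * c2) ^ (0.05 : ℝ) := by
      have : (1.05 : ℝ) = 1 + 0.05 := by norm_num
      rw [this, Real.rpow_add hx, Real.rpow_one]
    rw [q4]
    calc l * H * c3 = (l * H * c2) * (c3 / c2) := by field_simp
      _ ≤ _ := mul_le_mul_of_nonneg_left q2 hx.le
  have key := hb U hU _ _ d2 d3 d4
  have e1 : (l * H * c2) ^ 2 * (l * H * c3) ^ 2 = l ^ 4 * H ^ 4 * c1⁻¹ := by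
    rw [hinv]; ring
  rw [e1] at key
  set X := (NB2 S N U (l * H * c2) (l * H * c3)).toReal with hX
  have hc1i : c1⁻¹ ≤ 1 := inv_le_one_of_one_le₀ m1
  have hc1ip : 0 < c1⁻¹ := inv_pos.2 hc1p
  have e2 : X / H ^ 4 - l ^ 4 * (c1⁻¹ * (Real.pi ^ 2 * dd U)) =
      (l ^ 4 * c1⁻¹) * (X / (l ^ 4 * H ^ 4 * c1⁻¹) - Real.pi ^ 2 * dd U) := by
    field_simp
  rw [e2, abs_mul, abs_of_pos (by positivity)]
  calc l ^ 4 * c1⁻¹ * |X / (l ^ 4 * H ^ 4 * c1⁻¹) - Real.pi ^ 2 * dd U|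
      ≤ l ^ 4 * 1 * e := by
        refine mul_le_mul ?_ key (abs_nonneg _) (by positivity)
        exact mul_le_mul_of_nonneg_left hc1i (by positivity)
    _ = l ^ 4 * e := by ring

theorem cyl (S : Sys2) {N : ℕ} (hN : 1 ≤ N) {dd : Set E → ℝ} (h : Claim S N dd 1.1)
    (w : List Bool) (ε : ℝ) (hε : 0 < ε) : ∃ H0 : ℝ, 1 ≤ H0 ∧ ∀ U : Set E, Inv S N U →
      ∀ H : ℝ, H0 ≤ H →
      |(CW S N U w H).toReal / H ^ 4 - |(mul S.toSys w).1|⁻¹ * (Real.pi ^ 2 * dd U)| ≤ ε := by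
  obtain ⟨M, hM, hMb⟩ := Claim_bd S hN (by norm_num) h
  set θ : ℝ := min (1 / 2) (ε / (180 * M)) with hθ
  have hθ0 : 0 < θ := lt_min (by norm_num) (by positivity)
  have hθ1 : θ ≤ 1 / 2 := min_le_left _ _
  have hθ2 : θ ≤ ε / (180 * M) := min_le_right _ _
  obtain ⟨Ha, hHa, hba⟩ := cyl_box S hN h w (ε / 12) (1 - θ) (by positivity) (by linarith)
  obtain ⟨Hb, hHb, hbb⟩ := cyl_box S hN h w (ε / 12) (1 + θ) (by positivity) (by linarith)
  have m2 := mul_norm2_pos S.toSys w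
  have m3 := mul_norm3_pos S.toSys w
  have m1 := mul_abs1_ge_one S.toSys w
  refine ⟨max (max Ha Hb) (max (‖(off S.toSys 1 w).2.1‖ / (θ * ‖(mul S.toSys w).2.1‖))
    (‖(off S.toSys 1 w).2.2‖ / (θ * ‖(mul S.toSys w).2.2‖))),
    hHa.trans ((le_max_left _ _).trans (le_max_left _ _)), ?_⟩
  intro U hU H hH
  have g1 : Ha ≤ H := ((le_max_left _ _).trans (le_max_left _ _)).trans hH
  have g2 : Hb ≤ H := ((le_max_right _ _).trans (le_max_left _ _)).trans hH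
  have g3 : ‖(off S.toSys 1 w).2.1‖ / (θ * ‖(mul S.toSys w).2.1‖) ≤ H :=
    ((le_max_left _ _).trans (le_max_right _ _)).trans hH
  have g4 : ‖(off S.toSys 1 w).2.2‖ / (θ * ‖(mul S.toSys w).2.2‖) ≤ H :=
    ((le_max_right _ _).trans (le_max_right _ _)).trans hH
  rw [div_le_iff₀ (by positivity)] at g3 g4
  have hHp : 0 < H := by linarith
  have ka := hba U hU H g1
  have kb := hbb U hU H g2
  have up : CW S N U w H ≤ NB2 S N U ((1 + θ) * H * ‖(mul S.toSys w).2.1‖)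
      ((1 + θ) * H * ‖(mul S.toSys w).2.2‖) := by
    refine cyl_up S U w H _ _ ?_ ?_
    · calc _ ≤ H * ‖(mul S.toSys w).2.1‖ + H * (θ * ‖(mul S.toSys w).2.1‖) := by linarith
        _ = _ := by ring
    · calc _ ≤ H * ‖(mul S.toSys w).2.2‖ + H * (θ * ‖(mul S.toSys w).2.2‖) := by linarith
        _ = _ := by ring
  have lo : NB2 S N U ((1 - θ) * H * ‖(mul S.toSys w).2.1‖)
      ((1 - θ) * H * ‖(mul S.toSys w).2.2‖) ≤ CW S N U w H := by
    refine cyl_lo S U w H _ _ ?_ ?_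
    · calc _ ≤ (1 - θ) * H * ‖(mul S.toSys w).2.1‖ + H * (θ * ‖(mul S.toSys w).2.1‖) := by
            linarith
        _ = _ := by ring
    · calc _ ≤ (1 - θ) * H * ‖(mul S.toSys w).2.2‖ + H * (θ * ‖(mul S.toSys w).2.2‖) := by
            linarith
        _ = _ := by ring
  have up' := ENNReal.toReal_mono (NB2_fin S hN U _ _) up
  have lo' := ENNReal.toReal_mono (CW_fin S hN U w H) lo
  have hH4 : 0 < H ^ 4 := by positivity
  have up'' := div_le_div_of_nonneg_right up' hH4.le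
  have lo'' := div_le_div_of_nonneg_right lo' hH4.le
  obtain ⟨dd0, ddM⟩ := hMb U hU
  set D := |(mul S.toSys w).1|⁻¹ * (Real.pi ^ 2 * dd U) with hD
  have hc0 : 0 < |(mul S.toSys w).1|⁻¹ := inv_pos.2 (by linarith)
  have hc1 : |(mul S.toSys w).1|⁻¹ ≤ 1 := inv_le_one_of_one_le₀ m1
  have hpi : Real.pi ^ 2 ≤ 10 := by
    have := Real.pi_lt_d2
    have := Real.pi_pos
    nlinarith
  have hD0 : 0 ≤ D := by positivity
  have hD1 : D ≤ 10 * M := by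
    have q1 : Real.pi ^ 2 * dd U ≤ 10 * M := mul_le_mul hpi ddM dd0 (by norm_num)
    have q2 : 0 ≤ Real.pi ^ 2 * dd U := by positivity
    calc D ≤ 1 * (Real.pi ^ 2 * dd U) := mul_le_mul_of_nonneg_right hc1 q2
      _ ≤ 10 * M := by linarith
  have hθM : θ * (90 * M) ≤ ε / 2 := by
    rw [le_div_iff₀ (by positivity)] at hθ2
    linarith
  have p1 : (1 + θ) ^ 4 ≤ 1 + 9 * θ := by
    have a2 : θ ^ 2 ≤ θ * (1 / 2) := by nlinarith
    have a3 : θ ^ 3 ≤ θ * (1 / 4) := by nlinarith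
    have a4 : θ ^ 4 ≤ θ * (1 / 8) := by nlinarith
    nlinarith
  have p2 : (1 + θ) ^ 4 ≤ 6 := by linarith
  have p3 : 1 - 9 * θ ≤ (1 - θ) ^ 4 := by
    have a2 : θ ^ 2 ≤ θ * (1 / 2) := by nlinarith
    have a3 : θ ^ 3 ≤ θ * (1 / 4) := by nlinarith
    have a4 : 0 ≤ θ ^ 4 := by positivity
    have a5 : 0 ≤ θ ^ 2 := by positivity
    nlinarith
  have p4 : (1 - θ) ^ 4 ≤ 6 := by
    have : (1 - θ) ^ 4 ≤ 1 := pow_le_one₀ (by linarith) (by linarith)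
    linarith
  have ka' := abs_le.1 ka
  have kb' := abs_le.1 kb
  have u1 : (1 + θ) ^ 4 * D ≤ D + ε / 2 := by
    have := mul_le_mul_of_nonneg_right p1 hD0
    have : θ * D ≤ θ * (10 * M) := mul_le_mul_of_nonneg_left hD1 hθ0.le
    linarith
  have u2 : D - ε / 2 ≤ (1 - θ) ^ 4 * D := by
    have := mul_le_mul_of_nonneg_right p3 hD0
    have : θ * D ≤ θ * (10 * M) := mul_le_mul_of_nonneg_left hD1 hθ0.le
    linarith
  have u3 : (1 + θ) ^ 4 * (ε / 12) ≤ ε / 2 := by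
    have := mul_le_mul_of_nonneg_right p2 (by positivity : 0 ≤ ε / 12)
    linarith
  have u4 : (1 - θ) ^ 4 * (ε / 12) ≤ ε / 2 := by
    have := mul_le_mul_of_nonneg_right p4 (by positivity : 0 ≤ ε / 12)
    linarith
  rw [abs_le]
  constructor
  · linarith [ka'.1]
  · linarith [kb'.2]

end Pool.Agent.H5.TD
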