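import Pool.Agent.H49.PP.Final

/-!
# TD: natural densities of the invariant sets of the tent map. Definitions (helper5)

Problem `MP_df7698_an`. Notation of `H67/Tent`, `H49/AB` and `H49/PP`. `X_N` is the set of the points `z` of
`E = ℝ × ℂ × ℂ` with `GX S N z` (`N z ∈ Lam`, `0 ≤ z.1 ≤ 1`). A set `U` is invariant if `T z ∈ U ↔ z ∈ U` on `X_N`.
`vw U` is the indicator function of `U`, with the value `1/2` at the two points `0` and `1` (at `y = 1` the two
inverse branches agree, and with this weight the change of variables `z = gw w y` is exact).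
`DD S N U R Q` is the density of `U` for the Gaussian weight of width `R` at the second place and `Q` at the third.
-/

set_option autoImplicit false

namespace Pool.Agent.H5.TD

open Pool.Agent.H67.Tent Pool.Agent.H49.AB Pool.Agent.H49.PP Finset

/-- Expectation of `G` for the binomial distribution (`o` trials, probabilities `p`, `q`). -/
noncomputable def EE (p q : ℝ) (o : ℕ) (G : ℕ → ℝ) : ℝ := ∑ x ∈ AD o, bin p q x.1 x.2 * G x.2

/-- The functions of the harmonic analysis. -/
structure HF (p q A B M C : ℝ) (o0 : ℕ) (f : ℝ → ℝ) : Prop where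
  bd : ∀ s, |f s| ≤ M
  lip : ∀ s t, |f s - f t| ≤ C * |s - t|
  harm : ∀ (o : ℕ) (s : ℝ), o0 ≤ o → 40 * (o : ℝ) ≤ s →
    |f s - ∑ x ∈ AD o, bin p q x.1 x.2 * f (s + A * x.1 - B * x.2)| ≤ C / o

/-- The conditions on the parameters. -/
structure PC (p q A B : ℝ) : Prop where
  hp : 0 < p
  hq : 0 < q
  pq : p + q = 1
  hA : 0 < A
  hA1 : A ≤ 1
  hB : 0 < B
  hB1 : B ≤ 1
  drift : 0 < q * B - p * A
  irr : ∀ i j : ℤ, (i : ℝ) * A = j * B → i = 0

/-- Average of `f` over an interval of length `δ`. -/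
noncomputable def VV (δ : ℝ) (f : ℝ → ℝ) (s : ℝ) : ℝ := (∫ u in s..(s + δ), f u) / δ

open Classical in
/-- Indicator function of `U`, with the value `1/2` at `0` and `1`. -/
noncomputable def vw (U : Set E) (z : E) : ENNReal :=
  if z ∈ U then (if z = 0 ∨ z = 1 then 2⁻¹ else 1) else 0

/-- `U` is invariant on the points with denominator `N`. -/
def Inv (S : Sys2) (N : ℕ) (U : Set E) : Prop :=
  ∀ z, GX S N z → (T S.toSys 1 z ∈ U ↔ z ∈ U)

/-- Gaussian density of `U`. -/
noncomputable def DD (S : Sys2) (N : ℕ) (U : Set E) (R Q : ℝ) : ℝ :=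
  (SmX S N R Q (vw U)).toReal / (R ^ 2 * Q ^ 2)

/-- The density as a function of the logarithm of the width. -/
noncomputable def DDf (S : Sys2) (N : ℕ) (U : Set E) (s : ℝ) : ℝ :=
  DD S N U (Real.exp (max s 0)) 1

/-- `dd` is the limit of the densities, for `1 ≤ Q ≤ R ^ c`, uniformly in the invariant sets. -/
def Claim (S : Sys2) (N : ℕ) (dd : Set E → ℝ) (c : ℝ) : Prop :=
  ∀ ε : ℝ, 0 < ε → ∃ R0 : ℝ, 1 ≤ R0 ∧ ∀ U : Set E, Inv S N U → ∀ R Q : ℝ, R0 ≤ R → 1 ≤ Q →
    Q ≤ R ^ c → |DD S N U R Q - dd U| ≤ ε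

open Classical in
/-- Weighted number of the points of `U` in a box. -/
noncomputable def NB (S : Sys2) (N : ℕ) (U : Set E) (H : ℝ) : ENNReal :=
  SS (ptX S N) fun z => vw U z * (if ‖z.2.1‖ ≤ H ∧ ‖z.2.2‖ ≤ H then 1 else 0)

end Pool.Agent.H5.TD
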