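import Pool.Agent.H5.TD.Defs

/-!
# JOB TD-11. `log |α₂|` and `log |β₂|` are linearly independent over `ℚ`; the conditions `PC`

`conj_hom`: let `K = algebraicClosure ℚ ℂ`. `z := S.a.2.1` is a root of `X⁵ - X³ - 1` (`S.a5`), so it is integral over `ℚ` and lies in `K`. We want a ring
homomorphism `φ : K → ℂ` with `φ z = S.a.1`. By `IntermediateField`/`exists_algHom_of_splits_of_aeval` (or `IsConjRoot`, `IsAlgClosed.lift`…) it suffices that
`aeval (S.a.1 : ℂ) (minpoly ℚ z) = 0`. Either prove that `X⁵ - X³ - 1` is irreducible over `ℚ` (it is irreducible mod 2), or use `norm_ge`: if `f` is an integer polynomial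
with `f(S.a.2.1) = 0` then `f(S.a) := ∑ f_i • S.a ^ i ∈ Lam` (`one_mem`, `a_mul_mem`) has second coordinate `0`, so `f(S.a) = 0` (`norm_ge'`) and `f(S.a.1) = 0`; apply this to
`d · minpoly` with a common denominator `d` (`IsLocalization.integerNormalization` or `Polynomial` API).

`irr_nat`: let `i j : ℕ` with `‖(W S i j).2.1‖ = 1`. Then `i = 0` and `j = 0`. Put `g t = t ^ i * (t * (t-1)⁻¹) ^ j` on a field (`β = α/(α-1)`, `b_eq1`, `b_eq2`), so
`g(α₂) = ± (W S i j).2.1` has modulus `1`; so `g(z) g(conj z) = 1` in `ℂ` (`z = α₂`), also in `K` (`conj z ∈ K`, it is a root of the same polynomial). Apply `φ`: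
`g(α₁) g(ρ) = 1` with `ρ = φ (conj z)`, `ρ ≠ φ z = α₁` (`φ` is injective, `z ≠ conj z` by `S.im2`), `ρ⁵ = ρ³ + 1`. The five numbers `α₁, α₂, conj α₂, α₃, conj α₃` are distinct roots of
`X⁵ - X³ - 1` (`S.im2`, `S.im3`, `S.ne23`, and `S.a.1` real), so `ρ` is one of `α₂, conj α₂, α₃, conj α₃` (a polynomial of degree 5 has at most five roots). Let `w = |(W S i j).1| = |g α₁|`.
If `ρ` is `α₂` or `conj α₂` then `|g ρ| = 1`, so `w = 1`. If `ρ` is `α₃` or its conjugate then `‖(W S i j).2.2‖ = 1/w`, and `W_prod`: `w · 1 · w⁻² = 1`, so `w = 1`.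
`w = α₁^i β₁^j` (`W1`), `α₁, β₁ > 1`, so `i = j = 0`.

`irr2`: `A := log ‖S.a.2.1‖ > 0`, `B := -log ‖S.b.2.1‖ > 0`. If `i A = j B` then `i, j` have the same sign (or are both zero); replace `(i, j)` by `(-i, -j)` if necessary, so both are natural numbers and
`log ‖(W S i j).2.1‖ = i A - j B = 0` (`W2`).
`pc`: `ap`, `bp`, `pq`, `Num` (private lemmas there: `0.048 ≤ A ≤ 0.05`, `0.64 ≤ B ≤ 0.65`; drift = `gam2 S`, `gam2_bd`).
`lw_AB`: `lw S i j = i A - j B` (`W2`).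
-/

set_option autoImplicit false

namespace Pool.Agent.H5.TD

open Pool.Agent.H67.Tent Pool.Agent.H49.AB Pool.Agent.H49.PP Finset

private theorem irr_ev (S : Sys2) (f : Polynomial ℤ) :
    f.eval₂ (Int.castRingHom E) S.a ∈ S.Lam := by
  have hp : ∀ n : ℕ, S.a ^ n ∈ S.Lam := by
    intro n
    induction n with
    | zero => rw [pow_zero]; exact S.one_mem
    | succ n ih => rw [pow_succ']; exact S.a_mul_mem _ ih
  induction f using Polynomial.induction_on' with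
  | add p q hp hq => rw [Polynomial.eval₂_add]; exact S.Lam.add_mem hp hq
  | monomial n c =>
    rw [Polynomial.eval₂_monomial, eq_intCast, ← zsmul_eq_mul]
    exact S.Lam.zsmul_mem (hp n) c

private theorem irr_zero (S : Sys2) (f : Polynomial ℤ)
    (h : f.eval₂ (Int.castRingHom ℂ) S.a.2.1 = 0) :
    f.eval₂ (Int.castRingHom ℝ) S.a.1 = 0 := by
  have hm := irr_ev S f
  have h1 : (f.eval₂ (Int.castRingHom E) S.a).2.1 = f.eval₂ (Int.castRingHom ℂ) S.a.2.1 := by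
    have h2 := Polynomial.hom_eval₂ f (Int.castRingHom E)
      ((RingHom.fst ℂ ℂ).comp (RingHom.snd ℝ (ℂ × ℂ))) S.a
    rw [RingHom.ext_int ((((RingHom.fst ℂ ℂ).comp (RingHom.snd ℝ (ℂ × ℂ)))).comp
      (Int.castRingHom E)) (Int.castRingHom ℂ)] at h2
    exact h2
  have h3 : (f.eval₂ (Int.castRingHom E) S.a).1 = f.eval₂ (Int.castRingHom ℝ) S.a.1 := by
    have h2 := Polynomial.hom_eval₂ f (Int.castRingHom E) (RingHom.fst ℝ (ℂ × ℂ)) S.a
    rw [RingHom.ext_int ((RingHom.fst ℝ (ℂ × ℂ)).comp (Int.castRingHom E))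
      (Int.castRingHom ℝ)] at h2
    exact h2
  by_contra hne
  have hz : f.eval₂ (Int.castRingHom E) S.a ≠ 0 := by
    intro h0
    rw [h0] at h3
    exact hne h3.symm
  have h4 := norm_ge' S hm hz
  rw [h1, h] at h4
  norm_num at h4

private theorem irr_a5 (S : Sys2) : S.a.2.1 ^ 5 = S.a.2.1 ^ 3 + 1 :=
  congrArg (fun z : E => z.2.1) S.a5

private theorem irr_int {x : ℂ} (hx : x ^ 5 = x ^ 3 + 1) : IsIntegral ℤ x := by
  refine ⟨Polynomial.X ^ 5 - Polynomial.X ^ 3 - 1, by monicity!, ?_⟩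
  simp [hx]

private theorem irr_alg {x : ℂ} (hx : x ^ 5 = x ^ 3 + 1) : x ∈ algebraicClosure ℚ ℂ := by
  rw [mem_algebraicClosure_iff]
  exact (irr_int hx).tower_top.isAlgebraic

theorem conj_hom (S : Sys2) : ∃ (φ : algebraicClosure ℚ ℂ →+* ℂ) (z : algebraicClosure ℚ ℂ),
    (z : ℂ) = S.a.2.1 ∧ φ z = (S.a.1 : ℂ) := by
  have hint := irr_int (irr_a5 S)
  set z : algebraicClosure ℚ ℂ := ⟨S.a.2.1, irr_alg (irr_a5 S)⟩ with hz
  have hmin : minpoly ℚ z = minpoly ℚ S.a.2.1 :=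
    (minpoly.algHom_eq (algebraicClosure ℚ ℂ).val Subtype.val_injective z).symm
  have key : Polynomial.aeval (S.a.1 : ℂ) (minpoly ℚ z) = 0 := by
    rw [hmin, minpoly.isIntegrallyClosed_eq_field_fractions' ℚ hint,
      Polynomial.aeval_map_algebraMap]
    have h1 : (minpoly ℤ S.a.2.1).eval₂ (Int.castRingHom ℂ) S.a.2.1 = 0 := by
      have h2 := minpoly.aeval ℤ S.a.2.1
      rwa [Polynomial.aeval_def, algebraMap_int_eq] at h2
    have h3 := irr_zero S _ h1
    rw [Polynomial.aeval_def, algebraMap_int_eq]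
    have h4 := Polynomial.hom_eval₂ (minpoly ℤ S.a.2.1) (Int.castRingHom ℝ) Complex.ofRealHom S.a.1
    rw [h3, map_zero, RingHom.ext_int (Complex.ofRealHom.comp (Int.castRingHom ℝ))
      (Int.castRingHom ℂ)] at h4
    exact h4.symm
  obtain ⟨φ, hφ⟩ := IntermediateField.exists_algHom_of_splits_of_aeval (F := ℚ)
    (E := algebraicClosure ℚ ℂ) (K := ℂ)
    (fun s => ⟨((algebraicClosure.isAlgebraic ℚ ℂ).isAlgebraic s).isIntegral,
      IsAlgClosed.splits _⟩) key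
  exact ⟨φ.toRingHom, z, rfl, hφ⟩

/-- The five roots. -/
private theorem irr_roots (S : Sys2) {x : ℂ} (hx : x ^ 5 = x ^ 3 + 1) :
    x = S.a.1 ∨ x = S.a.2.1 ∨ x = (starRingEnd ℂ) S.a.2.1 ∨ x = S.a.2.2 ∨
      x = (starRingEnd ℂ) S.a.2.2 := by
  classical
  have r1 : (S.a.1 : ℂ) ^ 5 = (S.a.1 : ℂ) ^ 3 + 1 := by
    have h : S.a.1 ^ 5 = S.a.1 ^ 3 + 1 := congrArg Prod.fst S.a5
    exact_mod_cast congrArg (fun t : ℝ => (t : ℂ)) h
  have r2 := irr_a5 S
  have r2' : ((starRingEnd ℂ) S.a.2.1) ^ 5 = ((starRingEnd ℂ) S.a.2.1) ^ 3 + 1 := by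
    have h := congrArg (starRingEnd ℂ) r2
    simpa using h
  have r3 : S.a.2.2 ^ 5 = S.a.2.2 ^ 3 + 1 := congrArg (fun z : E => z.2.2) S.a5
  have r3' : ((starRingEnd ℂ) S.a.2.2) ^ 5 = ((starRingEnd ℂ) S.a.2.2) ^ 3 + 1 := by
    have h := congrArg (starRingEnd ℂ) r3
    simpa using h
  by_contra hc
  push Not at hc
  obtain ⟨c1, c2, c3, c4, c5⟩ := hc
  have i2 := S.im2
  have i3 := S.im3
  have n12 : (S.a.1 : ℂ) ≠ S.a.2.1 := by
    intro h; rw [← h] at i2; simp at i2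
  have n12' : (S.a.1 : ℂ) ≠ (starRingEnd ℂ) S.a.2.1 := by
    intro h
    have h1 := congrArg Complex.im h
    simp at h1
    linarith
  have n13 : (S.a.1 : ℂ) ≠ S.a.2.2 := by
    intro h; rw [← h] at i3; simp at i3
  have n13' : (S.a.1 : ℂ) ≠ (starRingEnd ℂ) S.a.2.2 := by
    intro h
    have h1 := congrArg Complex.im h
    simp at h1
    linarith
  have n22' : S.a.2.1 ≠ (starRingEnd ℂ) S.a.2.1 := by
    intro h
    have h1 := congrArg Complex.im h
    simp at h1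
    linarith
  have n23 := S.ne23
  have n23' : S.a.2.1 ≠ (starRingEnd ℂ) S.a.2.2 := by
    intro h
    have h1 := congrArg Complex.im h
    simp at h1
    linarith
  have n2'3 : (starRingEnd ℂ) S.a.2.1 ≠ S.a.2.2 := by
    intro h
    have h1 := congrArg Complex.im h
    simp at h1
    linarith
  have n2'3' : (starRingEnd ℂ) S.a.2.1 ≠ (starRingEnd ℂ) S.a.2.2 := by
    intro h
    exact n23 ((starRingEnd ℂ).injective h)
  have n33' : S.a.2.2 ≠ (starRingEnd ℂ) S.a.2.2 := by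
    intro h
    have h1 := congrArg Complex.im h
    simp at h1
    linarith
  set P : Polynomial ℂ := Polynomial.X ^ 5 - Polynomial.X ^ 3 - 1 with hP
  have hPd : P.natDegree = 5 := by
    rw [hP]; compute_degree!
  have hP0 : P ≠ 0 := by
    intro h0
    rw [h0] at hPd
    simp at hPd
  have hmem : ∀ t : ℂ, t ^ 5 = t ^ 3 + 1 → t ∈ P.roots := by
    intro t ht
    rw [Polynomial.mem_roots hP0, Polynomial.IsRoot.def, hP]
    simp [ht]
  let Z : Finset ℂ := {x, (S.a.1 : ℂ), S.a.2.1, (starRingEnd ℂ) S.a.2.1, S.a.2.2,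
    (starRingEnd ℂ) S.a.2.2}
  have hZ : Z.card = 6 := by
    simp only [Z]
    rw [Finset.card_insert_of_notMem, Finset.card_insert_of_notMem, Finset.card_insert_of_notMem,
      Finset.card_insert_of_notMem, Finset.card_insert_of_notMem, Finset.card_singleton]
    all_goals simp only [Finset.mem_insert, Finset.mem_singleton, not_or]
    · exact n33'
    · exact ⟨n2'3, n2'3'⟩
    · exact ⟨n22', n23, n23'⟩
    · exact ⟨n12, n12', n13, n13'⟩
    · exact ⟨c1, c2, c3, c4, c5⟩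
  have hle : Z.card ≤ P.natDegree := by
    apply Polynomial.card_le_degree_of_subset_roots
    intro t ht
    have ht' : t ∈ Z := ht
    simp only [Z, Finset.mem_insert, Finset.mem_singleton] at ht'
    rcases ht' with h | h | h | h | h | h <;> rw [h] <;> apply hmem <;> assumption
  omega

/-- `β = α / (α - 1)`. -/
private theorem irr_b (a b : ℂ) (h : b * (a - 1) = a) (ha : a ≠ 0) : b = a * (a - 1)⁻¹ := by
  have h1 : a - 1 ≠ 0 := by
    intro h0
    rw [h0, mul_zero] at h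
    exact ha h.symm
  rw [eq_mul_inv_iff_mul_eq₀ h1]
  exact h

theorem irr_nat (S : Sys2) (i j : ℕ) (h : ‖(W S i j).2.1‖ = 1) : i = 0 ∧ j = 0 := by
  obtain ⟨φ, z, hz, hφ⟩ := conj_hom S
  have r2 := irr_a5 S
  have r2' : ((starRingEnd ℂ) S.a.2.1) ^ 5 = ((starRingEnd ℂ) S.a.2.1) ^ 3 + 1 := by
    have h := congrArg (starRingEnd ℂ) r2
    simpa using h
  set w : algebraicClosure ℚ ℂ := ⟨(starRingEnd ℂ) S.a.2.1, irr_alg r2'⟩ with hw
  have hwc : (w : ℂ) = (starRingEnd ℂ) S.a.2.1 := rfl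
  have a1g : (1 : ℝ) < S.a.1 := by linarith [S.a1l]
  have b1g : (1 : ℝ) < S.b.1 := by linarith [S.b1_gt]
  have a2n : S.a.2.1 ≠ 0 := by
    have := a2_pos S.toSys
    exact norm_pos_iff.mp this
  have a3n : S.a.2.2 ≠ 0 := by
    have := a3_pos S.toSys
    exact norm_pos_iff.mp this
  have e2 : ‖S.a.2.1 ^ i * (S.a.2.1 * (S.a.2.1 - 1)⁻¹) ^ j‖ = ‖(W S i j).2.1‖ := by
    rw [W2, ← irr_b _ _ (b_eq2 S) a2n, norm_mul, norm_pow, norm_pow]
  have e3 : ‖S.a.2.2 ^ i * (S.a.2.2 * (S.a.2.2 - 1)⁻¹) ^ j‖ = ‖(W S i j).2.2‖ := by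
    rw [W3, ← irr_b _ _ (b_eq3 S) a3n, norm_mul, norm_pow, norm_pow]
  have e1 : ‖(S.a.1 : ℂ) ^ i * ((S.a.1 : ℂ) * ((S.a.1 : ℂ) - 1)⁻¹) ^ j‖ = |(W S i j).1| := by
    have hb : (S.b.1 : ℂ) * ((S.a.1 : ℂ) - 1) = (S.a.1 : ℂ) := by
      exact_mod_cast congrArg (fun t : ℝ => (t : ℂ)) (b_eq1 S)
    have ha : (S.a.1 : ℂ) ≠ 0 := by
      exact_mod_cast (ap S).ne'
    rw [W1, ← irr_b _ _ hb ha, norm_mul, norm_pow, norm_pow, Complex.norm_real, Complex.norm_real,
      Real.norm_eq_abs, Real.norm_eq_abs, abs_of_pos (ap S), abs_of_pos (bp S)]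
  -- the relation in the field of algebraic numbers
  have hK : (z ^ i * (z * (z - 1)⁻¹) ^ j) * (w ^ i * (w * (w - 1)⁻¹) ^ j) = 1 := by
    apply Subtype.val_injective
    push_cast
    rw [hz, hwc]
    have e4 : ((starRingEnd ℂ) S.a.2.1) ^ i *
        ((starRingEnd ℂ) S.a.2.1 * ((starRingEnd ℂ) S.a.2.1 - 1)⁻¹) ^ j
        = (starRingEnd ℂ) (S.a.2.1 ^ i * (S.a.2.1 * (S.a.2.1 - 1)⁻¹) ^ j) := by
      simp only [map_mul, map_pow, map_inv₀, map_sub, map_one]
    rw [e4, Complex.mul_conj, Complex.normSq_eq_norm_sq, e2, h]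
    norm_num
  have hφK := congrArg φ hK
  simp only [map_mul, map_pow, map_inv₀, map_sub, map_one, hφ] at hφK
  have hρ5 : (φ w) ^ 5 = (φ w) ^ 3 + 1 := by
    have h1 : w ^ 5 = w ^ 3 + 1 := by
      apply Subtype.val_injective
      push_cast
      rw [hwc]
      exact r2'
    have h2 := congrArg φ h1
    simpa using h2
  have hρ1 : φ w ≠ (S.a.1 : ℂ) := by
    rw [← hφ]
    intro h1
    have h2 := φ.injective h1
    have h3 : (w : ℂ) = z := congrArg Subtype.val h2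
    rw [hwc, hz] at h3
    have h4 := congrArg Complex.im h3
    simp at h4
    linarith [S.im2]
  have hnorm := congrArg norm hφK
  rw [norm_mul, e1, norm_one] at hnorm
  have hw1 : |(W S i j).1| = 1 := by
    have hpr := W_prod S i j
    rw [h, one_pow, mul_one] at hpr
    have hcase2 : ‖(φ w) ^ i * (φ w * (φ w - 1)⁻¹) ^ j‖ = ‖(W S i j).2.1‖ →
        |(W S i j).1| = 1 := by
      intro h1
      rw [h1, h, mul_one] at hnorm
      exact hnorm
    have hcase3 : ‖(φ w) ^ i * (φ w * (φ w - 1)⁻¹) ^ j‖ = ‖(W S i j).2.2‖ →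
        |(W S i j).1| = 1 := by
      intro h1
      rw [h1] at hnorm
      have h2 : |(W S i j).1| * ‖(W S i j).2.2‖ ^ 2
          = |(W S i j).1| * ‖(W S i j).2.2‖ * ‖(W S i j).2.2‖ := by ring
      rw [h2, hnorm, one_mul] at hpr
      rw [hpr, mul_one] at hnorm
      exact hnorm
    have hconj : ∀ t : ℂ, ‖((starRingEnd ℂ) t) ^ i *
        ((starRingEnd ℂ) t * ((starRingEnd ℂ) t - 1)⁻¹) ^ j‖
        = ‖t ^ i * (t * (t - 1)⁻¹) ^ j‖ := by
      intro t
      have e4 : ((starRingEnd ℂ) t) ^ i * ((starRingEnd ℂ) t * ((starRingEnd ℂ) t - 1)⁻¹) ^ j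
          = (starRingEnd ℂ) (t ^ i * (t * (t - 1)⁻¹) ^ j) := by
        simp only [map_mul, map_pow, map_inv₀, map_sub, map_one]
      rw [e4, RCLike.norm_conj]
    rcases irr_roots S hρ5 with h1 | h1 | h1 | h1 | h1
    · exact absurd h1 hρ1
    · apply hcase2
      rw [h1, e2]
    · apply hcase2
      rw [h1, hconj, e2]
    · apply hcase3
      rw [h1, e3]
    · apply hcase3
      rw [h1, hconj, e3]
  rw [W1] at hw1
  have hA : 1 ≤ S.a.1 ^ i := one_le_pow₀ a1g.le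
  have hB : 1 ≤ S.b.1 ^ j := one_le_pow₀ b1g.le
  constructor
  · by_contra hi
    have : 1 < S.a.1 ^ i := one_lt_pow₀ a1g hi
    nlinarith
  · by_contra hj
    have : 1 < S.b.1 ^ j := one_lt_pow₀ b1g hj
    nlinarith

/-- Upper bound of a logarithm. -/
private theorem irr_up {t v : ℝ} (ht : 0 < t) (hv : 0 ≤ v) (n : ℕ) (h : t ≤ (1 + v + v ^ 2 / 2) ^ n) :
    Real.log t ≤ n * v := by
  rw [Real.log_le_iff_le_exp ht, Real.exp_nat_mul]
  exact h.trans (pow_le_pow_left₀ (by positivity) (Real.quadratic_le_exp_of_nonneg hv) _)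

/-- Lower bound of a logarithm. -/
private theorem irr_lo {t v : ℝ} (hv : v < 1) (n : ℕ) (h : 1 ≤ t * (1 - v) ^ n) :
    n * v ≤ Real.log t := by
  have h1 : 0 < 1 - v := by linarith
  have ht : 0 < t := by
    have : 0 < (1 - v) ^ n := pow_pos h1 n
    by_contra hc
    push Not at hc
    nlinarith
  rw [Real.le_log_iff_exp_le ht, Real.exp_nat_mul]
  have h2 : Real.exp v * (1 - v) ≤ 1 := by
    have h3 : 1 - v ≤ Real.exp (-v) := Real.one_sub_le_exp_neg v
    calc Real.exp v * (1 - v) ≤ Real.exp v * Real.exp (-v) :=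
          mul_le_mul_of_nonneg_left h3 (Real.exp_pos _).le
      _ = 1 := by rw [← Real.exp_add, add_neg_cancel, Real.exp_zero]
  have h4 : Real.exp v ^ n * (1 - v) ^ n ≤ 1 := by
    rw [← mul_pow]
    exact pow_le_one₀ (by positivity) h2
  exact le_of_mul_le_mul_right (h4.trans h) (pow_pos h1 n)

/-- Upper bound of a negative logarithm. -/
private theorem irr_up' {t v : ℝ} (ht : 0 < t) (hv : v ≤ 1) (n : ℕ) (h : t ≤ (1 - v) ^ n) :
    Real.log t ≤ -(n * v) := by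
  have e : -((n : ℝ) * v) = n * (-v) := by ring
  rw [e, Real.log_le_iff_le_exp ht, Real.exp_nat_mul]
  exact h.trans (pow_le_pow_left₀ (by linarith) (Real.one_sub_le_exp_neg v) _)

/-- Lower bound of a negative logarithm. -/
private theorem irr_lo' {t v : ℝ} (ht : 0 < t) (hv : 0 ≤ v) (n : ℕ)
    (h : 1 ≤ t * (1 + v + v ^ 2 / 2) ^ n) : -(n * v) ≤ Real.log t := by
  have h1 := irr_up (t := t⁻¹) (inv_pos.2 ht) hv n (by
    rw [inv_le_iff_one_le_mul₀' ht]
    exact h)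
  rw [Real.log_inv] at h1
  linarith

private theorem irr_sq (x : ℝ) : Real.log x = Real.log (x ^ 2) / 2 := by
  rw [Real.log_pow]
  push_cast
  ring

private theorem irr_a2 (S : Sys2) :
    0.048 ≤ Real.log ‖S.a.2.1‖ ∧ Real.log ‖S.a.2.1‖ ≤ 0.05 := by
  have h1 := S.a2l
  have h2 := S.a2u
  rw [irr_sq]
  have h3 : ((8 : ℕ) : ℝ) * 0.012 ≤ Real.log (‖S.a.2.1‖ ^ 2) :=
    irr_lo (by norm_num) 8 (by norm_num; nlinarith)
  have h4 : Real.log (‖S.a.2.1‖ ^ 2) ≤ ((1 : ℕ) : ℝ) * 0.1 :=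
    irr_up (by linarith) (by norm_num) 1 (by norm_num; linarith)
  push_cast at h3 h4
  constructor <;> linarith

private theorem irr_b2 (S : Sys2) :
    -0.65 ≤ Real.log ‖S.b.2.1‖ ∧ Real.log ‖S.b.2.1‖ ≤ -0.64 := by
  have h1 := b2l S
  have h2 := b2u S
  rw [irr_sq]
  have h3 : -(((13 : ℕ) : ℝ) * 0.1) ≤ Real.log (‖S.b.2.1‖ ^ 2) :=
    irr_lo' (by linarith) (by norm_num) 13 (by norm_num; linarith)
  have h4 : Real.log (‖S.b.2.1‖ ^ 2) ≤ -(((128 : ℕ) : ℝ) * 0.01) :=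
    irr_up' (by linarith) (by norm_num) 128 (h2.trans (by norm_num))
  push_cast at h3 h4
  constructor <;> linarith

private theorem irr_a3 (S : Sys2) :
    -0.158 ≤ Real.log ‖S.a.2.2‖ ∧ Real.log ‖S.a.2.2‖ ≤ -0.152 := by
  have h1 := S.a3l
  have h2 := S.a3u
  rw [irr_sq]
  have h3 : -(((1 : ℕ) : ℝ) * 0.316) ≤ Real.log (‖S.a.2.2‖ ^ 2) :=
    irr_lo' (by linarith) (by norm_num) 1 (by norm_num; linarith)
  have h4 : Real.log (‖S.a.2.2‖ ^ 2) ≤ -(((8 : ℕ) : ℝ) * 0.038) :=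
    irr_up' (by linarith) (by norm_num) 8 (h2.trans (by norm_num))
  push_cast at h3 h4
  constructor <;> linarith

private theorem irr_b3 (S : Sys2) :
    -0.182 ≤ Real.log ‖S.b.2.2‖ ∧ Real.log ‖S.b.2.2‖ ≤ -0.177 := by
  have h1 := b3l S
  have h2 := b3u S
  rw [irr_sq]
  have h3 : -(((2 : ℕ) : ℝ) * 0.182) ≤ Real.log (‖S.b.2.2‖ ^ 2) :=
    irr_lo' (by linarith) (by norm_num) 2 (by norm_num; linarith)
  have h4 : Real.log (‖S.b.2.2‖ ^ 2) ≤ -(((16 : ℕ) : ℝ) * 0.022125) :=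
    irr_up' (by linarith) (by norm_num) 16 (h2.trans (by norm_num))
  push_cast at h3 h4
  constructor <;> linarith

theorem lw_AB (S : Sys2) (i j : ℕ) :
    lw S i j = Real.log ‖S.a.2.1‖ * i - (-Real.log ‖S.b.2.1‖) * j := by
  unfold lw
  rw [W2, Real.log_mul (pow_pos (a2_pos S.toSys) _).ne' (pow_pos (b2_pos S.toSys) _).ne',
    Real.log_pow, Real.log_pow]
  ring

private theorem irr_nat' (S : Sys2) (i j : ℕ)
    (h : (i : ℝ) * Real.log ‖S.a.2.1‖ = j * (-Real.log ‖S.b.2.1‖)) : i = 0 ∧ j = 0 := by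
  apply irr_nat S i j
  have h1 := lw_AB S i j
  have h2 : lw S i j = 0 := by rw [h1]; linarith
  unfold lw at h2
  have h3 := W2_pos S i j
  have h4 := Real.exp_log h3
  rw [h2, Real.exp_zero] at h4
  exact h4.symm

theorem irr2 (S : Sys2) (i j : ℤ)
    (h : (i : ℝ) * Real.log ‖S.a.2.1‖ = j * (-Real.log ‖S.b.2.1‖)) : i = 0 := by
  have hA : 0 < Real.log ‖S.a.2.1‖ := by linarith [(irr_a2 S).1]
  have hB : 0 < -Real.log ‖S.b.2.1‖ := by linarith [(irr_b2 S).2]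
  rcases le_or_gt 0 i with hi | hi
  · have hj : 0 ≤ j := by
      by_contra hc
      push Not at hc
      have h1 : (j : ℝ) < 0 := by exact_mod_cast hc
      have h2 : (0 : ℝ) ≤ i := by exact_mod_cast hi
      nlinarith [mul_nonneg h2 hA.le]
    obtain ⟨i', rfl⟩ := Int.eq_ofNat_of_zero_le hi
    obtain ⟨j', rfl⟩ := Int.eq_ofNat_of_zero_le hj
    push_cast at h
    have := (irr_nat' S i' j' h).1
    rw [this]
    rfl
  · have hj : j < 0 := by
      by_contra hc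
      push Not at hc
      have h1 : (0 : ℝ) ≤ j := by exact_mod_cast hc
      have h2 : (i : ℝ) < 0 := by exact_mod_cast hi
      nlinarith [mul_nonneg h1 hB.le]
    obtain ⟨i', hi'⟩ := Int.eq_ofNat_of_zero_le (by omega : 0 ≤ -i)
    obtain ⟨j', hj'⟩ := Int.eq_ofNat_of_zero_le (by omega : 0 ≤ -j)
    have e1 : (i : ℝ) = -(i' : ℝ) := by
      have : i = -(i' : ℤ) := by omega
      rw [this]; push_cast; ring
    have e2 : (j : ℝ) = -(j' : ℝ) := by
      have : j = -(j' : ℤ) := by omega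
      rw [this]; push_cast; ring
    rw [e1, e2] at h
    have h' : (i' : ℝ) * Real.log ‖S.a.2.1‖ = j' * (-Real.log ‖S.b.2.1‖) := by linarith
    have := (irr_nat' S i' j' h').1
    omega

theorem pc (S : Sys2) :
    PC (S.a.1)⁻¹ (S.b.1)⁻¹ (Real.log ‖S.a.2.1‖) (-Real.log ‖S.b.2.1‖) where
  hp := inv_pos.mpr (ap S)
  hq := inv_pos.mpr (bp S)
  pq := pq S
  hA := by linarith [(irr_a2 S).1]
  hA1 := by linarith [(irr_a2 S).2]
  hB := by linarith [(irr_b2 S).2]
  hB1 := by linarith [(irr_b2 S).1]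
  drift := by
    have h := (gam2_bd S).1
    unfold gam2 at h
    linarith
  irr := fun i j h => irr2 S i j h

/-- Bounds for the slopes at the second and the third place. -/
theorem lw_lo (S : Sys2) (i j : ℕ) : -0.65 * ((i : ℝ) + j) ≤ lw S i j := by
  rw [lw_AB]
  have hi : (0 : ℝ) ≤ i := Nat.cast_nonneg _
  have hj : (0 : ℝ) ≤ j := Nat.cast_nonneg _
  have h1 := mul_le_mul_of_nonneg_right (irr_a2 S).1 hi
  have h2 := mul_le_mul_of_nonneg_right (irr_b2 S).1 hj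
  linarith

private theorem irr_lw3 (S : Sys2) (i j : ℕ) :
    lw3 S i j = Real.log ‖S.a.2.2‖ * i + Real.log ‖S.b.2.2‖ * j := by
  unfold lw3
  rw [W3, Real.log_mul (pow_pos (a3_pos S.toSys) _).ne' (pow_pos (b3_pos S.toSys) _).ne',
    Real.log_pow, Real.log_pow]
  ring

theorem lw3_lo (S : Sys2) (i j : ℕ) : -0.182 * ((i : ℝ) + j) ≤ lw3 S i j := by
  rw [irr_lw3]
  have hi : (0 : ℝ) ≤ i := Nat.cast_nonneg _
  have hj : (0 : ℝ) ≤ j := Nat.cast_nonneg _
  have h1 := mul_le_mul_of_nonneg_right (irr_a3 S).1 hi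
  have h2 := mul_le_mul_of_nonneg_right (irr_b3 S).1 hj
  linarith

theorem lw3_up (S : Sys2) (i j : ℕ) : lw3 S i j ≤ -0.152 * ((i : ℝ) + j) := by
  rw [irr_lw3]
  have hi : (0 : ℝ) ≤ i := Nat.cast_nonneg _
  have hj : (0 : ℝ) ≤ j := Nat.cast_nonneg _
  have h1 := mul_le_mul_of_nonneg_right (irr_a3 S).2 hi
  have h2 := mul_le_mul_of_nonneg_right (irr_b3 S).2 hj
  linarith

end Pool.Agent.H5.TD
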