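import Pool.Agent.H5.TD.FV

/-!
# JOB TD-10 (`HF_lim`). Convergence of the functions of the class `HF` (pure)

`HF_lim`: `|f s - f t| ≤ |f s - V s| + |V s - V t| + |V t - f t|`, `VV_near`, `VV_cauchy`, `f_VV`.
-/

set_option autoImplicit false

namespace Pool.Agent.H5.TD

open Pool.Agent.H49.AB Finset

variable {p q A B M C : ℝ} {o0 : ℕ}

/-- Uniform convergence. -/
theorem HF_lim (hP : PC p q A B) (M C : ℝ) (hM : 0 ≤ M) (hC : 1 ≤ C) (o0 : ℕ) (ε : ℝ)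
    (hε : 0 < ε) : ∃ s9 : ℝ, 1 ≤ s9 ∧ ∀ f, HF p q A B M C o0 f → ∀ s t, s9 ≤ s → s9 ≤ t →
      |f s - f t| ≤ ε := by
  obtain ⟨s8, hs8, h8⟩ := f_VV hP M C hM hC o0 (ε / 3) (by linarith)
  obtain ⟨C6, s6, η, hC6, hs6, hη0, hη1, h6⟩ := VV_near hP M C hM hC o0
  obtain ⟨C7, hC7, h7⟩ := VV_cauchy hC6 hs6 hη0 hη1
  have hC70 : 0 < C7 := by linarith
  have e2 : 0 ≤ (3 * C7 / ε) ^ 2 := sq_nonneg _
  refine ⟨s8 + s6 + (3 * C7 / ε) ^ 2, by linarith, ?_⟩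
  intro f hf
  have key : ∀ s t, s8 + s6 + (3 * C7 / ε) ^ 2 ≤ t → t ≤ s → |f s - f t| ≤ ε := by
    intro s t ht hts
    have ht0 : 0 < t := by linarith
    have hst : 0 < Real.sqrt t := Real.sqrt_pos.2 ht0
    have g1 := h8 f hf s (by linarith)
    have g2 := h8 f hf t (by linarith)
    have g3 := h7 (VV (A + B) f) (h6 f hf) s t (by linarith) hts
    have g4 : C7 / Real.sqrt t ≤ ε / 3 := by
      have h3 : 3 * C7 / ε ≤ Real.sqrt t := Real.le_sqrt_of_sq_le (by linarith)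
      rw [div_le_iff₀ hε] at h3
      rw [div_le_iff₀ hst]
      linarith
    rw [abs_le] at g1 g2 g3 ⊢
    constructor <;> linarith [g1.1, g1.2, g2.1, g2.2, g3.1, g3.2]
  intro s t hs ht
  rcases le_total t s with h | h
  · exact key s t ht h
  · rw [abs_sub_comm]
    exact key t s hs h

end Pool.Agent.H5.TD
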