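import Pool.Agent.H5.TD.Harm
import Pool.Agent.H5.TD.Lim
import Pool.Agent.H5.TD.Irr

/-!
# JOB TD-17. The densities exist

`DDf_HF`: `bd`: `DD_bd` (`R = exp (max s 0) ≥ 1`, `Q = 1`) and `DD_nonneg`; `lip`: `DDf_lip`; `harm`: `harmQ` with `R = exp s`, `Q = 1` (`s ≥ 40 o ≥ 0`, so `max s 0 = s`): for `x ∈ AD o` the point
`s + A x.1 - B x.2 = s + lw S x.1 x.2` (`lw_AB`) is `≥ 40 o - 0.65 o ≥ 0` (`lw_lo`) and `exp (s + lw) = R ‖W_x‖_2` (`exp_lw`). `bn S i j = bin (S.a.1)⁻¹ (S.b.1)⁻¹ i j` by definition.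

`dens`: `pc S`, `HF_lim`: for invariant `U` the function `DDf S N U` is Cauchy at infinity, so it has a limit; let `dd U` be this limit (`0` if `U` is not invariant; `Classical`). Letting `t → ∞` in `HF_lim`:
for `s ≥ s9(ε)` and all invariant `U`: `|DDf S N U s - dd U| ≤ ε`. Now let `log R ≥ 5000 + 2 s9(ε/2) + 81 (o0 + 1)+ …`, `1 ≤ Q ≤ R ^ 0.0015`, `o = ⌊log R/81⌋₊`: `exp (40 o) ≤ R`, and
`Q ≤ (7/6)^o` because `log (7/6) ≥ 1/7` (`1 - 6/7`) and `0.0015 log R ≤ (log R/81 - 1)/7`. By `harmQ`: `|DD R Q - ∑ bn x DD(R ‖W_x‖_2, 1)| ≤ C/o ≤ ε/2`, and `log (R ‖W_x‖_2) = log R + lw x ≥ log R - 0.65 o ≥ s9`,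
so every term satisfies `|DD(R ‖W_x‖_2, 1) - dd U| ≤ ε/2`; `∑ bn = 1` (`step_sum_bin`).
-/

set_option autoImplicit false

namespace Pool.Agent.H5.TD

open Pool.Agent.H67.Tent Pool.Agent.H49.AB Pool.Agent.H49.PP Finset Filter Topology

theorem Dens_pos (S : Sys2) (N : ℕ) (U : Set E) {s : ℝ} (hs : 0 ≤ s) :
    DDf S N U s = DD S N U (Real.exp s) 1 := by
  unfold DDf
  rw [max_eq_left hs]

theorem DDf_HF (S : Sys2) {N : ℕ} (hN : 1 ≤ N) : ∃ (M C : ℝ) (o0 : ℕ), 0 ≤ M ∧ 1 ≤ C ∧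
    ∀ U : Set E, Inv S N U →
      HF (S.a.1)⁻¹ (S.b.1)⁻¹ (Real.log ‖S.a.2.1‖) (-Real.log ‖S.b.2.1‖) M C o0 (DDf S N U) := by
  obtain ⟨M, hM1, hM⟩ := DD_bd S hN
  obtain ⟨C1, hC1, hlip⟩ := DDf_lip S hN
  obtain ⟨C2, o0, hC2, ho0, hh⟩ := harmQ S hN
  refine ⟨M, C1 + C2, o0, by linarith, by linarith, ?_⟩
  intro U hU
  refine ⟨?_, ?_, ?_⟩
  · intro s
    unfold DDf
    rw [abs_of_nonneg (DD_nonneg S N U _ _)]
    refine hM U _ 1 (Real.exp_pos _) one_pos ?_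
    have : 1 ≤ Real.exp (max s 0) := Real.one_le_exp (le_max_right _ _)
    nlinarith
  · intro s t
    refine (hlip U s t).trans ?_
    exact mul_le_mul_of_nonneg_right (by linarith) (abs_nonneg _)
  · intro o s ho hs
    have hopos : (0 : ℝ) < o := by
      have : 1 ≤ o := le_trans ho0 ho
      exact_mod_cast this
    have hs0 : 0 ≤ s := by linarith
    have h1 := hh U hU o (Real.exp s) 1 ho (Real.exp_le_exp.2 hs) le_rfl
      (one_le_pow₀ (by norm_num))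
    rw [← Dens_pos S N U hs0] at h1
    have h2 : ∑ x ∈ AD o, bin (S.a.1)⁻¹ (S.b.1)⁻¹ x.1 x.2 *
        DDf S N U (s + Real.log ‖S.a.2.1‖ * x.1 - -Real.log ‖S.b.2.1‖ * x.2) =
        ∑ x ∈ AD o, bn S x.1 x.2 * DD S N U (Real.exp s * ‖(W S x.1 x.2).2.1‖) 1 := by
      refine Finset.sum_congr rfl ?_
      intro x hx
      have hx' : x.1 + x.2 = o := Finset.HasAntidiagonal.mem_antidiagonal.1 hx
      have hxr : (x.1 : ℝ) + x.2 = o := by exact_mod_cast hx'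
      have h3 : s + Real.log ‖S.a.2.1‖ * x.1 - -Real.log ‖S.b.2.1‖ * x.2 =
          s + lw S x.1 x.2 := by
        rw [lw_AB]
        ring
      rw [h3]
      have h4 := lw_lo S x.1 x.2
      rw [hxr] at h4
      rw [Dens_pos S N U (by linarith), Real.exp_add, exp_lw]
      rfl
    rw [h2]
    refine h1.trans ?_
    exact div_le_div_of_nonneg_right (by linarith) hopos.le

theorem Dens_lim (S : Sys2) {N : ℕ} (hN : 1 ≤ N) : ∃ dd : Set E → ℝ,
    ∀ ε : ℝ, 0 < ε → ∃ s9 : ℝ, 1 ≤ s9 ∧ ∀ U : Set E, Inv S N U → ∀ s, s9 ≤ s →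
      |DDf S N U s - dd U| ≤ ε := by
  obtain ⟨M, C, o0, hM, hC, hHF⟩ := DDf_HF S hN
  have hlim := HF_lim (pc S) M C hM hC o0
  have hex : ∀ U : Set E, ∃ d : ℝ, Inv S N U →
      Tendsto (fun n : ℕ => DDf S N U n) atTop (𝓝 d) := by
    intro U
    by_cases hU : Inv S N U
    · have hc : CauchySeq (fun n : ℕ => DDf S N U n) := by
        rw [Metric.cauchySeq_iff']
        intro ε hε
        obtain ⟨s9, hs9, h9⟩ := hlim (ε / 2) (by linarith)
        refine ⟨⌈s9⌉₊, ?_⟩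
        intro n hn
        have h1 : s9 ≤ (⌈s9⌉₊ : ℝ) := Nat.le_ceil _
        have h2 : ((⌈s9⌉₊ : ℕ) : ℝ) ≤ n := by exact_mod_cast hn
        have h3 := h9 _ (hHF U hU) n ⌈s9⌉₊ (by linarith) h1
        rw [Real.dist_eq]
        linarith
      obtain ⟨d, hd⟩ := cauchySeq_tendsto_of_complete hc
      exact ⟨d, fun _ => hd⟩
    · exact ⟨0, fun h => absurd h hU⟩
  choose dd hdd using hex
  refine ⟨dd, ?_⟩
  intro ε hε
  obtain ⟨s9, hs9, h9⟩ := hlim ε hε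
  refine ⟨s9, hs9, ?_⟩
  intro U hU s hs
  have ht : Tendsto (fun n : ℕ => |DDf S N U s - DDf S N U n|) atTop
      (𝓝 |DDf S N U s - dd U|) := (tendsto_const_nhds.sub (hdd U hU)).abs
  refine le_of_tendsto ht ?_
  refine eventually_atTop.2 ⟨⌈s9⌉₊, ?_⟩
  intro n hn
  have h1 : s9 ≤ (⌈s9⌉₊ : ℝ) := Nat.le_ceil _
  have h2 : ((⌈s9⌉₊ : ℕ) : ℝ) ≤ n := by exact_mod_cast hn
  exact h9 _ (hHF U hU) s n hs (by linarith)

theorem dens (S : Sys2) {N : ℕ} (hN : 1 ≤ N) : ∃ dd : Set E → ℝ, Claim S N dd 0.0015 := by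
  obtain ⟨dd, hdd⟩ := Dens_lim S hN
  obtain ⟨C2, o1, hC2, ho1, hh⟩ := harmQ S hN
  refine ⟨dd, ?_⟩
  intro ε hε
  obtain ⟨s9, hs9, h9⟩ := hdd (ε / 2) (by linarith)
  set L0 : ℝ := 5000 + 2 * s9 + 81 * (o1 + 1) + 81 * (2 * C2 / ε + 1) with hL0
  have hCε : 0 < 2 * C2 / ε := by positivity
  have ho1r : (0 : ℝ) ≤ o1 := Nat.cast_nonneg _
  refine ⟨Real.exp L0, Real.one_le_exp (by linarith), ?_⟩
  intro U hU R Q hR hQ1 hQ
  have hR0 : 0 < R := lt_of_lt_of_le (Real.exp_pos _) hR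
  set L : ℝ := Real.log R with hL
  have hRL : R = Real.exp L := (Real.exp_log hR0).symm
  have hLL : L0 ≤ L := by
    rw [hRL] at hR
    exact Real.exp_le_exp.1 hR
  set o : ℕ := ⌊L / 81⌋₊ with ho
  have hLpos : 0 < L := by linarith
  have hoa : (o : ℝ) ≤ L / 81 := Nat.floor_le (by positivity)
  have hob : L / 81 < o + 1 := Nat.lt_floor_add_one _
  have hoo : o1 ≤ o := by
    have : (o1 : ℝ) ≤ o := by linarith
    exact_mod_cast this
  have hopos : (0 : ℝ) < o := by linarith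
  have hC2o : C2 / o ≤ ε / 2 := by
    have h1 : 2 * C2 / ε ≤ o := by linarith
    rw [div_le_iff₀ hε] at h1
    rw [div_le_iff₀ hopos]
    linarith
  have hlog : (1 : ℝ) / 7 ≤ Real.log (7 / 6) := by
    have := Real.one_sub_inv_le_log_of_pos (show (0 : ℝ) < 7 / 6 by norm_num)
    norm_num at this ⊢
    linarith
  have hQ2 : Q ≤ (7 / 6) ^ o := by
    refine hQ.trans ?_
    have e1 : R ^ (0.0015 : ℝ) = Real.exp (L * 0.0015) := by
      rw [Real.rpow_def_of_pos hR0]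
    have e2 : ((7 : ℝ) / 6) ^ o = Real.exp (o * Real.log (7 / 6)) := by
      rw [Real.exp_nat_mul, Real.exp_log (by norm_num)]
    rw [e1, e2]
    apply Real.exp_le_exp.2
    have e3 : (o : ℝ) * (1 / 7) ≤ o * Real.log (7 / 6) :=
      mul_le_mul_of_nonneg_left hlog hopos.le
    linarith
  have h1 := hh U hU o R Q hoo (by
    rw [hRL]
    apply Real.exp_le_exp.2
    linarith) hQ1 hQ2
  have hsum : ∑ x ∈ AD o, bn S x.1 x.2 = 1 := step_sum_bin S o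
  have h2 : |∑ x ∈ AD o, bn S x.1 x.2 * DD S N U (R * ‖(W S x.1 x.2).2.1‖) 1 - dd U| ≤ ε / 2 := by
    have e1 : ∑ x ∈ AD o, bn S x.1 x.2 * DD S N U (R * ‖(W S x.1 x.2).2.1‖) 1 - dd U =
        ∑ x ∈ AD o, bn S x.1 x.2 * (DD S N U (R * ‖(W S x.1 x.2).2.1‖) 1 - dd U) := by
      simp only [mul_sub]
      rw [Finset.sum_sub_distrib, ← Finset.sum_mul, hsum, one_mul]
    rw [e1]
    calc |∑ x ∈ AD o, bn S x.1 x.2 * (DD S N U (R * ‖(W S x.1 x.2).2.1‖) 1 - dd U)|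
        ≤ ∑ x ∈ AD o, |bn S x.1 x.2 * (DD S N U (R * ‖(W S x.1 x.2).2.1‖) 1 - dd U)| :=
          Finset.abs_sum_le_sum_abs _ _
      _ ≤ ∑ x ∈ AD o, bn S x.1 x.2 * (ε / 2) := by
          refine Finset.sum_le_sum ?_
          intro x hx
          have hx' : x.1 + x.2 = o := Finset.HasAntidiagonal.mem_antidiagonal.1 hx
          have hxr : (x.1 : ℝ) + x.2 = o := by exact_mod_cast hx'
          have h4 := lw_lo S x.1 x.2
          rw [hxr] at h4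
          rw [abs_mul, abs_of_nonneg (bn_nonneg S _ _)]
          refine mul_le_mul_of_nonneg_left ?_ (bn_nonneg S _ _)
          have h5 : s9 ≤ L + lw S x.1 x.2 := by linarith
          have h6 := h9 U hU (L + lw S x.1 x.2) h5
          rw [Dens_pos S N U (by linarith), Real.exp_add, exp_lw, ← hRL] at h6
          exact h6
      _ = ε / 2 := by rw [← Finset.sum_mul, hsum, one_mul]
  have h3 := abs_le.1 (h1.trans hC2o)
  have h4 := abs_le.1 h2
  rw [abs_le]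
  constructor <;> linarith [h3.1, h3.2, h4.1, h4.2]

end Pool.Agent.H5.TD
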