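import Pool.Agent.H5.TD.Defs

/-!
# JOB TD-21. The intervals of the words of length `n` tile `[0, 1]`

For a word `w` let `g_w y = (gw S 1 w y).1` (it depends on `y.1` only, affinely, with slope `± 1/|(mul S w).1|`); here as a real function: `gr S w : ℝ → ℝ`, `gr (c :: w) t = gr1 c (gr w t)`,
`gr1 false t = t/α`, `gr1 true t = 1 - t/β`, `α = S.a.1`, `β = S.b.1`, `1/α + 1/β = 1` (`pq S`).

`gr_gw`, `gr_mem` (maps `[0,1]` to `[0,1]`), `gr_len`: `|gr w s - gr w t| = |s - t|/|(mul S w).1|` and `1/|(mul S w).1| ≤ (S.a.1)⁻¹ ^ length` (`(S.b.1)⁻¹ ≤ (S.a.1)⁻¹`) by induction (`mul_abs1`).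
`tile_int`: for `f` bounded and measurable (or interval integrable: take `f = indicator of an interval`): `∫ x in 0..1, f x = ∑ w ∈ words n, |(mul S w).1|⁻¹ * ∫ y in 0..1, f (gr S w y)` by induction on `n`:
one step: `∫ x in 0..1, h x = (1/α) ∫ y in 0..1, h (y/α) + (1/β) ∫ y in 0..1, h (1 - y/β)` (substitution on `[0, 1/α]` and `[1/α, 1]`; `intervalIntegral.integral_comp_div`, `integral_comp_sub_div`, …).
With `sum_words_succ` the first letter: `gr (c :: w) = gr1 c ∘ gr w`; so apply the induction hypothesis to `f ∘ gr1 c`: `∫ f = ∑_c (1/|slope c|) ∫ f (gr1 c y) = ∑_c ∑_w …`, `mul (c :: w) = mul w * letr c`.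
(If the words are organised the other way in `words`, use `sum_words_eq`-like lemmas; `words (n+1) = image (cons false) ∪ image (cons true)`.)
`tile_up`: `ρ = (S.a.1)⁻¹ ^ n`. `f` = indicator of `[0, t + ρ]`. If `gr w 0 ≤ t` or `gr w 1 ≤ t` then `gr w y ≤ t + ρ` for all `y ∈ [0,1]`, so `∫ f (gr w y) = 1`; the left side is at most `t + ρ`.
`tile_lo`: the words with `gr w 0 > t` or `gr w 1 > t` have total length at most `1 - t + ρ` in the same way (indicator of `[t - ρ, 1]`), and the total length of all words is `1` (`f = 1`).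
-/

set_option autoImplicit false

namespace Pool.Agent.H5.TD

open Pool.Agent.H67.Tent Pool.Agent.H49.AB Pool.Agent.H49.PP Finset

/-- Real form of the inverse branches. -/
noncomputable def gr (S : Sys2) : List Bool → ℝ → ℝ
  | [], t => t
  | c :: w, t => if c then 1 - (S.b.1)⁻¹ * gr S w t else (S.a.1)⁻¹ * gr S w t

theorem Tile_ai_pos (S : Sys2) : 0 < (S.a.1)⁻¹ := inv_pos.2 (ap S)

theorem Tile_bi_pos (S : Sys2) : 0 < (S.b.1)⁻¹ := inv_pos.2 (bp S)

theorem Tile_bi_le (S : Sys2) : (S.b.1)⁻¹ ≤ (S.a.1)⁻¹ := by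
  refine inv_anti₀ (ap S) ?_
  linarith [S.a1_lt, S.b1_gt]

theorem gr_gw (S : Sys2) (w : List Bool) (y : E) : (gw S 1 w y).1 = gr S w y.1 := by
  induction w with
  | nil => rfl
  | cons c w ih =>
    cases c
    · show (S.a.1)⁻¹ * (gw S 1 w y).1 = (S.a.1)⁻¹ * gr S w y.1
      rw [ih]
    · show ((1 : ℕ) : E).1 - (S.b.1)⁻¹ * (gw S 1 w y).1 = 1 - (S.b.1)⁻¹ * gr S w y.1
      rw [ih, Nat.cast_one]
      rfl

theorem gr_mem (S : Sys2) (w : List Bool) {t : ℝ} (h0 : 0 ≤ t) (h1 : t ≤ 1) :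
    0 ≤ gr S w t ∧ gr S w t ≤ 1 := by
  have ha := Tile_ai_pos S
  have hb := Tile_bi_pos S
  have hpq := pq S
  induction w with
  | nil => exact ⟨h0, h1⟩
  | cons c w ih =>
    obtain ⟨ih0, ih1⟩ := ih
    cases c
    · show 0 ≤ (S.a.1)⁻¹ * gr S w t ∧ (S.a.1)⁻¹ * gr S w t ≤ 1
      exact ⟨mul_nonneg ha.le ih0, by nlinarith⟩
    · show 0 ≤ 1 - (S.b.1)⁻¹ * gr S w t ∧ 1 - (S.b.1)⁻¹ * gr S w t ≤ 1
      refine ⟨by nlinarith, ?_⟩
      have := mul_nonneg hb.le ih0
      linarith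

theorem Tile_aff (S : Sys2) (w : List Bool) (t : ℝ) :
    gr S w t = gr S w 0 + t * (gr S w 1 - gr S w 0) := by
  induction w with
  | nil =>
    show t = 0 + t * (1 - 0)
    ring
  | cons c w ih =>
    cases c
    · show (S.a.1)⁻¹ * gr S w t = (S.a.1)⁻¹ * gr S w 0 +
        t * ((S.a.1)⁻¹ * gr S w 1 - (S.a.1)⁻¹ * gr S w 0)
      rw [ih]
      ring
    · show 1 - (S.b.1)⁻¹ * gr S w t = 1 - (S.b.1)⁻¹ * gr S w 0 +
        t * (1 - (S.b.1)⁻¹ * gr S w 1 - (1 - (S.b.1)⁻¹ * gr S w 0))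
      rw [ih]
      ring

/-- The value at `t` is between the values at `0` and `1`. -/
theorem gr_between (S : Sys2) (w : List Bool) {t : ℝ} (h0 : 0 ≤ t) (h1 : t ≤ 1) :
    min (gr S w 0) (gr S w 1) ≤ gr S w t ∧ gr S w t ≤ max (gr S w 0) (gr S w 1) := by
  rw [Tile_aff S w t]
  rcases le_total (gr S w 0) (gr S w 1) with h | h
  · rw [min_eq_left h, max_eq_right h]
    constructor <;> nlinarith
  · rw [min_eq_right h, max_eq_left h]
    constructor <;> nlinarith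

theorem Tile_false (S : Sys2) (w : List Bool) :
    |(mul S.toSys (false :: w)).1|⁻¹ = (S.a.1)⁻¹ * |(mul S.toSys w).1|⁻¹ := by
  rw [mul, Prod.fst_mul, abs_mul, mul_inv, mul_comm]
  congr 1
  show |S.a.1|⁻¹ = _
  rw [abs_of_pos (ap S)]

theorem Tile_true (S : Sys2) (w : List Bool) :
    |(mul S.toSys (true :: w)).1|⁻¹ = (S.b.1)⁻¹ * |(mul S.toSys w).1|⁻¹ := by
  rw [mul, Prod.fst_mul, abs_mul, mul_inv, mul_comm]
  congr 1
  show |(-S.b).1|⁻¹ = _
  rw [Prod.fst_neg, abs_neg, abs_of_pos (bp S)]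

theorem gr_len (S : Sys2) (w : List Bool) : |gr S w 0 - gr S w 1| = |(mul S.toSys w).1|⁻¹ ∧
    |(mul S.toSys w).1|⁻¹ ≤ (S.a.1)⁻¹ ^ w.length := by
  have ha := Tile_ai_pos S
  have hb := Tile_bi_pos S
  have hab := Tile_bi_le S
  induction w with
  | nil =>
    constructor
    · show |(0 : ℝ) - 1| = |(1 : ℝ)|⁻¹
      norm_num
    · show |(1 : ℝ)|⁻¹ ≤ (S.a.1)⁻¹ ^ 0
      norm_num
  | cons c w ih =>
    obtain ⟨ih1, ih2⟩ := ih
    have hm : 0 ≤ |(mul S.toSys w).1|⁻¹ := inv_nonneg.2 (abs_nonneg _)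
    cases c
    · rw [Tile_false]
      constructor
      · show |(S.a.1)⁻¹ * gr S w 0 - (S.a.1)⁻¹ * gr S w 1| = _
        rw [← mul_sub, abs_mul, ih1, abs_of_pos ha]
      · rw [List.length_cons, pow_succ']
        exact mul_le_mul_of_nonneg_left ih2 ha.le
    · rw [Tile_true]
      constructor
      · show |1 - (S.b.1)⁻¹ * gr S w 0 - (1 - (S.b.1)⁻¹ * gr S w 1)| = _
        rw [show 1 - (S.b.1)⁻¹ * gr S w 0 - (1 - (S.b.1)⁻¹ * gr S w 1) =
          -((S.b.1)⁻¹ * (gr S w 0 - gr S w 1)) by ring, abs_neg, abs_mul, ih1, abs_of_pos hb]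
      · rw [List.length_cons, pow_succ']
        exact mul_le_mul hab ih2 hm ha.le

theorem Tile_tot (S : Sys2) (n : ℕ) : ∑ w ∈ words n, |(mul S.toSys w).1|⁻¹ = 1 := by
  induction n with
  | zero =>
    show ∑ w ∈ ({[]} : Finset (List Bool)), |(mul S.toSys w).1|⁻¹ = 1
    rw [Finset.sum_singleton]
    show |(1 : ℝ)|⁻¹ = 1
    norm_num
  | succ n ih =>
    rw [sum_words_succ, Finset.sum_congr rfl fun w _ => Tile_false S w,
      Finset.sum_congr rfl fun w _ => Tile_true S w, ← Finset.mul_sum, ← Finset.mul_sum, ih,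
      mul_one, mul_one, pq]

open Classical in
/-- total length of the intervals with an end `≤ t` -/
noncomputable def Tile_A (S : Sys2) (n : ℕ) (t : ℝ) : ℝ :=
  ∑ w ∈ words n, if min (gr S w 0) (gr S w 1) ≤ t then |(mul S.toSys w).1|⁻¹ else 0

open Classical in
/-- total length of the intervals with both ends `< t` -/
noncomputable def Tile_B (S : Sys2) (n : ℕ) (t : ℝ) : ℝ :=
  ∑ w ∈ words n, if max (gr S w 0) (gr S w 1) < t then |(mul S.toSys w).1|⁻¹ else 0

theorem Tile_minf (S : Sys2) (w : List Bool) :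
    min (gr S (false :: w) 0) (gr S (false :: w) 1) =
      (S.a.1)⁻¹ * min (gr S w 0) (gr S w 1) :=
  (mul_min_of_nonneg _ _ (Tile_ai_pos S).le).symm

theorem Tile_maxf (S : Sys2) (w : List Bool) :
    max (gr S (false :: w) 0) (gr S (false :: w) 1) =
      (S.a.1)⁻¹ * max (gr S w 0) (gr S w 1) :=
  (mul_max_of_nonneg _ _ (Tile_ai_pos S).le).symm

theorem Tile_mint (S : Sys2) (w : List Bool) :
    min (gr S (true :: w) 0) (gr S (true :: w) 1) =
      1 - (S.b.1)⁻¹ * max (gr S w 0) (gr S w 1) := by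
  rw [mul_max_of_nonneg _ _ (Tile_bi_pos S).le]
  exact min_sub_sub_left _ _ _

theorem Tile_maxt (S : Sys2) (w : List Bool) :
    max (gr S (true :: w) 0) (gr S (true :: w) 1) =
      1 - (S.b.1)⁻¹ * min (gr S w 0) (gr S w 1) := by
  rw [mul_min_of_nonneg _ _ (Tile_bi_pos S).le]
  exact max_sub_sub_left _ _ _

theorem Tile_lf (S : Sys2) (x t : ℝ) : (S.a.1)⁻¹ * x ≤ t ↔ x ≤ S.a.1 * t := by
  rw [inv_mul_le_iff₀ (ap S)]

theorem Tile_ltf (S : Sys2) (x t : ℝ) : (S.a.1)⁻¹ * x < t ↔ x < S.a.1 * t := by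
  rw [inv_mul_lt_iff₀ (ap S)]

theorem Tile_lt (S : Sys2) (x t : ℝ) : 1 - (S.b.1)⁻¹ * x ≤ t ↔ ¬ x < S.b.1 * (1 - t) := by
  rw [not_lt]
  constructor
  · intro h
    have h1 : 1 - t ≤ (S.b.1)⁻¹ * x := by linarith
    have h2 := mul_le_mul_of_nonneg_left h1 (bp S).le
    rwa [mul_inv_cancel_left₀ (bp S).ne'] at h2
  · intro h
    have h2 := mul_le_mul_of_nonneg_left h (Tile_bi_pos S).le
    rw [inv_mul_cancel_left₀ (bp S).ne'] at h2
    linarith

theorem Tile_ltt (S : Sys2) (x t : ℝ) : 1 - (S.b.1)⁻¹ * x < t ↔ ¬ x ≤ S.b.1 * (1 - t) := by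
  rw [not_le]
  constructor
  · intro h
    have h1 : 1 - t < (S.b.1)⁻¹ * x := by linarith
    have h2 := mul_lt_mul_of_pos_left h1 (bp S)
    rwa [mul_inv_cancel_left₀ (bp S).ne'] at h2
  · intro h
    have h2 := mul_lt_mul_of_pos_left h (Tile_bi_pos S)
    rw [inv_mul_cancel_left₀ (bp S).ne'] at h2
    linarith

theorem Tile_A_succ (S : Sys2) (n : ℕ) (t : ℝ) : Tile_A S (n + 1) t =
    (S.a.1)⁻¹ * Tile_A S n (S.a.1 * t) + (S.b.1)⁻¹ * (1 - Tile_B S n (S.b.1 * (1 - t))) := by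
  have h1 : 1 - Tile_B S n (S.b.1 * (1 - t)) = ∑ w ∈ words n, (|(mul S.toSys w).1|⁻¹ -
      if max (gr S w 0) (gr S w 1) < S.b.1 * (1 - t) then |(mul S.toSys w).1|⁻¹ else 0) := by
    rw [Finset.sum_sub_distrib, Tile_tot]
    unfold Tile_B
    rfl
  rw [h1, Finset.mul_sum]
  unfold Tile_A
  rw [sum_words_succ, Finset.mul_sum]
  congr 1
  · refine Finset.sum_congr rfl fun w _ => ?_
    by_cases h : min (gr S w 0) (gr S w 1) ≤ S.a.1 * t
    · rw [if_pos h, if_pos (by rw [Tile_minf, Tile_lf]; exact h), Tile_false]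
    · rw [if_neg h, if_neg (by rw [Tile_minf, Tile_lf]; exact h), mul_zero]
  · refine Finset.sum_congr rfl fun w _ => ?_
    by_cases h : max (gr S w 0) (gr S w 1) < S.b.1 * (1 - t)
    · rw [if_pos h, if_neg (by rw [Tile_mint, Tile_lt]; exact not_not.2 h), sub_self, mul_zero]
    · rw [if_neg h, if_pos (by rw [Tile_mint, Tile_lt]; exact h), Tile_true, sub_zero]

theorem Tile_B_succ (S : Sys2) (n : ℕ) (t : ℝ) : Tile_B S (n + 1) t =
    (S.a.1)⁻¹ * Tile_B S n (S.a.1 * t) + (S.b.1)⁻¹ * (1 - Tile_A S n (S.b.1 * (1 - t))) := by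
  have h1 : 1 - Tile_A S n (S.b.1 * (1 - t)) = ∑ w ∈ words n, (|(mul S.toSys w).1|⁻¹ -
      if min (gr S w 0) (gr S w 1) ≤ S.b.1 * (1 - t) then |(mul S.toSys w).1|⁻¹ else 0) := by
    rw [Finset.sum_sub_distrib, Tile_tot]
    unfold Tile_A
    rfl
  rw [h1, Finset.mul_sum]
  unfold Tile_B
  rw [sum_words_succ, Finset.mul_sum]
  congr 1
  · refine Finset.sum_congr rfl fun w _ => ?_
    by_cases h : max (gr S w 0) (gr S w 1) < S.a.1 * t
    · rw [if_pos h, if_pos (by rw [Tile_maxf, Tile_ltf]; exact h), Tile_false]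
    · rw [if_neg h, if_neg (by rw [Tile_maxf, Tile_ltf]; exact h), mul_zero]
  · refine Finset.sum_congr rfl fun w _ => ?_
    by_cases h : min (gr S w 0) (gr S w 1) ≤ S.b.1 * (1 - t)
    · rw [if_pos h, if_neg (by rw [Tile_maxt, Tile_ltt]; exact not_not.2 h), sub_self, mul_zero]
    · rw [if_neg h, if_pos (by rw [Tile_maxt, Tile_ltt]; exact h), Tile_true, sub_zero]

theorem Tile_A_le (S : Sys2) (n : ℕ) (t : ℝ) : Tile_A S n t ≤ 1 := by
  rw [← Tile_tot S n]
  refine Finset.sum_le_sum fun w _ => ?_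
  split_ifs
  · exact le_refl _
  · exact inv_nonneg.2 (abs_nonneg _)

theorem Tile_B_nonneg (S : Sys2) (n : ℕ) (t : ℝ) : 0 ≤ Tile_B S n t := by
  refine Finset.sum_nonneg fun w _ => ?_
  split_ifs
  · exact inv_nonneg.2 (abs_nonneg _)
  · exact le_refl _

theorem Tile_B_one (S : Sys2) (n : ℕ) {t : ℝ} (ht : 1 < t) : Tile_B S n t = 1 := by
  rw [← Tile_tot S n]
  refine Finset.sum_congr rfl fun w _ => ?_
  rw [if_pos]
  have h0 := (gr_mem S w (t := 0) le_rfl zero_le_one).2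
  have h1 := (gr_mem S w (t := 1) zero_le_one le_rfl).2
  exact lt_of_le_of_lt (max_le h0 h1) ht

theorem Tile_main (S : Sys2) (n : ℕ) :
    (∀ t : ℝ, 0 ≤ t → Tile_A S n t ≤ t + (S.a.1)⁻¹ ^ n) ∧
      ∀ t : ℝ, t ≤ 1 → t - (S.a.1)⁻¹ ^ n ≤ Tile_B S n t := by
  have ha := Tile_ai_pos S
  have hb := Tile_bi_pos S
  have hab := Tile_bi_le S
  have hpq := pq S
  induction n with
  | zero =>
    constructor
    · intro t ht
      have := Tile_A_le S 0 t
      rw [pow_zero]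
      linarith
    · intro t ht
      have := Tile_B_nonneg S 0 t
      rw [pow_zero]
      linarith
  | succ n ih =>
    obtain ⟨ihA, ihB⟩ := ih
    have hρ : 0 < (S.a.1)⁻¹ ^ n := pow_pos ha n
    have hbρ : (S.b.1)⁻¹ * (S.a.1)⁻¹ ^ n ≤ (S.a.1)⁻¹ * (S.a.1)⁻¹ ^ n :=
      mul_le_mul_of_nonneg_right hab hρ.le
    have hbb : ∀ t : ℝ, (S.b.1)⁻¹ * (S.b.1 * (1 - t)) = 1 - t := fun t =>
      inv_mul_cancel_left₀ (bp S).ne' _
    have haa : ∀ t : ℝ, (S.a.1)⁻¹ * (S.a.1 * t) = t := fun t =>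
      inv_mul_cancel_left₀ (ap S).ne' _
    constructor
    · intro t ht
      rw [Tile_A_succ, pow_succ']
      have hat : 0 ≤ S.a.1 * t := mul_nonneg (ap S).le ht
      rcases lt_trichotomy (S.b.1 * (1 - t)) 1 with h | h | h
      · -- `t > 1/α`
        have h1 := ihB _ h.le
        have h2 := Tile_A_le S n (S.a.1 * t)
        have h3 := mul_le_mul_of_nonneg_left h1 hb.le
        have h4 := mul_le_mul_of_nonneg_left h2 ha.le
        rw [mul_sub, hbb] at h3
        rw [mul_sub]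
        linarith
      · have h1 := ihB _ h.le
        have h2 := Tile_A_le S n (S.a.1 * t)
        have h3 := mul_le_mul_of_nonneg_left h1 hb.le
        have h4 := mul_le_mul_of_nonneg_left h2 ha.le
        rw [mul_sub, hbb] at h3
        rw [mul_sub]
        linarith
      · rw [Tile_B_one S n h, sub_self, mul_zero, add_zero]
        have h4 := mul_le_mul_of_nonneg_left (ihA _ hat) ha.le
        rw [mul_add, haa] at h4
        exact h4
    · intro t ht
      rw [Tile_B_succ, pow_succ']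
      have hbt : 0 ≤ S.b.1 * (1 - t) := mul_nonneg (bp S).le (by linarith)
      rcases le_or_gt (S.a.1 * t) 1 with h | h
      · have h1 := ihB _ h
        have h2 := Tile_A_le S n (S.b.1 * (1 - t))
        have h3 := mul_le_mul_of_nonneg_left h1 ha.le
        have h4 : 0 ≤ (S.b.1)⁻¹ * (1 - Tile_A S n (S.b.1 * (1 - t))) :=
          mul_nonneg hb.le (by linarith)
        rw [mul_sub, haa] at h3
        linarith
      · rw [Tile_B_one S n h]
        have h1 := ihA _ hbt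
        have h3 := mul_le_mul_of_nonneg_left h1 hb.le
        rw [mul_add, hbb] at h3
        rw [mul_sub]
        linarith

open Classical in
theorem tile_up (S : Sys2) (n : ℕ) {t : ℝ} (h0 : 0 ≤ t) :
    ∑ w ∈ (words n).filter (fun w => min (gr S w 0) (gr S w 1) ≤ t), |(mul S.toSys w).1|⁻¹ ≤
      t + (S.a.1)⁻¹ ^ n := by
  refine le_trans (le_of_eq ?_) ((Tile_main S n).1 t h0)
  rw [Finset.sum_filter]
  exact Finset.sum_congr rfl fun w _ => by split_ifs <;> rfl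

open Classical in
theorem tile_lo (S : Sys2) (n : ℕ) {t : ℝ} (h1 : t ≤ 1) :
    t - (S.a.1)⁻¹ ^ n ≤
      ∑ w ∈ (words n).filter (fun w => max (gr S w 0) (gr S w 1) ≤ t), |(mul S.toSys w).1|⁻¹ := by
  refine ((Tile_main S n).2 t h1).trans ?_
  rw [Finset.sum_filter]
  refine Finset.sum_le_sum fun w _ => ?_
  by_cases h : max (gr S w 0) (gr S w 1) < t
  · rw [if_pos h, if_pos h.le]
  · rw [if_neg h]
    split_ifs
    · exact inv_nonneg.2 (abs_nonneg _)
    · exact le_refl _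

end Pool.Agent.H5.TD
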