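import Pool.Agent.H5.TD.Cyl
import Pool.Agent.H5.TD.Tile

/-!
# JOB TD-23. Equidistribution

`NT S N U H t` = weighted number of the points `z` of `U` with `‖z₂‖ ≤ H`, `‖z₃‖ ≤ H`, `z.1 ≤ t`.

`equi`: by `re_v` with `φ z = [‖z₂‖ ≤ H, ‖z₃‖ ≤ H, z.1 ≤ t]` and `n` letters: `NT = ∑ w ∈ words n, ∑_y vw U y φ (gw w y)` (`SS_sum`). `(gw w y).1 = gr w y.1` is between `min (gr w 0) (gr w 1)` and `max …` (`gr_gw`, `gr_between`).
So `∑_{w : max ≤ t} CW w ≤ NT ≤ ∑_{w : min ≤ t} CW w`. With `n` such that `ρ = (S.a.1)⁻¹ ^ n ≤ ε/(4 π² M + 4)` (`(S.a.1)⁻¹ ≤ 0.8088`, `pu`), and `cyl` for each of the `2^n` words with `ε' = ε/(4 · 2^n)`: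
`NT.toReal/H⁴ ≤ π² dd U (t + ρ) + ε/4` and `≥ π² dd U (t - ρ) - ε/4` (`tile_up`, `tile_lo`, `0 ≤ dd U ≤ M`).
-/

set_option autoImplicit false

namespace Pool.Agent.H5.TD

open Pool.Agent.H67.Tent Pool.Agent.H49.AB Pool.Agent.H49.PP Finset

open Classical in
/-- Weighted number of the points `z` of `U` of height `≤ H` with `z.1 ≤ t`. -/
noncomputable def NT (S : Sys2) (N : ℕ) (U : Set E) (H t : ℝ) : ENNReal :=
  SS (ptX S N) fun z => vw U z * (if ‖z.2.1‖ ≤ H ∧ ‖z.2.2‖ ≤ H ∧ z.1 ≤ t then 1 else 0)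

theorem NT_fin (S : Sys2) {N : ℕ} (hN : 1 ≤ N) (U : Set E) (H t : ℝ) : NT S N U H t ≠ ⊤ := by
  refine ne_top_of_le_ne_top (NB2_fin S hN U H H) ?_
  unfold NT NB2
  refine SS_mono _ fun i => ?_
  refine mul_le_mul_right ?_ _
  by_cases h : ‖(ptX S N i).2.1‖ ≤ H ∧ ‖(ptX S N i).2.2‖ ≤ H ∧ (ptX S N i).1 ≤ t
  · rw [if_pos h, if_pos ⟨h.1, h.2.1⟩]
  · rw [if_neg h]
    exact bot_le

open Classical in
/-- The part of the word `w`. -/
noncomputable def EquiA (S : Sys2) (N : ℕ) (U : Set E) (H t : ℝ) (w : List Bool) : ENNReal :=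
  SS (ptX S N) fun y => vw U y *
    (if ‖(gw S 1 w y).2.1‖ ≤ H ∧ ‖(gw S 1 w y).2.2‖ ≤ H ∧ (gw S 1 w y).1 ≤ t then 1 else 0)

theorem Equi_sum (S : Sys2) {N : ℕ} (hN : 1 ≤ N) {U : Set E} (hU : Inv S N U) (H t : ℝ) (n : ℕ) :
    NT S N U H t = ∑ w ∈ words n, EquiA S N U H t w := by
  classical
  unfold NT EquiA
  rw [re_v S hN hU _ n, ← SS_sum]
  refine SS_congr _ fun i => ?_
  rw [Finset.mul_sum]

theorem Equi_le (S : Sys2) (N : ℕ) (U : Set E) (H t : ℝ) (w : List Bool) :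
    EquiA S N U H t w ≤ CW S N U w H := by
  unfold EquiA CW
  refine SS_mono _ fun i => ?_
  refine mul_le_mul_right ?_ _
  by_cases h : ‖(gw S 1 w (ptX S N i)).2.1‖ ≤ H ∧ ‖(gw S 1 w (ptX S N i)).2.2‖ ≤ H ∧
      (gw S 1 w (ptX S N i)).1 ≤ t
  · rw [if_pos h, if_pos ⟨h.1, h.2.1⟩]
  · rw [if_neg h]
    exact bot_le

theorem Equi_zero (S : Sys2) (N : ℕ) (U : Set E) (H t : ℝ) (w : List Bool)
    (h : ¬ min (gr S w 0) (gr S w 1) ≤ t) : EquiA S N U H t w = 0 := by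
  unfold EquiA SS
  refine ENNReal.tsum_eq_zero.2 fun i => ?_
  have hi := i.2
  have h1 : ¬ (gw S 1 w (ptX S N i)).1 ≤ t := by
    rw [gr_gw]
    intro h2
    exact h ((gr_between S w hi.2.1 hi.2.2).1.trans h2)
  show vw U (ptX S N i) * (if ‖(gw S 1 w (ptX S N i)).2.1‖ ≤ H ∧
    ‖(gw S 1 w (ptX S N i)).2.2‖ ≤ H ∧ (gw S 1 w (ptX S N i)).1 ≤ t then 1 else 0) = 0
  rw [if_neg fun h2 => h1 h2.2.2, mul_zero]

theorem Equi_eq (S : Sys2) (N : ℕ) (U : Set E) (H t : ℝ) (w : List Bool)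
    (h : max (gr S w 0) (gr S w 1) ≤ t) : EquiA S N U H t w = CW S N U w H := by
  unfold EquiA CW
  refine SS_congr _ fun i => ?_
  have hi := i.2
  have h1 : (gw S 1 w (ptX S N i)).1 ≤ t := by
    rw [gr_gw]
    exact (gr_between S w hi.2.1 hi.2.2).2.trans h
  congr 1
  by_cases h2 : ‖(gw S 1 w (ptX S N i)).2.1‖ ≤ H ∧ ‖(gw S 1 w (ptX S N i)).2.2‖ ≤ H
  · rw [if_pos h2, if_pos ⟨h2.1, h2.2, h1⟩]
  · rw [if_neg h2, if_neg fun h3 => h2 ⟨h3.1, h3.2.1⟩]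

theorem equi (S : Sys2) {N : ℕ} (hN : 1 ≤ N) {dd : Set E → ℝ} (h : Claim S N dd 1.1) (ε : ℝ)
    (hε : 0 < ε) : ∃ H0 : ℝ, 1 ≤ H0 ∧ ∀ U : Set E, Inv S N U → ∀ t : ℝ, 0 ≤ t → t ≤ 1 →
      ∀ H : ℝ, H0 ≤ H → |(NT S N U H t).toReal / H ^ 4 - Real.pi ^ 2 * dd U * t| ≤ ε := by
  classical
  obtain ⟨M, hM1, hM⟩ := Claim_bd S hN (by norm_num) h
  have hpi : (0 : ℝ) < Real.pi ^ 2 := by positivity
  obtain ⟨n, hn⟩ : ∃ n : ℕ, (S.a.1)⁻¹ ^ n < ε / (2 * (Real.pi ^ 2 * M + 1)) := by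
    have h0 : (0 : ℝ) ≤ (S.a.1)⁻¹ := by linarith [pl S]
    exact exists_pow_lt_of_lt_one (by positivity) (lt_of_le_of_lt (pu S) (by norm_num))
  set ρ : ℝ := (S.a.1)⁻¹ ^ n with hρ
  have hρ0 : 0 ≤ ρ := pow_nonneg (by linarith [pl S]) n
  have hρ1 : Real.pi ^ 2 * M * ρ ≤ ε / 2 := by
    rw [lt_div_iff₀ (by positivity)] at hn
    nlinarith
  set c : ℝ := ((words n).card : ℝ) with hc
  have hc0 : 0 ≤ c := Nat.cast_nonneg _
  set e' : ℝ := ε / (2 * (c + 1)) with he'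
  have he0 : 0 < e' := by positivity
  have hce : c * e' ≤ ε / 2 := by
    have h1 : (c + 1) * e' = ε / 2 := by
      rw [he']
      field_simp
    nlinarith
  have hcyl := fun w => cyl S hN h w e' he0
  choose H0 hH0 hH using hcyl
  refine ⟨1 + ∑ w ∈ words n, H0 w, ?_, ?_⟩
  · have : 0 ≤ ∑ w ∈ words n, H0 w := Finset.sum_nonneg fun w _ => by linarith [hH0 w]
    linarith
  intro U hU t ht0 ht1 H hHH
  obtain ⟨hd0, hdM⟩ := hM U hU
  have hle : ∀ w ∈ words n, H0 w ≤ H := by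
    intro w hw
    have h1 : H0 w ≤ ∑ w ∈ words n, H0 w :=
      Finset.single_le_sum (f := H0) (fun w _ => by linarith [hH0 w]) hw
    linarith
  have hHpos : 0 < H := by
    have : 0 ≤ ∑ w ∈ words n, H0 w := Finset.sum_nonneg fun w _ => by linarith [hH0 w]
    linarith
  have hH4 : 0 < H ^ 4 := by positivity
  have hCf : ∀ w, CW S N U w H ≠ ⊤ := fun w => CW_fin S hN U w H
  -- the two bounds
  have hup : NT S N U H t ≤ ∑ w ∈ (words n).filter (fun w => min (gr S w 0) (gr S w 1) ≤ t),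
      CW S N U w H := by
    rw [Equi_sum S hN hU H t n, Finset.sum_filter]
    refine Finset.sum_le_sum fun w _ => ?_
    by_cases h1 : min (gr S w 0) (gr S w 1) ≤ t
    · rw [if_pos h1]
      exact Equi_le S N U H t w
    · rw [if_neg h1, Equi_zero S N U H t w h1]
  have hlo : ∑ w ∈ (words n).filter (fun w => max (gr S w 0) (gr S w 1) ≤ t),
      CW S N U w H ≤ NT S N U H t := by
    rw [Equi_sum S hN hU H t n, Finset.sum_filter]
    refine Finset.sum_le_sum fun w _ => ?_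
    by_cases h1 : max (gr S w 0) (gr S w 1) ≤ t
    · rw [if_pos h1, Equi_eq S N U H t w h1]
    · rw [if_neg h1]
      exact bot_le
  have hsum : ∀ F : Finset (List Bool), F ⊆ words n →
      |(∑ w ∈ F, CW S N U w H).toReal / H ^ 4 -
        (∑ w ∈ F, |(mul S.toSys w).1|⁻¹) * (Real.pi ^ 2 * dd U)| ≤ ε / 2 := by
    intro F hF
    rw [ENNReal.toReal_sum fun w _ => hCf w, Finset.sum_div, Finset.sum_mul,
      ← Finset.sum_sub_distrib]
    refine (Finset.abs_sum_le_sum_abs _ _).trans ?_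
    refine (Finset.sum_le_sum fun w hw => hH w U hU H (hle w (hF hw))).trans ?_
    rw [Finset.sum_const, nsmul_eq_mul]
    have h1 : (F.card : ℝ) ≤ c := by
      rw [hc]
      exact_mod_cast Finset.card_le_card hF
    nlinarith
  have hup' := ENNReal.toReal_mono (ENNReal.sum_ne_top.2 fun w _ => hCf w) hup
  have hlo' := ENNReal.toReal_mono (NT_fin S hN U H t) hlo
  have h1 := abs_le.1 (hsum _ (Finset.filter_subset
    (fun w => min (gr S w 0) (gr S w 1) ≤ t) (words n)))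
  have h2 := abs_le.1 (hsum _ (Finset.filter_subset
    (fun w => max (gr S w 0) (gr S w 1) ≤ t) (words n)))
  have h3 := div_le_div_of_nonneg_right hup' hH4.le
  have h4 := div_le_div_of_nonneg_right hlo' hH4.le
  have h5 := tile_up S n ht0
  have h6 := tile_lo S n ht1
  have hD : 0 ≤ Real.pi ^ 2 * dd U := mul_nonneg hpi.le hd0
  have h7 := mul_le_mul_of_nonneg_right h5 hD
  have h8 := mul_le_mul_of_nonneg_right h6 hD
  have h9 : ρ * (Real.pi ^ 2 * dd U) ≤ ε / 2 := by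
    have : Real.pi ^ 2 * dd U ≤ Real.pi ^ 2 * M := mul_le_mul_of_nonneg_left hdM hpi.le
    nlinarith
  rw [← hρ] at h7 h8
  rw [abs_le]
  constructor
  · nlinarith [h2.1, h4, h8, h9]
  · nlinarith [h1.2, h3, h7, h9]

end Pool.Agent.H5.TD
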