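import Pool.Agent.H5.TD.StepQ
import Pool.Agent.H5.TD.Irr
import Pool.Agent.H49.PP.BinVar
import Pool.Agent.H49.PP.Num

/-!
# JOB TD-18. The densities for wide boxes

`Claim_mono`: `R ^ c' ≤ R ^ c` for `R ≥ 1`, `c' ≤ c`.

`ext_one`. `|dd U| ≤ M + 1` for invariant `U` (`DD_bd`, `Claim` with `ε = 1`, `R = R0`, `Q = 1`). Let `0 < ε ≤ 1`, `R` large, `1 ≤ Q ≤ R ^ (c + 0.0001)`, `L = log R`. If `Q ≤ R ^ c` use the claim. Otherwise
`Q ≥ R ^ 0.0015`. Put `o = ⌊0.004 L⌋₊`. `stepQ` with a fixed `η = ε/(4 C)`: for `x ∈ AD o`: `|W_x|_1 ≤ exp (2 o) ≤ R²` (`CmpShiftAux.W1_le`); for `w ∈ cls x`: `‖off2‖ ≤ o 1.0505^o ≤ o exp (0.05 o)`-ish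
`≤ L R^0.0002` (`off2_bound`), `η R ‖W_x‖_2 ≥ η R exp (-o) ≥ η R^0.996` (`CmpShiftAux.W2_ge`), fine for large `R`; `‖off3‖ ≤ 6` (`off3_bound`) and `η Q ‖W_x‖_3 ≥ η R^0.0015 exp (-0.182 o) ≥ η R^(0.0007)` (`lw3_lo`, `lw3 = log ‖W‖_3`).
So `|DD R Q - ∑ bn x DD(R‖W_x‖_2, Q‖W_x‖_3)| ≤ ε/4`.
Typical `x`: `|x.2 - q o| ≤ o/100`: `lw x ≥ -0.09 o - 0.01 del2 o ≥ -0.1 o` (`lw_eq`, `gam2_bd`, `del2_bd`). `R' = R‖W_x‖_2 ≥ R^(1 - 0.0004)`, `Q' = Q ‖W_x‖_3 ≥ R^0.0007 ≥ 1`,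
`Q' ≤ R^(c + 0.0001) exp (-0.152 (0.004 L - 1)) = exp(0.152) R^(c + 0.0001 - 0.000608) ≤ R^(c (1 - 0.0004)) ≤ R' ^ c` (`lw3_up`; `0.0004 c ≤ 0.00048`, so there is a factor `R^0.00002` to spare). So by the claim for `c`
`|DD R' Q' - dd U| ≤ ε/4` (`R' ≥ R0`). Other `x`: `|DD R' Q' - dd U| ≤ 2 M + 1` (`DD_bd`; `R' Q' ≥ 1`); their total mass is at most `p q o/(o/100)² ≤ 10000/o` (`bin_cheb`, `bin_sum_one`), small for large `R`.
`∑ bn = 1` (`step_sum_bin`).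

`claim_all`: induction on `k`: `Claim S N dd (0.0015 + 0.0001 k)` for `k ≤ 11980`, and `Claim_mono`.
-/

set_option autoImplicit false

namespace Pool.Agent.H5.TD

open Pool.Agent.H67.Tent Pool.Agent.H49.AB Pool.Agent.H49.PP Finset

theorem Claim_mono {S : Sys2} {N : ℕ} {dd : Set E → ℝ} {c c' : ℝ} (h : Claim S N dd c)
    (hc : c' ≤ c) : Claim S N dd c' := by
  intro ε hε
  obtain ⟨R0, h1, h2⟩ := h ε hε
  refine ⟨R0, h1, fun U hU R Q hR hQ hQR => h2 U hU R Q hR hQ (hQR.trans ?_)⟩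
  exact Real.rpow_le_rpow_of_exponent_le (h1.trans hR) hc

theorem Claim_bd (S : Sys2) {N : ℕ} (hN : 1 ≤ N) {dd : Set E → ℝ} {c : ℝ} (hc : 0 ≤ c)
    (h : Claim S N dd c) : ∃ M : ℝ, 1 ≤ M ∧ ∀ U : Set E, Inv S N U → 0 ≤ dd U ∧ dd U ≤ M := by
  obtain ⟨M, hM1, hM⟩ := DD_bd S hN
  refine ⟨M + 1, by linarith, fun U hU => ⟨?_, ?_⟩⟩
  · refine le_of_forall_pos_le_add fun ε hε => ?_
    obtain ⟨R0, h1, h2⟩ := h ε hε
    have h3 := h2 U hU R0 1 le_rfl le_rfl (Real.one_le_rpow h1 hc)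
    have h4 := DD_nonneg S N U R0 1
    have h5 := (abs_le.1 h3).2
    linarith
  · obtain ⟨R0, h1, h2⟩ := h 1 one_pos
    have h3 := h2 U hU R0 1 le_rfl le_rfl (Real.one_le_rpow h1 hc)
    have h4 := hM U R0 1 (by linarith) one_pos (by nlinarith)
    have h5 := (abs_le.1 h3).1
    linarith

private theorem ext_lw (S : Sys2) (o : ℕ) (x : ℕ × ℕ) (hx : x.1 + x.2 = o)
    (h : |(x.2 : ℝ) - (S.b.1)⁻¹ * o| ≤ o / 100) : -(0.1 * (o : ℝ)) ≤ lw S x.1 x.2 := by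
  have h1 := lw_eq S x.1 x.2
  have hx' : ((x.1 : ℝ) + x.2) = o := by exact_mod_cast hx
  rw [hx'] at h1
  obtain ⟨g1, g2⟩ := gam2_bd S
  obtain ⟨d1, d2⟩ := del2_bd S
  have ho : (0 : ℝ) ≤ o := Nat.cast_nonneg _
  have h2 := (abs_le.1 h).2
  have h3 : gam2 S * o ≤ 0.09 * o := mul_le_mul_of_nonneg_right g2 ho
  have h4 : del2 S * ((x.2 : ℝ) - (S.b.1)⁻¹ * o) ≤ 0.7 * (o / 100) := by
    calc del2 S * ((x.2 : ℝ) - (S.b.1)⁻¹ * o) ≤ del2 S * (o / 100) :=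
          mul_le_mul_of_nonneg_left h2 (by linarith)
      _ ≤ 0.7 * (o / 100) := mul_le_mul_of_nonneg_right d2 (by positivity)
  rw [h1]
  linarith

private theorem ext_atyp (S : Sys2) (o : ℕ) (ho : 0 < o) :
    ∑ x ∈ (AD o).filter (fun x => ¬ |(x.2 : ℝ) - (S.b.1)⁻¹ * o| ≤ o / 100), bn S x.1 x.2 ≤
      10000 / o := by
  classical
  have hp : 0 ≤ (S.a.1)⁻¹ := (inv_pos.2 (ap S)).le
  have hq : 0 ≤ (S.b.1)⁻¹ := (inv_pos.2 (bp S)).le
  have ho' : (0 : ℝ) < o := Nat.cast_pos.2 ho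
  have h1 := bin_cheb hp hq (pq S) o (o / 100) (by positivity)
  have h2 := step_sum_bin S o
  rw [← Finset.sum_filter_add_sum_filter_not (AD o)
    (fun x => |(x.2 : ℝ) - (S.b.1)⁻¹ * o| ≤ o / 100)] at h2
  have h3 : (S.a.1)⁻¹ * (S.b.1)⁻¹ * o / ((o : ℝ) / 100) ^ 2 ≤ 10000 / o := by
    have h4 : (S.a.1)⁻¹ * (S.b.1)⁻¹ ≤ 1 := by
      have := pq S
      nlinarith
    rw [div_le_div_iff₀ (by positivity) ho']
    nlinarith [mul_le_mul_of_nonneg_right h4 (sq_nonneg (o : ℝ))]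
  unfold bn
  linarith

private theorem ext_sum (S : Sys2) (o : ℕ) (ho : 0 < o) (D : ℕ × ℕ → ℝ) (d ε M : ℝ) (hM : 0 ≤ M)
    (hε : 0 ≤ ε)
    (h1 : ∀ x ∈ AD o, |(x.2 : ℝ) - (S.b.1)⁻¹ * o| ≤ o / 100 → |D x - d| ≤ ε)
    (h2 : ∀ x ∈ AD o, |D x - d| ≤ M) :
    |∑ x ∈ AD o, bn S x.1 x.2 * D x - d| ≤ ε + M * (10000 / o) := by
  classical
  have hp : 0 ≤ (S.a.1)⁻¹ := (inv_pos.2 (ap S)).le
  have hq : 0 ≤ (S.b.1)⁻¹ := (inv_pos.2 (bp S)).le
  have hb : ∀ x : ℕ × ℕ, 0 ≤ bn S x.1 x.2 := fun x => bin_nonneg hp hq _ _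
  have h3 : ∑ x ∈ AD o, bn S x.1 x.2 = 1 := step_sum_bin S o
  have h4 : ∑ x ∈ AD o, bn S x.1 x.2 * D x - d = ∑ x ∈ AD o, bn S x.1 x.2 * (D x - d) := by
    simp only [mul_sub, Finset.sum_sub_distrib]
    rw [← Finset.sum_mul, h3, one_mul]
  rw [h4]
  refine (Finset.abs_sum_le_sum_abs _ _).trans ?_
  rw [← Finset.sum_filter_add_sum_filter_not (AD o)
    (fun x => |(x.2 : ℝ) - (S.b.1)⁻¹ * o| ≤ o / 100)]
  refine add_le_add ?_ ?_
  · calc ∑ x ∈ (AD o).filter (fun x => |(x.2 : ℝ) - (S.b.1)⁻¹ * o| ≤ o / 100),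
          |bn S x.1 x.2 * (D x - d)|
        ≤ ∑ x ∈ (AD o).filter (fun x => |(x.2 : ℝ) - (S.b.1)⁻¹ * o| ≤ o / 100),
          bn S x.1 x.2 * ε := by
          refine Finset.sum_le_sum fun x hx => ?_
          rw [abs_mul, abs_of_nonneg (hb x)]
          exact mul_le_mul_of_nonneg_left
            (h1 x (Finset.mem_filter.1 hx).1 (Finset.mem_filter.1 hx).2) (hb x)
      _ ≤ ∑ x ∈ AD o, bn S x.1 x.2 * ε :=
          Finset.sum_le_sum_of_subset_of_nonneg (Finset.filter_subset _ _)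
            fun x _ _ => mul_nonneg (hb x) hε
      _ = ε := by rw [← Finset.sum_mul, h3, one_mul]
  · calc ∑ x ∈ (AD o).filter (fun x => ¬ |(x.2 : ℝ) - (S.b.1)⁻¹ * o| ≤ o / 100),
          |bn S x.1 x.2 * (D x - d)|
        ≤ ∑ x ∈ (AD o).filter (fun x => ¬ |(x.2 : ℝ) - (S.b.1)⁻¹ * o| ≤ o / 100),
          M * bn S x.1 x.2 := by
          refine Finset.sum_le_sum fun x hx => ?_
          rw [abs_mul, abs_of_nonneg (hb x), mul_comm]
          exact mul_le_mul_of_nonneg_right (h2 x (Finset.mem_filter.1 hx).1) (hb x)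
      _ = M * ∑ x ∈ (AD o).filter (fun x => ¬ |(x.2 : ℝ) - (S.b.1)⁻¹ * o| ≤ o / 100),
          bn S x.1 x.2 := by rw [← Finset.mul_sum]
      _ ≤ M * (10000 / o) := mul_le_mul_of_nonneg_left (ext_atyp S o ho) hM

private theorem ext_pow (o : ℕ) : (o : ℝ) * 1.0505 ^ o ≤ Real.exp (2 * o) := by
  have h1 : (o : ℝ) ≤ Real.exp o := by
    have := Real.add_one_le_exp (o : ℝ)
    linarith
  have h2 : (1.0505 : ℝ) ^ o ≤ Real.exp o := by
    calc (1.0505 : ℝ) ^ o ≤ (Real.exp 1) ^ o :=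
          pow_le_pow_left₀ (by norm_num) (le_trans (by norm_num) Real.exp_one_gt_d9.le) _
      _ = Real.exp o := by rw [← Real.exp_nat_mul, mul_one]
  calc (o : ℝ) * 1.0505 ^ o ≤ Real.exp o * Real.exp o :=
        mul_le_mul h1 h2 (by positivity) (Real.exp_pos _).le
    _ = Real.exp (2 * o) := by rw [← Real.exp_add]; congr 1; ring

theorem ext_one (S : Sys2) {N : ℕ} (hN : 1 ≤ N) {dd : Set E → ℝ} {c : ℝ} (h0 : 0.0015 ≤ c)
    (h1 : c ≤ 1.2) (h : Claim S N dd c) : Claim S N dd (c + 0.0001) := by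
  intro ε hε
  obtain ⟨M, hM1, hM⟩ := DD_bd S hN
  obtain ⟨M', hM1', hM'⟩ := Claim_bd S hN (by linarith) h
  obtain ⟨C, hC1, hC⟩ := stepQ S hN
  obtain ⟨R0, hR0, hR0'⟩ := h (ε / 4) (by positivity)
  obtain ⟨η, hη⟩ : ∃ η : ℝ, η = min 1 (ε / (4 * C)) := ⟨_, rfl⟩
  have hη0 : 0 < η := by rw [hη]; exact lt_min one_pos (by positivity)
  have hη1 : η ≤ 1 := by rw [hη]; exact min_le_left _ _
  have hη2 : C * η ≤ ε / 4 := by
    have : η ≤ ε / (4 * C) := by rw [hη]; exact min_le_right _ _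
    calc C * η ≤ C * (ε / (4 * C)) := mul_le_mul_of_nonneg_left this (by linarith)
      _ = ε / 4 := by field_simp
  have hl1 : 0 ≤ Real.log R0 := Real.log_nonneg hR0
  have hl2 : 0 ≤ Real.log (6 / η) := by
    apply Real.log_nonneg
    rw [le_div_iff₀ hη0]
    linarith
  obtain ⟨m, hm⟩ : ∃ m : ℝ, m = 40000 * (M + M') / ε := ⟨_, rfl⟩
  have hm0 : 0 ≤ m := by rw [hm]; positivity
  obtain ⟨L0, hL0⟩ : ∃ L0 : ℝ, L0 = 2 * Real.log R0 + 1300 * Real.log (6 / η) + 5500 +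
    250 * (m + 1) := ⟨_, rfl⟩
  refine ⟨Real.exp L0, Real.one_le_exp (by rw [hL0]; linarith), fun U hU R Q hR hQ hQR => ?_⟩
  have hRp : 0 < R := lt_of_lt_of_le (Real.exp_pos _) hR
  obtain ⟨L, hL⟩ : ∃ L : ℝ, L = Real.log R := ⟨_, rfl⟩
  have hRL : R = Real.exp L := by rw [hL, Real.exp_log hRp]
  have hLL : L0 ≤ L := by
    rw [hRL] at hR
    exact Real.exp_le_exp.1 hR
  have hLa : 2 * Real.log R0 ≤ L := by linarith
  have hLb : 1300 * Real.log (6 / η) ≤ L := by linarith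
  have hLc : 5500 ≤ L := by linarith
  have hLd : 250 * (m + 1) + 5500 ≤ L := by linarith
  have hRR0 : R0 ≤ R := by
    rw [hRL]
    rw [← Real.log_le_iff_le_exp (by linarith)]
    linarith
  by_cases hcase : Q ≤ R ^ c
  · exact (hR0' U hU R Q hRR0 hQ hcase).trans (by linarith)
  push Not at hcase
  have hpw : ∀ t : ℝ, R ^ t = Real.exp (L * t) := fun t => by
    rw [Real.rpow_def_of_pos hRp, ← hL]
  rw [hpw] at hcase hQR
  have hQp : 0 < Q := by linarith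
  obtain ⟨o, ho⟩ : ∃ o : ℕ, o = ⌊0.004 * L⌋₊ := ⟨_, rfl⟩
  have ho1 : (o : ℝ) ≤ 0.004 * L := by
    rw [ho]
    exact Nat.floor_le (by linarith)
  have ho2 : 0.004 * L - 1 ≤ o := by
    rw [ho]
    have := Nat.lt_floor_add_one (0.004 * L)
    linarith
  have ho3 : m + 1 ≤ o := by linarith
  have ho0 : (0 : ℝ) < o := by linarith
  have ho4 : 0 < o := Nat.cast_pos.1 ho0
  have hQlo : Real.exp (0.0015 * L) ≤ Q := by
    refine le_trans (Real.exp_le_exp.2 ?_) hcase.le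
    nlinarith
  have hW3 : ∀ x : ℕ × ℕ, ‖(W S x.1 x.2).2.2‖ = Real.exp (lw3 S x.1 x.2) := fun x => by
    unfold lw3
    rw [Real.exp_log (W3_pos S _ _)]
  have hW2 : ∀ x : ℕ × ℕ, ‖(W S x.1 x.2).2.1‖ = Real.exp (lw S x.1 x.2) := fun x => by
    unfold lw
    rw [Real.exp_log (W2_pos S _ _)]
  have hQ' : ∀ x ∈ AD o, Real.exp (0.000772 * L) ≤ Q * ‖(W S x.1 x.2).2.2‖ := by
    intro x hx
    have hx' : ((x.1 : ℝ) + x.2) = o := by exact_mod_cast mem_AD.1 hx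
    have h3 := lw3_lo S x.1 x.2
    rw [hx'] at h3
    rw [hW3]
    calc Real.exp (0.000772 * L) ≤ Real.exp (0.0015 * L + lw3 S x.1 x.2) := by
          apply Real.exp_le_exp.2
          linarith
      _ = Real.exp (0.0015 * L) * Real.exp (lw3 S x.1 x.2) := Real.exp_add _ _
      _ ≤ Q * Real.exp (lw3 S x.1 x.2) :=
          mul_le_mul_of_nonneg_right hQlo (Real.exp_pos _).le
  have hQ'1 : ∀ x ∈ AD o, 1 ≤ Q * ‖(W S x.1 x.2).2.2‖ := fun x hx =>
    (Real.one_le_exp (by linarith)).trans (hQ' x hx)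
  have hR' : ∀ x ∈ AD o, Real.exp (0.99 * L) ≤ R * ‖(W S x.1 x.2).2.1‖ := by
    intro x hx
    have hx' : ((x.1 : ℝ) + x.2) = o := by exact_mod_cast mem_AD.1 hx
    have h3 := lw_lo S x.1 x.2
    rw [hx'] at h3
    rw [hW2, hRL, ← Real.exp_add]
    apply Real.exp_le_exp.2
    linarith
  have hR'1 : ∀ x ∈ AD o, 1 ≤ R * ‖(W S x.1 x.2).2.1‖ := fun x hx =>
    (Real.one_le_exp (by linarith)).trans (hR' x hx)
  -- the step
  have hstep := hC U hU o R Q η hRp hQp hη0 hη1 (by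
    intro x hx
    have h3 := CmpShiftAux.W1_le S x.1 x.2
    rw [mem_AD.1 hx] at h3
    refine h3.trans ?_
    calc Real.exp (2 * (o : ℝ)) ≤ Real.exp (L + L) := Real.exp_le_exp.2 (by linarith)
      _ = R ^ 2 := by rw [Real.exp_add, ← hRL]; ring
      _ ≤ R ^ 2 * Q ^ 2 := by
          have : 1 ≤ Q ^ 2 := one_le_pow₀ hQ
          nlinarith [sq_nonneg R]) (by
    intro x hx w hw
    constructor
    · have h3 := off2_bound S 1 w
      have hlen : w.length = o := by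
        have h5 := mem_cls.1 hw
        have h6 := count_add w
        have h7 := mem_AD.1 hx
        omega
      rw [hlen] at h3
      have h4 := CmpShiftAux.W2_ge S x.1 x.2
      rw [mem_AD.1 hx] at h4
      have h5 := ext_pow o
      have h6 : Real.exp (2 * o) ≤ η * (Real.exp L * Real.exp (-(o : ℝ))) := by
        have h7 : 1 ≤ η * Real.exp (L / 2) := by
          have h8 : 6 / η ≤ Real.exp (L / 2) := by
            rw [← Real.log_le_iff_le_exp (by positivity)]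
            linarith
          rw [div_le_iff₀ hη0] at h8
          linarith
        rw [← Real.exp_add]
        calc Real.exp (2 * o) = 1 * Real.exp (2 * o) := (one_mul _).symm
          _ ≤ (η * Real.exp (L / 2)) * Real.exp (2 * o) :=
              mul_le_mul_of_nonneg_right h7 (Real.exp_pos _).le
          _ = η * Real.exp (L / 2 + 2 * o) := by rw [mul_assoc, ← Real.exp_add]
          _ ≤ η * Real.exp (L + -(o : ℝ)) :=
              mul_le_mul_of_nonneg_left (Real.exp_le_exp.2 (by linarith)) hη0.le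
      calc ‖(off S.toSys 1 w).2.1‖ ≤ ((1 : ℕ) : ℝ) * o * 1.0505 ^ o := h3
        _ = o * 1.0505 ^ o := by push_cast; ring
        _ ≤ η * (Real.exp L * Real.exp (-(o : ℝ))) := h5.trans h6
        _ ≤ η * (R * ‖(W S x.1 x.2).2.1‖) := by
            rw [hRL]
            exact mul_le_mul_of_nonneg_left
              (mul_le_mul_of_nonneg_left h4 (Real.exp_pos _).le) hη0.le
    · have h3 := off3_bound S 1 w
      have h4 : 6 ≤ η * Real.exp (0.000772 * L) := by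
        have h8 : 6 / η ≤ Real.exp (0.000772 * L) := by
          rw [← Real.log_le_iff_le_exp (by positivity)]
          linarith
        rw [div_le_iff₀ hη0] at h8
        linarith
      calc ‖(off S.toSys 1 w).2.2‖ ≤ 6 * ((1 : ℕ) : ℝ) := h3
        _ = 6 := by push_cast; ring
        _ ≤ η * Real.exp (0.000772 * L) := h4
        _ ≤ η * (Q * ‖(W S x.1 x.2).2.2‖) :=
            mul_le_mul_of_nonneg_left (hQ' x hx) hη0.le)
  have hsum := ext_sum S o ho4 (fun x => DD S N U (R * ‖(W S x.1 x.2).2.1‖)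
    (Q * ‖(W S x.1 x.2).2.2‖)) (dd U) (ε / 4) (M + M') (by linarith) (by positivity) (by
    intro x hx htyp
    have hx' : ((x.1 : ℝ) + x.2) = o := by exact_mod_cast mem_AD.1 hx
    have h3 := ext_lw S o x (mem_AD.1 hx) htyp
    refine hR0' U hU _ _ ?_ (hQ'1 x hx) ?_
    · refine le_trans ?_ (hR' x hx)
      rw [← Real.log_le_iff_le_exp (by linarith)]
      linarith
    · have hpos : 0 < R * ‖(W S x.1 x.2).2.1‖ := by linarith [hR'1 x hx]
      have hlog : Real.log (R * ‖(W S x.1 x.2).2.1‖) = L + lw S x.1 x.2 := by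
        rw [Real.log_mul hRp.ne' (W2_pos S _ _).ne', ← hL]
        rfl
      rw [Real.rpow_def_of_pos hpos, hlog, hW3]
      have h4 := lw3_up S x.1 x.2
      rw [hx'] at h4
      calc Q * Real.exp (lw3 S x.1 x.2) ≤
            Real.exp (L * (c + 0.0001)) * Real.exp (lw3 S x.1 x.2) :=
            mul_le_mul_of_nonneg_right hQR (Real.exp_pos _).le
        _ = Real.exp (L * (c + 0.0001) + lw3 S x.1 x.2) := (Real.exp_add _ _).symm
        _ ≤ Real.exp ((L + lw S x.1 x.2) * c) := by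
            apply Real.exp_le_exp.2
            have h5 : -(0.0004 * L) ≤ lw S x.1 x.2 := by linarith
            have h6 : -(0.0004 * L) * c ≤ lw S x.1 x.2 * c :=
              mul_le_mul_of_nonneg_right h5 (by linarith)
            have h7 : L * c ≤ L * 1.2 := mul_le_mul_of_nonneg_left h1 (by linarith)
            nlinarith) (by
    intro x hx
    have h3 := hM U (R * ‖(W S x.1 x.2).2.1‖) (Q * ‖(W S x.1 x.2).2.2‖)
      (by linarith [hR'1 x hx]) (by linarith [hQ'1 x hx]) (by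
        have e1 : 1 ≤ (R * ‖(W S x.1 x.2).2.1‖) ^ 2 := one_le_pow₀ (hR'1 x hx)
        have e2 : 1 ≤ (Q * ‖(W S x.1 x.2).2.2‖) ^ 2 := one_le_pow₀ (hQ'1 x hx)
        nlinarith)
    have h4 := DD_nonneg S N U (R * ‖(W S x.1 x.2).2.1‖) (Q * ‖(W S x.1 x.2).2.2‖)
    obtain ⟨h5, h6⟩ := hM' U hU
    rw [abs_le]
    constructor <;> linarith)
  have hlast : (M + M') * (10000 / o) ≤ ε / 4 := by
    have h3 : m ≤ o := by linarith
    rw [hm, div_le_iff₀ hε] at h3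
    rw [mul_div_assoc', div_le_iff₀ ho0]
    linarith
  have h9 := abs_sub_le (DD S N U R Q) (∑ x ∈ AD o, bn S x.1 x.2 *
    DD S N U (R * ‖(W S x.1 x.2).2.1‖) (Q * ‖(W S x.1 x.2).2.2‖)) (dd U)
  linarith

theorem claim_all (S : Sys2) {N : ℕ} (hN : 1 ≤ N) {dd : Set E → ℝ}
    (h : Claim S N dd 0.0015) : Claim S N dd 1.1 := by
  have key : ∀ k : ℕ, k ≤ 11000 → Claim S N dd (0.0015 + 0.0001 * k) := by
    intro k
    induction k with
    | zero =>
      intro _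
      have e : (0.0015 : ℝ) + 0.0001 * ((0 : ℕ) : ℝ) = 0.0015 := by norm_num
      rw [e]
      exact h
    | succ k ih =>
      intro hk
      have h1 := ih (by omega)
      have hk' : (k : ℝ) ≤ 11000 := by exact_mod_cast (by omega : k ≤ 11000)
      have hk0 : (0 : ℝ) ≤ k := Nat.cast_nonneg _
      have h2 := ext_one S hN (c := 0.0015 + 0.0001 * k) (by linarith) (by linarith) h1
      have e : (0.0015 : ℝ) + 0.0001 * ((k + 1 : ℕ) : ℝ) = 0.0015 + 0.0001 * k + 0.0001 := by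
        push_cast
        ring
      rw [e]
      exact h2
  refine Claim_mono (key 11000 le_rfl) ?_
  norm_num

end Pool.Agent.H5.TD
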