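import Pool.Agent.H5.TD.Cauchy

/-!
# JOB TD-09 (`dense_AB`, `f_VV`). The functions are close to their averages (pure)

`dense_AB`: the set of the numbers `i A + j δ`, `i, j ∈ ℤ`, `δ = A + B`, is dense, because it is a subgroup of `ℝ` which is not cyclic (`AddSubgroup.dense_or_cyclic`; if `A = m c`, `δ = n c`
then `n A = m (A + B)`, `(n - m) A = m B`, so `n = m` by `irr`, then `m B = 0`, `m = 0`, `A = 0`, contradiction). Finitely many of them are `ε`-dense in `[0, δ]`: for each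
`k ≤ ⌈δ/ε⌉₊` choose one in `(k ε, (k+1) ε)`; `n` bounds all `|i|, |j|`.
`f_VV`: for `0 ≤ t ≤ δ` choose `i, j` with `|t - (i A + j δ)| ≤ ε'`; `|f s - f (s + i A + j δ)| ≤ (|i| + |j|) C1/√(s/2)` for `s` large by `shiftA`, `shiftD` (for negative `i` use `shiftA` at the
other end, etc.; a telescoping lemma: `|f x - f (x + i A)| ≤ |i| C1/√y` if all the points are `≥ y ≥ s1`), and `lip`. So `|f (s+t) - f s| ≤ ε` for all `t ∈ [0, δ]`, `s ≥ s8(ε)` and
`f s - V s = (1/δ) ∫ t in 0..δ, (f s - f (s+t))`.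
-/

set_option autoImplicit false

namespace Pool.Agent.H5.TD

open Pool.Agent.H49.AB Finset

variable {p q A B M C : ℝ} {o0 : ℕ}

theorem dense_AB (hP : PC p q A B) (ε : ℝ) (hε : 0 < ε) :
    ∃ n : ℕ, ∀ t : ℝ, 0 ≤ t → t ≤ A + B → ∃ i j : ℤ, |i| ≤ n ∧ |j| ≤ n ∧
      |t - (i * A + j * (A + B))| ≤ ε := by
  have hd : Dense ((AddSubgroup.closure {A, A + B} : AddSubgroup ℝ) : Set ℝ) := by
    rcases AddSubgroup.dense_or_cyclic (AddSubgroup.closure {A, A + B}) with h | ⟨c, hc⟩
    · exact h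
    · exfalso
      have hA : A ∈ AddSubgroup.closure {c} := by
        rw [← hc]
        exact AddSubgroup.subset_closure (by simp)
      have hD : A + B ∈ AddSubgroup.closure {c} := by
        rw [← hc]
        exact AddSubgroup.subset_closure (by simp)
      rw [AddSubgroup.mem_closure_singleton] at hA hD
      obtain ⟨m, hm⟩ := hA
      obtain ⟨k, hk⟩ := hD
      rw [zsmul_eq_mul] at hm hk
      have h1 : ((k - m : ℤ) : ℝ) * A = m * B := by
        push_cast
        have h2 : (k : ℝ) * A = m * (A + B) := by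
          rw [← hk]
          nth_rewrite 1 [← hm]
          ring
        linarith
      have h2 := hP.irr _ _ h1
      have h3 : k = m := by omega
      rw [h3, hm] at hk
      have := hP.hB
      linarith
  have hε2 : 0 < ε / 2 := by linarith
  have hex : ∀ k : ℕ, ∃ ij : ℤ × ℤ, |(k : ℝ) * (ε / 2) - (ij.1 * A + ij.2 * (A + B))| ≤ ε / 2 := by
    intro k
    obtain ⟨x, hx, hx2⟩ := hd.exists_dist_lt ((k : ℝ) * (ε / 2)) hε2
    have hx' : x ∈ AddSubgroup.closure {A, A + B} := hx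
    rw [AddSubgroup.mem_closure_pair] at hx'
    obtain ⟨i, j, hij⟩ := hx'
    rw [zsmul_eq_mul, zsmul_eq_mul] at hij
    refine ⟨(i, j), ?_⟩
    rw [Real.dist_eq] at hx2
    simp only
    rw [hij]
    exact hx2.le
  choose ij hij using hex
  refine ⟨∑ k ∈ range (⌊(A + B) / (ε / 2)⌋₊ + 1), ((ij k).1.natAbs + (ij k).2.natAbs), ?_⟩
  intro t ht0 ht1
  have hk : ⌊t / (ε / 2)⌋₊ ∈ range (⌊(A + B) / (ε / 2)⌋₊ + 1) := by
    rw [mem_range, Nat.lt_succ_iff]
    exact Nat.floor_mono (div_le_div_of_nonneg_right ht1 hε2.le)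
  have hle := single_le_sum (f := fun k => (ij k).1.natAbs + (ij k).2.natAbs)
    (fun i _ => Nat.zero_le _) hk
  refine ⟨(ij ⌊t / (ε / 2)⌋₊).1, (ij ⌊t / (ε / 2)⌋₊).2, ?_, ?_, ?_⟩
  · rw [Int.abs_eq_natAbs]
    have : (ij ⌊t / (ε / 2)⌋₊).1.natAbs ≤
        ∑ k ∈ range (⌊(A + B) / (ε / 2)⌋₊ + 1), ((ij k).1.natAbs + (ij k).2.natAbs) :=
      le_trans (Nat.le_add_right _ _) hle
    exact_mod_cast this
  · rw [Int.abs_eq_natAbs]
    have : (ij ⌊t / (ε / 2)⌋₊).2.natAbs ≤
        ∑ k ∈ range (⌊(A + B) / (ε / 2)⌋₊ + 1), ((ij k).1.natAbs + (ij k).2.natAbs) :=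
      le_trans (Nat.le_add_left _ _) hle
    exact_mod_cast this
  · have h1 := hij ⌊t / (ε / 2)⌋₊
    have h2 : |t - (⌊t / (ε / 2)⌋₊ : ℝ) * (ε / 2)| ≤ ε / 2 := by
      have h3 := Nat.floor_le (div_nonneg ht0 hε2.le)
      have h4 := Nat.lt_floor_add_one (t / (ε / 2))
      rw [le_div_iff₀ hε2] at h3
      rw [div_lt_iff₀ hε2] at h4
      rw [abs_le]
      constructor <;> nlinarith
    calc |t - ((ij ⌊t / (ε / 2)⌋₊).1 * A + (ij ⌊t / (ε / 2)⌋₊).2 * (A + B))|
        = |(t - (⌊t / (ε / 2)⌋₊ : ℝ) * (ε / 2)) + ((⌊t / (ε / 2)⌋₊ : ℝ) * (ε / 2) -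
          ((ij ⌊t / (ε / 2)⌋₊).1 * A + (ij ⌊t / (ε / 2)⌋₊).2 * (A + B)))| := by
          congr 1
          ring
      _ ≤ ε / 2 + ε / 2 := (abs_add_le _ _).trans (add_le_add h2 h1)
      _ = ε := by ring

private theorem FV_tel (f : ℝ → ℝ) (a K y : ℝ) (ha : 0 ≤ a)
    (h : ∀ s, y ≤ s → |f (s + a) - f s| ≤ K) (n : ℕ) :
    ∀ x, y ≤ x → |f (x + n * a) - f x| ≤ n * K := by
  induction n with
  | zero =>
    intro x _
    simp
  | succ n ih =>
    intro x hx
    have h1 := ih x hx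
    have h2 := h (x + n * a) (by nlinarith [mul_nonneg (Nat.cast_nonneg n : (0 : ℝ) ≤ n) ha])
    have h3 : x + ((n + 1 : ℕ) : ℝ) * a = x + n * a + a := by
      push_cast
      ring
    rw [h3]
    have h4 : f (x + n * a + a) - f x = (f (x + n * a + a) - f (x + n * a)) +
        (f (x + n * a) - f x) := by ring
    rw [h4]
    refine (abs_add_le _ _).trans ?_
    push_cast
    linarith

private theorem FV_telz (f : ℝ → ℝ) (a K y : ℝ) (ha : 0 ≤ a)
    (h : ∀ s, y ≤ s → |f (s + a) - f s| ≤ K) (n : ℕ) (hK : 0 ≤ K) (i : ℤ) (hi : |i| ≤ n)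
    (x : ℝ) (hx : y ≤ x) (hx2 : y ≤ x + i * a) :
    |f (x + i * a) - f x| ≤ n * K := by
  rcases le_total 0 i with h0 | h0
  · obtain ⟨m, rfl⟩ := Int.eq_ofNat_of_zero_le h0
    have hm : (m : ℝ) ≤ n := by
      rw [abs_of_nonneg h0] at hi
      exact_mod_cast hi
    have h1 := FV_tel f a K y ha h m x hx
    rw [Int.cast_natCast]
    exact h1.trans (mul_le_mul_of_nonneg_right hm hK)
  · obtain ⟨m, hm⟩ := Int.eq_ofNat_of_zero_le (neg_nonneg.2 h0)
    have him : i = -(m : ℤ) := by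
      rw [← hm]
      ring
    subst him
    have hm2 : (m : ℝ) ≤ n := by
      rw [abs_of_nonpos h0, neg_neg] at hi
      exact_mod_cast hi
    have h1 := FV_tel f a K y ha h m _ hx2
    have h2 : x + ((-(m : ℤ) : ℤ) : ℝ) * a + m * a = x := by
      push_cast
      ring
    rw [h2, abs_sub_comm] at h1
    exact h1.trans (mul_le_mul_of_nonneg_right hm2 hK)

theorem f_VV (hP : PC p q A B) (M C : ℝ) (hM : 0 ≤ M) (hC : 1 ≤ C) (o0 : ℕ) (ε : ℝ)
    (hε : 0 < ε) : ∃ s8 : ℝ, 1 ≤ s8 ∧ ∀ f, HF p q A B M C o0 f → ∀ s, s8 ≤ s →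
      |f s - VV (A + B) f s| ≤ ε := by
  have hA := hP.hA
  have hB := hP.hB
  have hδ : 0 < A + B := by linarith
  have hC0 : 0 < C := by linarith
  have hε' : 0 < ε / (2 * C) := by positivity
  obtain ⟨n, hn⟩ := dense_AB hP (ε / (2 * C)) hε'
  obtain ⟨C1, s1, hC1, hs1, h1⟩ := shiftA hP M C hM hC o0
  obtain ⟨C2, s2, hC2, hs2, h2⟩ := shiftD hP M C hM hC o0
  have hn0 : (0 : ℝ) ≤ n := Nat.cast_nonneg n
  refine ⟨1 + 2 * s1 + 2 * s2 + 2 * (n * (A + (A + B))) + 2 * (2 * n * (C1 + C2) / ε) ^ 2, ?_, ?_⟩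
  · have e1 : 0 ≤ (n : ℝ) * (A + (A + B)) := by positivity
    have e2 : 0 ≤ (2 * n * (C1 + C2) / ε) ^ 2 := sq_nonneg _
    linarith
  · intro f hf s hs
    have e1 : 0 ≤ (n : ℝ) * (A + (A + B)) := by positivity
    have e2 : 0 ≤ (2 * n * (C1 + C2) / ε) ^ 2 := sq_nonneg _
    have hy1 : s1 ≤ s / 2 := by linarith
    have hy2 : s2 ≤ s / 2 := by linarith
    have hy3 : (n : ℝ) * (A + (A + B)) ≤ s / 2 := by linarith
    have hy4 : (2 * n * (C1 + C2) / ε) ^ 2 ≤ s / 2 := by linarith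
    have hy0 : 0 < s / 2 := by linarith
    have hsq : 0 < Real.sqrt (s / 2) := Real.sqrt_pos.2 hy0
    have hstepA : ∀ x, s / 2 ≤ x → |f (x + A) - f x| ≤ C1 / Real.sqrt (s / 2) := by
      intro x hx
      have h3 := h1 f hf (x + A) (by linarith)
      rw [add_sub_cancel_right] at h3
      refine h3.trans ?_
      apply div_le_div_of_nonneg_left (by linarith) hsq
      exact Real.sqrt_le_sqrt (by linarith)
    have hstepD : ∀ x, s / 2 ≤ x → |f (x + (A + B)) - f x| ≤ C2 / Real.sqrt (s / 2) := by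
      intro x hx
      have h3 := h2 f hf x (by linarith)
      refine h3.trans ?_
      apply div_le_div_of_nonneg_left (by linarith) hsq
      exact Real.sqrt_le_sqrt hx
    have hsmall : n * (C1 / Real.sqrt (s / 2)) + n * (C2 / Real.sqrt (s / 2)) ≤ ε / 2 := by
      have h3 : 2 * n * (C1 + C2) / ε ≤ Real.sqrt (s / 2) := Real.le_sqrt_of_sq_le hy4
      have h4 : n * (C1 / Real.sqrt (s / 2)) + n * (C2 / Real.sqrt (s / 2)) =
          n * (C1 + C2) / Real.sqrt (s / 2) := by ring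
      rw [h4, div_le_iff₀ hsq]
      rw [div_le_iff₀ hε] at h3
      linarith
    have hpt : ∀ t : ℝ, 0 ≤ t → t ≤ A + B → |f s - f (s + t)| ≤ ε := by
      intro t ht0 ht1
      obtain ⟨i, j, hi, hj, hij⟩ := hn t ht0 ht1
      have hir : |(i : ℝ)| ≤ n := by exact_mod_cast hi
      have hjr : |(j : ℝ)| ≤ n := by exact_mod_cast hj
      have hiA : -((n : ℝ) * A) ≤ i * A := by
        nlinarith [(abs_le.1 hir).1]
      have hjD : -((n : ℝ) * (A + B)) ≤ j * (A + B) := by
        nlinarith [(abs_le.1 hjr).1]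
      have e3 : 0 ≤ (n : ℝ) * A := by positivity
      have e4 : 0 ≤ (n : ℝ) * (A + B) := by positivity
      have hp1 : s / 2 ≤ s + i * A := by nlinarith
      have hp2 : s / 2 ≤ s + i * A + j * (A + B) := by nlinarith
      have g1 := FV_telz f A _ (s / 2) hA.le hstepA n (by positivity) i hi s (by linarith) hp1
      have g2 := FV_telz f (A + B) _ (s / 2) hδ.le hstepD n (by positivity) j hj (s + i * A)
        hp1 hp2
      have g3 : |f (s + t) - f (s + i * A + j * (A + B))| ≤ ε / 2 := by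
        refine (hf.lip _ _).trans ?_
        have h5 : s + t - (s + i * A + j * (A + B)) = t - (i * A + j * (A + B)) := by ring
        rw [h5]
        calc C * |t - (i * A + j * (A + B))| ≤ C * (ε / (2 * C)) :=
              mul_le_mul_of_nonneg_left hij hC0.le
          _ = ε / 2 := by field_simp
      have h6 : f s - f (s + t) = -(f (s + i * A) - f s) -
          (f (s + i * A + j * (A + B)) - f (s + i * A)) -
          (f (s + t) - f (s + i * A + j * (A + B))) := by ring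
      rw [h6]
      rw [abs_le] at g1 g2 g3 ⊢
      constructor <;> linarith [g1.1, g1.2, g2.1, g2.2, g3.1, g3.2]
    have hcont : Continuous f := by
      apply LipschitzWith.continuous (K := ⟨C, hC0.le⟩)
      apply LipschitzWith.of_dist_le_mul
      intro x y
      rw [Real.dist_eq, Real.dist_eq]
      exact hf.lip x y
    have hint : ∫ u in s..(s + (A + B)), (f s - f u) =
        f s * (A + B) - ∫ u in s..(s + (A + B)), f u := by
      rw [intervalIntegral.integral_sub (by simp) (hcont.intervalIntegrable _ _),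
        intervalIntegral.integral_const, smul_eq_mul]
      ring
    have hb : ‖∫ u in s..(s + (A + B)), (f s - f u)‖ ≤ ε * |s + (A + B) - s| := by
      apply intervalIntegral.norm_integral_le_of_norm_le_const
      intro u hu
      rw [Set.uIoc_of_le (by linarith)] at hu
      have h7 := hpt (u - s) (by linarith [hu.1]) (by linarith [hu.2])
      rw [add_sub_cancel] at h7
      exact h7
    rw [hint, Real.norm_eq_abs, add_sub_cancel_left, abs_of_pos hδ] at hb
    unfold VV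
    have h8 : f s - (∫ u in s..(s + (A + B)), f u) / (A + B) =
        (f s * (A + B) - ∫ u in s..(s + (A + B)), f u) / (A + B) := by
      field_simp
    rw [h8, abs_div, abs_of_pos hδ, div_le_iff₀ hδ]
    exact hb

end Pool.Agent.H5.TD
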