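import Pool.Agent.H5.TD.Cnt
import Pool.Agent.H5.TD.Dens

/-!
# JOB TD-25. The final statement

`dens_fin` (first part): `exists_sys2 α hα` gives `S`, `Good α S`; `dens`, `claim_all` give `dd` with `Claim S N dd 1.1`. Let `D1 = dd (UE univ)`, `D1 > 0`: by `lower` (`AlmostAllBounded`) `ncard X_H ≥ H⁴/C`, and `cnt_diff` with
`U = univ`, `s = 0`, `t = 1`, `equi`: `ncard X_H = H⁴ (π² D1 ± ε) ± 3` for large `H` (`NT … 0` has `H⁴(0 ± ε)`). `d U := dd (UE U)/D1`. For invariant `U`: `ncard {x ∈ X_H ∩ U, s ≤ x ≤ t} = H⁴ (π² dd (UE U) (t-s) ± 2 ε') ± 3`, and the quotient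
is `(t - s) d U + O(ε')`, uniformly (`0 ≤ dd ≤ M`, `Claim_bd`).
-/

set_option autoImplicit false

namespace Pool.Agent.H5.TD

open Pool.Agent.H67.Tent Pool.Agent.H49.AB Pool.Agent.H49.PP Finset
open Pool.Agent.Results.MP_df7698_an.AlmostAllBounded

private theorem fin_aux {a b u A e ε M : ℝ} (hA : 0 < A) (he : 0 < e) (h1 : |a - u| ≤ 3 * e)
    (h2 : |b - A| ≤ 3 * e) (hu0 : 0 ≤ u) (huM : u ≤ M) (he1 : e ≤ A / 6)
    (he2 : 6 * e * (A + M) ≤ ε * A ^ 2) : |a / b - u / A| ≤ ε := by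
  have hM : 0 ≤ M := hu0.trans huM
  have hb : A / 2 ≤ b := by
    have := (abs_le.1 h2).1
    linarith
  have hb0 : 0 < b := by linarith
  have e1 : a / b - u / A = ((a - u) * A + u * (A - b)) / (b * A) := by
    field_simp
    ring
  rw [e1, abs_div, abs_of_pos (mul_pos hb0 hA), div_le_iff₀ (mul_pos hb0 hA)]
  have h3 : |(a - u) * A + u * (A - b)| ≤ 3 * e * A + M * (3 * e) := by
    refine (abs_add_le _ _).trans ?_
    rw [abs_mul, abs_mul, abs_of_pos hA, abs_of_nonneg hu0, abs_sub_comm A b]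
    have g1 : |a - u| * A ≤ 3 * e * A := mul_le_mul_of_nonneg_right h1 hA.le
    have g2 : u * |b - A| ≤ M * (3 * e) := mul_le_mul huM h2 (abs_nonneg _) hM
    linarith
  have hε : 0 ≤ ε := by
    have h4 : 0 ≤ 6 * e * (A + M) := by positivity
    have h5 : 0 < A ^ 2 := by positivity
    by_contra hneg
    push Not at hneg
    nlinarith
  have h6 : ε * (A ^ 2) ≤ 2 * (ε * (b * A)) := by
    have : A * A ≤ 2 * (b * A) := by nlinarith
    nlinarith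
  nlinarith

theorem dens_fin (α : ℝ) (hα : α ^ 5 - α ^ 3 - 1 = 0) (N : ℕ) (hN : 1 ≤ N) :
    ∃ d : Set ℝ → ℝ, ∀ ε : ℝ, 0 < ε → ∃ H0 : ℝ, ∀ H : ℝ, H0 ≤ H →
      {x : ℝ | x ∈ Set.Icc (0 : ℝ) 1 ∧ HeightLE α N H x}.Finite ∧
      0 < {x : ℝ | x ∈ Set.Icc (0 : ℝ) 1 ∧ HeightLE α N H x}.ncard ∧
      ∀ U : Set ℝ, (∀ x ∈ Set.Icc (0 : ℝ) 1, (tent α x ∈ U ↔ x ∈ U)) →
        ∀ s t : ℝ, 0 ≤ s → s ≤ t → t ≤ 1 →
        |(({x : ℝ | x ∈ Set.Icc (0 : ℝ) 1 ∧ HeightLE α N H x ∧ x ∈ U ∧ s ≤ x ∧ x ≤ t}).ncard : ℝ) /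
          ({x : ℝ | x ∈ Set.Icc (0 : ℝ) 1 ∧ HeightLE α N H x}.ncard : ℝ) - (t - s) * d U| ≤ ε := by
  classical
  obtain ⟨S, e1, e2, e3, e4, e5⟩ := exists_sys2 α hα
  have hS : Good α S.toSys := ⟨e1, e2, e3, e4, e5⟩
  obtain ⟨dd, hdd0⟩ := dens S hN
  have hdd : Claim S N dd 1.1 := claim_all S hN hdd0
  obtain ⟨M, hM1, hM⟩ := Claim_bd S hN (by norm_num) hdd
  obtain ⟨C, hC, hlow⟩ := lower hα hS N hN
  have hinvU : Inv S N (UE Set.univ) := inv_UE hS N (fun x _ => by simp)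
  -- the counts
  have hcnt : ∀ e : ℝ, 0 < e → ∃ H0 : ℝ, 2 ≤ H0 ∧ ∀ H : ℝ, H0 ≤ H →
      ∀ U : Set ℝ, (∀ x ∈ Set.Icc (0 : ℝ) 1, (tent α x ∈ U ↔ x ∈ U)) →
        ∀ s t : ℝ, 0 ≤ s → s ≤ t → t ≤ 1 →
        |(({x : ℝ | x ∈ Set.Icc (0 : ℝ) 1 ∧ HeightLE α N H x ∧ x ∈ U ∧ s ≤ x ∧ x ≤ t}).ncard : ℝ) /
          H ^ 4 - Real.pi ^ 2 * dd (UE U) * (t - s)| ≤ 3 * e := by
    intro e he
    obtain ⟨H1, hH1, hequi⟩ := equi S hN hdd e he
    refine ⟨max H1 (3 / e + 2), le_trans (by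
      have : 0 < 3 / e := by positivity
      linarith) (le_max_right _ _), ?_⟩
    intro H hH U hU s t hs hst ht
    have hHa : H1 ≤ H := (le_max_left _ _).trans hH
    have hHb : 3 / e + 2 ≤ H := (le_max_right _ _).trans hH
    have h3e : 0 < 3 / e := by positivity
    have hH2 : 2 ≤ H := by linarith
    have hH0 : 0 < H := by linarith
    have hH4 : 0 < H ^ 4 := by positivity
    have hinv := inv_UE hS N hU
    have g1 := hequi (UE U) hinv t (hs.trans hst) ht H hHa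
    have g2 := hequi (UE U) hinv s hs (hst.trans ht) H hHa
    have g3 := cnt_diff hS hN U hH2 hst
    have hHH : 3 / e ≤ H ^ 4 := by
      have : H ≤ H ^ 4 := le_self_pow₀ (by linarith) (by norm_num)
      linarith
    have g4 : 3 / H ^ 4 ≤ e := by
      rw [div_le_iff₀ he] at hHH
      rw [div_le_iff₀ hH4]
      linarith
    set c : ℝ := (({x : ℝ | x ∈ Set.Icc (0 : ℝ) 1 ∧ HeightLE α N H x ∧ x ∈ U ∧ s ≤ x ∧
      x ≤ t}).ncard : ℝ) with hc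
    set a : ℝ := (NT S N (UE U) H t).toReal with ha
    set b : ℝ := (NT S N (UE U) H s).toReal with hb
    have g5 : |c / H ^ 4 - (a / H ^ 4 - b / H ^ 4)| ≤ e := by
      rw [← sub_div, ← sub_div, abs_div, abs_of_pos hH4]
      exact (div_le_div_of_nonneg_right g3 hH4.le).trans g4
    have g1' := abs_le.1 g1
    have g2' := abs_le.1 g2
    have g5' := abs_le.1 g5
    rw [abs_le]
    constructor <;> linarith [g1'.1, g1'.2, g2'.1, g2'.2, g5'.1, g5'.2]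
  have hset : ∀ H : ℝ, {x : ℝ | x ∈ Set.Icc (0 : ℝ) 1 ∧ HeightLE α N H x ∧ x ∈ Set.univ ∧
      (0 : ℝ) ≤ x ∧ x ≤ 1} = {x : ℝ | x ∈ Set.Icc (0 : ℝ) 1 ∧ HeightLE α N H x} := by
    intro H
    ext x
    simp only [Set.mem_setOf_eq, Set.mem_Icc, Set.mem_univ, true_and]
    tauto
  have htot : ∀ e : ℝ, 0 < e → ∃ H0 : ℝ, 2 ≤ H0 ∧ ∀ H : ℝ, H0 ≤ H →
      |(({x : ℝ | x ∈ Set.Icc (0 : ℝ) 1 ∧ HeightLE α N H x}).ncard : ℝ) / H ^ 4 -
        Real.pi ^ 2 * dd (UE Set.univ)| ≤ 3 * e := by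
    intro e he
    obtain ⟨H0, hH0, h⟩ := hcnt e he
    refine ⟨H0, hH0, fun H hH => ?_⟩
    have h1 := h H hH Set.univ (fun x _ => by simp) 0 1 le_rfl zero_le_one le_rfl
    rw [hset, sub_zero, mul_one] at h1
    exact h1
  have hpi : 0 < Real.pi ^ 2 := by positivity
  have hD1 : 0 < dd (UE Set.univ) := by
    obtain ⟨H0, hH0, h⟩ := htot (1 / (6 * C)) (by positivity)
    have h1 := h H0 le_rfl
    have hfin := (fin_upper hS N hN H0 hH0).1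
    have h2 := hlow H0 hH0 hfin
    have hH4 : 0 < H0 ^ 4 := by positivity
    have h3 : 1 / C ≤ (({x : ℝ | x ∈ Set.Icc (0 : ℝ) 1 ∧ HeightLE α N H0 x}).ncard : ℝ) /
        H0 ^ 4 := by
      rw [le_div_iff₀ hH4]
      calc 1 / C * H0 ^ 4 = H0 ^ 4 / C := by ring
        _ ≤ _ := h2
    have h4 := (abs_le.1 h1).2
    have h5 : 3 * (1 / (6 * C)) = 1 / (2 * C) := by
      field_simp
      norm_num
    have h6 : 1 / (2 * C) < 1 / C := by
      have : 0 < 1 / C := by positivity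
      have e6 : 1 / (2 * C) = (1 / C) / 2 := by
        field_simp
      linarith
    have h7 : 0 < Real.pi ^ 2 * dd (UE Set.univ) := by linarith
    by_contra hneg
    push Not at hneg
    have : Real.pi ^ 2 * dd (UE Set.univ) ≤ 0 := mul_nonpos_of_nonneg_of_nonpos hpi.le hneg
    linarith
  refine ⟨fun U => dd (UE U) / dd (UE Set.univ), ?_⟩
  intro ε hε
  set A : ℝ := Real.pi ^ 2 * dd (UE Set.univ) with hA
  have hA0 : 0 < A := mul_pos hpi hD1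
  set B : ℝ := Real.pi ^ 2 * M with hB
  have hB0 : 0 ≤ B := by positivity
  set e : ℝ := min (A / 6) (ε * A ^ 2 / (6 * (A + B))) with he
  have he0 : 0 < e := lt_min (by positivity) (by positivity)
  have hea : e ≤ A / 6 := min_le_left _ _
  have heb : 6 * e * (A + B) ≤ ε * A ^ 2 := by
    have h1 : e ≤ ε * A ^ 2 / (6 * (A + B)) := min_le_right _ _
    rw [le_div_iff₀ (by positivity)] at h1
    linarith
  obtain ⟨H1, hH1, hc⟩ := hcnt e he0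
  obtain ⟨H2, hH2, ht⟩ := htot e he0
  refine ⟨max H1 H2, ?_⟩
  intro H hH
  have hHa : H1 ≤ H := (le_max_left _ _).trans hH
  have hHb : H2 ≤ H := (le_max_right _ _).trans hH
  have hHge : 2 ≤ H := hH1.trans hHa
  have hH4 : 0 < H ^ 4 := by positivity
  have hfin := (fin_upper hS N hN H hHge).1
  have hlo := hlow H hHge hfin
  have hpos : (0 : ℝ) < (({x : ℝ | x ∈ Set.Icc (0 : ℝ) 1 ∧ HeightLE α N H x}).ncard : ℝ) :=
    lt_of_lt_of_le (by positivity) hlo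
  refine ⟨hfin, by exact_mod_cast hpos, ?_⟩
  intro U hU s t hs hst ht1
  have g1 := hc H hHa U hU s t hs hst ht1
  have g2 := ht H hHb
  obtain ⟨hd0, hdM⟩ := hM (UE U) (inv_UE hS N hU)
  have hu0 : 0 ≤ Real.pi ^ 2 * dd (UE U) * (t - s) :=
    mul_nonneg (mul_nonneg hpi.le hd0) (by linarith)
  have huB : Real.pi ^ 2 * dd (UE U) * (t - s) ≤ B := by
    have h1 : Real.pi ^ 2 * dd (UE U) ≤ B := mul_le_mul_of_nonneg_left hdM hpi.le
    have h2 : Real.pi ^ 2 * dd (UE U) * (t - s) ≤ Real.pi ^ 2 * dd (UE U) * 1 :=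
      mul_le_mul_of_nonneg_left (by linarith) (mul_nonneg hpi.le hd0)
    linarith
  have hfinal := fin_aux hA0 he0 g1 g2 hu0 huB hea heb
  have r1 : (({x : ℝ | x ∈ Set.Icc (0 : ℝ) 1 ∧ HeightLE α N H x ∧ x ∈ U ∧ s ≤ x ∧
      x ≤ t}).ncard : ℝ) / H ^ 4 /
      ((({x : ℝ | x ∈ Set.Icc (0 : ℝ) 1 ∧ HeightLE α N H x}).ncard : ℝ) / H ^ 4) =
      (({x : ℝ | x ∈ Set.Icc (0 : ℝ) 1 ∧ HeightLE α N H x ∧ x ∈ U ∧ s ≤ x ∧
      x ≤ t}).ncard : ℝ) / (({x : ℝ | x ∈ Set.Icc (0 : ℝ) 1 ∧ HeightLE α N H x}).ncard : ℝ) :=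
    div_div_div_cancel_right₀ hH4.ne' _ _
  have r2 : Real.pi ^ 2 * dd (UE U) * (t - s) / A = (t - s) * (dd (UE U) / dd (UE Set.univ)) := by
    rw [hA]
    field_simp
  rw [r1, r2] at hfinal
  exact hfinal

end Pool.Agent.H5.TD
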