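import Pool.Agent.H5.TD.Avg

/-!
# JOB TD-06 (`VV_gam`, `VV_loc`). Local shifts of the averages (pure)

`V = VV (A+B) f`, `δ = A + B`, `γ = q B - p A` (so `A + γ = q δ` because `p + q = 1`), `0 < γ ≤ 1`.

`VV_gam`. Let `o = ⌊s/100⌋₊` and `s` large, `a ≤ s/100` (`a : ℕ`); then `40 (o + a) ≤ s`. By `VV_harm` at `s + γ a` with `o + a` steps the positions are
`s + γ a + A (o + a) - δ j = s + A o + δ q a - δ j`. With `G j = V (that)`, `m = ⌊q a⌋`, `r = q a - m`, `EE_cmp` gives
`|EE (o+a) G - EE o (G(j+m) + r (G(j+m+1) - G(j+m)))| ≤ a M/(p²q²(o+1)) ≤ C a/s`, `G (j+m) = V (s + A o - δ j + δ r)`; by `VV_slow` (all positions with `j ≤ o` are `≥ s/2`, `B ≤ 1`)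
`|G(j+m+1) - G(j+m)|` and `|V (s + A o - δ j + δ r) - V (s + A o - δ j)|` are `≤ C/√(s/2)`-ish. Compare with `VV_harm` at `s` with `o` steps.
`VV_loc`: for `0 ≤ t ≤ γ s/200` take `a = ⌊t/γ⌋₊` (`a ≤ s/200`): `|V(s + γ a) - V(s)| ≤ C (a/s + 1/√s)` and `VV_slow` for the rest (`≤ γ ≤ 1`).
-/

set_option autoImplicit false

namespace Pool.Agent.H5.TD

open Pool.Agent.H49.AB Finset

variable {p q A B M C : ℝ} {o0 : ℕ}

theorem VV_gam (hP : PC p q A B) (M C : ℝ) (hM : 0 ≤ M) (hC : 1 ≤ C) (o0 : ℕ) :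
    ∃ C3 s3 : ℝ, 1 ≤ C3 ∧ 1 ≤ s3 ∧ ∀ f, HF p q A B M C o0 f → ∀ (s : ℝ) (a : ℕ), s3 ≤ s →
      (a : ℝ) ≤ s / 100 →
      |VV (A + B) f (s + (q * B - p * A) * a) - VV (A + B) f s| ≤
        C3 * (a / s + 1 / Real.sqrt s) := by
  obtain ⟨C2, s2, hC2, hs2, hslow⟩ := VV_slow hP M C hM hC o0
  have hp := hP.hp
  have hq := hP.hq
  have hpq := hP.pq
  have hA := hP.hA
  have hA1 := hP.hA1
  have hB := hP.hB
  have hB1 := hP.hB1
  have hdr := hP.drift
  have hpq2 : 0 < p ^ 2 * q ^ 2 := by positivity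
  refine ⟨400 * C + 200 * (M / (p ^ 2 * q ^ 2)) + 8 * C2,
    max (max (2 * s2) 400) (100 * ((o0 : ℝ) + 1)), ?_, ?_, ?_⟩
  · have : 0 ≤ M / (p ^ 2 * q ^ 2) := by positivity
    nlinarith
  · exact le_trans (by norm_num) (le_trans (le_max_right (2 * s2) 400) (le_max_left _ _))
  intro f hf s a hs ha
  have hs2' : 2 * s2 ≤ s := le_trans (le_trans (le_max_left _ _) (le_max_left _ _)) hs
  have hs400 : 400 ≤ s := le_trans (le_trans (le_max_right _ _) (le_max_left _ _)) hs
  have hso : 100 * ((o0 : ℝ) + 1) ≤ s := le_trans (le_max_right _ _) hs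
  have hs0 : 0 < s := by linarith
  set o : ℕ := ⌊s / 100⌋₊ with ho
  have ho1 : (o : ℝ) ≤ s / 100 := Nat.floor_le (by positivity)
  have ho2 : s / 100 < o + 1 := Nat.lt_floor_add_one _
  have ho3 : s / 200 ≤ o := by linarith
  have ho0 : o0 ≤ o := by
    have : (o0 : ℝ) ≤ o := by linarith
    exact_mod_cast this
  have hopos : (0 : ℝ) < o := by linarith
  have ha0 : (0 : ℝ) ≤ a := Nat.cast_nonneg a
  set V : ℝ → ℝ := VV (A + B) f with hV
  have hVb : ∀ x, |V x| ≤ M := fun x => VV_bd (by linarith) hf.bd x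
  -- harmonicity at the far point
  have h1 : |V (s + (q * B - p * A) * a) - EE p q (o + a) (fun j => V (s + (q * B - p * A) * a +
      A * ((o + a : ℕ) : ℝ) - (A + B) * j))| ≤ C / ((o + a : ℕ) : ℝ) := by
    refine VV_harm hP hf (by omega) ?_
    push_cast
    have : 0 ≤ (q * B - p * A) * a := by positivity
    linarith
  have h1' : C / ((o + a : ℕ) : ℝ) ≤ C / o := by
    push_cast
    exact div_le_div_of_nonneg_left (by linarith) hopos (by linarith)
  set G : ℕ → ℝ := fun j => V (s + (q * B - p * A) * a + A * ((o + a : ℕ) : ℝ) - (A + B) * j) with hG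
  have h2 := EE_cmp (p := p) (q := q) hp hq hpq o (M := M) a (G := G) (fun j => hVb _)
  set m : ℕ := ⌊q * a⌋₊ with hm
  have hqa : 0 ≤ q * a := by positivity
  have hm1 : (m : ℝ) ≤ q * a := Nat.floor_le hqa
  have hm2 : q * a < m + 1 := Nat.lt_floor_add_one _
  have h3 : |V s - EE p q o (fun j => V (s + A * o - (A + B) * j))| ≤ C / o :=
    VV_harm hP hf ho0 (by linarith)
  have hsq : Real.sqrt s / 2 ≤ Real.sqrt (s / 2) := by
    have h4 : Real.sqrt s / 2 = Real.sqrt (s / 4) := by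
      rw [Real.sqrt_div hs0.le, show (4 : ℝ) = 2 ^ 2 by norm_num, Real.sqrt_sq (by norm_num)]
    rw [h4]
    exact Real.sqrt_le_sqrt (by linarith)
  have hsqp : 0 < Real.sqrt s := Real.sqrt_pos.mpr hs0
  -- slow variation for the positions
  have hsl : ∀ x u : ℝ, s / 2 ≤ x → 0 ≤ u → u ≤ 2 → |V (x + u) - V x| ≤ 4 * C2 / Real.sqrt s := by
    intro x u hx hu hu2
    have h5 := hslow f hf x u (by linarith) hu
    refine le_trans h5 ?_
    have h6 : Real.sqrt s / 2 ≤ Real.sqrt x := le_trans hsq (Real.sqrt_le_sqrt hx)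
    calc C2 * u / Real.sqrt x ≤ C2 * 2 / (Real.sqrt s / 2) := by
          apply div_le_div₀ (by linarith) (by nlinarith) (by positivity) h6
      _ = 4 * C2 / Real.sqrt s := by
          field_simp
          ring
  have hEE : |EE p q o (fun j => G (j + m) + (q * a - m) * (G (j + m + 1) - G (j + m))) -
      EE p q o (fun j => V (s + A * o - (A + B) * j))| ≤ 8 * C2 / Real.sqrt s := by
    rw [← EE_sub]
    refine EE_abs_le_const hp.le hq.le hpq ?_
    intro j hj
    have hj' : (j : ℝ) ≤ o := by exact_mod_cast hj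
    have hj0 : (0 : ℝ) ≤ j := Nat.cast_nonneg j
    set x : ℝ := s + A * o - (A + B) * j with hx
    have hxlo : s - o ≤ x := by
      have e1 : (A + B) * j ≤ (A + B) * o := mul_le_mul_of_nonneg_left hj' (by linarith)
      have e2 : B * o ≤ o := by nlinarith
      rw [hx]
      nlinarith
    have hr0 : 0 ≤ q * a - m := by linarith
    have hr1 : q * a - m ≤ 1 := by linarith
    have hg1 : G (j + m) = V (x + (A + B) * (q * a - m)) := by
      simp only [hG]
      congr 1
      rw [hx]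
      push_cast
      have : p = 1 - q := by linarith
      rw [this]
      ring
    have hg2 : G (j + m + 1) = V (x + (A + B) * (q * a - m) - (A + B)) := by
      simp only [hG]
      congr 1
      rw [hx]
      push_cast
      have : p = 1 - q := by linarith
      rw [this]
      ring
    have hd0 : 0 ≤ (A + B) * (q * a - m) := by positivity
    have hd1 : (A + B) * (q * a - m) ≤ 2 := by nlinarith
    have e3 := hsl x ((A + B) * (q * a - m)) (by linarith) hd0 hd1
    have e4 := hsl (x + (A + B) * (q * a - m) - (A + B)) (A + B) (by linarith) (by linarith)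
      (by linarith)
    rw [sub_add_cancel] at e4
    rw [hg1, hg2]
    set y1 := V (x + (A + B) * (q * a - m))
    set y2 := V (x + (A + B) * (q * a - m) - (A + B))
    have e5 : |(q * a - m) * (y2 - y1)| ≤ 4 * C2 / Real.sqrt s := by
      rw [abs_mul, abs_of_nonneg hr0, abs_sub_comm]
      calc (q * a - m) * |y1 - y2| ≤ 1 * |y1 - y2| :=
            mul_le_mul_of_nonneg_right hr1 (abs_nonneg _)
        _ ≤ _ := by rw [one_mul]; exact e4
    calc |y1 + (q * a - m) * (y2 - y1) - V x| = |(y1 - V x) + (q * a - m) * (y2 - y1)| := by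
          congr 1; ring
      _ ≤ |y1 - V x| + |(q * a - m) * (y2 - y1)| := abs_add_le _ _
      _ ≤ 4 * C2 / Real.sqrt s + 4 * C2 / Real.sqrt s := add_le_add e3 e5
      _ = 8 * C2 / Real.sqrt s := by ring
  have htot : |V (s + (q * B - p * A) * a) - V s| ≤
      C / o + a * (M / (p ^ 2 * q ^ 2 * (o + 1))) + 8 * C2 / Real.sqrt s + C / o := by
    set x1 := V (s + (q * B - p * A) * a)
    set x2 := EE p q (o + a) G
    set x3 := EE p q o (fun j => G (j + m) + (q * a - m) * (G (j + m + 1) - G (j + m)))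
    set x4 := EE p q o (fun j => V (s + A * o - (A + B) * j))
    set x5 := V s
    have k1 := abs_le.mp (le_trans h1 h1')
    have k2 := abs_le.mp h2
    have k3 := abs_le.mp hEE
    have k4 := abs_le.mp h3
    rw [abs_le]
    constructor <;> linarith [k1.1, k1.2, k2.1, k2.2, k3.1, k3.2, k4.1, k4.2]
  refine le_trans htot ?_
  have b1 : C / o ≤ 200 * C / Real.sqrt s := by
    have : C / o ≤ C / (s / 200) := div_le_div_of_nonneg_left (by linarith) (by positivity) ho3
    refine le_trans this ?_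
    have h7 : C / (s / 200) = 200 * C / s := by
      field_simp
    rw [h7]
    refine div_le_div_of_nonneg_left (by linarith) hsqp ?_
    rw [Real.sqrt_le_left (by linarith)]
    nlinarith
  have b2 : a * (M / (p ^ 2 * q ^ 2 * (o + 1))) ≤ 200 * (M / (p ^ 2 * q ^ 2)) * (a / s) := by
    have h8 : M / (p ^ 2 * q ^ 2 * (o + 1)) ≤ M / (p ^ 2 * q ^ 2 * (s / 200)) := by
      refine div_le_div_of_nonneg_left hM (by positivity) ?_
      exact mul_le_mul_of_nonneg_left (by linarith) hpq2.le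
    calc (a : ℝ) * (M / (p ^ 2 * q ^ 2 * (o + 1))) ≤ a * (M / (p ^ 2 * q ^ 2 * (s / 200))) :=
          mul_le_mul_of_nonneg_left h8 ha0
      _ = 200 * (M / (p ^ 2 * q ^ 2)) * (a / s) := by
          field_simp
  have b3 : 0 ≤ (a : ℝ) / s := by positivity
  have b4 : 0 ≤ M / (p ^ 2 * q ^ 2) := by positivity
  have b5 : 0 < 1 / Real.sqrt s := by positivity
  calc C / o + a * (M / (p ^ 2 * q ^ 2 * (o + 1))) + 8 * C2 / Real.sqrt s + C / o
      ≤ 200 * C / Real.sqrt s + 200 * (M / (p ^ 2 * q ^ 2)) * (a / s) + 8 * C2 / Real.sqrt s +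
          200 * C / Real.sqrt s := by linarith
    _ = (400 * C + 8 * C2) * (1 / Real.sqrt s) + 200 * (M / (p ^ 2 * q ^ 2)) * (a / s) := by ring
    _ ≤ (400 * C + 200 * (M / (p ^ 2 * q ^ 2)) + 8 * C2) * (a / s + 1 / Real.sqrt s) := by
        have c1 : 0 ≤ (400 * C + 8 * C2) * (a / s) := by positivity
        have c2 : 0 ≤ (200 * (M / (p ^ 2 * q ^ 2))) * (1 / Real.sqrt s) := by positivity
        nlinarith

theorem VV_loc (hP : PC p q A B) (M C : ℝ) (hM : 0 ≤ M) (hC : 1 ≤ C) (o0 : ℕ) :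
    ∃ C4 s4 : ℝ, 1 ≤ C4 ∧ 1 ≤ s4 ∧ ∀ f, HF p q A B M C o0 f → ∀ s t : ℝ, s4 ≤ s → 0 ≤ t →
      t ≤ (q * B - p * A) * s / 200 →
      |VV (A + B) f (s + t) - VV (A + B) f s| ≤ C4 * (t / s + 1 / Real.sqrt s) := by
  obtain ⟨C2, s2, hC2, hs2, hslow⟩ := VV_slow hP M C hM hC o0
  obtain ⟨C3, s3, hC3, hs3, hgam⟩ := VV_gam hP M C hM hC o0
  have hp := hP.hp
  have hq := hP.hq
  have hpq := hP.pq
  have hA := hP.hA
  have hB := hP.hB
  have hB1 := hP.hB1
  have hdr := hP.drift
  set γ := q * B - p * A with hγ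
  have hγ1 : γ ≤ 1 := by
    have : 0 < p * A := by positivity
    have : q * B ≤ 1 := by nlinarith
    linarith
  refine ⟨C2 + C3 + C3 / γ, max s2 s3, ?_, le_trans hs2 (le_max_left _ _), ?_⟩
  · have : 0 < C3 / γ := by positivity
    linarith
  intro f hf s t hs ht0 ht
  have h2 : s2 ≤ s := le_trans (le_max_left _ _) hs
  have h3 : s3 ≤ s := le_trans (le_max_right _ _) hs
  have hs0 : 0 < s := by linarith
  have hsqp : 0 < Real.sqrt s := Real.sqrt_pos.mpr hs0
  set a : ℕ := ⌊t / γ⌋₊ with ha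
  have htγ : 0 ≤ t / γ := by positivity
  have ha1 : (a : ℝ) ≤ t / γ := Nat.floor_le htγ
  have ha2 : t / γ < a + 1 := Nat.lt_floor_add_one _
  have ha0 : (0 : ℝ) ≤ a := Nat.cast_nonneg a
  have ha3 : t / γ ≤ s / 200 := by
    rw [div_le_iff₀ hdr]
    linarith
  have hga : γ * a ≤ t := by
    have := (le_div_iff₀ hdr).mp ha1
    linarith
  have hga2 : t ≤ γ * a + γ := by
    have := (div_lt_iff₀ hdr).mp ha2
    nlinarith
  have k1 := hgam f hf s a h3 (by linarith)
  have k2 := hslow f hf (s + γ * a) (t - γ * a) (by nlinarith) (by linarith)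
  rw [show s + γ * a + (t - γ * a) = s + t by ring] at k2
  have k3 : C2 * (t - γ * a) / Real.sqrt (s + γ * a) ≤ C2 / Real.sqrt s := by
    apply div_le_div₀ (by linarith) (by nlinarith) hsqp
    exact Real.sqrt_le_sqrt (by nlinarith)
  have k4 : C3 * (a / s + 1 / Real.sqrt s) ≤ C3 * ((t / γ) / s + 1 / Real.sqrt s) := by
    apply mul_le_mul_of_nonneg_left _ (by linarith)
    have : (a : ℝ) / s ≤ (t / γ) / s := div_le_div_of_nonneg_right ha1 hs0.le
    linarith
  have k5 : |VV (A + B) f (s + t) - VV (A + B) f s| ≤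
      C2 / Real.sqrt s + C3 * ((t / γ) / s + 1 / Real.sqrt s) := by
    have m1 := abs_le.mp (le_trans k1 k4)
    have m2 := abs_le.mp (le_trans k2 k3)
    rw [abs_le]
    constructor <;> linarith [m1.1, m1.2, m2.1, m2.2]
  refine le_trans k5 ?_
  have n1 : C2 / Real.sqrt s + C3 * ((t / γ) / s + 1 / Real.sqrt s) =
      (C2 + C3) * (1 / Real.sqrt s) + C3 / γ * (t / s) := by
    field_simp
    ring
  rw [n1]
  have n2 : 0 ≤ (C2 + C3) * (t / s) := by positivity
  have n3 : 0 ≤ C3 / γ * (1 / Real.sqrt s) := by positivity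
  nlinarith

end Pool.Agent.H5.TD
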