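import Pool.Agent.H5.TD.Re

/-!
# JOB TD-14. Bounds and regularity of the Gaussian densities

`SmX_le`: `vw U ≤ 1` (`vw_le`), `gs R Q z = exp(-π(‖z₂‖²/R² + ‖z₃‖²/Q²))`, `GB_X` with centres `0`.
`SmX_fin`: not `⊤`. `DD_nonneg` clear; `DD_bd`: `(1 + R²Q²)/(R²Q²) ≤ 2` if `R²Q² ≥ 1`.
`DD_toReal`: `SmX = ofReal (R² Q² DD)` for `R, Q > 0`.

`DD_lip`: for `t ≤ s ≤ t + 1`, `t ≥ 0`: with `x = π ‖z₂‖²` and `g(v) = exp(-x exp(-2v))` the derivative is `2 x exp(-2v) g(v) ≤ 2 exp(-x exp(-2v)/2)` (because `y exp(-y) ≤ exp(-y/2)`, `y ≥ 0`: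
`y ≤ exp(y/2)`), so `0 ≤ gs (exp s) 1 z - gs (exp t) 1 z ≤ 2 (s - t) gs (√2 exp s) 1 z` (mean value theorem, `exp(-x exp(-2v)/2) ≤ exp(-x exp(-2s)/2)` for `v ≤ s`; the factor of the third place is at most
the same Gaussian). Summation: `0 ≤ SmX (exp s) 1 - SmX (exp t) 1 ≤ 2 (s-t) K (1 + 2 exp(2s)) ≤ 6 K (s-t) exp(2s)`. `DD = SmX/exp(2s)`:
`|DD(exp s) - DD(exp t)| ≤ 6 K (s-t) + SmX (exp t) (exp(-2t) - exp(-2s)) ≤ 6K(s-t) + 2K (1 - exp(-2(s-t))) ≤ 10 K (s-t)`. For `|s - t| > 1` use the bound `2 · 2K ≤ 4K |s-t|`.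
`DDf_lip`: `|max s 0 - max t 0| ≤ |s - t|`.
-/

set_option autoImplicit false

namespace Pool.Agent.H5.TD

open Pool.Agent.H67.Tent Pool.Agent.H49.AB Pool.Agent.H49.PP Finset MeasureTheory

theorem SmX_le (S : Sys2) {N : ℕ} (hN : 1 ≤ N) : ∃ K : ℝ, 1 ≤ K ∧ ∀ (U : Set E) (R Q : ℝ),
    0 < R → 0 < Q → SmX S N R Q (vw U) ≤ ENNReal.ofReal (K * (1 + R ^ 2 * Q ^ 2)) := by
  obtain ⟨K, hK, h⟩ := GB_X S hN
  refine ⟨K, hK, fun U R Q hR hQ => ?_⟩
  refine le_trans (SS_mono (ptX S N) (g := fun z => ENNReal.ofReal (gs R Q z)) fun i => ?_) ?_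
  · calc vw U (ptX S N i) * ENNReal.ofReal (gs R Q (ptX S N i))
        ≤ 1 * ENNReal.ofReal (gs R Q (ptX S N i)) := mul_le_mul_left (vw_le U _) _
      _ = ENNReal.ofReal (gs R Q (ptX S N i)) := one_mul _
  · have h2 := h R Q 0 0 hR hQ
    simp only [sub_zero] at h2
    exact h2

theorem SmX_fin (S : Sys2) {N : ℕ} (hN : 1 ≤ N) (U : Set E) {R Q : ℝ} (hR : 0 < R) (hQ : 0 < Q) :
    SmX S N R Q (vw U) ≠ ⊤ := by
  obtain ⟨K, _, h⟩ := SmX_le S hN
  exact ((h U R Q hR hQ).trans_lt ENNReal.ofReal_lt_top).ne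

theorem DD_nonneg (S : Sys2) (N : ℕ) (U : Set E) (R Q : ℝ) : 0 ≤ DD S N U R Q := by
  unfold DD
  exact div_nonneg ENNReal.toReal_nonneg (by positivity)

theorem DD_ofReal (S : Sys2) {N : ℕ} (hN : 1 ≤ N) (U : Set E) {R Q : ℝ} (hR : 0 < R)
    (hQ : 0 < Q) : SmX S N R Q (vw U) = ENNReal.ofReal (R ^ 2 * Q ^ 2 * DD S N U R Q) := by
  have h : 0 < R ^ 2 * Q ^ 2 := by positivity
  unfold DD
  rw [mul_div_cancel₀ _ h.ne', ENNReal.ofReal_toReal (SmX_fin S hN U hR hQ)]

theorem DD_bd (S : Sys2) {N : ℕ} (hN : 1 ≤ N) : ∃ M : ℝ, 1 ≤ M ∧ ∀ (U : Set E) (R Q : ℝ),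
    0 < R → 0 < Q → 1 ≤ R ^ 2 * Q ^ 2 → DD S N U R Q ≤ M := by
  obtain ⟨K, hK, h⟩ := SmX_le S hN
  refine ⟨2 * K, by linarith, fun U R Q hR hQ h1 => ?_⟩
  have h2 : (SmX S N R Q (vw U)).toReal ≤ K * (1 + R ^ 2 * Q ^ 2) :=
    ENNReal.toReal_le_of_le_ofReal (by positivity) (h U R Q hR hQ)
  unfold DD
  rw [div_le_iff₀ (by positivity)]
  nlinarith

/-- The pointwise inequality. -/
private theorem Reg_pt {x h : ℝ} (hx : 0 ≤ x) (h0 : 0 ≤ h) (h1 : h ≤ 1) :
    Real.exp (-x) ≤ Real.exp (-(x * Real.exp (2 * h))) +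
      4 * Real.exp 2 * h * Real.exp (-(x / 2)) := by
  have e1 : Real.exp (-x) - Real.exp (-(x * Real.exp (2 * h))) ≤
      x * (Real.exp (2 * h) - 1) * Real.exp (-x) := by
    have a1 := Real.add_one_le_exp (-(x * (Real.exp (2 * h) - 1)))
    have a2 : Real.exp (-(x * Real.exp (2 * h))) =
        Real.exp (-x) * Real.exp (-(x * (Real.exp (2 * h) - 1))) := by
      rw [← Real.exp_add]
      congr 1
      ring
    rw [a2]
    have a3 := Real.exp_pos (-x)
    nlinarith
  have e2 : Real.exp (2 * h) - 1 ≤ 2 * h * Real.exp 2 := by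
    have a1 := Real.add_one_le_exp (-(2 * h))
    have a2 : Real.exp (2 * h) * Real.exp (-(2 * h)) = 1 := by
      rw [← Real.exp_add]
      simp
    have a3 : Real.exp (2 * h) ≤ Real.exp 2 := Real.exp_le_exp.2 (by linarith)
    have a4 := Real.exp_pos (2 * h)
    have a5 : Real.exp (2 * h) - 1 ≤ 2 * h * Real.exp (2 * h) := by nlinarith
    have a6 : 2 * h * Real.exp (2 * h) ≤ 2 * h * Real.exp 2 :=
      mul_le_mul_of_nonneg_left a3 (by linarith)
    linarith
  have e3 : x * Real.exp (-x) ≤ 2 * Real.exp (-(x / 2)) := by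
    have a1 := Real.add_one_le_exp (x / 2)
    have a2 : Real.exp (-(x / 2)) = Real.exp (-x) * Real.exp (x / 2) := by
      rw [← Real.exp_add]
      congr 1
      ring
    rw [a2]
    have a3 := Real.exp_pos (-x)
    nlinarith
  have e4 : x * (Real.exp (2 * h) - 1) * Real.exp (-x) ≤
      x * Real.exp (-x) * (2 * h * Real.exp 2) := by
    have a3 := Real.exp_pos (-x)
    have a4 : 0 ≤ x * Real.exp (-x) := by positivity
    nlinarith
  have e5 : x * Real.exp (-x) * (2 * h * Real.exp 2) ≤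
      2 * Real.exp (-(x / 2)) * (2 * h * Real.exp 2) :=
    mul_le_mul_of_nonneg_right e3 (by positivity)
  linarith

private theorem Reg_gs (z : E) {s t : ℝ} (hts : t ≤ s) (hst : s - t ≤ 1) :
    gs (Real.exp s) 1 z ≤ gs (Real.exp t) 1 z +
      4 * Real.exp 2 * (s - t) * gs (Real.sqrt 2 * Real.exp s) 1 z := by
  set x := Real.pi * ‖z.2.1‖ ^ 2 / Real.exp s ^ 2 with hx
  set y := Real.pi * ‖z.2.2‖ ^ 2 with hy
  have hx0 : 0 ≤ x := by positivity
  have hp := Reg_pt hx0 (sub_nonneg.2 hts) hst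
  have g1 : gs (Real.exp s) 1 z = Real.exp (-x) * Real.exp (-y) := by
    unfold gs
    rw [← Real.exp_add]
    congr 1
    rw [hx, hy]
    ring
  have g2 : gs (Real.exp t) 1 z =
      Real.exp (-(x * Real.exp (2 * (s - t)))) * Real.exp (-y) := by
    unfold gs
    rw [← Real.exp_add]
    congr 1
    have e : Real.exp (2 * (s - t)) = Real.exp s ^ 2 / Real.exp t ^ 2 := by
      rw [← Real.exp_nat_mul, ← Real.exp_nat_mul, ← Real.exp_sub]
      congr 1
      push_cast
      ring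
    rw [e, hx, hy]
    have := Real.exp_ne_zero s
    have := Real.exp_ne_zero t
    field_simp
    ring
  have g3 : gs (Real.sqrt 2 * Real.exp s) 1 z = Real.exp (-(x / 2)) * Real.exp (-y) := by
    unfold gs
    rw [← Real.exp_add]
    congr 1
    rw [mul_pow, Real.sq_sqrt zero_le_two, hx, hy]
    have := Real.exp_ne_zero s
    field_simp
    ring
  rw [g1, g2, g3]
  have := Real.exp_pos (-y)
  nlinarith

private theorem Reg_gm (z : E) {s t : ℝ} (hts : t ≤ s) :
    gs (Real.exp t) 1 z ≤ gs (Real.exp s) 1 z := by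
  unfold gs
  apply Real.exp_le_exp.2
  have := Real.exp_pos t
  have h1 : Real.exp t ≤ Real.exp s := Real.exp_le_exp.2 hts
  have h2 : ‖z.2.1‖ ^ 2 / Real.exp s ^ 2 ≤ ‖z.2.1‖ ^ 2 / Real.exp t ^ 2 := by gcongr
  have := Real.pi_pos
  nlinarith

private theorem Reg_mono (S : Sys2) (N : ℕ) (U : Set E) {s t : ℝ} (hts : t ≤ s) :
    SmX S N (Real.exp t) 1 (vw U) ≤ SmX S N (Real.exp s) 1 (vw U) := by
  refine SS_mono _ fun i => ?_
  exact mul_le_mul_right (ENNReal.ofReal_le_ofReal (Reg_gm _ hts)) _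

private theorem Reg_up (S : Sys2) {N : ℕ} (_hN : 1 ≤ N) (U : Set E) {s t : ℝ} (_ht : 0 ≤ t)
    (hts : t ≤ s) (hst : s - t ≤ 1) :
    SmX S N (Real.exp s) 1 (vw U) ≤ SmX S N (Real.exp t) 1 (vw U) +
      ENNReal.ofReal (4 * Real.exp 2 * (s - t)) *
        SmX S N (Real.sqrt 2 * Real.exp s) 1 (vw U) := by
  unfold SmX
  rw [← SS_const_mul, ← SS_add]
  refine SS_mono _ fun i => ?_
  have h0 : 0 ≤ 4 * Real.exp 2 * (s - t) := mul_nonneg (by positivity) (sub_nonneg.2 hts)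
  have hg : ∀ R Q : ℝ, ∀ z : E, 0 ≤ gs R Q z := fun R Q z => (Real.exp_pos _).le
  have h1 := ENNReal.ofReal_le_ofReal (Reg_gs (ptX S N i) hts hst)
  rw [ENNReal.ofReal_add (hg _ _ _) (mul_nonneg h0 (hg _ _ _)), ENNReal.ofReal_mul h0] at h1
  calc vw U (ptX S N i) * ENNReal.ofReal (gs (Real.exp s) 1 (ptX S N i))
      ≤ vw U (ptX S N i) * (ENNReal.ofReal (gs (Real.exp t) 1 (ptX S N i)) +
          ENNReal.ofReal (4 * Real.exp 2 * (s - t)) *
            ENNReal.ofReal (gs (Real.sqrt 2 * Real.exp s) 1 (ptX S N i))) :=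
        mul_le_mul_right h1 _
    _ = _ := by ring

theorem DD_lip (S : Sys2) {N : ℕ} (hN : 1 ≤ N) : ∃ C : ℝ, 1 ≤ C ∧ ∀ (U : Set E) (s t : ℝ),
    0 ≤ s → 0 ≤ t → |DD S N U (Real.exp s) 1 - DD S N U (Real.exp t) 1| ≤ C * |s - t| := by
  obtain ⟨K, hK, h⟩ := SmX_le S hN
  have hK0 : 0 < K := by linarith
  have hbd : ∀ (U : Set E) (t : ℝ), 0 ≤ t → DD S N U (Real.exp t) 1 ≤ 2 * K := by
    intro U t ht
    have h2 : (SmX S N (Real.exp t) 1 (vw U)).toReal ≤ K * (1 + Real.exp t ^ 2 * 1 ^ 2) :=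
      ENNReal.toReal_le_of_le_ofReal (by positivity) (h U _ 1 (Real.exp_pos t) one_pos)
    have h1 : 1 ≤ Real.exp t ^ 2 * 1 ^ 2 := by
      have := Real.one_le_exp ht
      nlinarith
    unfold DD
    rw [div_le_iff₀ (by positivity)]
    nlinarith
  have key : ∀ (U : Set E) (s t : ℝ), 0 ≤ t → t ≤ s →
      |DD S N U (Real.exp s) 1 - DD S N U (Real.exp t) 1| ≤
        (12 * Real.exp 2 * K + 4 * K) * (s - t) := by
    intro U s t ht hts
    have hs : 0 ≤ s := ht.trans hts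
    have e0 := DD_nonneg S N U (Real.exp s) 1
    have e1 := DD_nonneg S N U (Real.exp t) 1
    have e2 := hbd U s hs
    have e3 := hbd U t ht
    have hE : 0 < Real.exp 2 := Real.exp_pos 2
    rcases le_or_gt (s - t) 1 with hst | hst
    · have hps := Reg_up S hN U ht hts hst
      have hpm := Reg_mono S N U hts
      have fs := SmX_fin S hN U (Real.exp_pos s) one_pos
      have ft := SmX_fin S hN U (Real.exp_pos t) one_pos
      have hq : 0 < Real.sqrt 2 * Real.exp s := by positivity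
      have fq := SmX_fin S hN U hq one_pos
      have hb := h U (Real.sqrt 2 * Real.exp s) 1 hq one_pos
      set as := (SmX S N (Real.exp s) 1 (vw U)).toReal with has
      set at' := (SmX S N (Real.exp t) 1 (vw U)).toReal with hat
      have h1 : at' ≤ as := ENNReal.toReal_mono fs hpm
      have h2 : as ≤ at' + 4 * Real.exp 2 * (s - t) * (K * (1 + 2 * Real.exp s ^ 2)) := by
        have h3 : SmX S N (Real.exp s) 1 (vw U) ≤ SmX S N (Real.exp t) 1 (vw U) +
            ENNReal.ofReal (4 * Real.exp 2 * (s - t)) *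
              ENNReal.ofReal (K * (1 + (Real.sqrt 2 * Real.exp s) ^ 2 * 1 ^ 2)) :=
          hps.trans (by gcongr)
        have h0 : 0 ≤ 4 * Real.exp 2 * (s - t) :=
          mul_nonneg (by positivity) (sub_nonneg.2 hts)
        have h4 := ENNReal.toReal_mono (ENNReal.add_ne_top.2 ⟨ft, ENNReal.mul_ne_top
          ENNReal.ofReal_ne_top ENNReal.ofReal_ne_top⟩) h3
        rw [ENNReal.toReal_add ft (ENNReal.mul_ne_top ENNReal.ofReal_ne_top
          ENNReal.ofReal_ne_top), ENNReal.toReal_mul, ENNReal.toReal_ofReal h0,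
          ENNReal.toReal_ofReal (by positivity), mul_pow, Real.sq_sqrt zero_le_two, one_pow,
          mul_one] at h4
        exact h4
      have hDs : DD S N U (Real.exp s) 1 = as / Real.exp s ^ 2 := by
        unfold DD
        rw [one_pow, mul_one]
      have hDt : DD S N U (Real.exp t) 1 = at' / Real.exp t ^ 2 := by
        unfold DD
        rw [one_pow, mul_one]
      have ps : 0 < Real.exp s ^ 2 := by positivity
      have pt : 0 < Real.exp t ^ 2 := by positivity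
      have a0 : 0 ≤ at' := ENNReal.toReal_nonneg
      have hle : Real.exp t ^ 2 ≤ Real.exp s ^ 2 := by
        have := Real.exp_le_exp.2 hts
        have := Real.exp_pos t
        gcongr
      have h1s : 1 ≤ Real.exp s ^ 2 := by
        have := Real.one_le_exp hs
        nlinarith
      rw [abs_le]
      constructor
      · have h5 : at' / Real.exp s ^ 2 ≤ as / Real.exp s ^ 2 := by gcongr
        have h6 : at' / Real.exp s ^ 2 = at' / Real.exp t ^ 2 * Real.exp (-(2 * (s - t))) := by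
          rw [← Real.exp_nat_mul, ← Real.exp_nat_mul, div_eq_mul_inv, div_eq_mul_inv,
            ← Real.exp_neg, ← Real.exp_neg, mul_assoc, ← Real.exp_add]
          congr 2
          push_cast
          ring
        have h7 : 1 - 2 * (s - t) ≤ Real.exp (-(2 * (s - t))) := by
          have := Real.add_one_le_exp (-(2 * (s - t)))
          linarith
        have h8 : at' / Real.exp t ^ 2 * (1 - 2 * (s - t)) ≤ at' / Real.exp s ^ 2 := by
          rw [h6]
          exact mul_le_mul_of_nonneg_left h7 (by positivity)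
        have h9 : at' / Real.exp t ^ 2 ≤ 2 * K := by
          rw [← hDt]
          exact e3
        have h10 : at' / Real.exp t ^ 2 * (2 * (s - t)) ≤ 2 * K * (2 * (s - t)) :=
          mul_le_mul_of_nonneg_right h9 (by linarith)
        have h11 : 0 ≤ 12 * Real.exp 2 * K * (s - t) :=
          mul_nonneg (by positivity) (sub_nonneg.2 hts)
        rw [hDs, hDt]
        nlinarith
      · have h5 : as / Real.exp s ^ 2 ≤ at' / Real.exp s ^ 2 +
            4 * Real.exp 2 * (s - t) * (K * (1 + 2 * Real.exp s ^ 2)) / Real.exp s ^ 2 := by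
          rw [← add_div]
          gcongr
        have h6 : at' / Real.exp s ^ 2 ≤ at' / Real.exp t ^ 2 := by gcongr
        have h7 : 4 * Real.exp 2 * (s - t) * (K * (1 + 2 * Real.exp s ^ 2)) / Real.exp s ^ 2 ≤
            4 * Real.exp 2 * (s - t) * (K * 3) := by
          rw [div_le_iff₀ ps]
          have h8 : 0 ≤ 4 * Real.exp 2 * (s - t) * K :=
            mul_nonneg (mul_nonneg (by positivity) (sub_nonneg.2 hts)) hK0.le
          nlinarith
        have h11 : 0 ≤ 4 * K * (s - t) := mul_nonneg (by positivity) (sub_nonneg.2 hts)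
        rw [hDs, hDt]
        nlinarith
    · have h12 : 4 * K * 1 ≤ 4 * K * (s - t) := by gcongr
      have h11 : 0 ≤ 12 * Real.exp 2 * K * (s - t) :=
        mul_nonneg (by positivity) (sub_nonneg.2 hts)
      rw [abs_le]
      constructor <;> nlinarith
  refine ⟨12 * Real.exp 2 * K + 4 * K, ?_, fun U s t hs ht => ?_⟩
  · have : 0 < 12 * Real.exp 2 * K := by positivity
    linarith
  · rcases le_total t s with hts | hts
    · rw [abs_of_nonneg (sub_nonneg.2 hts)]
      exact key U s t ht hts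
    · rw [abs_sub_comm, abs_sub_comm s t, abs_of_nonneg (sub_nonneg.2 hts)]
      exact key U t s hs hts

theorem DDf_lip (S : Sys2) {N : ℕ} (hN : 1 ≤ N) : ∃ C : ℝ, 1 ≤ C ∧ ∀ (U : Set E) (s t : ℝ),
    |DDf S N U s - DDf S N U t| ≤ C * |s - t| := by
  obtain ⟨C, hC, h⟩ := DD_lip S hN
  refine ⟨C, hC, fun U s t => ?_⟩
  have h1 := h U (max s 0) (max t 0) (le_max_right _ _) (le_max_right _ _)
  have h2 : |max s 0 - max t 0| ≤ |s - t| := abs_max_sub_max_le_abs s t 0
  unfold DDf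
  exact h1.trans (mul_le_mul_of_nonneg_left h2 (by linarith))

end Pool.Agent.H5.TD
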