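import Pool.Agent.H5.TD.StepU
import Pool.Agent.H5.TD.Reg

/-!
# JOB TD-15. Approximate harmonicity of the densities

`harmQ`: take `stepL S 1` and `stepU S 1` (constants `C1, C2`, `o1, o2`), `K` of `GB_X S hN`, `pt = ptX S N` (countable: `countableGX`, `haveI : NeZero N := ⟨by omega⟩`), `u = vw U`.
By `re_v` (with `n = 17 o`, `φ z = ofReal (gs R Q z)`): `SS (vw U y * ∑ w ∈ words (17 o), ofReal (gs R Q (gw w y))) = SmX S N R Q (vw U)`, and with `n = 16 o`, `R' = R ‖W_x‖_2`, `Q' = 1`: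
`SS (vw U y * ∑ w ∈ words (16 o), …) = SmX S N R' 1 (vw U)`. Everything is finite; in real numbers (`DD_ofReal`), dividing by `R² Q²`:
`card (cls x) (Q ‖W_x‖_3)² SmX(R', 1)/(R² Q²) = card ‖W_x‖_3² ‖W_x‖_2² DD(R', 1) = (card/|W_x|_1) DD(R', 1) = bn x DD(R', 1)` (`W_prod`, `step_card_div`). Both inequalities together:
`|DD R Q - ∑ bn x DD(R ‖W_x‖_2, 1)| ≤ K max(C1, C2)/o`.
-/

set_option autoImplicit false

namespace Pool.Agent.H5.TD

open Pool.Agent.H67.Tent Pool.Agent.H49.AB Pool.Agent.H49.PP Finset MeasureTheory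

theorem harmQ (S : Sys2) {N : ℕ} (hN : 1 ≤ N) : ∃ (C : ℝ) (o0 : ℕ), 1 ≤ C ∧ 1 ≤ o0 ∧
    ∀ U : Set E, Inv S N U → ∀ (o : ℕ) (R Q : ℝ), o0 ≤ o → Real.exp (40 * o) ≤ R → 1 ≤ Q →
      Q ≤ (7 / 6) ^ o →
      |DD S N U R Q - ∑ x ∈ AD o, bn S x.1 x.2 * DD S N U (R * ‖(W S x.1 x.2).2.1‖) 1| ≤
        C / o := by
  obtain ⟨C1, o1, hC1, ho1, H1⟩ := stepL S 1
  obtain ⟨C2, o2, hC2, ho2, H2⟩ := stepU S 1
  obtain ⟨K, hK, HK⟩ := GB_X S hN
  have : NeZero N := ⟨by omega⟩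
  have hK0 : 0 < K := by linarith
  refine ⟨K * max C1 C2, max o1 o2, ?_, le_max_of_le_left ho1, ?_⟩
  · have h1 : (1 : ℝ) ≤ max C1 C2 := hC1.trans (le_max_left _ _)
    nlinarith
  intro U hU o R Q ho hR hQ hQ'
  have ho1' : o1 ≤ o := (le_max_left _ _).trans ho
  have ho2' : o2 ≤ o := (le_max_right _ _).trans ho
  have hop : (0 : ℝ) < o := by
    have : 1 ≤ o := ho1.trans ho1'
    exact_mod_cast this
  have hRp : 0 < R := lt_of_lt_of_le (Real.exp_pos _) hR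
  have hQp : 0 < Q := lt_of_lt_of_le one_pos hQ
  set X : ℝ := R ^ 2 * Q ^ 2 with hX
  have hX0 : 0 < X := by positivity
  have L := H1 (ptX S N) K hK HK o R Q (vw U) ho1' hR hQ hQ' (vw_le U)
  have Up := H2 (ptX S N) K hK HK o R Q (vw U) ho2' hR hQ hQ' (vw_le U)
  have e0 : SS (ptX S N) (fun y => vw U y * ∑ w ∈ words (17 * o),
      ENNReal.ofReal (gs R Q (gw S 1 w y))) = ENNReal.ofReal (X * DD S N U R Q) := by
    rw [← re_v S hN hU (fun z => ENNReal.ofReal (gs R Q z)) (17 * o)]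
    exact DD_ofReal S hN U hRp hQp
  have e1 : ∑ x ∈ AD o, ENNReal.ofReal ((cls x.1 x.2).card * (Q * ‖(W S x.1 x.2).2.2‖) ^ 2) *
          SS (ptX S N) (fun y => vw U y * ∑ w ∈ words (16 * o),
            ENNReal.ofReal (gs (R * ‖(W S x.1 x.2).2.1‖) 1 (gw S 1 w y))) =
      ENNReal.ofReal (X * ∑ x ∈ AD o, bn S x.1 x.2 *
        DD S N U (R * ‖(W S x.1 x.2).2.1‖) 1) := by
    rw [Finset.mul_sum, ENNReal.ofReal_sum_of_nonneg]
    · refine Finset.sum_congr rfl fun x _ => ?_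
      have hW1 := W1_pos S x.1 x.2
      have hW2 := W2_pos S x.1 x.2
      have hr2 : 0 < R * ‖(W S x.1 x.2).2.1‖ := mul_pos hRp hW2
      rw [← re_v S hN hU (fun z => ENNReal.ofReal (gs (R * ‖(W S x.1 x.2).2.1‖) 1 z)) (16 * o)]
      have h2 := DD_ofReal S hN U hr2 one_pos
      unfold SmX at h2
      rw [h2, ← ENNReal.ofReal_mul (by positivity)]
      congr 1
      have hp := W_prod S x.1 x.2
      have hb : bn S x.1 x.2 = ((cls x.1 x.2).card : ℝ) / |(W S x.1 x.2).1| :=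
        (step_card_div S x.1 x.2).symm
      have hb2 : ((cls x.1 x.2).card : ℝ) * (‖(W S x.1 x.2).2.1‖ ^ 2 * ‖(W S x.1 x.2).2.2‖ ^ 2) =
          bn S x.1 x.2 := by
        rw [hb, eq_div_iff hW1.ne']
        calc _ = ((cls x.1 x.2).card : ℝ) * (|(W S x.1 x.2).1| * ‖(W S x.1 x.2).2.1‖ ^ 2 *
              ‖(W S x.1 x.2).2.2‖ ^ 2) := by ring
          _ = _ := by rw [hp, mul_one]
      rw [← hb2, hX]
      ring
    · intro x _
      have hb : 0 ≤ bn S x.1 x.2 := by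
        have h3 : bn S x.1 x.2 = ((cls x.1 x.2).card : ℝ) / |(W S x.1 x.2).1| :=
          (step_card_div S x.1 x.2).symm
        rw [h3]
        positivity
      exact mul_nonneg hX0.le (mul_nonneg hb (DD_nonneg S N U _ _))
  rw [e0, e1] at L Up
  set P : ℝ := DD S N U R Q with hP
  set Y : ℝ := ∑ x ∈ AD o, bn S x.1 x.2 * DD S N U (R * ‖(W S x.1 x.2).2.1‖) 1 with hY
  have hP0 : 0 ≤ P := DD_nonneg S N U R Q
  have hY0 : 0 ≤ Y := by
    refine Finset.sum_nonneg fun x _ => mul_nonneg ?_ (DD_nonneg S N U _ _)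
    have h3 : bn S x.1 x.2 = ((cls x.1 x.2).card : ℝ) / |(W S x.1 x.2).1| :=
      (step_card_div S x.1 x.2).symm
    rw [h3]
    positivity
  rw [pow_one] at L Up
  have hc1 : 0 ≤ K * C1 / (o : ℝ) * (R ^ 2 * Q ^ 2) := by
    have : 0 ≤ C1 := by linarith
    positivity
  have hc2 : 0 ≤ K * C2 / (o : ℝ) * (R ^ 2 * Q ^ 2) := by
    have : 0 ≤ C2 := by linarith
    positivity
  rw [← ENNReal.ofReal_add (mul_nonneg hX0.le hP0) hc1,
    ENNReal.ofReal_le_ofReal_iff (add_nonneg (mul_nonneg hX0.le hP0) hc1)] at L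
  rw [← ENNReal.ofReal_add (mul_nonneg hX0.le hY0) hc2,
    ENNReal.ofReal_le_ofReal_iff (add_nonneg (mul_nonneg hX0.le hY0) hc2)] at Up
  have m1 : K * C1 / (o : ℝ) ≤ K * max C1 C2 / o :=
    div_le_div_of_nonneg_right (mul_le_mul_of_nonneg_left (le_max_left _ _) hK0.le) hop.le
  have m2 : K * C2 / (o : ℝ) ≤ K * max C1 C2 / o :=
    div_le_div_of_nonneg_right (mul_le_mul_of_nonneg_left (le_max_right _ _) hK0.le) hop.le
  have l1 : Y ≤ P + K * C1 / (o : ℝ) := by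
    have : X * Y ≤ X * (P + K * C1 / (o : ℝ)) := by
      rw [mul_add]
      calc _ ≤ _ := L
        _ = _ := by rw [← hX]; ring
    exact le_of_mul_le_mul_left this hX0
  have l2 : P ≤ Y + K * C2 / (o : ℝ) := by
    have : X * P ≤ X * (Y + K * C2 / (o : ℝ)) := by
      rw [mul_add]
      calc _ ≤ _ := Up
        _ = _ := by rw [← hX]; ring
    exact le_of_mul_le_mul_left this hX0
  rw [abs_le]
  constructor <;> linarith

end Pool.Agent.H5.TD
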