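import Pool.Agent.H5.TD.Gam

/-!
# JOB TD-07 (`VV_near`). The averages at `s` and `t`, `(1 - η) s ≤ t ≤ s` (pure)

`V = VV (A+B) f`, `δ = A + B`, `γ = q B - p A` (so `A + γ = q δ` because `p + q = 1`), `0 < γ ≤ 1`.

`VV_near`. (i) For `o : ℕ` with `γ s/1600 ≤ o ≤ γ s/800`, `s` large: `|V s - V (s - γ o)| ≤ C5/√s`: by `VV_harm` (`40 o ≤ s`) it is at most
`C/o + EE o (fun j => |V (s + A o - δ j) - V (s - γ o)|)`, and `(s + A o - δ j) - (s - γ o) = δ (q o - j)` has absolute value `≤ 2 o ≤ γ s/400 ≤ γ (s/2)/200`, both points are `≥ s/2`, so by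
`VV_loc` (applied from the smaller to the larger point) each difference is `≤ C4 (δ|q o - j|/(s/2) + 1/√(s/2))`, and `EE_dev`: the mean is `≤ C (√o/s + 1/√s) ≤ C/√s`.
(ii) Let `η = γ²/8000` (any small enough constant), `(1-η) s ≤ t ≤ s`, `o = ⌊γ s/800⌋₊`, `o' = ⌊(t - (s - γ o))/γ⌋₊`: as `γ o - η s ≤ t - (s - γ o) ≤ γ o`, one has
`γ t/1600 ≤ o' ≤ γ t/800`-ish (adapt the constants: take in (ii) `o = ⌊γ s/1000⌋₊`, so that `o' ≤ o ≤ γ t/800`, `o' ≥ o - η s/γ - 1 ≥ γ t/1600`), and `|(t - γ o') - (s - γ o)| ≤ γ ≤ 1`. So `|V s - V t| ≤ C6/√s`.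
-/

set_option autoImplicit false

namespace Pool.Agent.H5.TD

open Pool.Agent.H49.AB Finset

variable {p q A B M C : ℝ} {o0 : ℕ}

private lemma near_sqrt {s a t K : ℝ} (hs : 1 ≤ s) (ha : s / 2 ≤ a) (ht : 0 ≤ t) (hK : 0 ≤ K) :
    K * (t / a + 1 / Real.sqrt a) ≤ K * (2 * t / s + 2 / Real.sqrt s) := by
  have hs0 : 0 < s := by linarith
  have ha0 : 0 < a := by linarith
  have h1 : t / a ≤ 2 * t / s := by
    rw [div_le_div_iff₀ ha0 hs0]
    nlinarith
  have h2 : 1 / Real.sqrt a ≤ 2 / Real.sqrt s := by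
    have hsa : 0 < Real.sqrt a := Real.sqrt_pos.mpr ha0
    have hss : 0 < Real.sqrt s := Real.sqrt_pos.mpr hs0
    rw [div_le_div_iff₀ hsa hss, one_mul]
    apply Real.sqrt_le_iff.mpr
    refine ⟨by positivity, ?_⟩
    rw [mul_pow, Real.sq_sqrt ha0.le]
    linarith
  exact mul_le_mul_of_nonneg_left (add_le_add h1 h2) hK

private lemma near_EE_const (hP : PC p q A B) (o : ℕ) (c : ℝ) :
    EE p q o (fun _ => c) = c := by
  have h := EE_const_mul (p := p) (q := q) o c (fun _ => 1)
  rw [EE_one hP.pq, mul_one] at h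
  simpa using h

private lemma near_i (hP : PC p q A B) {f : ℝ → ℝ} (hf : HF p q A B M C o0 f) (hC : 1 ≤ C)
    {C4 s4 : ℝ} (hC4 : 1 ≤ C4) (hs4 : 1 ≤ s4)
    (hloc : ∀ s t : ℝ, s4 ≤ s → 0 ≤ t → t ≤ (q * B - p * A) * s / 200 →
      |VV (A + B) f (s + t) - VV (A + B) f s| ≤ C4 * (t / s + 1 / Real.sqrt s))
    {s : ℝ} {o : ℕ} (hs : 2 * s4 ≤ s) (ho0 : o0 ≤ o)
    (hlo : (q * B - p * A) * s / 1600 ≤ o) (hhi : (o : ℝ) ≤ (q * B - p * A) * s / 800) :
    |VV (A + B) f s - VV (A + B) f (s - (q * B - p * A) * o)| ≤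
      (6 * C4 + 1600 * C / (q * B - p * A)) / Real.sqrt s := by
  have hp := hP.hp
  have hq := hP.hq
  have hpq := hP.pq
  have hA := hP.hA
  have hA1 := hP.hA1
  have hB := hP.hB
  have hB1 := hP.hB1
  have hdr := hP.drift
  set g : ℝ := q * B - p * A with hg
  have hp1 : p ≤ 1 := by linarith
  have hq1 : q ≤ 1 := by linarith
  have hg1 : g ≤ 1 := by
    have h1 : q * B ≤ 1 := by nlinarith
    have h2 : 0 ≤ p * A := by positivity
    linarith
  have hs1 : 1 ≤ s := by linarith
  have hs0 : 0 < s := by linarith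
  have ho : (0 : ℝ) ≤ o := Nat.cast_nonneg o
  have hgs : g * s ≤ s := by nlinarith
  have hos : (o : ℝ) ≤ s / 800 := by linarith
  have hss : 0 < Real.sqrt s := Real.sqrt_pos.mpr hs0
  have hsq : Real.sqrt s * Real.sqrt s = s := Real.mul_self_sqrt hs0.le
  have hs1' : 1 ≤ Real.sqrt s := Real.one_le_sqrt.mpr hs1
  have hAg : A + g = q * (A + B) := by
    rw [hg]
    have : p = 1 - q := by linarith
    rw [this]; ring
  have hgo : g * o ≤ s / 800 := by
    have : g * o ≤ 1 * o := mul_le_mul_of_nonneg_right hg1 ho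
    linarith
  have hU : s / 2 ≤ s - g * o := by linarith
  have hdiff : ∀ j, j ≤ o → |VV (A + B) f (s + A * o - (A + B) * j) - VV (A + B) f (s - g * o)| ≤
      C4 * (4 / s * |(j : ℝ) - q * o| + 2 / Real.sqrt s) := by
    intro j hj
    have hj' : (j : ℝ) ≤ o := by exact_mod_cast hj
    have hj0 : (0 : ℝ) ≤ j := Nat.cast_nonneg j
    have hPU : (s + A * o - (A + B) * j) - (s - g * o) = (A + B) * (q * o - j) := by
      have : (s + A * o - (A + B) * j) - (s - g * o) = (A + g) * o - (A + B) * j := by ring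
      rw [this, hAg]; ring
    have hPl : s / 2 ≤ s + A * o - (A + B) * j := by
      have h1 : (A + B) * j ≤ (A + B) * o := mul_le_mul_of_nonneg_left hj' (by linarith)
      have h2 : B * o ≤ 1 * o := mul_le_mul_of_nonneg_right hB1 ho
      nlinarith
    have habs : |q * o - j| ≤ o := by
      rw [abs_le]
      constructor
      · nlinarith [mul_nonneg hq.le ho]
      · nlinarith [mul_le_mul_of_nonneg_right hq1 ho]
    have hlen : |(A + B) * (q * o - j)| ≤ g * s / 400 := by
      rw [abs_mul, abs_of_pos (by linarith : 0 < A + B)]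
      have : (A + B) * |q * o - j| ≤ 2 * o :=
        mul_le_mul (by linarith) habs (abs_nonneg _) (by norm_num)
      linarith
    have hfin : ∀ t : ℝ, t = |(A + B) * (q * o - j)| →
        C4 * (2 * t / s + 2 / Real.sqrt s) ≤
          C4 * (4 / s * |(j : ℝ) - q * o| + 2 / Real.sqrt s) := by
      intro t ht
      apply mul_le_mul_of_nonneg_left _ (by linarith)
      have h1 : t ≤ 2 * |(j : ℝ) - q * o| := by
        rw [ht, abs_mul, abs_of_pos (by linarith : 0 < A + B), abs_sub_comm (j : ℝ)]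
        exact mul_le_mul_of_nonneg_right (by linarith) (abs_nonneg _)
      have h2 : 2 * t / s ≤ 4 / s * |(j : ℝ) - q * o| := by
        rw [div_mul_eq_mul_div, div_le_div_iff_of_pos_right hs0]
        linarith
      linarith
    rcases le_total (s - g * o) (s + A * o - (A + B) * j) with hle | hle
    · have ht0 : 0 ≤ (A + B) * (q * o - j) := by rw [← hPU]; linarith
      have h1 := hloc (s - g * o) ((A + B) * (q * o - j)) (by linarith) ht0 (by
        have := le_of_abs_le hlen
        have h3 : g * (s / 2) ≤ g * (s - g * o) := mul_le_mul_of_nonneg_left hU hdr.le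
        linarith)
      have h2 : s - g * o + (A + B) * (q * o - j) = s + A * o - (A + B) * j := by
        rw [← hPU]; ring
      rw [h2] at h1
      refine h1.trans ((near_sqrt hs1 hU ht0 (by linarith)).trans (hfin _ ?_))
      rw [abs_of_nonneg ht0]
    · have ht0 : 0 ≤ -((A + B) * (q * o - j)) := by rw [← hPU]; linarith
      have h1 := hloc (s + A * o - (A + B) * j) (-((A + B) * (q * o - j))) (by linarith) ht0 (by
        have := neg_le_of_abs_le hlen
        have h3 : g * (s / 2) ≤ g * (s + A * o - (A + B) * j) :=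
          mul_le_mul_of_nonneg_left hPl hdr.le
        linarith)
      have h2 : s + A * o - (A + B) * j + -((A + B) * (q * o - j)) = s - g * o := by
        rw [← hPU]; ring
      rw [h2, abs_sub_comm] at h1
      refine h1.trans ((near_sqrt hs1 hPl ht0 (by linarith)).trans (hfin _ ?_))
      rw [abs_of_nonpos (by linarith)]
  have hharm := VV_harm hP hf (o := o) (s := s) ho0 (by linarith)
  have hE : |EE p q o (fun j => VV (A + B) f (s + A * o - (A + B) * j))
      - VV (A + B) f (s - g * o)| ≤ 6 * C4 / Real.sqrt s := by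
    have h1 : EE p q o (fun j => VV (A + B) f (s + A * o - (A + B) * j))
        - VV (A + B) f (s - g * o)
        = EE p q o (fun j => VV (A + B) f (s + A * o - (A + B) * j)
          - VV (A + B) f (s - g * o)) := by
      rw [EE_sub, near_EE_const hP]
    rw [h1]
    refine (EE_abs_le hp.le hq.le hdiff).trans ?_
    have h2 : EE p q o (fun j => C4 * (4 / s * |(j : ℝ) - q * o| + 2 / Real.sqrt s))
        = C4 * (4 / s * EE p q o (fun j => |(j : ℝ) - q * o|) + 2 / Real.sqrt s) := by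
      rw [EE_const_mul, EE_add, EE_const_mul, near_EE_const hP]
    rw [h2]
    have h3 := EE_dev hp.le hq.le hpq o
    have h4 : Real.sqrt (p * q * o) ≤ Real.sqrt s := by
      apply Real.sqrt_le_sqrt
      have h5 : p * q ≤ 1 := by nlinarith
      have h6 : p * q * o ≤ 1 * o := mul_le_mul_of_nonneg_right h5 ho
      linarith
    have h7 : 4 / s * EE p q o (fun j => |(j : ℝ) - q * o|) ≤ 4 / s * Real.sqrt s :=
      mul_le_mul_of_nonneg_left (h3.trans h4) (by positivity)
    have h8 : 4 / s * Real.sqrt s = 4 / Real.sqrt s := by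
      rw [div_mul_eq_mul_div, div_eq_div_iff hs0.ne' hss.ne', mul_assoc, hsq]
    rw [h8] at h7
    have h9 : C4 * (4 / s * EE p q o (fun j => |(j : ℝ) - q * o|) + 2 / Real.sqrt s)
        ≤ C4 * (4 / Real.sqrt s + 2 / Real.sqrt s) :=
      mul_le_mul_of_nonneg_left (by linarith) (by linarith)
    refine h9.trans (le_of_eq ?_)
    ring
  have hCo : C / o ≤ 1600 * C / g / Real.sqrt s := by
    have h1 : 0 < g * s / 1600 := by positivity
    have h2 : C / o ≤ C / (g * s / 1600) := div_le_div_of_nonneg_left (by linarith) h1 hlo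
    have h3 : C / (g * s / 1600) = 1600 * C / g / s := by
      field_simp
    have h4 : 1600 * C / g / s ≤ 1600 * C / g / Real.sqrt s := by
      apply div_le_div_of_nonneg_left (by positivity) hss
      nlinarith
    linarith
  calc |VV (A + B) f s - VV (A + B) f (s - g * o)|
      ≤ |VV (A + B) f s - EE p q o (fun j => VV (A + B) f (s + A * o - (A + B) * j))|
        + |EE p q o (fun j => VV (A + B) f (s + A * o - (A + B) * j))
          - VV (A + B) f (s - g * o)| := abs_sub_le _ _ _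
    _ ≤ 1600 * C / g / Real.sqrt s + 6 * C4 / Real.sqrt s := add_le_add (hharm.trans hCo) hE
    _ = (6 * C4 + 1600 * C / g) / Real.sqrt s := by ring

theorem VV_near (hP : PC p q A B) (M C : ℝ) (hM : 0 ≤ M) (hC : 1 ≤ C) (o0 : ℕ) :
    ∃ C6 s6 η : ℝ, 1 ≤ C6 ∧ 1 ≤ s6 ∧ 0 < η ∧ η < 1 ∧ ∀ f, HF p q A B M C o0 f → ∀ s t : ℝ,
      s6 ≤ s → (1 - η) * s ≤ t → t ≤ s →
      |VV (A + B) f s - VV (A + B) f t| ≤ C6 / Real.sqrt s := by
  obtain ⟨C4, s4, hC4, hs4, hloc⟩ := VV_loc hP M C hM hC o0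
  have hdr := hP.drift
  have hg1 : q * B - p * A ≤ 1 := by
    have hq1 : q ≤ 1 := by linarith [hP.pq, hP.hp]
    have h1 : q * B ≤ 1 := by nlinarith [hP.hq, hP.hB, hP.hB1]
    have h2 : 0 ≤ p * A := mul_nonneg hP.hp.le hP.hA.le
    linarith
  set g : ℝ := q * B - p * A with hg
  have hCg : 0 ≤ 1600 * C / g := by positivity
  refine ⟨3 * (6 * C4 + 1600 * C / g) + 4 * C4, 4 * s4 + 400 + 8000 / g + 1600 * (o0 + 1) / g,
    g ^ 2 / 8000, by linarith, ?_, by positivity, by nlinarith, ?_⟩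
  · have h1 : 0 ≤ 8000 / g := by positivity
    have h2 : 0 ≤ 1600 * ((o0 : ℝ) + 1) / g := by positivity
    linarith
  intro f hf s t hs ht hts
  have h81 : 0 ≤ 8000 / g := by positivity
  have h82 : 0 ≤ 1600 * ((o0 : ℝ) + 1) / g := by positivity
  have hs1 : 4 * s4 ≤ s := by linarith
  have hs2 : 400 ≤ s := by linarith
  have hs0 : 0 < s := by linarith
  have hs3 : 8000 ≤ g * s := by
    have : 8000 / g ≤ s := by linarith
    rw [div_le_iff₀ hdr] at this
    linarith
  have hs5 : 1600 * ((o0 : ℝ) + 1) ≤ g * s := by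
    have : 1600 * ((o0 : ℝ) + 1) / g ≤ s := by linarith
    rw [div_le_iff₀ hdr] at this
    linarith
  have hgs : g * s ≤ s := by nlinarith
  have hg2 : g ^ 2 / 8000 ≤ 1 / 8000 := by nlinarith
  have hst : s - t ≤ g ^ 2 / 8000 * s := by nlinarith
  have ht2 : s / 2 ≤ t := by nlinarith
  have ht9 : 9 / 10 * s ≤ t := by nlinarith
  -- `o`
  set o : ℕ := ⌊g * s / 1000⌋₊ with ho
  have ho1 : (o : ℝ) ≤ g * s / 1000 := Nat.floor_le (by positivity)
  have ho2 : g * s / 1000 - 1 < o := Nat.sub_one_lt_floor _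
  set x : ℝ := (t - (s - g * o)) / g with hx
  have hgx : g * x = t - (s - g * o) := by rw [hx]; field_simp
  have hgg : g ^ 2 / 8000 * s = g * (g * s / 8000) := by ring
  have hxlo : (o : ℝ) - g * s / 8000 ≤ x := by
    have : g * ((o : ℝ) - g * s / 8000) ≤ g * x := by rw [hgx]; nlinarith
    exact le_of_mul_le_mul_left this hdr
  have hxhi : x ≤ o := by
    have : g * x ≤ g * o := by rw [hgx]; linarith
    exact le_of_mul_le_mul_left this hdr
  have hx0 : 0 ≤ x := by linarith
  set o' : ℕ := ⌊x⌋₊ with ho'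
  have ho'1 : (o' : ℝ) ≤ x := Nat.floor_le hx0
  have ho'2 : x - 1 < o' := Nat.sub_one_lt_floor _
  have hlo : g * s / 1600 ≤ o := by linarith
  have hlo' : g * s / 1600 ≤ o' := by linarith
  have hgt : g * t ≤ g * s := mul_le_mul_of_nonneg_left hts hdr.le
  have hgt9 : g * (9 / 10 * s) ≤ g * t := mul_le_mul_of_nonneg_left ht9 hdr.le
  have hoo : o0 ≤ o := by
    have : (o0 : ℝ) ≤ o := by linarith
    exact_mod_cast this
  have hoo' : o0 ≤ o' := by
    have : (o0 : ℝ) ≤ o' := by linarith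
    exact_mod_cast this
  have hA1 := near_i hP hf hC hC4 hs4 (hloc f hf) (s := s) (o := o) (by linarith) hoo
    (by rw [← hg]; exact hlo) (by rw [← hg]; linarith)
  have hA2 := near_i hP hf hC hC4 hs4 (hloc f hf) (s := t) (o := o') (by linarith) hoo'
    (by rw [← hg]; linarith) (by rw [← hg]; linarith)
  rw [← hg] at hA1 hA2
  have hgo : g * o ≤ s / 1000 := by
    have h1 : g * o ≤ 1 * o := mul_le_mul_of_nonneg_right hg1 (Nat.cast_nonneg o)
    linarith
  have hU : s / 2 ≤ s - g * o := by linarith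
  have hfr0 : 0 ≤ (t - g * o') - (s - g * o) := by
    have : g * o' ≤ g * x := mul_le_mul_of_nonneg_left ho'1 hdr.le
    rw [hgx] at this
    linarith
  have hfr1 : (t - g * o') - (s - g * o) ≤ g := by
    have : g * (x - 1) ≤ g * o' := mul_le_mul_of_nonneg_left ho'2.le hdr.le
    rw [mul_sub, hgx] at this
    linarith
  have hA3 := hloc f hf (s - g * o) ((t - g * o') - (s - g * o)) (by linarith) hfr0 (by
    have h1 : g * 200 ≤ g * (s - g * o) := mul_le_mul_of_nonneg_left (by linarith) hdr.le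
    linarith)
  have hadd : s - g * o + ((t - g * o') - (s - g * o)) = t - g * o' := by ring
  rw [hadd] at hA3
  have hA4 := hA3.trans (near_sqrt (by linarith) hU hfr0 (by linarith))
  have hss : 0 < Real.sqrt s := Real.sqrt_pos.mpr hs0
  have hsq : Real.sqrt s * Real.sqrt s = s := Real.mul_self_sqrt hs0.le
  have hs1' : 1 ≤ Real.sqrt s := Real.one_le_sqrt.mpr (by linarith)
  have hA5 : |VV (A + B) f (t - g * o') - VV (A + B) f (s - g * o)| ≤
      4 * C4 / Real.sqrt s := by
    refine hA4.trans ?_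
    have h1 : 2 * ((t - g * o') - (s - g * o)) / s ≤ 2 / Real.sqrt s := by
      rw [div_le_div_iff₀ hs0 hss]
      have h3 : (t - g * o') - (s - g * o) ≤ 1 := hfr1.trans hg1
      have h4 : 2 * ((t - g * o') - (s - g * o)) * Real.sqrt s ≤ 2 * 1 * Real.sqrt s :=
        mul_le_mul_of_nonneg_right (by linarith) hss.le
      have h5 : Real.sqrt s * 1 ≤ Real.sqrt s * Real.sqrt s :=
        mul_le_mul_of_nonneg_left hs1' hss.le
      linarith
    have h2 : C4 * (2 * ((t - g * o') - (s - g * o)) / s + 2 / Real.sqrt s)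
        ≤ C4 * (2 / Real.sqrt s + 2 / Real.sqrt s) :=
      mul_le_mul_of_nonneg_left (by linarith) (by linarith)
    refine h2.trans (le_of_eq ?_)
    ring
  have hA6 : (6 * C4 + 1600 * C / g) / Real.sqrt t ≤
      2 * (6 * C4 + 1600 * C / g) / Real.sqrt s := by
    have htt : 0 < Real.sqrt t := Real.sqrt_pos.mpr (by linarith)
    have h1 : Real.sqrt s ≤ 2 * Real.sqrt t := by
      apply Real.sqrt_le_iff.mpr
      refine ⟨by positivity, ?_⟩
      rw [mul_pow, Real.sq_sqrt (by linarith)]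
      linarith
    rw [div_le_div_iff₀ htt hss]
    have h2 : 0 ≤ 6 * C4 + 1600 * C / g := by linarith
    have h3 := mul_le_mul_of_nonneg_left h1 h2
    linarith
  have hA7 : |VV (A + B) f s - VV (A + B) f t| ≤
      |VV (A + B) f s - VV (A + B) f (s - g * o)|
      + |VV (A + B) f (t - g * o') - VV (A + B) f (s - g * o)|
      + |VV (A + B) f t - VV (A + B) f (t - g * o')| := by
    have h1 := abs_sub_le (VV (A + B) f s) (VV (A + B) f (s - g * o)) (VV (A + B) f t)
    have h2 := abs_sub_le (VV (A + B) f (s - g * o)) (VV (A + B) f (t - g * o'))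
      (VV (A + B) f t)
    rw [abs_sub_comm (VV (A + B) f (s - g * o)) (VV (A + B) f (t - g * o')),
      abs_sub_comm (VV (A + B) f (t - g * o')) (VV (A + B) f t)] at h2
    linarith
  calc |VV (A + B) f s - VV (A + B) f t|
      ≤ _ := hA7
    _ ≤ (6 * C4 + 1600 * C / g) / Real.sqrt s + 4 * C4 / Real.sqrt s
        + 2 * (6 * C4 + 1600 * C / g) / Real.sqrt s :=
        add_le_add (add_le_add hA1 hA5) (hA2.trans hA6)
    _ = (3 * (6 * C4 + 1600 * C / g) + 4 * C4) / Real.sqrt s := by ring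

end Pool.Agent.H5.TD
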