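import Pool.Agent.H5.TD.Defs

/-!
# JOB TD-12. The exact change of variables for invariant sets

`vw_le`: clear. `Inv_mono`… not needed. `Inv0`: if `Inv S N U`, `N ≥ 1`: `1 ∈ U ↔ 0 ∈ U` (`T 1 = 0`, see `uP_zero` in `PP/XN.lean`; `GX S N 1`: `N * 1 ∈ Lam` by `N_mem`), and
`S.a⁻¹ ∈ U ↔ 1 ∈ U` (`T (a⁻¹) = 1`: `(a⁻¹).1 = 1/a.1 ≤ 1/a.1`; `GX S N a⁻¹` by `ainv_mem`).

`re_one`: `SS (ptX S N) (fun z => vw U z * ψ z) = SS (ptX S N) (fun y => vw U y * (ψ (gb S 1 false y) + ψ (gb S 1 true y)))`.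
Proof: write `vw U z = u z + v z` with `u z = vw U z` if `z ≠ 0`, `z ≠ 1`, and `0` otherwise; `v` the rest. Case (a): `0 ∉ U` (so `1 ∉ U`, `a⁻¹ ∉ U`): `u = vw U` satisfies
`u 0 = u 1 = 0` and `u (T z) = u z` for all `z` with `GX S N z`: `z ∈ U ↔ T z ∈ U`, and if `z ∈ U` then `z ≠ 0, 1, a⁻¹`, so `T z ≠ 0, 1` because `T z ∈ U`. So `reX` with `n = 1`
(`words 1 = {[false], [true]}`) gives the claim.
Case (b): `0, 1, a⁻¹ ∈ U`: let `u z = 1` if `z ∈ U` and `z ∉ {0, 1}`, else `0`. `reX` with `n = 1`: `∑_z u (T z) ψ z = ∑_y u y (ψ (gb false y) + ψ (gb true y))`. For `GX` points: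
`u (T z) = 1` iff `z ∈ U` and `T z ≠ 0, 1` iff `z ∈ U` and `z ∉ {0, 1, a⁻¹}` (`T z = 0` iff `z = 0` or `z = 1`; `T z = 1` iff `z = a⁻¹`: `gb_dig`/`T_gbX`: `z = gb c (T z)`; `gb c 1 = a⁻¹` for both `c`
(`b_inv`), `gb false 0 = 0`, `gb true 0 = 1`). So `vw U z = u (T z) + (1/2)[z = 0] + (1/2)[z = 1] + [z = a⁻¹]` and `vw U y = u y + (1/2)[y = 0] + (1/2)[y = 1]`, and the extra terms on both sides are
`ψ 0/2 + ψ 1/2 + ψ a⁻¹` and `(ψ 0 + ψ 1)/2 + (ψ a⁻¹ + ψ a⁻¹)/2` (`SS` of a function supported at one point of the family: `tsum_eq_single`; `0 ≠ 1 ≠ a⁻¹ ≠ 0`).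
A more uniform proof (no cases): `SS` of `vw U z * ψ z`, split `ψ` … is also fine: e.g. a bijection-like computation with the map `(y, c) ↦ gb c y` on `{y // GX} × Bool`, which is onto, and
injective except that the two points over `y = 1` agree: `∑_y vw U y (ψ (gb false y) + ψ (gb true y)) = ∑_z ψ z ∑_{(y,c) : gb c y = z} vw U y`, and the inner sum is `vw U (T z) * (number of c)`.

`re_v`: induction on `n`, `sum_words_succ` / `words_append` with `gw S 1 (c :: w) y = gb S 1 c (gw S 1 w y)`: apply the induction hypothesis to `φ' z = φ (gb S 1 false z) + φ (gb S 1 true z)`, and `re_one`.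
-/

set_option autoImplicit false

namespace Pool.Agent.H5.TD

open Pool.Agent.H67.Tent Pool.Agent.H49.AB Pool.Agent.H49.PP Finset

theorem vw_le (U : Set E) (z : E) : vw U z ≤ 1 := by
  unfold vw
  by_cases h : z ∈ U
  · rw [if_pos h]
    by_cases h2 : z = 0 ∨ z = 1
    · rw [if_pos h2]
      exact ENNReal.inv_le_one.2 one_le_two
    · rw [if_neg h2]
  · rw [if_neg h]
    exact zero_le

private theorem Re_T1 (S : Sys2) : T S.toSys 1 (1 : E) = 0 := by
  have h2 := Reidx_TN S 1 le_rfl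
  rwa [Nat.cast_one] at h2

private theorem Re_T0 (S : Sys2) : T S.toSys 1 (0 : E) = 0 := Reidx_T0 S 1

private theorem Re_Ta (S : Sys2) : T S.toSys 1 (S.a⁻¹) = 1 := by
  have h : (S.a⁻¹).1 ≤ ((1 : ℕ) : ℝ) / S.a.1 := by
    have e : (S.a⁻¹).1 = (S.a.1)⁻¹ := rfl
    rw [e, Nat.cast_one, one_div]
  unfold T
  rw [if_pos h, a_ne]

private theorem Re_one_mem (S : Sys2) (N : ℕ) : GX S N (1 : E) := by
  refine ⟨?_, ?_, ?_⟩
  · rw [mul_one]
    exact N_mem S.toSys N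
  · exact zero_le_one
  · exact le_rfl

private theorem Re_zero_mem (S : Sys2) (N : ℕ) : GX S N (0 : E) := by
  refine ⟨?_, ?_, ?_⟩
  · rw [mul_zero]
    exact S.Lam.zero_mem
  · exact le_rfl
  · exact zero_le_one

private theorem Re_a_mem (S : Sys2) (N : ℕ) : GX S N (S.a⁻¹) := by
  have e : (S.a⁻¹).1 = (S.a.1)⁻¹ := rfl
  refine ⟨?_, ?_, ?_⟩
  · rw [mul_comm]
    exact ainv_mem S (N_mem S.toSys N)
  · rw [e]
    exact inv_nonneg.2 (ap S).le
  · rw [e]
    exact (pu S).trans (by norm_num)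

theorem Inv0 (S : Sys2) {N : ℕ} (hN : 1 ≤ N) {U : Set E} (hU : Inv S N U) :
    ((1 : E) ∈ U ↔ (0 : E) ∈ U) ∧ (S.a⁻¹ ∈ U ↔ (1 : E) ∈ U) := by
  have h1 := hU 1 (Re_one_mem S N)
  have h2 := hU S.a⁻¹ (Re_a_mem S N)
  rw [Re_T1] at h1
  rw [Re_Ta] at h2
  exact ⟨h1.symm, h2.symm⟩

private theorem Re_a1 (S : Sys2) : S.a⁻¹ ≠ 1 := by
  intro h
  have h2 : (S.a.1)⁻¹ = 1 := congrArg Prod.fst h
  have h3 : (S.a.1)⁻¹ < 1 := (pu S).trans_lt (by norm_num)
  linarith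

private theorem Re_a0 (S : Sys2) : S.a⁻¹ ≠ 0 := by
  intro h
  have h2 : (S.a.1)⁻¹ = 0 := congrArg Prod.fst h
  have h3 := inv_pos.2 (ap S)
  linarith

private theorem Re_10 : (1 : E) ≠ 0 := by
  intro h
  have h2 : (1 : ℝ) = 0 := congrArg Prod.fst h
  exact one_ne_zero h2

private theorem Re_dig (S : Sys2) {N : ℕ} (hN : 1 ≤ N) {z : E} (hz : GX S N z) :
    ∃ c, gb S 1 c (T S.toSys 1 z) = z := by
  have h := gb_dig S N ((XNa_G S hN z).2 hz)
  rw [XNa_T S hN, XNa_gb] at h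
  refine ⟨dig S.toSys N ((N : E) * z), ?_⟩
  rw [← XNa_inv hN (gb S 1 (dig S.toSys N ((N : E) * z)) (T S.toSys 1 z)), h, XNa_inv hN]

private theorem Re_f0 (S : Sys2) : gb S 1 false 0 = 0 := by
  rw [Reidx_false, mul_zero]

private theorem Re_t0 (S : Sys2) : gb S 1 true 0 = 1 := by
  rw [Reidx_true, mul_zero, Nat.cast_one, sub_zero]

private theorem Re_f1 (S : Sys2) : gb S 1 false 1 = S.a⁻¹ := by
  rw [Reidx_false, mul_one]

private theorem Re_t1 (S : Sys2) : gb S 1 true 1 = S.a⁻¹ := by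
  rw [Reidx_true, mul_one, Nat.cast_one, b_inv]
  ring

open Classical in
/-- The regular part of the weight. -/
private noncomputable def Re_u (U : Set E) (z : E) : ENNReal :=
  if z ∈ U ∧ z ≠ 0 ∧ z ≠ 1 then 1 else 0

open Classical in
/-- The value at `0`. -/
private noncomputable def Re_k (U : Set E) : ENNReal := if (0 : E) ∈ U then 1 else 0

open Classical in
/-- A function supported at one point. -/
private noncomputable def Re_d (p : E) (c : ENNReal) (z : E) : ENNReal := if z = p then c else 0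

private theorem Re_d_same (p : E) (c : ENNReal) : Re_d p c p = c := if_pos rfl

private theorem Re_d_ne {p z : E} (c : ENNReal) (h : z ≠ p) : Re_d p c z = 0 := if_neg h

private theorem Re_SSd (S : Sys2) (N : ℕ) {p : E} (hp : GX S N p) (c : ENNReal) :
    SS (ptX S N) (Re_d p c) = c := by
  unfold SS
  rw [tsum_eq_single (⟨p, hp⟩ : {z : E // GX S N z})]
  · exact Re_d_same p c
  · intro z hz
    refine Re_d_ne c ?_
    intro h
    exact hz (Subtype.ext h)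

private theorem Re_vw (U : Set E) (h1 : (1 : E) ∈ U ↔ (0 : E) ∈ U) (y : E) (X : ENNReal)
    (ψ : E → ENNReal) (hψ : ψ y = X) :
    vw U y * X = Re_u U y * X + Re_d 0 (Re_k U * 2⁻¹ * ψ 0) y +
      Re_d 1 (Re_k U * 2⁻¹ * ψ 1) y := by
  subst hψ
  by_cases hy0 : y = 0
  · subst hy0
    rw [Re_d_same, Re_d_ne _ Re_10.symm, add_zero]
    by_cases h : (0 : E) ∈ U
    · simp [vw, Re_u, Re_k, h]
    · simp [vw, Re_u, Re_k, h]
  · by_cases hy1 : y = 1
    · subst hy1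
      rw [Re_d_same, Re_d_ne _ Re_10, add_zero]
      by_cases h : (0 : E) ∈ U
      · have h' := h1.2 h
        simp [vw, Re_u, Re_k, h, h']
      · have h' : (1 : E) ∉ U := fun h3 => h (h1.1 h3)
        simp [vw, Re_u, Re_k, h, h']
    · rw [Re_d_ne _ hy0, Re_d_ne _ hy1, add_zero, add_zero]
      by_cases h : y ∈ U
      · simp [vw, Re_u, h, hy0, hy1]
      · simp [vw, Re_u, h]

private theorem Re_vwT (S : Sys2) {N : ℕ} (hN : 1 ≤ N) {U : Set E} (hU : Inv S N U)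
    (ψ : E → ENNReal) {z : E} (hz : GX S N z) :
    vw U z * ψ z = Re_u U (T S.toSys 1 z) * ψ z + Re_d 0 (Re_k U * 2⁻¹ * ψ 0) z +
      Re_d 1 (Re_k U * 2⁻¹ * ψ 1) z + Re_d (S.a⁻¹) (Re_k U * ψ S.a⁻¹) z := by
  obtain ⟨h10, ha1⟩ := Inv0 S hN hU
  by_cases hz0 : z = 0
  · subst hz0
    rw [Re_d_same, Re_d_ne _ Re_10.symm, Re_d_ne _ (Re_a0 S).symm, add_zero, add_zero, Re_T0]
    by_cases h : (0 : E) ∈ U
    · simp [vw, Re_u, Re_k, h]
    · simp [vw, Re_u, Re_k, h]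
  · by_cases hz1 : z = 1
    · subst hz1
      rw [Re_d_same, Re_d_ne _ Re_10, Re_d_ne _ (Re_a1 S).symm, add_zero, add_zero, Re_T1]
      by_cases h : (0 : E) ∈ U
      · have h' := h10.2 h
        simp [vw, Re_u, Re_k, h, h']
      · have h' : (1 : E) ∉ U := fun h3 => h (h10.1 h3)
        simp [vw, Re_u, Re_k, h, h']
    · by_cases hza : z = S.a⁻¹
      · subst hza
        rw [Re_d_same, Re_d_ne _ hz0, Re_d_ne _ hz1, add_zero, add_zero, Re_Ta]
        by_cases h : (0 : E) ∈ U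
        · have h' := ha1.2 (h10.2 h)
          simp [vw, Re_u, Re_k, h, h', hz0, hz1]
        · have h' : S.a⁻¹ ∉ U := fun h3 => h (h10.1 (ha1.1 h3))
          simp [vw, Re_u, Re_k, h, h']
      · rw [Re_d_ne _ hz0, Re_d_ne _ hz1, Re_d_ne _ hza, add_zero, add_zero, add_zero]
        obtain ⟨c, hc⟩ := Re_dig S hN hz
        have hT0 : T S.toSys 1 z ≠ 0 := by
          intro h
          rw [h] at hc
          cases c
          · rw [Re_f0] at hc
            exact hz0 hc.symm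
          · rw [Re_t0] at hc
            exact hz1 hc.symm
        have hT1 : T S.toSys 1 z ≠ 1 := by
          intro h
          rw [h] at hc
          cases c
          · rw [Re_f1] at hc
            exact hza hc.symm
          · rw [Re_t1] at hc
            exact hza hc.symm
        have hTU := hU z hz
        by_cases h : z ∈ U
        · have h' := hTU.2 h
          simp [vw, Re_u, h, h', hz0, hz1, hT0, hT1]
        · have h' : T S.toSys 1 z ∉ U := fun h3 => h (hTU.1 h3)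
          simp [vw, Re_u, h, h']

theorem re_one (S : Sys2) {N : ℕ} (hN : 1 ≤ N) {U : Set E} (hU : Inv S N U) (ψ : E → ENNReal) :
    SS (ptX S N) (fun z => vw U z * ψ z) =
      SS (ptX S N) (fun y => vw U y * (ψ (gb S 1 false y) + ψ (gb S 1 true y))) := by
  obtain ⟨h10, ha1⟩ := Inv0 S hN hU
  have hu0 : Re_u U 0 = 0 := by simp [Re_u]
  have hu1 : Re_u U 1 = 0 := by simp [Re_u]
  have hre := reX S hN (Re_u U) ψ hu0 hu1 1
  have hw : ∀ y : E, ∑ w ∈ words 1, ψ (gw S 1 w y) = ψ (gb S 1 false y) + ψ (gb S 1 true y) := by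
    intro y
    rw [show (1 : ℕ) = 0 + 1 from rfl, sum_words_succ, words, Finset.sum_singleton,
      Finset.sum_singleton]
    rfl
  have hL : SS (ptX S N) (fun z => vw U z * ψ z) =
      SS (ptX S N) (fun z => Re_u U (T S.toSys 1 z) * ψ z) + Re_k U * 2⁻¹ * ψ 0 +
        Re_k U * 2⁻¹ * ψ 1 + Re_k U * ψ S.a⁻¹ := by
    rw [SS_congr (ptX S N) (g := fun z => (Re_u U (T S.toSys 1 z) * ψ z +
      Re_d 0 (Re_k U * 2⁻¹ * ψ 0) z + Re_d 1 (Re_k U * 2⁻¹ * ψ 1) z) +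
      Re_d (S.a⁻¹) (Re_k U * ψ S.a⁻¹) z) (fun i => Re_vwT S hN hU ψ i.2)]
    rw [SS_add, SS_add, SS_add, Re_SSd S N (Re_zero_mem S N), Re_SSd S N (Re_one_mem S N),
      Re_SSd S N (Re_a_mem S N)]
  have hR : SS (ptX S N) (fun y => vw U y * (ψ (gb S 1 false y) + ψ (gb S 1 true y))) =
      SS (ptX S N) (fun y => Re_u U y * (ψ (gb S 1 false y) + ψ (gb S 1 true y))) +
        Re_k U * 2⁻¹ * (ψ 0 + ψ 1) + Re_k U * 2⁻¹ * (ψ S.a⁻¹ + ψ S.a⁻¹) := by
    rw [SS_congr (ptX S N) (g := fun y => Re_u U y * (ψ (gb S 1 false y) + ψ (gb S 1 true y)) +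
      Re_d 0 (Re_k U * 2⁻¹ * (ψ (gb S 1 false 0) + ψ (gb S 1 true 0))) y +
      Re_d 1 (Re_k U * 2⁻¹ * (ψ (gb S 1 false 1) + ψ (gb S 1 true 1))) y)
      (fun i => Re_vw U h10 _ _ (fun y => ψ (gb S 1 false y) + ψ (gb S 1 true y)) rfl)]
    rw [SS_add, SS_add, Re_SSd S N (Re_zero_mem S N), Re_SSd S N (Re_one_mem S N), Re_f0, Re_t0,
      Re_f1, Re_t1]
  have hre' : SS (ptX S N) (fun z => Re_u U (T S.toSys 1 z) * ψ z) =
      SS (ptX S N) (fun y => Re_u U y * (ψ (gb S 1 false y) + ψ (gb S 1 true y))) := by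
    refine hre.trans ?_
    exact SS_congr (ptX S N) fun i => by
      show Re_u U _ * ∑ w ∈ words 1, ψ (gw S 1 w _) = _
      rw [hw]
  have hk : Re_k U * ψ S.a⁻¹ = Re_k U * 2⁻¹ * (ψ S.a⁻¹ + ψ S.a⁻¹) := by
    rw [mul_assoc, mul_add, ← add_mul, ENNReal.inv_two_add_inv_two, one_mul]
  rw [hL, hR, hre', hk, mul_add (Re_k U * 2⁻¹) (ψ 0) (ψ 1)]
  ring

/-- Exact change of variables. -/
theorem re_v (S : Sys2) {N : ℕ} (hN : 1 ≤ N) {U : Set E} (hU : Inv S N U) (φ : E → ENNReal)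
    (n : ℕ) : SS (ptX S N) (fun z => vw U z * φ z) =
      SS (ptX S N) (fun y => vw U y * ∑ w ∈ words n, φ (gw S 1 w y)) := by
  induction n generalizing φ with
  | zero =>
    refine SS_congr (ptX S N) fun i => ?_
    show vw U _ * φ _ = vw U _ * ∑ w ∈ words 0, φ (gw S 1 w _)
    rw [words, Finset.sum_singleton]
    rfl
  | succ n ih =>
    rw [re_one S hN hU φ, ih (fun y => φ (gb S 1 false y) + φ (gb S 1 true y))]
    refine SS_congr (ptX S N) fun i => ?_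
    show vw U _ * ∑ w ∈ words n, (φ (gb S 1 false (gw S 1 w _)) + φ (gb S 1 true (gw S 1 w _))) =
      vw U _ * ∑ w ∈ words (n + 1), φ (gw S 1 w _)
    rw [Reidx_step]

end Pool.Agent.H5.TD
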