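import Pool.Agent.H5.TD.BinC

/-!
# JOB TD-04. Functions of the class `HF`: shifts by `A` and by `A + B` (pure)

`harm'`: rewrite the sum (`x.1 = o - x.2`): `s + A x.1 - B x.2 = s + A o - (A+B) x.2`.
`shiftA`: `harm'` at `s` with `o` and at `s - A` with `o + 1` have the same positions `s + A o - (A+B) j`; by `EE_succ` the difference of the two
expectations is `q EE o (G(j+1) - G j)`, at most `M/√(p q (o+1))` (`EE_diff`). Choose `o = ⌊s/80⌋` (`o ≥ o0`, `40 (o+1) ≤ s - A`, `o ≥ s/100` for `s` large).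
So `|f s - f (s-A)| ≤ 2C/o + M/√(pq(o+1)) ≤ C1/√s`.
`shiftD`: `harm'` at `s` and at `s + (A+B)` with the same `o`: `G1 (j+1) = G0 j` where `G1 j = f (s + (A+B) + A o - (A+B) j)`.
The constants `C1`, `s1` depend on the parameters only (not on `f`).
-/

set_option autoImplicit false

namespace Pool.Agent.H5.TD

open Pool.Agent.H49.AB Finset

variable {p q A B M C : ℝ} {o0 : ℕ}

theorem HF.harm' {f : ℝ → ℝ} (h : HF p q A B M C o0 f) {o : ℕ} {s : ℝ} (ho : o0 ≤ o)
    (hs : 40 * (o : ℝ) ≤ s) :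
    |f s - EE p q o (fun j => f (s + A * o - (A + B) * j))| ≤ C / o := by
  have h1 := h.harm o s ho hs
  have h2 : EE p q o (fun j => f (s + A * o - (A + B) * j))
      = ∑ x ∈ AD o, bin p q x.1 x.2 * f (s + A * x.1 - B * x.2) := by
    unfold EE
    refine Finset.sum_congr rfl fun x hx => ?_
    have h3 : x.1 + x.2 = o := Finset.HasAntidiagonal.mem_antidiagonal.mp hx
    have h4 : (o : ℝ) = x.1 + x.2 := by rw [← h3]; push_cast; ring
    have h5 : s + A * o - (A + B) * x.2 = s + A * x.1 - B * x.2 := by rw [h4]; ring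
    simp only [h5]
  rw [h2]
  exact h1

/-- the choice of `o` -/
private theorem shift_choose {p q : ℝ} (hp : 0 < p) (hq : 0 < q) (M C : ℝ) (hM : 0 ≤ M)
    (hC : 1 ≤ C) (o0 : ℕ) :
    ∃ C1 s1 : ℝ, 1 ≤ C1 ∧ 1 ≤ s1 ∧ ∀ s, s1 ≤ s → ∃ o : ℕ, (0 : ℝ) < o ∧ o0 ≤ o ∧
      40 * ((o : ℝ) + 1) ≤ s - 1 ∧
      2 * (C / o) + M / Real.sqrt (p * q * (o + 1)) ≤ C1 / Real.sqrt s := by
  have hpq : 0 < p * q := mul_pos hp hq
  have hsp : 0 < Real.sqrt (p * q) := Real.sqrt_pos.mpr hpq
  refine ⟨200 * C + 10 * M / Real.sqrt (p * q), 400 + 80 * (o0 + 1), ?_, ?_, ?_⟩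
  · have : 0 ≤ 10 * M / Real.sqrt (p * q) := by positivity
    linarith
  · have : (0 : ℝ) ≤ o0 := Nat.cast_nonneg _
    linarith
  · intro s hs
    have h0 : (0 : ℝ) ≤ o0 := Nat.cast_nonneg _
    have hs0 : 0 < s := by linarith
    have hs1 : 1 ≤ s := by linarith
    have f1 : s / 80 - 1 < (⌊s / 80⌋₊ : ℝ) := Nat.sub_one_lt_floor _
    have f2 : (⌊s / 80⌋₊ : ℝ) ≤ s / 80 := Nat.floor_le (by positivity)
    set o := ⌊s / 80⌋₊ with ho
    have g1 : s / 100 ≤ o := by linarith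
    have ho1 : (0 : ℝ) < o := by linarith
    refine ⟨o, ho1, ?_, by linarith, ?_⟩
    · have : (o0 : ℝ) ≤ o := by linarith
      exact_mod_cast this
    · have hss : 0 < Real.sqrt s := Real.sqrt_pos.mpr hs0
      have e1 : C / o ≤ 100 * C / Real.sqrt s := by
        have e2 : C / o ≤ C / (s / 100) :=
          div_le_div_of_nonneg_left (by linarith) (by positivity) g1
        have e3 : C / (s / 100) = 100 * C / s := by
          field_simp
        have e4 : Real.sqrt s ≤ s := by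
          rw [Real.sqrt_le_left hs0.le]
          nlinarith
        have e5 : 100 * C / s ≤ 100 * C / Real.sqrt s :=
          div_le_div_of_nonneg_left (by linarith) hss e4
        linarith
      have e6 : M / Real.sqrt (p * q * (o + 1)) ≤ 10 * M / Real.sqrt (p * q) / Real.sqrt s := by
        have e7 : Real.sqrt (p * q) * Real.sqrt s / 10 ≤ Real.sqrt (p * q * (o + 1)) := by
          apply Real.le_sqrt_of_sq_le
          rw [div_pow, mul_pow, Real.sq_sqrt hpq.le, Real.sq_sqrt hs0.le]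
          have : s / 100 ≤ (o : ℝ) + 1 := by linarith
          calc p * q * s / 10 ^ 2 = p * q * (s / 100) := by ring
            _ ≤ p * q * (o + 1) := by gcongr
        have e8 : M / Real.sqrt (p * q * (o + 1)) ≤ M / (Real.sqrt (p * q) * Real.sqrt s / 10) :=
          div_le_div_of_nonneg_left hM (by positivity) e7
        have e9 : M / (Real.sqrt (p * q) * Real.sqrt s / 10)
            = 10 * M / Real.sqrt (p * q) / Real.sqrt s := by
          field_simp
        linarith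
      have e10 : (200 * C + 10 * M / Real.sqrt (p * q)) / Real.sqrt s
          = 2 * (100 * C / Real.sqrt s) + 10 * M / Real.sqrt (p * q) / Real.sqrt s := by
        ring
      linarith

theorem shiftA (hP : PC p q A B) (M C : ℝ) (hM : 0 ≤ M) (hC : 1 ≤ C) (o0 : ℕ) :
    ∃ C1 s1 : ℝ, 1 ≤ C1 ∧ 1 ≤ s1 ∧ ∀ f, HF p q A B M C o0 f → ∀ s, s1 ≤ s →
      |f s - f (s - A)| ≤ C1 / Real.sqrt s := by
  obtain ⟨C1, s1, hC1, hs1, hch⟩ := shift_choose hP.hp hP.hq M C hM hC o0
  refine ⟨C1, s1, hC1, hs1, ?_⟩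
  intro f hf s hs
  obtain ⟨o, ho1, ho, ho2, ho3⟩ := hch s hs
  have hA := hP.hA
  have hA1 := hP.hA1
  have h1 := hf.harm' ho (by linarith : 40 * (o : ℝ) ≤ s)
  have h2 := hf.harm' (o := o + 1) (s := s - A) (by omega) (by push_cast; linarith)
  set G : ℕ → ℝ := fun j => f (s + A * o - (A + B) * j) with hG
  have e1 : (fun j : ℕ => f (s - A + A * ((o + 1 : ℕ) : ℝ) - (A + B) * j)) = G := by
    funext j
    simp only [hG]
    congr 1
    push_cast
    ring
  rw [e1, EE_succ] at h2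
  have e2 : EE p q o (fun j => p * G j + q * G (j + 1)) - EE p q o G
      = q * EE p q o (fun j => G (j + 1) - G j) := by
    rw [← EE_sub, ← EE_const_mul]
    congr 1
    funext j
    have : p = 1 - q := by linarith [hP.pq]
    rw [this]
    ring
  have e3 := EE_diff hP.hp hP.hq hP.pq o (G := G) (M := M) (fun j => hf.bd _)
  have hq1 : q ≤ 1 := by linarith [hP.pq, hP.hp]
  have e4 : |q * EE p q o (fun j => G (j + 1) - G j)| ≤ M / Real.sqrt (p * q * (o + 1)) := by
    rw [abs_mul, abs_of_pos hP.hq]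
    calc q * |EE p q o (fun j => G (j + 1) - G j)|
        ≤ 1 * |EE p q o (fun j => G (j + 1) - G j)| := by gcongr
      _ = |EE p q o (fun j => G (j + 1) - G j)| := one_mul _
      _ ≤ _ := e3
  have e5 : C / ((o + 1 : ℕ) : ℝ) ≤ C / o := by
    apply div_le_div_of_nonneg_left (by linarith) ho1
    push_cast
    linarith
  rw [← e2] at e4
  rw [abs_le] at h1 h2 e4 ⊢
  constructor
  · linarith [h1.1, h1.2, h2.1, h2.2, e4.1, e4.2]
  · linarith [h1.1, h1.2, h2.1, h2.2, e4.1, e4.2]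

theorem shiftD (hP : PC p q A B) (M C : ℝ) (hM : 0 ≤ M) (hC : 1 ≤ C) (o0 : ℕ) :
    ∃ C1 s1 : ℝ, 1 ≤ C1 ∧ 1 ≤ s1 ∧ ∀ f, HF p q A B M C o0 f → ∀ s, s1 ≤ s →
      |f (s + (A + B)) - f s| ≤ C1 / Real.sqrt s := by
  obtain ⟨C1, s1, hC1, hs1, hch⟩ := shift_choose hP.hp hP.hq M C hM hC o0
  refine ⟨C1, s1, hC1, hs1, ?_⟩
  intro f hf s hs
  obtain ⟨o, ho1, ho, ho2, ho3⟩ := hch s hs
  have hA := hP.hA
  have hB := hP.hB
  have h1 := hf.harm' ho (by linarith : 40 * (o : ℝ) ≤ s)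
  have h2 := hf.harm' (s := s + (A + B)) ho (by linarith)
  set G : ℕ → ℝ := fun j => f (s + (A + B) + A * o - (A + B) * j) with hG
  have e1 : (fun j : ℕ => f (s + A * o - (A + B) * j)) = fun j => G (j + 1) := by
    funext j
    simp only [hG]
    congr 1
    push_cast
    ring
  rw [e1] at h1
  have e2 : EE p q o (fun j => G (j + 1)) - EE p q o G
      = EE p q o (fun j => G (j + 1) - G j) := by
    rw [← EE_sub]
  have e3 := EE_diff hP.hp hP.hq hP.pq o (G := G) (M := M) (fun j => hf.bd _)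
  rw [← e2] at e3
  rw [abs_le] at h1 h2 e3 ⊢
  constructor
  · linarith [h1.1, h1.2, h2.1, h2.2, e3.1, e3.2]
  · linarith [h1.1, h1.2, h2.1, h2.2, e3.1, e3.2]

end Pool.Agent.H5.TD
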