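import Pool.Agent.H5.TD.Reg

/-!
# JOB TD-16. The step for wide boxes

One word `w ∈ cls a b`, `r2 = R ‖W_ab‖_2`, `r3 = Q ‖W_ab‖_3`, offsets `c2 = (off w).2.1`, `c3 = (off w).2.2` with `‖c2‖ ≤ η r2`, `‖c3‖ ≤ η r3`. By `gs_gw` and `gauss_shift` (twice, `AB/GShift.lean`), for all `y`
`|gs R Q (gw S 1 w y) - gs r2 r3 y| ≤ C η gs (2 r2) (2 r3) y` (`η ≤ 1`; write the difference of products as `(g₂ - g₂⁰) g₃ + g₂⁰ (g₃ - g₃⁰)`, `g₃ ≤ g₃⁰ + C η G₃ ≤ (1 + C) G₃` with `G` the Gaussian of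
double width, `g⁰ ≤ G`). Sum over the family with the weight `vw U ≤ 1`: `≤ C η K (1 + 16 R² Q²/|W_ab|_1) ≤ 17 C η K R² Q²/|W_ab|_1` (`SmX_le` for `U = univ` or `GB_X`; `W_prod`; hypothesis `|W_ab|_1 ≤ R² Q²`).
`re_v` with `n = o`: `SmX R Q (vw U) = ∑_y vw U y ∑_{w ∈ words o} ofReal (gs R Q (gw w y))`; sum over the words (`sum_words_eq`): the main term is `∑ x ∈ AD o, card (cls x) SmX (R‖W_x‖_2) (Q‖W_x‖_3)`,
divided by `R² Q²`: `card ‖W‖_2² ‖W‖_3² DD = bn x DD` (`step_card_div`, `W_prod`), and the error is at most `∑_x card (17 C η K)/|W_x|_1 = 17 C η K ∑ bn = 17 C η K` (`step_sum_bin`).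
(`Q` small is allowed; `DD_ofReal` for all positive `R`, `Q`.)
-/

set_option autoImplicit false

namespace Pool.Agent.H5.TD

open Pool.Agent.H67.Tent Pool.Agent.H49.AB Pool.Agent.H49.PP Finset MeasureTheory

/-- Shift of a product of two Gaussians. -/
private theorem StepQ_gauss : ∃ C : ℝ, 1 ≤ C ∧ ∀ (x c x' c' : ℂ) (r q η : ℝ), 0 < r → 0 < q →
    0 ≤ η → η ≤ 1 → ‖c‖ ≤ η * r → ‖c'‖ ≤ η * q →
    |Real.exp (-(Real.pi * (‖x - c‖ ^ 2 / r ^ 2 + ‖x' - c'‖ ^ 2 / q ^ 2))) -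
      Real.exp (-(Real.pi * (‖x‖ ^ 2 / r ^ 2 + ‖x'‖ ^ 2 / q ^ 2)))| ≤
      C * η * Real.exp (-(Real.pi * (‖x - 0‖ ^ 2 / (2 * r) ^ 2 + ‖x' - 0‖ ^ 2 / (2 * q) ^ 2))) := by
  obtain ⟨C, hC, H⟩ := gauss_shift
  refine ⟨C * (1 + C) + C, by nlinarith, ?_⟩
  intro x c x' c' r q η hr hq hη0 hη1 hc hc'
  have hpi := Real.pi_pos
  have one : ∀ (x c : ℂ) (r : ℝ), 0 < r → ‖c‖ ≤ η * r →
      |Real.exp (-(Real.pi * (‖x - c‖ ^ 2 / r ^ 2))) - Real.exp (-(Real.pi * (‖x‖ ^ 2 / r ^ 2)))| ≤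
        C * η * Real.exp (-(Real.pi * (‖x‖ ^ 2 / (2 * r) ^ 2))) := by
    intro x c r hr hc
    have h1 : ‖c‖ / r ≤ η := by
      rw [div_le_iff₀ hr]
      exact hc
    have h2 : ‖c‖ ≤ r := hc.trans (by nlinarith)
    refine (H x c r hr h2).trans ?_
    refine mul_le_mul_of_nonneg_right ?_ (Real.exp_pos _).le
    exact mul_le_mul_of_nonneg_left h1 (by linarith)
  have two : ∀ (x : ℂ) (r : ℝ), 0 < r → Real.exp (-(Real.pi * (‖x‖ ^ 2 / r ^ 2))) ≤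
      Real.exp (-(Real.pi * (‖x‖ ^ 2 / (2 * r) ^ 2))) := by
    intro x r hr
    rw [Real.exp_le_exp]
    apply neg_le_neg
    apply mul_le_mul_of_nonneg_left _ hpi.le
    apply div_le_div_of_nonneg_left (by positivity) (by positivity)
    nlinarith
  have a1 := one x c r hr hc
  have a2 := one x' c' q hq hc'
  have b1 := two x r hr
  have b2 := two x' q hq
  rw [sub_zero, sub_zero, mul_add Real.pi, neg_add, Real.exp_add, mul_add Real.pi, neg_add,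
    Real.exp_add, mul_add Real.pi, neg_add, Real.exp_add]
  have p1 := Real.exp_pos (-(Real.pi * (‖x - c‖ ^ 2 / r ^ 2)))
  have p2 := Real.exp_pos (-(Real.pi * (‖x' - c'‖ ^ 2 / q ^ 2)))
  have p3 := Real.exp_pos (-(Real.pi * (‖x‖ ^ 2 / r ^ 2)))
  have p4 := Real.exp_pos (-(Real.pi * (‖x'‖ ^ 2 / q ^ 2)))
  have p5 := Real.exp_pos (-(Real.pi * (‖x‖ ^ 2 / (2 * r) ^ 2)))
  have p6 := Real.exp_pos (-(Real.pi * (‖x'‖ ^ 2 / (2 * q) ^ 2)))
  generalize Real.exp (-(Real.pi * (‖x - c‖ ^ 2 / r ^ 2))) = g2 at *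
  generalize Real.exp (-(Real.pi * (‖x' - c'‖ ^ 2 / q ^ 2))) = g3 at *
  generalize Real.exp (-(Real.pi * (‖x‖ ^ 2 / r ^ 2))) = k2 at *
  generalize Real.exp (-(Real.pi * (‖x'‖ ^ 2 / q ^ 2))) = k3 at *
  generalize Real.exp (-(Real.pi * (‖x‖ ^ 2 / (2 * r) ^ 2))) = G2 at *
  generalize Real.exp (-(Real.pi * (‖x'‖ ^ 2 / (2 * q) ^ 2))) = G3 at *
  have h3 : g3 ≤ (1 + C) * G3 := by
    have h4 := (abs_le.1 a2).2
    have h5 : C * η * G3 ≤ C * G3 := by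
      apply mul_le_mul_of_nonneg_right _ p6.le
      nlinarith
    linarith
  have e : g2 * g3 - k2 * k3 = (g2 - k2) * g3 + k2 * (g3 - k3) := by ring
  rw [e]
  refine (abs_add_le _ _).trans ?_
  rw [abs_mul, abs_mul, abs_of_pos p2, abs_of_pos p3]
  have t1 : |g2 - k2| * g3 ≤ C * η * G2 * ((1 + C) * G3) :=
    mul_le_mul a1 h3 p2.le (by positivity)
  have t2 : k2 * |g3 - k3| ≤ G2 * (C * η * G3) :=
    mul_le_mul b1 a2 (abs_nonneg _) p5.le
  calc _ ≤ C * η * G2 * ((1 + C) * G3) + G2 * (C * η * G3) := add_le_add t1 t2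
    _ = _ := by ring

/-- Two weighted sums with close weights. -/
private theorem StepQ_two {ι : Type} (pt : ι → E) (v : E → ENNReal) (hv : ∀ z, v z ≤ 1)
    (f g h : E → ℝ) (hg : ∀ z, 0 ≤ g z) (hh : ∀ z, 0 ≤ h z) (hfg : ∀ z, |f z - g z| ≤ h z) :
    SS pt (fun z => v z * ENNReal.ofReal (f z)) ≤
      SS pt (fun z => v z * ENNReal.ofReal (g z)) + SS pt (fun z => ENNReal.ofReal (h z)) := by
  rw [← SS_add]
  refine SS_mono pt fun i => ?_
  have h1 : f (pt i) ≤ g (pt i) + h (pt i) := by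
    have := (abs_le.1 (hfg (pt i))).2
    linarith
  calc v (pt i) * ENNReal.ofReal (f (pt i))
      ≤ v (pt i) * (ENNReal.ofReal (g (pt i)) + ENNReal.ofReal (h (pt i))) := by
        rw [← ENNReal.ofReal_add (hg _) (hh _)]
        exact mul_le_mul_right (ENNReal.ofReal_le_ofReal h1) _
    _ = v (pt i) * ENNReal.ofReal (g (pt i)) + v (pt i) * ENNReal.ofReal (h (pt i)) := mul_add _ _ _
    _ ≤ v (pt i) * ENNReal.ofReal (g (pt i)) + 1 * ENNReal.ofReal (h (pt i)) :=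
        add_le_add le_rfl (mul_le_mul_left (hv _) _)
    _ = _ := by rw [one_mul]

private theorem StepQ_toReal {a b : ENNReal} {e : ℝ} (he : 0 ≤ e) (hb : b ≠ ⊤)
    (h1 : a ≤ b + ENNReal.ofReal e) (h2 : b ≤ a + ENNReal.ofReal e) :
    a ≠ ⊤ ∧ |a.toReal - b.toReal| ≤ e := by
  have ha : a ≠ ⊤ := ne_top_of_le_ne_top (ENNReal.add_ne_top.2 ⟨hb, ENNReal.ofReal_ne_top⟩) h1
  refine ⟨ha, ?_⟩
  have k1 := ENNReal.toReal_mono (ENNReal.add_ne_top.2 ⟨hb, ENNReal.ofReal_ne_top⟩) h1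
  have k2 := ENNReal.toReal_mono (ENNReal.add_ne_top.2 ⟨ha, ENNReal.ofReal_ne_top⟩) h2
  rw [ENNReal.toReal_add hb ENNReal.ofReal_ne_top, ENNReal.toReal_ofReal he] at k1
  rw [ENNReal.toReal_add ha ENNReal.ofReal_ne_top, ENNReal.toReal_ofReal he] at k2
  rw [abs_le]
  constructor <;> linarith

theorem stepQ (S : Sys2) {N : ℕ} (hN : 1 ≤ N) : ∃ C : ℝ, 1 ≤ C ∧
    ∀ U : Set E, Inv S N U → ∀ (o : ℕ) (R Q η : ℝ), 0 < R → 0 < Q → 0 < η → η ≤ 1 →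
      (∀ x ∈ AD o, |(W S x.1 x.2).1| ≤ R ^ 2 * Q ^ 2) →
      (∀ x ∈ AD o, ∀ w ∈ cls x.1 x.2, ‖(off S.toSys 1 w).2.1‖ ≤ η * (R * ‖(W S x.1 x.2).2.1‖) ∧
        ‖(off S.toSys 1 w).2.2‖ ≤ η * (Q * ‖(W S x.1 x.2).2.2‖)) →
      |DD S N U R Q - ∑ x ∈ AD o, bn S x.1 x.2 *
        DD S N U (R * ‖(W S x.1 x.2).2.1‖) (Q * ‖(W S x.1 x.2).2.2‖)| ≤ C * η := by
  obtain ⟨C, hC, HC⟩ := StepQ_gauss
  obtain ⟨K, hK, HK⟩ := GB_X S hN
  refine ⟨17 * C * K, by nlinarith, ?_⟩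
  intro U hU o R Q η hR hQ hη hη1 hW hoff
  set X : ℝ := R ^ 2 * Q ^ 2 with hX
  have hX0 : 0 < X := by positivity
  have hr2 : ∀ x : ℕ × ℕ, 0 < R * ‖(W S x.1 x.2).2.1‖ := fun x => mul_pos hR (W2_pos S _ _)
  have hr3 : ∀ x : ℕ × ℕ, 0 < Q * ‖(W S x.1 x.2).2.2‖ := fun x => mul_pos hQ (W3_pos S _ _)
  have hrr : ∀ x : ℕ × ℕ, (R * ‖(W S x.1 x.2).2.1‖) ^ 2 * (Q * ‖(W S x.1 x.2).2.2‖) ^ 2 =
      X / |(W S x.1 x.2).1| := by
    intro x
    have h1 := W1_pos S x.1 x.2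
    have hp := W_prod S x.1 x.2
    rw [eq_div_iff h1.ne']
    calc _ = R ^ 2 * Q ^ 2 * (|(W S x.1 x.2).1| * ‖(W S x.1 x.2).2.1‖ ^ 2 *
          ‖(W S x.1 x.2).2.2‖ ^ 2) := by ring
      _ = _ := by rw [hp, mul_one]
  -- the sum of one word
  let A : List Bool → ENNReal := fun w =>
    SS (ptX S N) (fun y => vw U y * ENNReal.ofReal (gs R Q (gw S 1 w y)))
  let B : ℕ × ℕ → ENNReal := fun x =>
    SmX S N (R * ‖(W S x.1 x.2).2.1‖) (Q * ‖(W S x.1 x.2).2.2‖) (vw U)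
  let e : ℕ × ℕ → ℝ := fun x => 17 * C * K * η * (X / |(W S x.1 x.2).1|)
  have he0 : ∀ x, 0 ≤ e x := by
    intro x
    have h1 := W1_pos S x.1 x.2
    show 0 ≤ 17 * C * K * η * (X / |(W S x.1 x.2).1|)
    positivity
  have hBfin : ∀ x, B x ≠ ⊤ := fun x => SmX_fin S hN U (hr2 x) (hr3 x)
  have key : ∀ x ∈ AD o, ∀ w ∈ cls x.1 x.2, A w ≠ ⊤ ∧ |(A w).toReal - (B x).toReal| ≤ e x := by
    intro x hx w hw
    obtain ⟨o2, o3⟩ := hoff x hx w hw
    let h : E → ℝ := fun y => C * η * Real.exp (-(Real.pi * (‖y.2.1 - 0‖ ^ 2 /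
      (2 * (R * ‖(W S x.1 x.2).2.1‖)) ^ 2 + ‖y.2.2 - 0‖ ^ 2 /
      (2 * (Q * ‖(W S x.1 x.2).2.2‖)) ^ 2)))
    have hh0 : ∀ y, 0 ≤ h y := by
      intro y
      exact mul_nonneg (mul_nonneg (by linarith) hη.le) (Real.exp_pos _).le
    have hd : ∀ y : E, |gs R Q (gw S 1 w y) -
        gs (R * ‖(W S x.1 x.2).2.1‖) (Q * ‖(W S x.1 x.2).2.2‖) y| ≤ h y := by
      intro y
      rw [gs_gw S 1 R Q hw y]
      exact HC _ _ _ _ _ _ η (hr2 x) (hr3 x) hη.le hη1 o2 o3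
    have hS : SS (ptX S N) (fun y => ENNReal.ofReal (h y)) ≤ ENNReal.ofReal (e x) := by
      have e1 : (fun y : E => ENNReal.ofReal (h y)) = fun y => ENNReal.ofReal (C * η) *
          ENNReal.ofReal (Real.exp (-(Real.pi * (‖y.2.1 - 0‖ ^ 2 /
            (2 * (R * ‖(W S x.1 x.2).2.1‖)) ^ 2 + ‖y.2.2 - 0‖ ^ 2 /
            (2 * (Q * ‖(W S x.1 x.2).2.2‖)) ^ 2)))) := by
        funext y
        rw [← ENNReal.ofReal_mul (mul_nonneg (by linarith) hη.le)]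
      rw [e1, SS_const_mul]
      refine (mul_le_mul_right (HK (2 * (R * ‖(W S x.1 x.2).2.1‖))
        (2 * (Q * ‖(W S x.1 x.2).2.2‖)) 0 0 (by linarith [hr2 x]) (by linarith [hr3 x])) _).trans ?_
      rw [← ENNReal.ofReal_mul (mul_nonneg (by linarith) hη.le)]
      refine ENNReal.ofReal_le_ofReal ?_
      have h1 := W1_pos S x.1 x.2
      have h2 : (1 : ℝ) ≤ X / |(W S x.1 x.2).1| := by
        rw [le_div_iff₀ h1, one_mul]
        exact hW x hx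
      have e2 : (2 * (R * ‖(W S x.1 x.2).2.1‖)) ^ 2 * (2 * (Q * ‖(W S x.1 x.2).2.2‖)) ^ 2 =
          16 * (X / |(W S x.1 x.2).1|) := by
        rw [← hrr x]
        ring
      rw [e2]
      show C * η * (K * (1 + 16 * (X / |(W S x.1 x.2).1|))) ≤
        17 * C * K * η * (X / |(W S x.1 x.2).1|)
      have h3 : 0 ≤ C * η * K := by positivity
      calc C * η * (K * (1 + 16 * (X / |(W S x.1 x.2).1|)))
          = C * η * K * (1 + 16 * (X / |(W S x.1 x.2).1|)) := by ring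
        _ ≤ C * η * K * (17 * (X / |(W S x.1 x.2).1|)) :=
          mul_le_mul_of_nonneg_left (by linarith) h3
        _ = _ := by ring
    refine StepQ_toReal (he0 x) (hBfin x) ?_ ?_
    · refine (StepQ_two (ptX S N) (vw U) (vw_le U) (fun y => gs R Q (gw S 1 w y))
        (gs (R * ‖(W S x.1 x.2).2.1‖) (Q * ‖(W S x.1 x.2).2.2‖)) h
        (fun y => (gs_pos _ _ _).le) hh0 hd).trans ?_
      exact add_le_add le_rfl hS
    · refine (StepQ_two (ptX S N) (vw U) (vw_le U)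
        (gs (R * ‖(W S x.1 x.2).2.1‖) (Q * ‖(W S x.1 x.2).2.2‖))
        (fun y => gs R Q (gw S 1 w y)) h
        (fun y => (gs_pos _ _ _).le) hh0 (fun y => by rw [abs_sub_comm]; exact hd y)).trans ?_
      exact add_le_add le_rfl hS
  -- the whole sum
  have hsum : SmX S N R Q (vw U) = ∑ x ∈ AD o, ∑ w ∈ cls x.1 x.2, A w := by
    have h1 : SmX S N R Q (vw U) = SS (ptX S N) (fun y => vw U y *
        ∑ w ∈ words o, ENNReal.ofReal (gs R Q (gw S 1 w y))) := by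
      unfold SmX
      exact re_v S hN hU (fun z => ENNReal.ofReal (gs R Q z)) o
    rw [h1]
    have h2 : (fun y => vw U y * ∑ w ∈ words o, ENNReal.ofReal (gs R Q (gw S 1 w y))) =
        fun y => ∑ x ∈ AD o, ∑ w ∈ cls x.1 x.2,
          vw U y * ENNReal.ofReal (gs R Q (gw S 1 w y)) := by
      funext y
      rw [sum_words_eq, Finset.mul_sum]
      refine Finset.sum_congr rfl fun x _ => ?_
      rw [Finset.mul_sum]
    rw [h2, SS_sum]
    refine Finset.sum_congr rfl fun x _ => ?_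
    rw [SS_sum]
  have hreal : (SmX S N R Q (vw U)).toReal = ∑ x ∈ AD o, ∑ w ∈ cls x.1 x.2, (A w).toReal := by
    rw [hsum, ENNReal.toReal_sum]
    · refine Finset.sum_congr rfl fun x hx => ?_
      rw [ENNReal.toReal_sum]
      exact fun w hw => (key x hx w hw).1
    · intro x hx
      exact ENNReal.sum_ne_top.2 fun w hw => (key x hx w hw).1
  have hDB : ∀ x : ℕ × ℕ, bn S x.1 x.2 *
      DD S N U (R * ‖(W S x.1 x.2).2.1‖) (Q * ‖(W S x.1 x.2).2.2‖) =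
      ((cls x.1 x.2).card * (B x).toReal) / X := by
    intro x
    have h1 := (W1_pos S x.1 x.2).ne'
    unfold DD bn
    rw [hrr x, ← step_card_div S x.1 x.2]
    show ((cls x.1 x.2).card : ℝ) / |(W S x.1 x.2).1| *
      ((B x).toReal / (X / |(W S x.1 x.2).1|)) = _
    have h2 := hX0.ne'
    field_simp
  have hfin : |∑ x ∈ AD o, ∑ w ∈ cls x.1 x.2, (A w).toReal -
      ∑ x ∈ AD o, (cls x.1 x.2).card * (B x).toReal| ≤ ∑ x ∈ AD o, (cls x.1 x.2).card * e x := by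
    rw [← Finset.sum_sub_distrib]
    refine (Finset.abs_sum_le_sum_abs _ _).trans (Finset.sum_le_sum fun x hx => ?_)
    have h1 : ∑ w ∈ cls x.1 x.2, (A w).toReal - (cls x.1 x.2).card * (B x).toReal =
        ∑ w ∈ cls x.1 x.2, ((A w).toReal - (B x).toReal) := by
      rw [Finset.sum_sub_distrib, Finset.sum_const, nsmul_eq_mul]
    rw [h1]
    refine (Finset.abs_sum_le_sum_abs _ _).trans ?_
    refine (Finset.sum_le_sum fun w hw => (key x hx w hw).2).trans ?_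
    rw [Finset.sum_const, nsmul_eq_mul]
  have herr : ∑ x ∈ AD o, (cls x.1 x.2).card * e x = 17 * C * K * η * X := by
    have h1 : ∀ x ∈ AD o, ((cls x.1 x.2).card : ℝ) * e x =
        17 * C * K * η * X * bin (S.a.1)⁻¹ (S.b.1)⁻¹ x.1 x.2 := by
      intro x _
      rw [← step_card_div S x.1 x.2]
      show ((cls x.1 x.2).card : ℝ) * (17 * C * K * η * (X / |(W S x.1 x.2).1|)) = _
      ring
    rw [Finset.sum_congr rfl h1, ← Finset.mul_sum, step_sum_bin, mul_one]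
  rw [herr, ← hreal] at hfin
  rw [Finset.sum_congr rfl fun x (_ : x ∈ AD o) => hDB x, ← Finset.sum_div]
  have hD : DD S N U R Q = (SmX S N R Q (vw U)).toReal / X := rfl
  rw [hD, ← sub_div, abs_div, abs_of_pos hX0, div_le_iff₀ hX0]
  refine hfin.trans (le_of_eq ?_)
  ring

end Pool.Agent.H5.TD
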