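import Pool.Agent.H5.TD.Defs
import Pool.Agent.H49.PP.StepL

/-!
# JOB TD-13. The upper step for a family of points (reverse inequality of `PP/StepL.lean`)

Model: `stepL` and `pair_trivBX` in `PP/StepL.lean` (copy them and exchange the roles of `AA` and `BB`).

`pair_trivAX`: `AA S 1 a b a' b' R Q y = ∑ w ∈ cls a b, ∑ v ∈ cls a' b', gs R Q (gw S 1 (v ++ w) y)` (see `AB/CmpDefs.lean`, `stepL_expandA`), `v ++ w ∈ cls (a'+a) (b'+b)`.
`word_sumX` for each word `v ++ w` gives `≤ K (1 + R² Q²/|W_{a'+a,b'+b}|_1) ≤ 2 K R² Q²/|W_{a'+a,b'+b}|_1`, because `|W|_1 ≤ exp(2 · 17 o)` (`W1_le` in `AB/CmpShift.lean`, namespace `CmpShiftAux`)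
`≤ R² ≤ R² Q²`. `|W_{a'+a,b'+b}|_1 = |W_{a',b'}|_1 |W_{a,b}|_1` (`W_add`/`W1`). So the sum is `≤ card (cls a b) card (cls a' b') 2 K R² Q²/(|W_{ab}|_1 |W_{a'b'}|_1) = 2 K bn(a,b) bn(a',b') R² Q²`
(`step_card_div`). See also `pair_triv` in `AB/Step.lean`.

`stepU`: as `stepL`: for `x` with `exp(6.24 o) ≤ |W_x|_1`: `u AA ≤ u BB + |AA - BB|` and `cmp_latX` with exponent `A + 2`; for the other `x`: `SS (u AA) ≤ SS AA ≤ 2 K bn(x) bn(x') R² Q²`
(`pair_trivAX`), and `atyp1`, `step_decay`, `step_sum_bin`.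
-/

set_option autoImplicit false

namespace Pool.Agent.H5.TD

open Pool.Agent.H67.Tent Pool.Agent.H49.AB Pool.Agent.H49.PP Finset MeasureTheory

theorem pair_trivAX (S : Sys2) {ι : Type} (pt : ι → E) (K : ℝ) (hK : 1 ≤ K) (hG : GB pt K)
    (a b a' b' o : ℕ) (R Q : ℝ) (h : a + b = 16 * o) (h' : a' + b' = o)
    (hR : Real.exp (40 * o) ≤ R) (hQ : 1 ≤ Q) :
    SS pt (fun y => ENNReal.ofReal (AA S 1 a b a' b' R Q y)) ≤
      ENNReal.ofReal (2 * K * (bn S a b * bn S a' b' * (R ^ 2 * Q ^ 2))) := by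
  have hRpos : 0 < R := lt_of_lt_of_le (Real.exp_pos _) hR
  have hQpos : 0 < Q := lt_of_lt_of_le one_pos hQ
  have hw : ∀ w ∈ cls a b, ∀ v ∈ cls a' b', v ++ w ∈ cls (a' + a) (b' + b) := by
    intro w hw v hv
    rw [mem_cls] at hw hv ⊢
    rw [List.count_append, List.count_append, hw.1, hw.2, hv.1, hv.2]
    exact ⟨rfl, rfl⟩
  have e1 : SS pt (fun y => ENNReal.ofReal (AA S 1 a b a' b' R Q y)) =
      ∑ w ∈ cls a b, ∑ v ∈ cls a' b',
        SS pt (fun y => ENNReal.ofReal (gs R Q (gw S 1 (v ++ w) y))) := by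
    unfold AA
    rw [SS_ofReal_sum pt (cls a b) (fun w y => ∑ v ∈ cls a' b', gs R Q (gw S 1 (v ++ w) y))
      (fun w _ y => Finset.sum_nonneg fun v _ => (gs_pos R Q _).le)]
    refine Finset.sum_congr rfl fun w _ => ?_
    exact SS_ofReal_sum pt (cls a' b') (fun v y => gs R Q (gw S 1 (v ++ w) y))
      (fun v _ y => (gs_pos R Q _).le)
  rw [e1]
  have hWm : W S (a' + a) (b' + b) = W S a' b' * W S a b := W_add S a' b' a b
  have hW1 : |(W S (a' + a) (b' + b)).1| = |(W S a' b').1| * |(W S a b).1| := by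
    rw [hWm, Prod.fst_mul, abs_mul]
  have hX : |(W S (a' + a) (b' + b)).1| ≤ R ^ 2 * Q ^ 2 := by
    have h1 := CmpShiftAux.W1_le S (a' + a) (b' + b)
    have h2 : Real.exp (2 * ((a' + a + (b' + b) : ℕ) : ℝ)) ≤ Real.exp (40 * o) := by
      rw [Real.exp_le_exp]
      have : a' + a + (b' + b) = 17 * o := by omega
      rw [this]
      push_cast
      have : (0 : ℝ) ≤ o := Nat.cast_nonneg o
      linarith
    have h3 : (1 : ℝ) ≤ R := by
      refine le_trans ?_ hR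
      rw [Real.one_le_exp_iff]
      positivity
    have h4 : R ≤ R ^ 2 * Q ^ 2 := by
      have : R * 1 ≤ R * (R * Q ^ 2) := by
        apply mul_le_mul_of_nonneg_left _ hRpos.le
        nlinarith
      nlinarith
    exact h1.trans (h2.trans (hR.trans h4))
  have hWpos := W1_pos S (a' + a) (b' + b)
  have hb : ∀ w ∈ cls a b, ∀ v ∈ cls a' b',
      SS pt (fun y => ENNReal.ofReal (gs R Q (gw S 1 (v ++ w) y))) ≤
      ENNReal.ofReal (2 * K * (R ^ 2 * Q ^ 2 / |(W S (a' + a) (b' + b)).1|)) := by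
    intro w hw' v hv'
    refine (word_sumX pt S hK hG (a' + a) (b' + b) R Q hRpos hQpos _ (hw w hw' v hv')).trans
      (ENNReal.ofReal_le_ofReal ?_)
    have : (1 : ℝ) ≤ R ^ 2 * Q ^ 2 / |(W S (a' + a) (b' + b)).1| := by
      rw [le_div_iff₀ hWpos, one_mul]
      exact hX
    nlinarith
  refine (Finset.sum_le_sum fun w hw' => Finset.sum_le_sum fun v hv' => hb w hw' v hv').trans ?_
  rw [Finset.sum_const, Finset.sum_const, smul_smul, nsmul_eq_mul, ← ENNReal.ofReal_natCast,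
    ← ENNReal.ofReal_mul (Nat.cast_nonneg _)]
  refine ENNReal.ofReal_le_ofReal (le_of_eq ?_)
  unfold bn
  rw [← step_card_div S a b, ← step_card_div S a' b', hW1]
  have h1 := (W1_pos S a b).ne'
  have h2 := (W1_pos S a' b').ne'
  push_cast
  field_simp

theorem stepU (S : Sys2) (A : ℕ) : ∃ (C : ℝ) (o0 : ℕ), 1 ≤ C ∧ 1 ≤ o0 ∧
    ∀ {ι : Type} [Countable ι] (pt : ι → E) (K : ℝ), 1 ≤ K → GB pt K →
    ∀ (o : ℕ) (R Q : ℝ) (u : E → ENNReal), o0 ≤ o → Real.exp (40 * o) ≤ R → 1 ≤ Q →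
      Q ≤ (7 / 6) ^ o → (∀ y, u y ≤ 1) →
      SS pt (fun y => u y * ∑ w ∈ words (17 * o), ENNReal.ofReal (gs R Q (gw S 1 w y))) ≤
        ∑ x ∈ AD o, ENNReal.ofReal ((cls x.1 x.2).card * (Q * ‖(W S x.1 x.2).2.2‖) ^ 2) *
          SS pt (fun y => u y * ∑ w ∈ words (16 * o),
            ENNReal.ofReal (gs (R * ‖(W S x.1 x.2).2.1‖) 1 (gw S 1 w y))) +
        ENNReal.ofReal (K * C / (o : ℝ) ^ A * (R ^ 2 * Q ^ 2)) := by
  classical
  obtain ⟨C2, o2, hC2, H2⟩ := cmp_latX S (A + 2)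
  obtain ⟨C3, hC3, H3⟩ := step_decay A
  refine ⟨34 * C2 + 2 * C3, max 1 o2, by linarith, le_max_left _ _,
    fun {ι} _ pt K hK hG o R Q u ho hR hQ hQ' hu => ?_⟩
  have ho1 : 1 ≤ o := le_trans (le_max_left _ _) ho
  have ho2 : o2 ≤ o := le_trans (le_max_right _ _) ho
  have hRpos : 0 < R := lt_of_lt_of_le (Real.exp_pos _) hR
  have hQpos : 0 < Q := lt_of_lt_of_le one_pos hQ
  have hKpos : 0 < K := lt_of_lt_of_le one_pos hK
  set X : ℝ := R ^ 2 * Q ^ 2 with hX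
  have hX0 : 0 ≤ X := by positivity
  rw [stepL_expandB S pt R Q u o, stepL_expandA S pt R Q u o]
  let nw : ℕ × ℕ → ℝ := fun x =>
    if Real.exp (6.24 * o) ≤ |(W S x.1 x.2).1| then 0 else bn S x.1 x.2
  have hbn : ∀ x : ℕ × ℕ, 0 ≤ bn S x.1 x.2 := fun x => bn_nonneg S _ _
  have hnw : ∀ x, 0 ≤ nw x := by
    intro x
    simp only [nw]
    split_ifs
    · exact le_rfl
    · exact hbn x
  have key : ∀ x' ∈ AD o, ∀ x ∈ AD (16 * o),
      SS pt (fun y => u y * ENNReal.ofReal (AA S 1 x.1 x.2 x'.1 x'.2 R Q y)) ≤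
      SS pt (fun y => u y * ENNReal.ofReal (BB S 1 x.1 x.2 x'.1 x'.2 R Q y)) +
        ENNReal.ofReal (K * C2 / (o : ℝ) ^ (A + 2) * X) +
        ENNReal.ofReal (2 * K * (nw x * bn S x'.1 x'.2 * X)) := by
    intro x' hx' x hx
    rw [mem_AD] at hx hx'
    by_cases hw : Real.exp (6.24 * o) ≤ |(W S x.1 x.2).1|
    · refine le_trans ?_ le_self_add
      refine le_trans ?_ (add_le_add le_rfl
        (H2 pt K hK hG x.1 x.2 x'.1 x'.2 o R Q hx hx' ho2 hw hR hQ hQ'))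
      rw [← SS_add]
      refine SS_mono pt fun i => ?_
      set y := pt i
      have e2 : ENNReal.ofReal (AA S 1 x.1 x.2 x'.1 x'.2 R Q y) ≤
          ENNReal.ofReal (BB S 1 x.1 x.2 x'.1 x'.2 R Q y) +
          ENNReal.ofReal |AA S 1 x.1 x.2 x'.1 x'.2 R Q y - BB S 1 x.1 x.2 x'.1 x'.2 R Q y| := by
        refine le_trans (ENNReal.ofReal_le_ofReal ?_) ENNReal.ofReal_add_le
        have := le_abs_self (AA S 1 x.1 x.2 x'.1 x'.2 R Q y - BB S 1 x.1 x.2 x'.1 x'.2 R Q y)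
        linarith
      calc u y * ENNReal.ofReal (AA S 1 x.1 x.2 x'.1 x'.2 R Q y)
          ≤ u y * (ENNReal.ofReal (BB S 1 x.1 x.2 x'.1 x'.2 R Q y) +
          ENNReal.ofReal |AA S 1 x.1 x.2 x'.1 x'.2 R Q y - BB S 1 x.1 x.2 x'.1 x'.2 R Q y|) :=
            mul_le_mul_right e2 _
        _ = u y * ENNReal.ofReal (BB S 1 x.1 x.2 x'.1 x'.2 R Q y) + u y *
          ENNReal.ofReal |AA S 1 x.1 x.2 x'.1 x'.2 R Q y - BB S 1 x.1 x.2 x'.1 x'.2 R Q y| :=
            mul_add _ _ _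
        _ ≤ u y * ENNReal.ofReal (BB S 1 x.1 x.2 x'.1 x'.2 R Q y) + 1 *
          ENNReal.ofReal |AA S 1 x.1 x.2 x'.1 x'.2 R Q y - BB S 1 x.1 x.2 x'.1 x'.2 R Q y| :=
            add_le_add le_rfl (mul_le_mul_left (hu y) _)
        _ = _ := by rw [one_mul]
    · refine le_trans ?_ le_add_self
      refine le_trans (SS_mono pt (g := fun y =>
        ENNReal.ofReal (AA S 1 x.1 x.2 x'.1 x'.2 R Q y)) fun i => ?_) ?_
      · calc _ ≤ 1 * ENNReal.ofReal (AA S 1 x.1 x.2 x'.1 x'.2 R Q (pt i)) :=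
              mul_le_mul_left (hu (pt i)) _
          _ = _ := one_mul _
      refine (pair_trivAX S pt K hK hG x.1 x.2 x'.1 x'.2 o R Q hx hx' hR hQ).trans
        (ENNReal.ofReal_le_ofReal (le_of_eq ?_))
      have e3 : nw x = bn S x.1 x.2 := if_neg hw
      rw [e3]
  have s2 : ∑ x' ∈ AD o, ∑ x ∈ AD (16 * o), ENNReal.ofReal (K * C2 / (o : ℝ) ^ (A + 2) * X) ≤
      ENNReal.ofReal (K * (34 * C2) / (o : ℝ) ^ A * X) := by
    rw [Finset.sum_const, Finset.sum_const, step_card_AD, step_card_AD, smul_smul, nsmul_eq_mul,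
      ← ENNReal.ofReal_natCast, ← ENNReal.ofReal_mul (Nat.cast_nonneg _)]
    refine ENNReal.ofReal_le_ofReal ?_
    have ho' : (1 : ℝ) ≤ o := by exact_mod_cast ho1
    have t1 : (((o + 1) * (16 * o + 1) : ℕ) : ℝ) ≤ 34 * (o : ℝ) ^ 2 := by
      push_cast
      nlinarith
    have t2 : 0 ≤ K * C2 / (o : ℝ) ^ (A + 2) * X := by positivity
    refine (mul_le_mul_of_nonneg_right t1 t2).trans (le_of_eq ?_)
    rw [pow_add]
    field_simp
  have s3 : ∑ x' ∈ AD o, ∑ x ∈ AD (16 * o),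
      ENNReal.ofReal (2 * K * (nw x * bn S x'.1 x'.2 * X)) ≤
      ENNReal.ofReal (K * (2 * C3) / (o : ℝ) ^ A * X) := by
    have t0 : ∀ x' x : ℕ × ℕ, 0 ≤ 2 * K * (nw x * bn S x'.1 x'.2 * X) := by
      intro x' x
      have := hnw x
      have := hbn x'
      positivity
    rw [Finset.sum_congr rfl (fun x' (_ : x' ∈ AD o) =>
      (ENNReal.ofReal_sum_of_nonneg (fun x (_ : x ∈ AD (16 * o)) => t0 x' x)).symm),
      ← ENNReal.ofReal_sum_of_nonneg (fun x' _ => Finset.sum_nonneg fun x _ => t0 x' x)]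
    refine ENNReal.ofReal_le_ofReal ?_
    have t1 : ∑ x' ∈ AD o, ∑ x ∈ AD (16 * o), 2 * K * (nw x * bn S x'.1 x'.2 * X) =
        2 * K * (((∑ x ∈ AD (16 * o), nw x) * (∑ x' ∈ AD o, bn S x'.1 x'.2)) * X) := by
      rw [Finset.sum_mul_sum, Finset.sum_comm, Finset.sum_mul, Finset.mul_sum]
      refine Finset.sum_congr rfl fun x _ => ?_
      rw [Finset.sum_mul, Finset.mul_sum]
    have t5 : ∑ x' ∈ AD o, bn S x'.1 x'.2 = 1 := step_sum_bin S o
    rw [t1, t5, mul_one]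
    have t2 : ∑ x ∈ AD (16 * o), nw x ≤ Real.exp (-(o : ℝ) / 5) := by
      refine le_trans (le_of_eq ?_) (atyp1 S o)
      refine Finset.sum_congr rfl fun x _ => ?_
      simp only [nw, bn]
    have t4 := H3 o ho1
    have t6 : (0 : ℝ) ≤ 0.984 ^ o := by positivity
    calc _ ≤ 2 * K * (C3 / (o : ℝ) ^ A * X) := by
          refine mul_le_mul_of_nonneg_left ?_ (by linarith)
          refine mul_le_mul_of_nonneg_right ?_ hX0
          linarith
      _ = _ := by ring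
  refine (Finset.sum_le_sum fun x' hx' => Finset.sum_le_sum fun x hx => key x' hx' x hx).trans ?_
  simp only [Finset.sum_add_distrib]
  rw [add_assoc]
  refine add_le_add le_rfl ((add_le_add s2 s3).trans ?_)
  have ho' : (0 : ℝ) < o := by exact_mod_cast ho1
  rw [← ENNReal.ofReal_add (by positivity) (by positivity)]
  refine ENNReal.ofReal_le_ofReal (le_of_eq ?_)
  ring

end Pool.Agent.H5.TD
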