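import Pool.Agent.H5.TD.Defs

/-!
# JOB TD-26. Countable additivity is a formal consequence of the uniform convergence (pure)

`dens_sum`: only `s = 0`, `t = 1` are needed. Let `X_H = {x | x ∈ Icc 0 1 ∧ HeightLE α N H x}`, `P V H = ncard {x ∈ X_H, x ∈ V}/ncard X_H`, `|P V H - d V| ≤ ε` for all invariant `V`, all `H ≥ H0(ε)`.
Finite additivity: for disjoint invariant `V, V'`, `P (V ∪ V') H = P V H + P V' H`, so `|d (V ∪ V') - d V - d V'| ≤ 3 ε` for all `ε`. So `d (⋃ i ∈ F, U i) = ∑ i ∈ F, d (U i)` for finite `F` (`d ∅ = 0`).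
`HasSum`: given `ε`, let `H = H0(ε)`: `X_H` is finite, so the set `F0` of the `i` such that `U i` meets `X_H` is finite (pairwise disjoint sets; each point of `X_H` lies in at most one `U i`). For a finite `F ⊇ F0`:
`X_H ∩ ⋃ i, U i = X_H ∩ ⋃ i ∈ F, U i`, so `|d (⋃ i, U i) - ∑ i ∈ F, d (U i)| ≤ 2 ε` (unions of invariant sets are invariant).
-/

set_option autoImplicit false

namespace Pool.Agent.H5.TD

open Pool.Agent.H67.Tent Pool.Agent.H49.AB Pool.Agent.H49.PP Finset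
open Pool.Agent.Results.MP_df7698_an.AlmostAllBounded

theorem dens_sum (α : ℝ) (N : ℕ) (d : Set ℝ → ℝ)
    (h : ∀ ε : ℝ, 0 < ε → ∃ H0 : ℝ, ∀ H : ℝ, H0 ≤ H →
      {x : ℝ | x ∈ Set.Icc (0 : ℝ) 1 ∧ HeightLE α N H x}.Finite ∧
      0 < {x : ℝ | x ∈ Set.Icc (0 : ℝ) 1 ∧ HeightLE α N H x}.ncard ∧
      ∀ U : Set ℝ, (∀ x ∈ Set.Icc (0 : ℝ) 1, (tent α x ∈ U ↔ x ∈ U)) →
        ∀ s t : ℝ, 0 ≤ s → s ≤ t → t ≤ 1 →
        |(({x : ℝ | x ∈ Set.Icc (0 : ℝ) 1 ∧ HeightLE α N H x ∧ x ∈ U ∧ s ≤ x ∧ x ≤ t}).ncard : ℝ) /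
          ({x : ℝ | x ∈ Set.Icc (0 : ℝ) 1 ∧ HeightLE α N H x}.ncard : ℝ) - (t - s) * d U| ≤ ε)
    (ι : Type) (U : ι → Set ℝ)
    (hU : ∀ i, ∀ x ∈ Set.Icc (0 : ℝ) 1, (tent α x ∈ U i ↔ x ∈ U i))
    (hd : ∀ i j, i ≠ j → Disjoint (U i) (U j)) :
    HasSum (fun i => d (U i)) (d (⋃ i, U i)) := by
  classical
  set X : ℝ → Set ℝ := fun H => {x : ℝ | x ∈ Set.Icc (0 : ℝ) 1 ∧ HeightLE α N H x} with hX
  set P : Set ℝ → ℝ → ℝ := fun V H => ((X H ∩ V).ncard : ℝ) / ((X H).ncard : ℝ) with hP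
  have key : ∀ ε : ℝ, 0 < ε → ∃ H : ℝ, (X H).Finite ∧ 0 < (X H).ncard ∧ ∀ V : Set ℝ,
      (∀ x ∈ Set.Icc (0 : ℝ) 1, (tent α x ∈ V ↔ x ∈ V)) → |P V H - d V| ≤ ε := by
    intro ε hε
    obtain ⟨H0, hH0⟩ := h ε hε
    obtain ⟨h1, h2, h3⟩ := hH0 H0 le_rfl
    refine ⟨H0, h1, h2, fun V hV => ?_⟩
    have h4 := h3 V hV 0 1 le_rfl zero_le_one le_rfl
    have e : {x : ℝ | x ∈ Set.Icc (0 : ℝ) 1 ∧ HeightLE α N H0 x ∧ x ∈ V ∧ 0 ≤ x ∧ x ≤ 1} =
        X H0 ∩ V := by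
      ext x
      simp only [hX, Set.mem_setOf_eq, Set.mem_inter_iff, Set.mem_Icc]
      tauto
    rw [e, sub_zero, one_mul] at h4
    exact h4
  have addP : ∀ (H : ℝ), (X H).Finite → ∀ F : Finset ι,
      (X H ∩ ⋃ i ∈ F, U i).ncard = ∑ i ∈ F, (X H ∩ U i).ncard := by
    intro H hf F
    induction F using Finset.induction_on with
    | empty => simp
    | insert a F ha ih =>
      rw [Finset.sum_insert ha, ← ih, Finset.set_biUnion_insert, Set.inter_union_distrib_left,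
        Set.ncard_union_eq _ (hf.inter_of_left _) (hf.inter_of_left _)]
      refine Disjoint.mono Set.inter_subset_right Set.inter_subset_right ?_
      rw [Set.disjoint_iUnion₂_right]
      intro i hi
      exact hd a i (fun h => ha (h ▸ hi))
  have invU : ∀ F : Finset ι, ∀ x ∈ Set.Icc (0:ℝ) 1,
      (tent α x ∈ (⋃ i ∈ F, U i) ↔ x ∈ ⋃ i ∈ F, U i) := by
    intro F x hx
    simp only [Set.mem_iUnion]
    constructor
    · rintro ⟨i, hi, h⟩
      exact ⟨i, hi, (hU i x hx).1 h⟩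
    · rintro ⟨i, hi, h⟩
      exact ⟨i, hi, (hU i x hx).2 h⟩
  have invA : ∀ x ∈ Set.Icc (0:ℝ) 1, (tent α x ∈ (⋃ i, U i) ↔ x ∈ ⋃ i, U i) := by
    intro x hx
    simp only [Set.mem_iUnion]
    constructor
    · rintro ⟨i, h⟩
      exact ⟨i, (hU i x hx).1 h⟩
    · rintro ⟨i, h⟩
      exact ⟨i, (hU i x hx).2 h⟩
  have addd : ∀ F : Finset ι, d (⋃ i ∈ F, U i) = ∑ i ∈ F, d (U i) := by
    intro F
    have hle : ∀ ε : ℝ, 0 < ε → |d (⋃ i ∈ F, U i) - ∑ i ∈ F, d (U i)| ≤ 0 + ε := by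
      intro ε hε
      have hc : (0 : ℝ) < (F.card : ℝ) + 1 := by positivity
      obtain ⟨H, hf, hp, hk⟩ := key (ε / ((F.card : ℝ) + 1)) (by positivity)
      have e1 : P (⋃ i ∈ F, U i) H = ∑ i ∈ F, P (U i) H := by
        simp only [hP]
        rw [addP H hf F, Nat.cast_sum, Finset.sum_div]
      have e2 := hk _ (invU F)
      have e3 : |∑ i ∈ F, P (U i) H - ∑ i ∈ F, d (U i)| ≤
          F.card * (ε / ((F.card : ℝ) + 1)) := by
        rw [← Finset.sum_sub_distrib]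
        refine (Finset.abs_sum_le_sum_abs _ _).trans ?_
        refine (Finset.sum_le_sum fun i _ => hk (U i) (hU i)).trans ?_
        simp
      have e4 : (F.card : ℝ) * (ε / ((F.card : ℝ) + 1)) + ε / ((F.card : ℝ) + 1) = ε := by
        field_simp
      rw [e1] at e2
      rw [abs_le] at e2 e3 ⊢
      constructor <;> linarith [e2.1, e2.2, e3.1, e3.2]
    have h0 := le_of_forall_pos_le_add hle
    have h1 := abs_nonneg (d (⋃ i ∈ F, U i) - ∑ i ∈ F, d (U i))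
    have h2 : |d (⋃ i ∈ F, U i) - ∑ i ∈ F, d (U i)| = 0 := le_antisymm h0 h1
    exact sub_eq_zero.1 (abs_eq_zero.1 h2)
  unfold HasSum
  rw [SummationFilter.unconditional_filter, Metric.tendsto_atTop]
  intro ε hε
  obtain ⟨H, hf, hp, hk⟩ := key (ε / 3) (by positivity)
  have hfin : {i : ι | (X H ∩ U i).Nonempty}.Finite := by
    have e : {i : ι | (X H ∩ U i).Nonempty} ⊆ ⋃ x ∈ X H, {i : ι | x ∈ U i} := by
      rintro i ⟨x, hx1, hx2⟩
      simp only [Set.mem_iUnion]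
      exact ⟨x, hx1, hx2⟩
    refine Set.Finite.subset (Set.Finite.biUnion hf fun x _ => Set.Subsingleton.finite ?_) e
    intro i hi j hj
    by_contra hij
    exact Set.disjoint_left.1 (hd i j hij) hi hj
  refine ⟨hfin.toFinset, fun F hF => ?_⟩
  have hXU : X H ∩ ⋃ i, U i = X H ∩ ⋃ i ∈ F, U i := by
    ext x
    simp only [Set.mem_inter_iff, Set.mem_iUnion]
    constructor
    · rintro ⟨hx, i, hi⟩
      refine ⟨hx, i, hF ?_, hi⟩
      rw [Set.Finite.mem_toFinset]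
      exact ⟨x, hx, hi⟩
    · rintro ⟨hx, i, _, hi⟩
      exact ⟨hx, i, hi⟩
  have e1 := hk _ invA
  have e2 := hk _ (invU F)
  have e3 : P (⋃ i, U i) H = P (⋃ i ∈ F, U i) H := by
    simp only [hP]
    rw [hXU]
  rw [addd F] at e2
  rw [e3] at e1
  rw [Real.dist_eq]
  rw [abs_le] at e1 e2
  rw [abs_lt]
  constructor <;> linarith [e1.1, e1.2, e2.1, e2.2]

end Pool.Agent.H5.TD
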